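import Pool.Agent.Lib.H54F.Sem

/-! # A1: code and weight of a key -/

namespace Pool.Agent.Lib.H54F

private lemma A1_tab0 : ∀ c : Fin 64, tab56 T0 c.val =
    (c.val % 4 + 3 * (c.val / 4 % 4)) + 128 * ((c.val % 4 + c.val / 4 % 4 + c.val / 16 % 4) *
      (1 + 64 ^ 6) + c.val % 4 * 64 ^ 3 + c.val / 4 % 4 * 64 ^ 4 + c.val / 16 % 4 * 64 ^ 5) := by
  decide +kernel

private lemma A1_tab1 : ∀ c : Fin 64, tab56 T1 c.val =
    (9 * (c.val % 4) + 27 * (c.val / 4 % 4)) + 128 * ((c.val % 4 + c.val / 4 % 4 +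
      c.val / 16 % 4) * (64 + 64 ^ 6) + c.val % 4 * 64 ^ 3 + c.val / 4 % 4 * 64 ^ 4 +
      c.val / 16 % 4 * 64 ^ 5) := by
  decide +kernel

private lemma A1_tab2 : ∀ c : Fin 64, tab56 T2 c.val =
    128 * ((c.val % 4 + c.val / 4 % 4 +
      c.val / 16 % 4) * (64 ^ 2 + 64 ^ 6) + c.val % 4 * 64 ^ 3 + c.val / 4 % 4 * 64 ^ 4 +
      c.val / 16 % 4 * 64 ^ 5) := by
  decide +kernel

lemma A1_posE (k : ℕ) : posE (expo k) = ex k (0, 0) + 3 * ex k (0, 1) + 9 * ex k (1, 0) +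
    27 * ex k (1, 1) := by
  have h : ∀ v, expo k v = ex k v := fun v => rfl
  simp only [posE, Fintype.sum_prod_type, Fin.sum_univ_three, h, up]
  simp
  ring

lemma A1_wtE (k : ℕ) : wtE (expo k) =
    (ex k (0, 0) + ex k (0, 1) + ex k (0, 2)) * (1 + 64 ^ 6) +
    (ex k (1, 0) + ex k (1, 1) + ex k (1, 2)) * (64 + 64 ^ 6) +
    (ex k (2, 0) + ex k (2, 1) + ex k (2, 2)) * (64 ^ 2 + 64 ^ 6) +
    (ex k (0, 0) + ex k (1, 0) + ex k (2, 0)) * 64 ^ 3 +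
    (ex k (0, 1) + ex k (1, 1) + ex k (2, 1)) * 64 ^ 4 +
    (ex k (0, 2) + ex k (1, 2) + ex k (2, 2)) * 64 ^ 5 := by
  have h : ∀ v, expo k v = ex k v := fun v => rfl
  simp only [wtE, Fintype.sum_prod_type, Fin.sum_univ_three, h, we]
  simp
  ring

private lemma A1_ex (k : ℕ) : ex k (0, 0) = k % 4 ∧ ex k (0, 1) = k / 4 % 4 ∧
    ex k (0, 2) = k / 16 % 4 ∧ ex k (1, 0) = k / 64 % 4 ∧ ex k (1, 1) = k / 256 % 4 ∧
    ex k (1, 2) = k / 1024 % 4 ∧ ex k (2, 0) = k / 4096 % 4 ∧ ex k (2, 1) = k / 16384 % 4 ∧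
    ex k (2, 2) = k / 65536 % 4 := by
  refine ⟨?_, ?_, ?_, ?_, ?_, ?_, ?_, ?_, ?_⟩ <;> simp [ex]

/-- Proof. With `c0 = k % 64`, `c1 = k / 64 % 64`, `c2 = k / 4096 % 64` the entries of the packed
tables are `tab56 T0 c = (c % 4 + 3 * (c / 4 % 4)) + 128 * (...)` for all `c < 64` (`decide`, three
times), where the weight part is `(a + b + d) * (64^i + 64^6) + a * 64^3 + b * 64^4 + d * 64^5` for
the base 4 digits `a, b, d` of `c` (row `i`). The base 4 digits of `k` are the digits of `c0, c1,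
c2`: `ex k (i, j)` is digit `j` of `c_i`. Expand the sums over `V` (`Fin.sum_univ_three`,
`Fintype.sum_prod_type`) and use `omega`; the code part is at most `120 < 128`. -/
theorem cw_spec (k : ℕ) : cw k % 128 = posE (expo k) ∧ cw k / 128 = wtE (expo k) := by
  have d0 : k % 64 % 4 = k % 4 := by omega
  have d1 : k % 64 / 4 % 4 = k / 4 % 4 := by omega
  have d2 : k % 64 / 16 % 4 = k / 16 % 4 := by omega
  have d3 : k / 64 % 64 % 4 = k / 64 % 4 := by omega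
  have d4 : k / 64 % 64 / 4 % 4 = k / 256 % 4 := by omega
  have d5 : k / 64 % 64 / 16 % 4 = k / 1024 % 4 := by omega
  have d6 : k / 4096 % 64 % 4 = k / 4096 % 4 := by omega
  have d7 : k / 4096 % 64 / 4 % 4 = k / 16384 % 4 := by omega
  have d8 : k / 4096 % 64 / 16 % 4 = k / 65536 % 4 := by omega
  have h0 := A1_tab0 ⟨k % 64, Nat.mod_lt _ (by norm_num)⟩
  have h1 := A1_tab1 ⟨k / 64 % 64, Nat.mod_lt _ (by norm_num)⟩
  have h2 := A1_tab2 ⟨k / 4096 % 64, Nat.mod_lt _ (by norm_num)⟩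
  have hc : cw k = Nat.add (tab56 T0 (Nat.mod k 64)) (Nat.add (tab56 T1 (Nat.mod (Nat.div k 64) 64))
    (tab56 T2 (Nat.mod (Nat.div k 4096) 64))) := rfl
  have key : ∀ f0 f1 f2 : ℕ → ℕ, Nat.add (f0 (Nat.mod k 64)) (Nat.add (f1 (Nat.mod (Nat.div k 64) 64))
    (f2 (Nat.mod (Nat.div k 4096) 64))) = f0 (k % 64) + (f1 (k / 64 % 64) + f2 (k / 4096 % 64)) :=
    fun _ _ _ => rfl
  rw [key (tab56 T0) (tab56 T1) (tab56 T2)] at hc
  obtain ⟨e0, e1, e2, e3, e4, e5, e6, e7, e8⟩ := A1_ex k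
  simp only at h0 h1 h2
  rw [h0, h1, h2] at hc
  rw [A1_posE, A1_wtE, hc, d0, d1, d2, d3, d4, d5, d6, d7, d8, ← e0, ← e1, ← e2, ← e3, ← e4, ← e5,
    ← e6, ← e7, ← e8]
  have hlt : ∀ v, ex k v < 4 := fun v => Nat.mod_lt _ (by norm_num)
  have l0 := hlt (0, 0)
  have l1 := hlt (0, 1)
  have l3 := hlt (1, 0)
  have l4 := hlt (1, 1)
  rw [show ∀ x0 x1 x2 x3 x4 x5 x6 x7 x8 : ℕ,
      x0 + 3 * x1 + 128 * ((x0 + x1 + x2) * (1 + 64 ^ 6) + x0 * 64 ^ 3 + x1 * 64 ^ 4 + x2 * 64 ^ 5) +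
      (9 * x3 + 27 * x4 + 128 * ((x3 + x4 + x5) * (64 + 64 ^ 6) + x3 * 64 ^ 3 + x4 * 64 ^ 4 +
        x5 * 64 ^ 5) + 128 * ((x6 + x7 + x8) * (64 ^ 2 + 64 ^ 6) + x6 * 64 ^ 3 + x7 * 64 ^ 4 +
        x8 * 64 ^ 5)) = (x0 + 3 * x1 + 9 * x3 + 27 * x4) + 128 * ((x0 + x1 + x2) * (1 + 64 ^ 6) +
        (x3 + x4 + x5) * (64 + 64 ^ 6) + (x6 + x7 + x8) * (64 ^ 2 + 64 ^ 6) +
        (x0 + x3 + x6) * 64 ^ 3 + (x1 + x4 + x7) * 64 ^ 4 + (x2 + x5 + x8) * 64 ^ 5) from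
      fun x0 x1 x2 x3 x4 x5 x6 x7 x8 => by ring]
  have hP : ex k (0, 0) + 3 * ex k (0, 1) + 9 * ex k (1, 0) + 27 * ex k (1, 1) < 128 := by
    clear d0 d1 d2 d3 d4 d5 d6 d7 d8 e0 e1 e2 e3 e4 e5 e6 e7 e8 h0 h1 h2 hc
    omega
  constructor
  · rw [Nat.add_mul_mod_self_left]
    exact Nat.mod_eq_of_lt hP
  · rw [Nat.add_mul_div_left _ _ (by norm_num), Nat.div_eq_of_lt hP, zero_add]

/-- Proof. All exponents are at most `3`, so `posE ≤ 3 * (1 + 3 + 9 + 27) = 120`. -/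
theorem posE_lt (k : ℕ) : posE (expo k) < 128 := by
  rw [A1_posE]
  have hlt : ∀ v, ex k v < 4 := fun v => Nat.mod_lt _ (by norm_num)
  have l0 := hlt (0, 0)
  have l1 := hlt (0, 1)
  have l3 := hlt (1, 0)
  have l4 := hlt (1, 1)
  omega

/-- Proof. All exponents are at most `3`; `3 * ∑ v, we v < 2^45`. -/
theorem wtE_lt (k : ℕ) : wtE (expo k) < big := by
  rw [A1_wtE]
  have hlt : ∀ v, ex k v < 4 := fun v => Nat.mod_lt _ (by norm_num)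
  have l0 := hlt (0, 0)
  have l1 := hlt (0, 1)
  have l2 := hlt (0, 2)
  have l3 := hlt (1, 0)
  have l4 := hlt (1, 1)
  have l5 := hlt (1, 2)
  have l6 := hlt (2, 0)
  have l7 := hlt (2, 1)
  have l8 := hlt (2, 2)
  unfold big
  omega

end Pool.Agent.Lib.H54F
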