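import Pool.Agent.Lib.H54F.Sem

/-! # A2: the packing and representations -/

namespace Pool.Agent.Lib.H54F

open MvPolynomial

variable {m : ℕ} {wg : Fin m → ℕ}

private lemma A2_wtE_zero : wtE 0 = 0 := by
  unfold wtE
  simp

private lemma A2_wtE_add (a b : V →₀ ℕ) : wtE (a + b) = wtE a + wtE b := by
  unfold wtE
  rw [← Finset.sum_add_distrib]
  refine Finset.sum_congr rfl fun v _ => ?_
  rw [Finsupp.add_apply, add_mul]

private lemma A2_Th_add (v v' : Fin m → S0) : Th (v + v') = Th v + Th v' := by
  unfold Th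
  rw [← Finset.sum_add_distrib]
  refine Finset.sum_congr rfl fun i _ => ?_
  rw [Pi.add_apply, map_add, mul_add]

private lemma A2_mon (e : V →₀ ℕ) :
    aeval (fun w => (Polynomial.X : Polynomial (ZMod 2)) ^ up w) (monomial e 1 : S0) =
      Polynomial.X ^ (posE e) := by
  rw [aeval_monomial, map_one, one_mul, Finsupp.prod_fintype _ _ (fun i => pow_zero _)]
  unfold posE
  rw [← Finset.prod_pow_eq_pow_sum]
  refine Finset.prod_congr rfl fun v _ => ?_
  rw [← pow_mul, mul_comm]

private lemma A2_Th_smul (e : V →₀ ℕ) (v : Fin m → S0) :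
    Th ((monomial e 1 : S0) • v) = Polynomial.X ^ (posE e) * Th v := by
  unfold Th
  rw [Finset.mul_sum]
  refine Finset.sum_congr rfl fun i _ => ?_
  rw [Pi.smul_apply, smul_eq_mul, map_mul, A2_mon]
  ring

/-- Proof. `Th 0 = 0`. -/
theorem rep_zero (s : ℕ) : Rep wg 0 0 s := by
  refine ⟨fun i e he => ?_, fun n => ?_⟩
  · simp at he
  · have h : Th (0 : Fin m → S0) = 0 := by
      unfold Th
      refine Finset.sum_eq_zero fun i _ => ?_
      rw [Pi.zero_apply, map_zero, mul_zero]
    rw [h, Polynomial.coeff_zero, Nat.zero_testBit]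
    rfl

/-- Proof. `Th (Pi.single i 1) = X ^ (81 i)`, `testBit (1 <<< a) n = (n = a)`; the support of `1`
is `{0}` and `wtE 0 = 0`. -/
theorem rep_unit (i : Fin m) :
    Rep wg (Pi.single i 1) (Nat.shiftLeft 1 (Nat.mul 81 i.val)) (wg i) := by
  classical
  refine ⟨fun j e he => ?_, fun n => ?_⟩
  · by_cases h : j = i
    · subst h
      rw [Pi.single_eq_same] at he
      have h1 : e = 0 := by
        by_contra h0
        rw [mem_support_iff] at he
        apply he
        rw [coeff_one, if_neg (fun h => h0 h.symm)]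
      rw [h1, A2_wtE_zero, add_zero]
    · rw [Pi.single_eq_of_ne h] at he
      simp at he
  · have h : Th (Pi.single i (1 : S0) : Fin m → S0) = Polynomial.X ^ (81 * i.val) := by
      unfold Th
      rw [Finset.sum_eq_single i]
      · rw [Pi.single_eq_same, map_one, mul_one]
      · intro j _ hj
        rw [Pi.single_eq_of_ne hj, map_zero, mul_zero]
      · intro h
        exact absurd (Finset.mem_univ i) h
    have h2 : Nat.shiftLeft 1 (Nat.mul 81 i.val) = 2 ^ (81 * i.val) := by
      have : Nat.shiftLeft 1 (Nat.mul 81 i.val) = 1 <<< (81 * i.val) := rfl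
      rw [this, Nat.one_shiftLeft]
    rw [h, h2, Polynomial.coeff_X_pow, Nat.testBit_two_pow]
    by_cases h3 : n = 81 * i.val
    · rw [if_pos h3, if_pos (by simpa using h3.symm)]
    · rw [if_neg h3, if_neg (by simpa using fun h => h3 h.symm)]

/-- Proof. `Th` is additive, `testBit (N xor M) n = xor`, and `1 + 1 = 0` in `ZMod 2`; the support
of a sum is contained in the union of the supports. -/
theorem rep_add {v v' : Fin m → S0} {N N' s : ℕ} (h : Rep wg v N s) (h' : Rep wg v' N' s) :
    Rep wg (v + v') (Nat.xor N N') s := by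
  classical
  refine ⟨fun i e he => ?_, fun n => ?_⟩
  · rw [Pi.add_apply] at he
    rcases Finset.mem_union.mp (support_add he) with h1 | h1
    · exact h.1 i e h1
    · exact h'.1 i e h1
  · have hx : Nat.xor N N' = N ^^^ N' := rfl
    rw [A2_Th_add, Polynomial.coeff_add, h.2 n, h'.2 n, hx, Nat.testBit_xor]
    cases N.testBit n <;> cases N'.testBit n <;> decide

/-- Proof. `Th (monomial e 1 • v) = X ^ (posE e) * Th v` (the algebra homomorphism sends
`monomial e 1` to `X ^ posE e`), `testBit (N <<< a) n = (a ≤ n && testBit N (n - a))` and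
`Polynomial.coeff_X_pow_mul'`. The exponents in `monomial e 1 * p` are `e + e'` with `e'` in the
support of `p`, and `wtE` is additive. -/
theorem rep_smul {v : Fin m → S0} {N s : ℕ} (h : Rep wg v N s) (e : V →₀ ℕ) :
    Rep wg ((monomial e 1 : S0) • v) (Nat.shiftLeft N (posE e)) (s + wtE e) := by
  classical
  refine ⟨fun i e' he => ?_, fun n => ?_⟩
  · rw [Pi.smul_apply, smul_eq_mul, mem_support_iff, coeff_monomial_mul'] at he
    by_cases h1 : e ≤ e'
    · rw [if_pos h1, one_mul] at he
      have h2 := h.1 i (e' - e) (mem_support_iff.mpr he)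
      have h3 : wtE e' = wtE e + wtE (e' - e) := by
        rw [← A2_wtE_add, add_tsub_cancel_of_le h1]
      omega
    · rw [if_neg h1] at he
      exact absurd rfl he
  · have hx : Nat.shiftLeft N (posE e) = N <<< (posE e) := rfl
    rw [A2_Th_smul, Polynomial.coeff_X_pow_mul', hx, Nat.testBit_shiftLeft]
    by_cases h1 : posE e ≤ n
    · rw [if_pos h1, h.2, decide_eq_true h1, Bool.true_and]
    · rw [if_neg h1, decide_eq_false h1, Bool.false_and]
      rfl

end Pool.Agent.Lib.H54F
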