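import Pool.Agent.Lib.H54F.Sem

/-! # A4: tables -/

namespace Pool.Agent.Lib.H54F

private theorem a4_B {α : Type} (f : ℕ → ℕ → α) (l r : Tr) (k : ℕ) :
    (Tr.B l r).get f k = if k % 2 = 1 then r.get f (k / 2) else l.get f (k / 2) := by
  have h1 : (Tr.B l r).get f k =
      (Bool.rec (l.get f (Nat.div k 2)) (r.get f (Nat.div k 2)) (Nat.beq (Nat.mod k 2) 1) : α) := rfl
  rw [h1]
  cases hb : Nat.beq (Nat.mod k 2) 1 with
  | false =>
    have h2 : ¬ k % 2 = 1 := by
      intro h3
      have h4 : Nat.beq (Nat.mod k 2) 1 = true := natbeq_iff.2 h3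
      rw [hb] at h4
      cases h4
    rw [if_neg h2]
    rfl
  | true =>
    have h2 : k % 2 = 1 := natbeq_iff.1 hb
    rw [if_pos h2]
    rfl

private theorem a4_L {α : Type} (f : ℕ → ℕ → α) (v s : ℕ) (k : ℕ) :
    (Tr.L v s).get f k = if k = 0 then f v s else f 0 0 := by
  have h1 : (Tr.L v s).get f k = sel (Nat.beq k 0) (f v s) (f 0 0) := rfl
  rw [h1, sel_eq_ite]
  by_cases h : k = 0
  · rw [if_pos h, if_pos (natbeq_iff.2 h)]
  · rw [if_neg h, if_neg (fun h2 => h (natbeq_iff.1 h2))]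

/-- Proof. Induction on the table. -/
theorem get_eq {α : Type} (f : ℕ → ℕ → α) (t : Tr) (k : ℕ) :
    t.get f k = f (t.get Prod.mk k).1 (t.get Prod.mk k).2 := by
  induction t generalizing k with
  | E => rfl
  | L v s =>
    rw [a4_L, a4_L]
    by_cases h : k = 0
    · rw [if_pos h, if_pos h]
    · rw [if_neg h, if_neg h]
  | B l r ihl ihr =>
    rw [a4_B, a4_B]
    by_cases h : k % 2 = 1
    · rw [if_pos h, if_pos h]
      exact ihr _
    · rw [if_neg h, if_neg h]
      exact ihl _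

private theorem a4_set0 (v s : ℕ) (t : Tr) (k : ℕ) :
    Tr.set v s 0 t k = if k = 0 then .L v s else t := by
  have h1 : Tr.set v s 0 t k = sel (Nat.beq k 0) (.L v s) t := rfl
  rw [h1, sel_eq_ite]
  by_cases h : k = 0
  · rw [if_pos h, if_pos (natbeq_iff.2 h)]
  · rw [if_neg h, if_neg (fun h2 => h (natbeq_iff.1 h2))]

private theorem a4_rec {α : Type} (x y : α) (k : ℕ) :
    (Bool.rec x y (Nat.beq (Nat.mod k 2) 1) : α) = if k % 2 = 1 then y else x := by
  cases hb : Nat.beq (Nat.mod k 2) 1 with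
  | false =>
    have h2 : ¬ k % 2 = 1 := by
      intro h3
      have h4 : Nat.beq (Nat.mod k 2) 1 = true := natbeq_iff.2 h3
      rw [hb] at h4
      cases h4
    rw [if_neg h2]
  | true =>
    have h2 : k % 2 = 1 := natbeq_iff.1 hb
    rw [if_pos h2]

private theorem a4_setE (v s d k : ℕ) :
    Tr.set v s (d + 1) .E k = if k % 2 = 1 then .B .E (Tr.set v s d .E (k / 2))
      else .B (Tr.set v s d .E (k / 2)) .E := by
  have h1 : Tr.set v s (d + 1) .E k =
      (Bool.rec (.B (Tr.set v s d .E (Nat.div k 2)) .E) (.B .E (Tr.set v s d .E (Nat.div k 2)))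
        (Nat.beq (Nat.mod k 2) 1) : Tr) := rfl
  rw [h1, a4_rec]
  rfl

private theorem a4_setB (v s d k : ℕ) (l r : Tr) :
    Tr.set v s (d + 1) (.B l r) k = if k % 2 = 1 then .B l (Tr.set v s d r (k / 2))
      else .B (Tr.set v s d l (k / 2)) r := by
  have h1 : Tr.set v s (d + 1) (.B l r) k =
      (Bool.rec (.B (Tr.set v s d l (Nat.div k 2)) r) (.B l (Tr.set v s d r (Nat.div k 2)))
        (Nat.beq (Nat.mod k 2) 1) : Tr) := rfl
  rw [h1, a4_rec]
  rfl

private theorem a4_half {j k : ℕ} (h1 : j % 2 = 1 ↔ k % 2 = 1) (h2 : j / 2 = k / 2) : j = k := by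
  omega

/-- Proof. Induction on `d`, then cases on `t`; `j = k` if and only if the parities and the halves
agree. -/
theorem get_set (v s d : ℕ) (t : Tr) (k j : ℕ) :
    (Tr.set v s d t k).get Prod.mk j = t.get Prod.mk j ∨
    (j = k ∧ (Tr.set v s d t k).get Prod.mk j = (v, s)) ∨
    (Tr.set v s d t k).get Prod.mk j = (0, 0) := by
  induction d generalizing t k j with
  | zero =>
    rw [a4_set0]
    by_cases h : k = 0
    · rw [if_pos h, a4_L]
      by_cases hj : j = 0
      · rw [if_pos hj]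
        exact Or.inr (Or.inl ⟨hj.trans h.symm, rfl⟩)
      · rw [if_neg hj]
        exact Or.inr (Or.inr rfl)
    · rw [if_neg h]
      exact Or.inl rfl
  | succ d ih =>
    cases t with
    | E =>
      rw [a4_setE]
      by_cases h : k % 2 = 1
      · rw [if_pos h, a4_B]
        by_cases hj : j % 2 = 1
        · rw [if_pos hj]
          rcases ih .E (k / 2) (j / 2) with h1 | ⟨h1, h2⟩ | h1
          · exact Or.inr (Or.inr h1)
          · exact Or.inr (Or.inl ⟨a4_half (by simp [h, hj]) h1, h2⟩)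
          · exact Or.inr (Or.inr h1)
        · rw [if_neg hj]
          exact Or.inr (Or.inr rfl)
      · rw [if_neg h, a4_B]
        by_cases hj : j % 2 = 1
        · rw [if_pos hj]
          exact Or.inr (Or.inr rfl)
        · rw [if_neg hj]
          rcases ih .E (k / 2) (j / 2) with h1 | ⟨h1, h2⟩ | h1
          · exact Or.inr (Or.inr h1)
          · exact Or.inr (Or.inl ⟨a4_half ⟨fun a => absurd a hj, fun a => absurd a h⟩ h1, h2⟩)
          · exact Or.inr (Or.inr h1)
    | L a b => exact Or.inl rfl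
    | B l r =>
      rw [a4_setB]
      by_cases h : k % 2 = 1
      · rw [if_pos h, a4_B, a4_B]
        by_cases hj : j % 2 = 1
        · rw [if_pos hj, if_pos hj]
          rcases ih r (k / 2) (j / 2) with h1 | ⟨h1, h2⟩ | h1
          · exact Or.inl h1
          · exact Or.inr (Or.inl ⟨a4_half (by simp [h, hj]) h1, h2⟩)
          · exact Or.inr (Or.inr h1)
        · rw [if_neg hj, if_neg hj]
          exact Or.inl rfl
      · rw [if_neg h, a4_B, a4_B]
        by_cases hj : j % 2 = 1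
        · rw [if_pos hj, if_pos hj]
          exact Or.inl rfl
        · rw [if_neg hj, if_neg hj]
          rcases ih l (k / 2) (j / 2) with h1 | ⟨h1, h2⟩ | h1
          · exact Or.inl h1
          · exact Or.inr (Or.inl ⟨a4_half ⟨fun a => absurd a hj, fun a => absurd a h⟩ h1, h2⟩)
          · exact Or.inr (Or.inr h1)

variable {m : ℕ} {wg : Fin m → ℕ} {Q : ℕ → (Fin m → S0) → Prop}

theorem inv_empty : Inv wg Q .E := by
  intro i v s h hs
  have h1 : Tr.get Prod.mk Tr.E i = (0, 0) := rfl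
  rw [h1] at h
  exact absurd (Prod.mk.inj h).2.symm hs

/-- Proof. `get_set`. -/
theorem inv_set {T : Tr} (hT : Inv wg Q T) {x : Fin m → S0} {v s q : ℕ} (hx : Rep wg x v s)
    (hq : Q q x) (d : ℕ) : Inv wg Q (Tr.set v s d T q) := by
  intro i v' s' h hs
  rcases get_set v s d T q i with h1 | ⟨h1, h2⟩ | h1
  · exact hT i v' s' (h1.symm.trans h) hs
  · have h3 := Prod.mk.inj (h2.symm.trans h)
    rw [h1, ← h3.1, ← h3.2]
    exact ⟨x, hx, hq⟩
  · have h3 := Prod.mk.inj (h1.symm.trans h)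
    exact absurd h3.2.symm hs

/-- A choice of vectors for all entries of a table. -/
def Fits (wg : Fin m → ℕ) (Q : ℕ → (Fin m → S0) → Prop) (T : Tr) (F : ℕ → Fin m → S0) : Prop :=
  ∀ i v s, T.get Prod.mk i = (v, s) → s ≠ 0 → Rep wg (F i) v s ∧ Q i (F i)

/-- Proof. Choice (the entry at `i` is unique). -/
theorem inv_choose {T : Tr} (hT : Inv wg Q T) : ∃ F, Fits wg Q T F := by
  have h1 : ∀ i, ∃ x : Fin m → S0, (T.get Prod.mk i).2 ≠ 0 →
      Rep wg x (T.get Prod.mk i).1 (T.get Prod.mk i).2 ∧ Q i x := by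
    intro i
    by_cases h : (T.get Prod.mk i).2 = 0
    · exact ⟨0, fun h2 => absurd h h2⟩
    · obtain ⟨x, hx⟩ := hT i _ _ rfl h
      exact ⟨x, fun _ => hx⟩
  choose F hF using h1
  refine ⟨F, fun i v s h hs => ?_⟩
  have h2 := hF i
  rw [h] at h2
  exact h2 hs

end Pool.Agent.Lib.H54F
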