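import Pool.Agent.Lib.H54F.A1
import Pool.Agent.Lib.H54F.A2
import Pool.Agent.Lib.H54F.A4

/-! # A5: combinations -/

namespace Pool.Agent.Lib.H54F

variable {m : ℕ} {wg : Fin m → ℕ} {Q : ℕ → (Fin m → S0) → Prop}

private theorem a5_gen {T : Tr} {F : ℕ → Fin m → S0} (hF : Fits wg Q T F) {s N : ℕ}
    (hs : big ≤ s) : ∀ (l : List ℕ) (acc : ℕ) (x0 : Fin m → S0), Rep wg x0 acc s →
      comb T s l acc = some N →
      Rep wg (x0 + (l.map fun k => mon k • F (idx k)).sum) N s ∧ ∀ k ∈ l, Q (idx k) (F (idx k)) := by
  intro l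
  induction l with
  | nil =>
    intro acc x0 hx h
    have h1 : acc = N := Option.some.inj h
    refine ⟨?_, fun k hk => absurd hk (List.not_mem_nil)⟩
    rw [List.map_nil, List.sum_nil, add_zero, ← h1]
    exact hx
  | cons k l ih =>
    intro acc x0 hx h
    have h1 : comb T s (k :: l) acc = T.get (fun v s' => sel (Nat.beq (Nat.add s' (Nat.div (cw k) 128)) s)
      (comb T s l (Nat.xor acc (Nat.shiftLeft v (Nat.mod (cw k) 128)))) none) (idx k) := rfl
    rw [h1, get_eq] at h
    obtain ⟨c1, c2⟩ := cw_spec k
    generalize hvs : T.get Prod.mk (idx k) = vs at h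
    obtain ⟨v, s'⟩ := vs
    cases hb : Nat.beq (Nat.add s' (Nat.div (cw k) 128)) s with
    | false =>
      have h2 : sel (Nat.beq (Nat.add s' (Nat.div (cw k) 128)) s)
        (comb T s l (Nat.xor acc (Nat.shiftLeft v (Nat.mod (cw k) 128)))) none = some N := h
      rw [hb, sel_false] at h2
      cases h2
    | true =>
      have h2 : sel (Nat.beq (Nat.add s' (Nat.div (cw k) 128)) s)
        (comb T s l (Nat.xor acc (Nat.shiftLeft v (Nat.mod (cw k) 128)))) none = some N := h
      rw [hb, sel_true] at h2
      have h3 : s' + cw k / 128 = s := natbeq_iff.1 hb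
      rw [c2] at h3
      have h4 : s' ≠ 0 := by
        have h5 := wtE_lt k
        intro h6
        rw [h6, zero_add] at h3
        rw [h3] at h5
        exact absurd hs (not_le.2 h5)
      obtain ⟨h5, h6⟩ := hF (idx k) v s' hvs h4
      have h7 := rep_smul h5 (expo k)
      rw [h3] at h7
      have h8 := rep_add hx h7
      have h9 : Nat.mod (cw k) 128 = posE (expo k) := c1
      rw [h9] at h2
      obtain ⟨h10, h11⟩ := ih _ _ h8 h2
      refine ⟨?_, ?_⟩
      · rw [List.map_cons, List.sum_cons, ← add_assoc]
        exact h10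
      · intro j hj
        rcases List.mem_cons.1 hj with rfl | hj
        · exact h6
        · exact h11 j hj

/-- Proof. Induction on `l` with a general accumulator `acc` that represents a vector `x0` of
weight `s` (start: `rep_zero`); the statement is then about `x0 + sum`. Step: write
`T.get .. = (v, s')` with `get_eq`. The check gives `s' + cw k / 128 = s`, so by `cw_spec` and
`wtE_lt` and `big ≤ s` we have `s' ≠ 0`: the entry is present and represents `F (idx k)`. Use
`rep_smul` (with `e = expo k`, `mon k = monomial (expo k) 1`) and `rep_add`. -/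
theorem comb_spec {T : Tr} {F : ℕ → Fin m → S0} (hF : Fits wg Q T F) {s N : ℕ} (hs : big ≤ s)
    {l : List ℕ} (h : comb T s l 0 = some N) :
    Rep wg ((l.map fun k => mon k • F (idx k)).sum) N s ∧ ∀ k ∈ l, Q (idx k) (F (idx k)) := by
  have h1 := a5_gen hF hs l 0 0 (rep_zero s) h
  rw [zero_add] at h1
  exact h1

end Pool.Agent.Lib.H54F
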