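import Pool.Agent.Lib.H54F.A3
import Pool.Agent.Lib.H54F.A5

/-! # A7: the identities of the check -/

namespace Pool.Agent.Lib.H54F

variable {m : ℕ} {wg : Fin m → ℕ} {Q Q' : ℕ → (Fin m → S0) → Prop}

private theorem a7_big {h0 h1 s : ℕ} (h : okDeg h0 h1 s = true) : big ≤ s := by
  unfold okDeg at h
  rw [Bool.and_eq_true, Bool.and_eq_true, Bool.and_eq_true] at h
  have h2 : 512 ≤ s / 68719476736 := Nat.ble_eq.mp h.1.1.1
  unfold big
  omega

private theorem a7_sel {b c : Bool} (h : sel b c false = true) : b = true ∧ c = true := by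
  cases b
  · cases h
  · exact ⟨rfl, h⟩

private theorem a7_ga {D R : Tr} {F G : ℕ → Fin m → S0} (hF : Fits wg Q D F) (hG : Fits wg Q' R G)
    {h0 h1 : ℕ} (hw : ∀ i, okGen h0 h1 (wg i) = true) (gs : List (List ℕ)) :
    ∀ i0 : ℕ, chkGa h0 h1 D R gs i0 = true → ∀ (i : ℕ) (hi : i < gs.length),
    F (i0 + i) = ((gs.get ⟨i, hi⟩).map fun k => mon k • G (idx k)).sum ∧
      (∀ k ∈ gs.get ⟨i, hi⟩, Q' (idx k) (G (idx k))) ∧ Q (i0 + i) (F (i0 + i)) := by
  induction gs with
  | nil => intro i0 _ i hi; exact absurd hi (Nat.not_lt_zero i)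
  | cons g gs ih =>
    intro i0 h i hi
    have h2 : chkGa h0 h1 D R (g :: gs) i0 = sel (D.get (fun v s => sel (okDeg h0 h1 s)
      (Option.rec false (fun w => Nat.beq v w) (comb R s g 0)) false) i0)
      (chkGa h0 h1 D R gs (Nat.succ i0)) false := rfl
    rw [h2] at h
    obtain ⟨h3, h4⟩ := a7_sel h
    cases i with
    | zero =>
      rw [get_eq] at h3
      generalize hvs : D.get Prod.mk i0 = vs at h3
      obtain ⟨v, s⟩ := vs
      obtain ⟨h5, h6⟩ := a7_sel (b := okDeg h0 h1 s)
        (c := (Option.rec false (fun w => Nat.beq v w) (comb R s g 0) : Bool)) h3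
      have hbig := a7_big h5
      have hs0 : s ≠ 0 := by
        intro h7
        rw [h7] at hbig
        exact absurd hbig (by decide)
      obtain ⟨h8, h9⟩ := hF i0 v s hvs hs0
      cases hc : comb R s g 0 with
      | none =>
        rw [hc] at h6
        cases h6
      | some w =>
        rw [hc] at h6
        have h10 : v = w := natbeq_iff.1 h6
        obtain ⟨h11, h12⟩ := comb_spec hG hbig hc
        rw [h10] at h8
        exact ⟨rep_inj hw h5 h8 h11, h12, h9⟩
    | succ i =>
      have h5 := ih (Nat.succ i0) h4 i (Nat.lt_of_succ_lt_succ hi)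
      have h6 : Nat.succ i0 + i = i0 + (i + 1) := by omega
      rw [h6] at h5
      exact h5

/-- Proof. Induction over `gs` with general start index. At every step `get_eq` gives the entry
`(v, s)`; `okDeg h0 h1 s` implies `big ≤ s` (`512 * 64^6 = 2^45`), in particular `s ≠ 0`, so `F i`
is represented by `(v, s)`; by `comb_spec` the combination is represented by `(w, s)` with
`w = v`; use `rep_inj`. -/
theorem chkGa_spec {D R : Tr} {F G : ℕ → Fin m → S0} (hF : Fits wg Q D F) (hG : Fits wg Q' R G)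
    {h0 h1 : ℕ} (hw : ∀ i, okGen h0 h1 (wg i) = true) {gs : List (List ℕ)}
    (h : chkGa h0 h1 D R gs 0 = true) (i : ℕ) (hi : i < gs.length) :
    F i = ((gs.get ⟨i, hi⟩).map fun k => mon k • G (idx k)).sum ∧
      (∀ k ∈ gs.get ⟨i, hi⟩, Q' (idx k) (G (idx k))) ∧ Q i (F i) := by
  have h2 := a7_ga hF hG hw gs 0 h i hi
  rw [Nat.zero_add] at h2
  exact h2

private theorem a7_min {T A : Tr} {F G : ℕ → Fin m → S0} (hF : Fits wg Q T F)
    (hG : Fits wg Q' A G) {h0 h1 : ℕ} (hw : ∀ i, okGen h0 h1 (wg i) = true)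
    (ls : List (List ℕ)) : ∀ i0 : ℕ, chkMin h0 h1 T A ls i0 = true →
    ∀ (i : ℕ) (hi : i < ls.length),
    ∃ q l, ls.get ⟨i, hi⟩ = q :: l ∧ F q = G (i0 + i) ∧ Q q (F q) ∧ Q' (i0 + i) (G (i0 + i)) := by
  induction ls with
  | nil => intro i0 _ i hi; exact absurd hi (Nat.not_lt_zero i)
  | cons ql ls ih =>
    intro i0 h i hi
    cases ql with
    | nil =>
      have h2 : chkMin h0 h1 T A ([] :: ls) i0 = false := rfl
      rw [h2] at h
      cases h
    | cons q l =>
      have h2 : chkMin h0 h1 T A ((q :: l) :: ls) i0 = sel (T.get (fun v s => A.get (fun v' s' =>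
        sel (Nat.beq v v') (sel (Nat.beq s s') (okDeg h0 h1 s) false) false) i0) q)
        (chkMin h0 h1 T A ls (Nat.succ i0)) false := rfl
      rw [h2] at h
      obtain ⟨h3, h4⟩ := a7_sel h
      cases i with
      | zero =>
        refine ⟨q, l, rfl, ?_⟩
        rw [get_eq] at h3
        generalize hvs : T.get Prod.mk q = vs at h3
        obtain ⟨v, s⟩ := vs
        rw [get_eq] at h3
        generalize hvs' : A.get Prod.mk i0 = vs' at h3
        obtain ⟨v', s'⟩ := vs'
        obtain ⟨h5, h6⟩ := a7_sel (b := Nat.beq v v')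
          (c := sel (Nat.beq s s') (okDeg h0 h1 s) false) h3
        obtain ⟨h7, h8⟩ := a7_sel h6
        have h9 : v = v' := natbeq_iff.1 h5
        have h10 : s = s' := natbeq_iff.1 h7
        have hbig := a7_big h8
        have hs0 : s ≠ 0 := by
          intro h7
          rw [h7] at hbig
          exact absurd hbig (by decide)
        obtain ⟨h11, h12⟩ := hF q v s hvs hs0
        rw [← h9, ← h10] at hvs'
        obtain ⟨h13, h14⟩ := hG i0 v s hvs' hs0
        exact ⟨rep_inj hw h8 h11 h13, h12, h14⟩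
      | succ i =>
        have h5 := ih (Nat.succ i0) h4 i (Nat.lt_of_succ_lt_succ hi)
        have h6 : Nat.succ i0 + i = i0 + (i + 1) := by omega
        rw [h6] at h5
        exact h5

/-- Proof. As for `chkGa_spec`: both entries are present and equal, use `rep_inj`. -/
theorem chkMin_spec {T A : Tr} {F G : ℕ → Fin m → S0} (hF : Fits wg Q T F)
    (hG : Fits wg Q' A G) {h0 h1 : ℕ} (hw : ∀ i, okGen h0 h1 (wg i) = true)
    {ls : List (List ℕ)} (h : chkMin h0 h1 T A ls 0 = true) (i : ℕ) (hi : i < ls.length) :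
    ∃ q l, ls.get ⟨i, hi⟩ = q :: l ∧ F q = G i ∧ Q q (F q) ∧ Q' i (G i) := by
  have h2 := a7_min hF hG hw ls 0 h i hi
  rw [Nat.zero_add] at h2
  exact h2

end Pool.Agent.Lib.H54F
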