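import Pool.Agent.Lib.H54F.Sem

/-! # A8: sums of rows -/

namespace Pool.Agent.Lib.H54F

variable {γ : Type*}

private lemma A8_nil (cd : γ → ℕ) : ev cd [] = 0 := by
  funext q
  simp [ev]

private lemma A8_cons (cd : γ → ℕ) (k : ℕ) (l : List ℕ) :
    ev cd (k :: l) = ev cd [k] + ev cd l := by
  funext q
  simp [ev]

private lemma A8_two (x : S0) : x + x = 0 := by
  have h : (2 : S0) = 0 := by
    have h1 : ((2 : ℕ) : ZMod 2) = 0 := CharP.cast_eq_zero (ZMod 2) 2
    have h2 : (MvPolynomial.C ((2 : ℕ) : ZMod 2) : S0) = (2 : S0) := by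
      rw [map_natCast]
      rfl
    rw [← h2, h1, map_zero]
  rw [← two_mul, h, zero_mul]

private lemma A8_two' (f : γ → S0) : f + f = 0 := by
  funext q
  exact A8_two (f q)

private lemma A8_xins (cd : γ → ℕ) (k : ℕ) (l : List ℕ) :
    ev cd (xins k l) = ev cd [k] + ev cd l := by
  induction l with
  | nil =>
    show ev cd [k] = ev cd [k] + ev cd []
    rw [A8_nil, add_zero]
  | cons a t ih =>
    show ev cd (sel (Nat.beq a k) t (a :: xins k t)) = ev cd [k] + ev cd (a :: t)
    cases h : Nat.beq a k
    · rw [sel_false, A8_cons cd a (xins k t), ih, A8_cons cd a t]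
      exact add_left_comm _ _ _
    · rw [sel_true]
      have h1 := natbeq_iff.1 h
      subst h1
      rw [A8_cons cd a t, ← add_assoc, A8_two', zero_add]

private lemma A8_xsum (cd : γ → ℕ) (l l' : List ℕ) :
    ev cd (xsum l l') = ev cd l + ev cd l' := by
  induction l with
  | nil =>
    show ev cd l' = ev cd [] + ev cd l'
    rw [A8_nil, zero_add]
  | cons a t ih =>
    show ev cd (xins a (xsum t l')) = ev cd (a :: t) + ev cd l'
    rw [A8_xins, ih, A8_cons cd a t, add_assoc]

private lemma A8_mem_xins {k k' : ℕ} {l : List ℕ} (h : k' ∈ xins k l) : k' = k ∨ k' ∈ l := by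
  induction l with
  | nil =>
    have h1 : k' ∈ [k] := h
    rw [List.mem_singleton] at h1
    exact Or.inl h1
  | cons a t ih =>
    have h1 : k' ∈ sel (Nat.beq a k) t (a :: xins k t) := h
    cases hb : Nat.beq a k
    · rw [hb, sel_false, List.mem_cons] at h1
      rcases h1 with h1 | h1
      · exact Or.inr (by rw [h1]; exact List.mem_cons_self)
      · rcases ih h1 with h2 | h2
        · exact Or.inl h2
        · exact Or.inr (List.mem_cons_of_mem _ h2)
    · rw [hb, sel_true] at h1
      exact Or.inr (List.mem_cons_of_mem _ h1)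

private lemma A8_mem_xsum {k : ℕ} {l l' : List ℕ} (h : k ∈ xsum l l') : k ∈ l ∨ k ∈ l' := by
  induction l with
  | nil => exact Or.inr h
  | cons a t ih =>
    have h1 : k ∈ xins a (xsum t l') := h
    rcases A8_mem_xins h1 with h2 | h2
    · exact Or.inl (by rw [h2]; exact List.mem_cons_self)
    · rcases ih h2 with h3 | h3
      · exact Or.inl (List.mem_cons_of_mem _ h3)
      · exact Or.inr h3

private lemma A8_rsum_cons (rowOf : ℕ → List ℕ) (r s : ℕ) (t : List ℕ) :
    rsum rowOf (r :: s :: t) = xsum (rowOf r) (rsum rowOf (s :: t)) := rfl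

/-- Proof. `xins k l` either inserts `k` or removes an equal key; `ZMod 2` has characteristic
two, so `mon k + mon k = 0`. Induction for `xsum` and `rsum`. -/
theorem ev_rsum (cd : γ → ℕ) (rowOf : ℕ → List ℕ) (rs : List ℕ) :
    ev cd (rsum rowOf rs) = (rs.map fun r => ev cd (rowOf r)).sum := by
  induction rs with
  | nil =>
    show ev cd [] = _
    rw [A8_nil]
    rfl
  | cons r t ih =>
    cases t with
    | nil =>
      show ev cd (rowOf r) = _
      rw [List.map_cons, List.map_nil, List.sum_cons, List.sum_nil, add_zero]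
    | cons s t =>
      rw [A8_rsum_cons, A8_xsum, ih, List.map_cons (l := s :: t), List.sum_cons]

/-- Proof. Induction; the keys of `xins k l` are `k` and keys of `l`. -/
theorem mem_rsum (rowOf : ℕ → List ℕ) (rs : List ℕ) (k : ℕ) (h : k ∈ rsum rowOf rs) :
    ∃ r ∈ rs, k ∈ rowOf r := by
  induction rs with
  | nil =>
    have h1 : k ∈ ([] : List ℕ) := h
    exact absurd h1 (List.not_mem_nil)
  | cons r t ih =>
    cases t with
    | nil => exact ⟨r, List.mem_cons_self, h⟩
    | cons s t =>
      rw [A8_rsum_cons] at h
      rcases A8_mem_xsum h with h1 | h1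
      · exact ⟨r, List.mem_cons_self, h1⟩
      · obtain ⟨r', h2, h3⟩ := ih h1
        exact ⟨r', List.mem_cons_of_mem _ h2, h3⟩

/-- Proof. Induction on `l`. -/
theorem ev_xrem (cd : γ → ℕ) {k : ℕ} {l l' : List ℕ} (h : xrem k l = some l') :
    ev cd l = ev cd [k] + ev cd l' ∧ ∀ x ∈ l', x ∈ l := by
  induction l generalizing l' with
  | nil =>
    have h1 : (none : Option (List ℕ)) = some l' := h
    exact absurd h1 (by simp)
  | cons a t ih =>
    have h1 : sel (Nat.beq a k) (some t)
      ((Option.rec none (fun l' => some (a :: l')) (xrem k t) : Option (List ℕ))) = some l' := h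
    cases hb : Nat.beq a k
    · rw [hb, sel_false] at h1
      cases hx : xrem k t with
      | none =>
        rw [hx] at h1
        have h2 : (none : Option (List ℕ)) = some l' := h1
        exact absurd h2 (by simp)
      | some l'' =>
        rw [hx] at h1
        have h2 : some (a :: l'') = some l' := h1
        have h3 : a :: l'' = l' := Option.some.inj h2
        subst h3
        obtain ⟨h4, h5⟩ := ih hx
        refine ⟨?_, ?_⟩
        · rw [A8_cons cd a t, h4, A8_cons cd a l'']
          exact add_left_comm _ _ _
        · intro x hx'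
          rw [List.mem_cons] at hx'
          rcases hx' with h6 | h6
          · rw [h6]
            exact List.mem_cons_self
          · exact List.mem_cons_of_mem _ (h5 x h6)
    · rw [hb, sel_true] at h1
      have h2 : t = l' := Option.some.inj h1
      subst h2
      have h3 := natbeq_iff.1 hb
      subst h3
      exact ⟨A8_cons cd a t, fun x hx => List.mem_cons_of_mem _ hx⟩

/-- A row of keys all of whose indices are codes of generators, as a combination.

Proof. Induction on the row; `∑ q, (if idx k = cd q then mon k else 0) • f (cd q)` has exactly one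
nonzero term. -/
theorem sum_ev_smul [Fintype γ] (cd : γ → ℕ) (hcd : Function.Injective cd) {M : Type*}
    [AddCommGroup M] [Module S0 M] (f : ℕ → M) (l : List ℕ) (hl : ∀ k ∈ l, ∃ q, cd q = idx k) :
    ∑ q, ev cd l q • f (cd q) = (l.map fun k => mon k • f (idx k)).sum := by
  induction l with
  | nil =>
    rw [A8_nil, List.map_nil, List.sum_nil]
    exact Finset.sum_eq_zero fun q _ => by rw [Pi.zero_apply, zero_smul]
  | cons k t ih =>
    rw [A8_cons, List.map_cons, List.sum_cons, ← ih fun k' hk' => hl k' (List.mem_cons_of_mem _ hk')]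
    have e : ∀ q, (ev cd [k] + ev cd t) q • f (cd q) =
        ev cd [k] q • f (cd q) + ev cd t q • f (cd q) := by
      intro q
      rw [Pi.add_apply, add_smul]
    rw [Finset.sum_congr rfl fun q _ => e q, Finset.sum_add_distrib]
    obtain ⟨q0, hq0⟩ := hl k List.mem_cons_self
    have e2 : ∑ q, ev cd [k] q • f (cd q) = mon k • f (idx k) := by
      rw [Finset.sum_eq_single q0]
      · have h1 : ev cd [k] q0 = mon k := by
          show (List.map (fun k => if idx k = cd q0 then mon k else 0) [k]).sum = mon k
          rw [List.map_cons, List.map_nil, List.sum_cons, List.sum_nil, add_zero, if_pos hq0.symm]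
        rw [h1, hq0]
      · intro q _ hq
        have h1 : ev cd [k] q = 0 := by
          show (List.map (fun k => if idx k = cd q then mon k else 0) [k]).sum = 0
          rw [List.map_cons, List.map_nil, List.sum_cons, List.sum_nil, add_zero, if_neg]
          intro h
          exact hq (hcd (by rw [← h, hq0]))
        rw [h1, zero_smul]
      · intro h
        exact absurd (Finset.mem_univ _) h
    rw [e2]

/-- Proof. `expo (262144 * q) = 0` and `idx (262144 * q) = q`. -/
theorem ev_unit [DecidableEq γ] (cd : γ → ℕ) (hcd : Function.Injective cd) (q : γ) :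
    ev cd [Nat.mul 262144 (cd q)] = Pi.single q 1 := by
  have hidx : idx (Nat.mul 262144 (cd q)) = cd q :=
    Nat.mul_div_cancel_left (cd q) (by norm_num : 0 < 262144)
  have hexpo : expo (Nat.mul 262144 (cd q)) = 0 := by
    ext v
    show Nat.mul 262144 (cd q) / 4 ^ (3 * v.1.val + v.2.val) % 4 = 0
    have h1 : 3 * v.1.val + v.2.val ≤ 8 := by
      have := v.1.isLt
      have := v.2.isLt
      omega
    obtain ⟨j, hj⟩ : ∃ j, 3 * v.1.val + v.2.val + (j + 1) = 9 :=
      ⟨8 - (3 * v.1.val + v.2.val), by omega⟩
    have h2 : Nat.mul 262144 (cd q) =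
        4 ^ (3 * v.1.val + v.2.val) * (4 * (4 ^ j * cd q)) := by
      show 262144 * cd q = _
      have h3 : (262144 : ℕ) = 4 ^ (3 * v.1.val + v.2.val) * 4 ^ (j + 1) := by
        rw [← pow_add, hj]
        norm_num
      rw [h3, pow_succ]
      ring
    rw [h2, Nat.mul_div_cancel_left _ (by positivity), Nat.mul_mod_right]
  have hmon : mon (Nat.mul 262144 (cd q)) = 1 := by
    show MvPolynomial.monomial (expo (Nat.mul 262144 (cd q))) 1 = 1
    rw [hexpo]
    rfl
  funext q'
  show (List.map (fun k => if idx k = cd q' then mon k else 0) [Nat.mul 262144 (cd q)]).sum = _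
  rw [List.map_cons, List.map_nil, List.sum_cons, List.sum_nil, add_zero, hidx, hmon]
  by_cases h : q' = q
  · subst h
    rw [if_pos rfl, Pi.single_eq_same]
  · rw [if_neg (fun h' => h (hcd h'.symm)), Pi.single_eq_of_ne h]

end Pool.Agent.Lib.H54F
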