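import Pool.Agent.Lib.H54F.Sem

/-! # A9: an isomorphism criterion for cokernels -/

namespace Pool.Agent.Lib.H54F

/-- The linear map with prescribed values on the unit vectors. -/
private noncomputable def A9_comb {A : Type*} [CommRing A] {γ γ' : Type} [Fintype γ]
    (w : γ → γ' → A) : (γ → A) →ₗ[A] (γ' → A) :=
  Fintype.linearCombination A w

private theorem A9_comb_apply {A : Type*} [CommRing A] {γ γ' : Type} [Fintype γ]
    (w : γ → γ' → A) (x : γ → A) : A9_comb w x = ∑ q, x q • w q :=
  Fintype.linearCombination_apply A w x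

private theorem A9_comb_single {A : Type*} [CommRing A] {γ γ' : Type} [Fintype γ]
    [DecidableEq γ] (w : γ → γ' → A) (q : γ) : A9_comb w (Pi.single q 1) = w q := by
  rw [A9_comb_apply, Finset.sum_eq_single q]
  · rw [Pi.single_eq_same, one_smul]
  · intro b _ hb
    rw [Pi.single_eq_of_ne hb, zero_smul]
  · intro h
    exact absurd (Finset.mem_univ q) h

private theorem A9_comb_map {A : Type*} [CommRing A] (ι : S0 →+* A) {γ γ' : Type} [Fintype γ]
    (w : γ → γ' → S0) (x : γ → S0) :
    A9_comb (fun q i => ι (w q i)) (fun q => ι (x q)) = fun i => ι (A9_comb w x i) := by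
  funext i
  rw [A9_comb_apply, A9_comb_apply, Finset.sum_apply, Finset.sum_apply, map_sum]
  refine Finset.sum_congr rfl fun q _ => ?_
  rw [Pi.smul_apply, Pi.smul_apply, smul_eq_mul, smul_eq_mul, map_mul]

private theorem A9_push {A : Type*} [CommRing A] (ι : S0 →+* A) {κ γ : Type}
    (P : κ → γ → S0) {v : γ → S0} (hv : v ∈ Submodule.span S0 (Set.range P)) :
    (fun q => ι (v q)) ∈ rowSpan ι P := by
  refine Submodule.span_induction (p := fun v _ => (fun q => ι (v q)) ∈ rowSpan ι P)
    ?_ ?_ ?_ ?_ hv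
  · rintro _ ⟨k, rfl⟩
    exact Submodule.subset_span ⟨k, rfl⟩
  · have h : (fun q : γ => ι ((0 : γ → S0) q)) = 0 := by
      funext q
      exact map_zero ι
    rw [h]
    exact Submodule.zero_mem _
  · intro x y _ _ hx hy
    have h : (fun q : γ => ι ((x + y) q)) = (fun q => ι (x q)) + fun q => ι (y q) := by
      funext q
      exact map_add ι _ _
    rw [h]
    exact Submodule.add_mem _ hx hy
  · intro a x _ hx
    have h : (fun q : γ => ι ((a • x) q)) = ι a • fun q => ι (x q) := by
      funext q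
      exact map_mul ι _ _
    rw [h]
    exact Submodule.smul_mem _ _ hx

private theorem A9_single_map {A : Type*} [CommRing A] (ι : S0 →+* A) {γ : Type}
    [DecidableEq γ] (q : γ) :
    (fun q' => ι ((Pi.single q 1 : γ → S0) q')) = (Pi.single q 1 : γ → A) := by
  funext q'
  by_cases h : q' = q
  · subst h
    rw [Pi.single_eq_same, Pi.single_eq_same, map_one]
  · rw [Pi.single_eq_of_ne h, Pi.single_eq_of_ne h, map_zero]

/-- Proof. Write `Q = span (range P)`. For `ι : S0 →+* A` membership in the span of the rows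
passes to `A`: if `v ∈ span S0 (range P)` then `ι ∘ v ∈ rowSpan ι P` (`Submodule.span_induction`).
Define `f : (γ → A) → Cok ι D` linear with `e_q ↦ [ι ∘ at q]` and `g : (γ' → A) → Cok ι P` linear
with `e_i' ↦ ∑ i, ι (α' i' i) [e_(emb i)]`. `f` kills the rows of `P` by `h1`. The matrix product
`α' * α` is `1` by `h3`, so `α * α' = 1` because the index types have the same cardinality
(`Matrix.mul_eq_one_comm_of_card_eq` or via a bijection), hence `g (ι ∘ α i) = [e_(emb i)]`, so by
`h0` `g (ι ∘ at q) = [e_q]` for all `q`. By `h2` and this, `g` kills the rows of `D`. The induced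
maps are inverse to each other: `g (f e_q) = [e_q]`, and
`f (g e_i') = ∑ i, ι (α' i' i) [ι ∘ at (emb i)] = ∑ i, ι (α' i' i) [ι ∘ α i] = [e_i']` by `h4`
and `h3`. -/
theorem cok_iso {κ γ κ' γ' μ : Type} [Fintype γ] [DecidableEq γ] [Fintype γ'] [DecidableEq γ']
    [Fintype μ] [DecidableEq μ] (P : κ → γ → S0) (D : κ' → γ' → S0) (emb : μ → γ)
    (at' : γ → γ' → S0) (α : μ → γ' → S0) (α' : γ' → μ → S0)
    (hcard : Fintype.card μ = Fintype.card γ')
    (h0 : ∀ q, ∃ σ : μ → S0, (Pi.single q 1 : γ → S0) - ∑ i, σ i • (Pi.single (emb i) 1 : γ → S0) ∈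
      Submodule.span S0 (Set.range P) ∧ at' q = ∑ i, σ i • α i)
    (h1 : ∀ k, ∑ q, P k q • at' q ∈ Submodule.span S0 (Set.range D))
    (h2 : ∀ l, D l ∈ Submodule.span S0 (Set.range fun k => ∑ q, P k q • at' q))
    (h3 : ∀ i', ∑ i, α' i' i • α i = Pi.single i' 1) (h4 : ∀ i, at' (emb i) = α i)
    {A : Type*} [CommRing A] (ι : S0 →+* A) : Nonempty (Cok ι P ≃ₗ[A] Cok ι D) := by
  classical
  set w' : γ' → γ → S0 := fun i' => ∑ i, α' i' i • (Pi.single (emb i) 1 : γ → S0) with hw'
  -- the inverse matrix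
  have hm1 : (Matrix.of α') * (Matrix.of α) = 1 := by
    ext i' j
    have h := congrFun (h3 i') j
    rw [Finset.sum_apply] at h
    rw [Matrix.mul_apply, Matrix.one_apply]
    have h5 : (Pi.single i' (1 : S0) : γ' → S0) j = if i' = j then 1 else 0 := by
      rw [Pi.single_apply]
      by_cases hij : i' = j
      · rw [if_pos hij, if_pos hij.symm]
      · rw [if_neg hij, if_neg (fun h => hij h.symm)]
    rw [← h5, ← h]
    rfl
  have hm2 : (Matrix.of α) * (Matrix.of α') = 1 :=
    (Matrix.mul_eq_one_comm_of_card_eq _ _ _ hcard.symm).mp hm1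
  -- the map over the base ring
  have ga : ∀ i, A9_comb w' (α i) = Pi.single (emb i) 1 := by
    intro i
    rw [A9_comb_apply]
    have e1 : ∀ i', α i i' • w' i' = ∑ j, (α i i' * α' i' j) • (Pi.single (emb j) 1 : γ → S0) := by
      intro i'
      rw [hw', Finset.smul_sum]
      exact Finset.sum_congr rfl fun j _ => smul_smul _ _ _
    rw [Finset.sum_congr rfl fun i' _ => e1 i', Finset.sum_comm]
    have e2 : ∀ j, (∑ i', (α i i' * α' i' j) • (Pi.single (emb j) 1 : γ → S0)) =
        ((1 : Matrix μ μ S0) i j) • (Pi.single (emb j) 1 : γ → S0) := by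
      intro j
      rw [← Finset.sum_smul, ← hm2, Matrix.mul_apply]
      rfl
    rw [Finset.sum_congr rfl fun j _ => e2 j, Finset.sum_eq_single i]
    · rw [Matrix.one_apply_eq, one_smul]
    · intro j _ hj
      rw [Matrix.one_apply_ne (Ne.symm hj), zero_smul]
    · intro h
      exact absurd (Finset.mem_univ i) h
  have gb : ∀ q, (Pi.single q 1 : γ → S0) - A9_comb w' (at' q) ∈
      Submodule.span S0 (Set.range P) := by
    intro q
    obtain ⟨σ, h5, h6⟩ := h0 q
    have h7 : A9_comb w' (at' q) = ∑ i, σ i • (Pi.single (emb i) 1 : γ → S0) := by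
      rw [h6, map_sum]
      exact Finset.sum_congr rfl fun i _ => by rw [map_smul, ga]
    rw [h7]
    exact h5
  have hPk : ∀ k, P k = ∑ q, P k q • (Pi.single q 1 : γ → S0) := by
    intro k
    funext q'
    rw [Finset.sum_apply, Finset.sum_eq_single q']
    · rw [Pi.smul_apply, Pi.single_eq_same, smul_eq_mul, mul_one]
    · intro b _ hb
      rw [Pi.smul_apply, Pi.single_eq_of_ne (Ne.symm hb), smul_zero]
    · intro h
      exact absurd (Finset.mem_univ q') h
  have gc : ∀ k, A9_comb w' (∑ q, P k q • at' q) ∈ Submodule.span S0 (Set.range P) := by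
    intro k
    have h5 : A9_comb w' (∑ q, P k q • at' q) =
        P k - ∑ q, P k q • ((Pi.single q 1 : γ → S0) - A9_comb w' (at' q)) := by
      have h6 : ∑ q, P k q • ((Pi.single q 1 : γ → S0) - A9_comb w' (at' q)) =
          P k - A9_comb w' (∑ q, P k q • at' q) := by
        rw [Finset.sum_congr rfl fun q _ => smul_sub _ _ _, Finset.sum_sub_distrib, ← hPk k,
          map_sum]
        congr 1
        exact Finset.sum_congr rfl fun q _ => (map_smul _ _ _).symm
      rw [h6, sub_sub_cancel]
    rw [h5]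
    refine Submodule.sub_mem _ (Submodule.subset_span ⟨k, rfl⟩) (Submodule.sum_mem _ fun q _ => ?_)
    exact Submodule.smul_mem _ _ (gb q)
  have gd : ∀ l, A9_comb w' (D l) ∈ Submodule.span S0 (Set.range P) := by
    intro l
    have h5 : Submodule.span S0 (Set.range fun k => ∑ q, P k q • at' q) ≤
        (Submodule.span S0 (Set.range P)).comap (A9_comb w') := by
      rw [Submodule.span_le]
      rintro _ ⟨k, rfl⟩
      exact gc k
    exact h5 (h2 l)
  -- the two maps over the ring
  set F0 : (γ → A) →ₗ[A] (γ' → A) := A9_comb (fun q i => ι (at' q i)) with hF0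
  set G0 : (γ' → A) →ₗ[A] (γ → A) := A9_comb (fun i' q => ι (w' i' q)) with hG0
  have hF : rowSpan ι P ≤ (rowSpan ι D).comap F0 := by
    rw [rowSpan, Submodule.span_le]
    rintro _ ⟨k, rfl⟩
    show F0 (fun q => ι (P k q)) ∈ rowSpan ι D
    rw [hF0, A9_comb_map, A9_comb_apply]
    exact A9_push ι D (h1 k)
  have hG : rowSpan ι D ≤ (rowSpan ι P).comap G0 := by
    rw [rowSpan, Submodule.span_le]
    rintro _ ⟨l, rfl⟩
    show G0 (fun q => ι (D l q)) ∈ rowSpan ι P
    rw [hG0, A9_comb_map]
    exact A9_push ι P (gd l)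
  refine ⟨LinearEquiv.ofLinearMap (Submodule.mapQ _ _ F0 hF) (Submodule.mapQ _ _ G0 hG) ?_ ?_⟩
  · refine Submodule.linearMap_qext _ ?_
    refine LinearMap.pi_ext' fun i' => LinearMap.ext_ring ?_
    show Submodule.Quotient.mk (F0 (G0 (Pi.single i' 1))) =
      (Submodule.Quotient.mk (Pi.single i' 1 : γ' → A) : Cok ι D)
    congr 1
    rw [hG0, A9_comb_single]
    have e1 : (fun q => ι (w' i' q)) = ∑ i, ι (α' i' i) • (Pi.single (emb i) 1 : γ → A) := by
      funext q
      show ι ((∑ i, α' i' i • (Pi.single (emb i) 1 : γ → S0)) q) =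
        (∑ i, ι (α' i' i) • (Pi.single (emb i) 1 : γ → A)) q
      rw [Finset.sum_apply, Finset.sum_apply, map_sum]
      refine Finset.sum_congr rfl fun i _ => ?_
      rw [Pi.smul_apply, Pi.smul_apply, smul_eq_mul, smul_eq_mul, map_mul,
        ← congrFun (A9_single_map ι (emb i)) q]
    rw [e1, map_sum]
    have e2 : ∀ i, F0 (ι (α' i' i) • (Pi.single (emb i) 1 : γ → A)) =
        fun j => ι ((α' i' i • α i) j) := by
      intro i
      rw [map_smul, hF0, A9_comb_single, h4]
      funext j
      rw [Pi.smul_apply, Pi.smul_apply, smul_eq_mul, smul_eq_mul, map_mul]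
    rw [Finset.sum_congr rfl fun i _ => e2 i, ← A9_single_map ι i', ← h3 i']
    funext j
    rw [Finset.sum_apply, Finset.sum_apply, map_sum]
  · refine Submodule.linearMap_qext _ ?_
    refine LinearMap.pi_ext' fun q => LinearMap.ext_ring ?_
    show Submodule.Quotient.mk (G0 (F0 (Pi.single q 1))) =
      (Submodule.Quotient.mk (Pi.single q 1 : γ → A) : Cok ι P)
    rw [hF0, A9_comb_single, hG0, A9_comb_map]
    symm
    rw [Submodule.Quotient.eq]
    have e1 : (Pi.single q 1 : γ → A) - (fun i => ι (A9_comb w' (at' q) i)) =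
        fun i => ι (((Pi.single q 1 : γ → S0) - A9_comb w' (at' q)) i) := by
      funext i
      rw [Pi.sub_apply, Pi.sub_apply, map_sub, ← congrFun (A9_single_map ι q) i]
    rw [e1]
    exact A9_push ι P (gb q)

end Pool.Agent.Lib.H54F
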