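import Pool.Agent.Lib.H54F.A6
import Pool.Agent.Lib.H54F.A7
import Pool.Agent.Lib.H54F.A8
import Pool.Agent.Lib.H54F.A9

/-! # A10: soundness of the check -/

namespace Pool.Agent.Lib.H54F

private theorem A10_orec {α : Type} {f : α → Bool} {o : Option α}
    (h : (Option.rec (motive := fun _ => Bool) false f o) = true) :
    ∃ a, o = some a ∧ f a = true := by
  cases o with
  | none => exact absurd h Bool.false_ne_true
  | some a => exact ⟨a, rfl, h⟩

private theorem A10_sel {b x : Bool} (h : sel b x false = true) : b = true ∧ x = true := by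
  cases b
  · exact absurd h Bool.false_ne_true
  · exact ⟨rfl, h⟩

private theorem A10_mono {m : ℕ} {wg : Fin m → ℕ} {Q Q' : ℕ → (Fin m → S0) → Prop} {T : Tr}
    (h : ∀ q x, Q q x → Q' q x) (hT : Inv wg Q T) : Inv wg Q' T := by
  intro i v s hv hs
  obtain ⟨x, hx, hq⟩ := hT i v s hv hs
  exact ⟨x, hx, h i x hq⟩

/-- The data of a successful check. -/
private theorem A10_data {ty : ℕ → Pres} {okG okR : ℕ → Bool} {gens rc : List ℕ}
    {rowOf : ℕ → List ℕ} {c : Cert} (h : chk ty okG okR gens rc rowOf c = true) :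
    ∃ TD TA TT0 TT TR : Tr,
      rowT 7 (unitT (dsumWt ty c.tgt) 0 .E) (dsumRows ty c.tgt 0) 0 .E = some TD ∧
      rowT 7 (unitT (dsumWt ty c.tgt) 0 .E) (c.mins.map List.tail) 0 .E = some TA ∧
      minT okG (unitT (dsumWt ty c.tgt) 0 .E) c.mins .E = some TT0 ∧
      stepT okR rowOf c.steps TT0 = some TT ∧
      rowT 9 TT (rc.map rowOf) 0 .E = some TR ∧
      (dsumWt ty c.tgt).length = c.mins.length ∧
      (dsumWt ty c.tgt).length = c.ali.length ∧
      (dsumRows ty c.tgt 0).length = c.ga.length ∧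
      rc.length = c.be.length ∧
      allL (okGen c.h0 c.h1) (dsumWt ty c.tgt) = true ∧
      allL (fun q => TT.get (fun _ s => Nat.ble 1 s) q) gens = true ∧
      chkMin c.h0 c.h1 TT TA c.mins 0 = true ∧
      chkGa c.h0 c.h1 TR TD c.be 0 = true ∧
      chkGa c.h0 c.h1 TD TR c.ga 0 = true ∧
      chkGa c.h0 c.h1 (unitT (dsumWt ty c.tgt) 0 .E) TA c.ali 0 = true := by
  unfold chk at h
  dsimp only at h
  obtain ⟨TD, hD, h⟩ := A10_orec h
  obtain ⟨TA, hA, h⟩ := A10_orec h
  obtain ⟨TT0, hT0, h⟩ := A10_orec h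
  obtain ⟨TT, hT, h⟩ := A10_orec h
  obtain ⟨TR, hR, h⟩ := A10_orec h
  rw [mapL_eq] at hA hR
  obtain ⟨h1, h⟩ := A10_sel h
  obtain ⟨h2, h⟩ := A10_sel h
  obtain ⟨h3, h⟩ := A10_sel h
  obtain ⟨h4, h⟩ := A10_sel h
  obtain ⟨-, h⟩ := A10_sel h
  obtain ⟨-, h⟩ := A10_sel h
  obtain ⟨-, h⟩ := A10_sel h
  obtain ⟨h8, h⟩ := A10_sel h
  obtain ⟨h9, h⟩ := A10_sel h
  obtain ⟨h10, h⟩ := A10_sel h
  obtain ⟨h11, h⟩ := A10_sel h
  obtain ⟨h12, h⟩ := A10_sel h
  exact ⟨TD, TA, TT0, TT, TR, hD, hA, hT0, hT, hR, natbeq_iff.1 h1, natbeq_iff.1 h2,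
    natbeq_iff.1 h3, natbeq_iff.1 h4, h8, h9, h10, h11, h12, h⟩

private theorem A10_ev_cons {γ : Type*} (cd : γ → ℕ) (k : ℕ) (l : List ℕ) :
    ev cd (k :: l) = ev cd [k] + ev cd l := by
  funext q
  simp [ev]

private theorem A10_ev_one {γ : Type*} [DecidableEq γ] (cd : γ → ℕ)
    (hcd : Function.Injective cd) {k : ℕ} {q : γ} (hq : cd q = idx k) :
    ev cd [k] = mon k • (Pi.single q 1 : γ → S0) := by
  funext q'
  by_cases h : q' = q
  · subst h
    simp [ev, hq]
  · have h1 : idx k ≠ cd q' := by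
      intro h2
      exact h (hcd (h2.symm.trans hq.symm))
    simp [ev, h1, Pi.single_eq_of_ne h]

private theorem A10_sum_single {m : ℕ} (x : Fin m → S0) :
    ∑ q, x q • (Pi.single q 1 : Fin m → S0) = x := by
  funext j
  rw [Finset.sum_apply]
  simp [Pi.single_apply]

/-- Proof. Unfold `chk`: the options are `some U = unitT ..`, `D`, `A`, `T0`, `T`, `R`, and all
boolean checks hold (`sel_eq_ite`). Let `m = (dsumWt ty c.tgt).length` and
`wg i = (dsumWt ty c.tgt).get i`. Choose `F_U, F_D, F_A, F_T, F_R` with `inv_choose` for the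
invariants of `unitT_inv`, `rowT_inv` (for `D`, `A`, `R`), and for `T`: the property
`Q q x = ∀ q' : γ, cd q' = q → ∃ σ : Fin m → S0, e_q' - ∑ σ j • e_(emb j) ∈ span (range P) ∧
x = ∑ σ j • α j`, where `α j = ∑ mon k • F_U (idx k)` over the keys of `c.mins[j].tail` and
`emb j : γ` is the generator with code `c.mins[j].head` (`hG`, `minT_inv`); `Q` holds for the
entries of `T0` (`σ = e_j`; `emb j = q'` since `cd` is injective) and is preserved by the steps
(`stepT_inv`; if `xrem .. (rsum rowOf rs) = some l` then by `ev_rsum`, `ev_xrem`, `ev_unit` the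
vector `e_q' + ev cd l` is in the span of the rows of `P`, all keys of `l` are keys of rows, so their
indices are codes (`hR`, `hk`, `mem_rsum`), `ev cd l = ∑ mon k • e_(q_k)`, and
`σ = ∑ mon k • σ_(q_k)`; characteristic two). Since all codes `cd q` are present in `T` (`hg` and
the check), `F_T (cd q)` has the property `Q`. Apply `cok_iso` with `at' q = F_T (cd q)`,
`h4` from `chkMin_spec` (and `α j = F_A j`), `h3` from `chkGa_spec` for `c.ali` (`F_U i = e_i`,
keys with index `< m`, `F_A j = α j`), `h1` from `chkGa_spec` for `c.be` (for `k : κ`, `rw k` is an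
element of `rc`; `F_R i = ∑ P k q • at' q` by `sum_ev_smul`), and `h2` from `chkGa_spec` for
`c.ga`. The matrix `Dm` has the rows `F_D l = ∑ mon k • F_U (idx k) = ev .. (rows[l])`. -/
theorem chk_sound (ty : ℕ → Pres) (okG okR : ℕ → Bool) (gens rc : List ℕ)
    (rowOf : ℕ → List ℕ) (c : Cert) {γ κ : Type} [Fintype γ] [DecidableEq γ] (cd : γ → ℕ)
    (hcd : Function.Injective cd) (rw' : κ → ℕ)
    (hG : ∀ i, okG i = true → ∃ q, cd q = i) (hR : ∀ r, okR r = true → ∃ k, rw' k = r)
    (hg : ∀ q, cd q ∈ gens) (hrc : ∀ k, rw' k ∈ rc) (hrc' : ∀ r ∈ rc, ∃ k, rw' k = r)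
    (hk : ∀ k, ∀ x ∈ rowOf (rw' k), ∃ q, cd q = idx x)
    (h : chk ty okG okR gens rc rowOf c = true) {A : Type*} [CommRing A] (ι : S0 →+* A) :
    Nonempty (Cok ι (fun k : κ => ev cd (rowOf (rw' k))) ≃ₗ[A] Cok ι (Dm ty c.tgt)) := by
  classical
  have hRk := hR
  obtain ⟨TD, TA, TT0, TT, TR, hD, hA, hT0, hT, hR, l1, l2, l3, l4, h8, h9, h10, h11, h12, h13⟩ :=
    A10_data h
  set sd := dsumWt ty c.tgt with hsd
  set dr := dsumRows ty c.tgt 0 with hdr
  set U := unitT sd 0 .E with hU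
  let wg : Fin sd.length → ℕ := fun i => sd.get i
  have hw : ∀ i, okGen c.h0 c.h1 (wg i) = true := by
    rw [allL_eq, List.all_eq_true] at h8
    intro i
    exact h8 _ (List.get_mem _ _)
  obtain ⟨FU, hFU⟩ := inv_choose (unitT_inv sd)
  obtain ⟨FD, hFD⟩ := inv_choose (rowT_inv hFU hD)
  obtain ⟨FA, hFA⟩ := inv_choose (rowT_inv hFU hA)
  obtain ⟨hm1, hm2⟩ := minT_inv hFU hT0
  -- the minimal generators
  have hm3 : ∀ j : Fin sd.length, ∃ e : γ, ∃ l, c.mins.get (Fin.cast l1 j) = cd e :: l := by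
    intro j
    obtain ⟨q, l, e1, e2⟩ := hm1 (Fin.cast l1 j)
    obtain ⟨e, rfl⟩ := hG q e2
    exact ⟨e, l, e1⟩
  choose emb tl hemb using hm3
  let α : Fin sd.length → Fin sd.length → S0 := fun j =>
    ((tl j).map fun k => mon k • FU (idx k)).sum
  let P : κ → γ → S0 := fun k => ev cd (rowOf (rw' k))
  let Q : ℕ → (Fin sd.length → S0) → Prop := fun q x => ∀ q' : γ, cd q' = q →
    ∃ σ : Fin sd.length → S0,
      (Pi.single q' 1 : γ → S0) - ∑ i, σ i • (Pi.single (emb i) 1 : γ → S0) ∈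
        Submodule.span S0 (Set.range P) ∧ x = ∑ i, σ i • α i
  have hQ0 : Inv wg Q TT0 := by
    refine A10_mono ?_ hm2
    rintro q x ⟨j, l, e1, e2⟩ q' hq'
    let j' : Fin sd.length := Fin.cast l1.symm j
    have e3 : c.mins.get j = cd (emb j') :: tl j' := hemb j'
    rw [e1] at e3
    obtain ⟨e4, e5⟩ := List.cons.inj e3
    have e6 : q' = emb j' := hcd (hq'.trans e4)
    refine ⟨Pi.single j' 1, ?_, ?_⟩
    · have e7 : ∑ i, (Pi.single j' 1 : Fin sd.length → S0) i •
          (Pi.single (emb i) 1 : γ → S0) = Pi.single (emb j') 1 := by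
        rw [Finset.sum_eq_single j']
        · simp
        · intro i _ hi
          rw [Pi.single_eq_of_ne hi, zero_smul]
        · intro hj
          exact absurd (Finset.mem_univ _) hj
      rw [e7, e6, sub_self]
      exact Submodule.zero_mem _
    · have e7 : ∑ i, (Pi.single j' 1 : Fin sd.length → S0) i • α i = α j' := by
        rw [Finset.sum_eq_single j']
        · simp
        · intro i _ hi
          rw [Pi.single_eq_of_ne hi, zero_smul]
        · intro hj
          exact absurd (Finset.mem_univ _) hj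
      rw [e7, e2, e5]
  -- combinations
  have hcomb : ∀ (F : ℕ → Fin sd.length → S0) (l : List ℕ), (∀ k ∈ l, ∃ q, cd q = idx k) →
      (∀ k ∈ l, Q (idx k) (F (idx k))) → ∃ σ : Fin sd.length → S0,
      ev cd l - ∑ i, σ i • (Pi.single (emb i) 1 : γ → S0) ∈ Submodule.span S0 (Set.range P) ∧
        (l.map fun k => mon k • F (idx k)).sum = ∑ i, σ i • α i := by
    intro F l
    induction l with
    | nil =>
      intro _ _
      refine ⟨0, ?_, ?_⟩
      · have e1 : ev cd [] = 0 := by funext q; simp [ev]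
        rw [e1]
        simp
      · simp
    | cons k l ih =>
      intro hl1 hl2
      obtain ⟨σ, s1, s2⟩ := ih (fun x hx => hl1 x (List.mem_cons_of_mem _ hx))
        (fun x hx => hl2 x (List.mem_cons_of_mem _ hx))
      obtain ⟨q, hq⟩ := hl1 k List.mem_cons_self
      obtain ⟨τ, t1, t2⟩ := hl2 k List.mem_cons_self q hq
      refine ⟨mon k • τ + σ, ?_, ?_⟩
      · have e1 : ev cd (k :: l) - ∑ i, (mon k • τ + σ) i • (Pi.single (emb i) 1 : γ → S0) =
            mon k • ((Pi.single q 1 : γ → S0) -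
              ∑ i, τ i • (Pi.single (emb i) 1 : γ → S0)) +
            (ev cd l - ∑ i, σ i • (Pi.single (emb i) 1 : γ → S0)) := by
          rw [A10_ev_cons, A10_ev_one cd hcd hq, smul_sub, Finset.smul_sum]
          have e2 : ∑ i, (mon k • τ + σ) i • (Pi.single (emb i) 1 : γ → S0) =
              ∑ i, mon k • τ i • (Pi.single (emb i) 1 : γ → S0) +
                ∑ i, σ i • (Pi.single (emb i) 1 : γ → S0) := by
            rw [← Finset.sum_add_distrib]
            refine Finset.sum_congr rfl fun i _ => ?_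
            rw [Pi.add_apply, Pi.smul_apply, add_smul, smul_assoc]
          rw [e2]
          abel
        rw [e1]
        exact Submodule.add_mem _ (Submodule.smul_mem _ _ t1) s1
      · rw [List.map_cons, List.sum_cons, s2, t2, Finset.smul_sum, ← Finset.sum_add_distrib]
        refine Finset.sum_congr rfl fun i _ => ?_
        rw [Pi.add_apply, Pi.smul_apply, add_smul, smul_assoc]
  have hQT : Inv wg Q TT := by
    refine stepT_inv ?_ hQ0 hT
    intro q rs l F hrs hx hF q' hq'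
    obtain ⟨x1, x2⟩ := ev_xrem cd hx
    have x3 : ∀ k ∈ l, ∃ q, cd q = idx k := by
      intro k hk1
      obtain ⟨r, hr, hkr⟩ := mem_rsum rowOf rs k (x2 k hk1)
      obtain ⟨k0, rfl⟩ := hRk r (hrs r hr)
      exact hk k0 k hkr
    obtain ⟨σ, s1, s2⟩ := hcomb F l x3 hF
    refine ⟨σ, ?_, s2⟩
    have x4 : ev cd (rsum rowOf rs) ∈ Submodule.span S0 (Set.range P) := by
      rw [ev_rsum]
      refine list_sum_mem ?_
      intro y hy
      obtain ⟨r, hr, rfl⟩ := List.mem_map.1 hy
      obtain ⟨k0, rfl⟩ := hRk r (hrs r hr)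
      exact Submodule.subset_span ⟨k0, rfl⟩
    rw [x1, ← hq', ev_unit cd hcd q'] at x4
    have x5 := Submodule.sub_mem _ x4 s1
    have x6 : (Pi.single q' 1 : γ → S0) + ev cd l -
        (ev cd l - ∑ i, σ i • (Pi.single (emb i) 1 : γ → S0)) =
        (Pi.single q' 1 : γ → S0) - ∑ i, σ i • (Pi.single (emb i) 1 : γ → S0) := by
      have x7 : ∑ i, σ i • (Pi.single (emb i) 1 : γ → S0) =
          -∑ i, σ i • (Pi.single (emb i) 1 : γ → S0) := by
        rw [← Finset.sum_neg_distrib]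
        refine Finset.sum_congr rfl fun i _ => ?_
        rw [← neg_smul, CharTwo.neg_eq]
      rw [sub_eq_add_neg (Pi.single q' 1 : γ → S0), ← x7]
      abel
    rw [x6] at x5
    exact x5
  obtain ⟨FT, hFT⟩ := inv_choose hQT
  obtain ⟨FR, hFR⟩ := inv_choose (rowT_inv hFT hR)
  -- the values of the chosen vectors
  have vU : ∀ i : Fin sd.length, FU i.val = Pi.single i 1 := by
    intro i
    obtain ⟨-, -, hlt, e⟩ := chkGa_spec hFU hFA hw h13 i.val (by rw [← l2]; exact i.isLt)
    exact e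
  have vA : ∀ i : Fin sd.length, FA i.val = α i ∧ FT (cd (emb i)) = α i := by
    intro i
    obtain ⟨q, l, e1, e2, e3, hlt, e4, e5⟩ := chkMin_spec hFT hFA hw h10 i.val
      (by rw [← l1]; exact i.isLt)
    have e6 : c.mins.get (Fin.cast l1 i) = cd (emb i) :: tl i := hemb i
    have e7 : c.mins.get (Fin.cast l1 i) = q :: l := e1
    rw [e6] at e7
    obtain ⟨e8, e9⟩ := List.cons.inj e7
    have e10 : (c.mins.map List.tail).get ⟨i.val, hlt⟩ = tl i := by
      rw [List.get_eq_getElem, List.getElem_map]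
      have : c.mins[i.val] = cd (emb i) :: tl i := e6
      rw [this]
      rfl
    have e11 : FA i.val = α i := by
      rw [e4, e10]
    exact ⟨e11, by rw [e8, e2, e11]⟩
  have vD : ∀ (j : ℕ) (hlt : j < dr.length), (∃ h : j < dr.length,
      FD j = ((dr.get ⟨j, h⟩).map fun k => mon k • FU (idx k)).sum ∧
      ∀ k ∈ dr.get ⟨j, h⟩, ∃ h : idx k < sd.length, FU (idx k) = Pi.single ⟨idx k, h⟩ 1) →
      FD j = Dm ty c.tgt ⟨j, hlt⟩ := by
    rintro j hlt ⟨h1, e1, e2⟩
    have e3 := sum_ev_smul (γ := Fin sd.length) (fun j => j.val) Fin.val_injective FU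
      (dr.get ⟨j, h1⟩) (fun k hk1 => by
        obtain ⟨h3, -⟩ := e2 k hk1
        exact ⟨⟨idx k, h3⟩, rfl⟩)
    rw [e1, ← e3]
    have e4 : ∑ q : Fin sd.length, ev (fun j : Fin sd.length => j.val) (dr.get ⟨j, h1⟩) q •
        FU q.val = ∑ q : Fin sd.length, ev (fun j : Fin sd.length => j.val)
          (dr.get ⟨j, h1⟩) q • (Pi.single q 1 : Fin sd.length → S0) :=
      Finset.sum_congr rfl fun q _ => by rw [vU q]
    rw [e4, A10_sum_single]
    rfl
  have vP : ∀ k : κ, ∑ q, P k q • FT (cd q) =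
      ((rowOf (rw' k)).map fun x => mon x • FT (idx x)).sum := fun k =>
    sum_ev_smul cd hcd FT (rowOf (rw' k)) (hk k)
  refine cok_iso P (Dm ty c.tgt) emb (fun q => FT (cd q)) α
    (fun i' => ev (fun j : Fin sd.length => j.val) (c.ali.get (Fin.cast l2 i'))) rfl ?_ ?_ ?_ ?_
    (fun i => (vA i).2) ι
  · -- h0
    intro q
    rw [allL_eq, List.all_eq_true] at h9
    have g1 := h9 _ (hg q)
    rw [get_eq] at g1
    have g2 : (TT.get Prod.mk (cd q)).2 ≠ 0 := by
      intro g3
      rw [g3] at g1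
      exact absurd g1 (by decide)
    exact (hFT (cd q) _ _ rfl g2).2 q rfl
  · -- h1
    intro k
    rw [vP k]
    obtain ⟨i, hi⟩ := List.get_of_mem (hrc k)
    obtain ⟨f1, f2, hlt, f3, -⟩ := chkGa_spec hFR hFD hw h11 i.val (by rw [← l4]; exact i.isLt)
    have f4 : (rc.map rowOf).get ⟨i.val, hlt⟩ = rowOf (rw' k) := by
      rw [List.get_eq_getElem, List.getElem_map]
      have : rc[i.val] = rw' k := hi
      rw [this]
    rw [f4] at f3
    rw [← f3, f1]
    refine list_sum_mem ?_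
    intro y hy
    obtain ⟨x, hx, rfl⟩ := List.mem_map.1 hy
    obtain ⟨hlt', f5, f6⟩ := f2 x hx
    rw [vD (idx x) hlt' ⟨hlt', f5, f6⟩]
    exact Submodule.smul_mem _ _ (Submodule.subset_span ⟨_, rfl⟩)
  · -- h2
    intro l
    obtain ⟨f1, f2, f3⟩ := chkGa_spec hFD hFR hw h12 l.val (by rw [← l3]; exact l.isLt)
    have f4 := vD l.val l.isLt f3
    have f5 : Dm ty c.tgt l = FD l.val := f4.symm
    rw [f5, f1]
    refine list_sum_mem ?_
    intro y hy
    obtain ⟨x, hx, rfl⟩ := List.mem_map.1 hy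
    obtain ⟨hlt, f6, -⟩ := f2 x hx
    have hlt' : idx x < rc.length := by
      rw [List.length_map] at hlt
      exact hlt
    have f7 : (rc.map rowOf).get ⟨idx x, hlt⟩ = rowOf (rc.get ⟨idx x, hlt'⟩) := by
      rw [List.get_eq_getElem, List.getElem_map]
      rfl
    obtain ⟨k0, hk0⟩ := hrc' _ (List.get_mem rc ⟨idx x, hlt'⟩)
    rw [f7, ← hk0, ← vP k0] at f6
    refine Submodule.smul_mem _ _ (Submodule.subset_span ⟨k0, ?_⟩)
    exact f6.symm
  · -- h3
    intro i'
    obtain ⟨f1, f2, -⟩ := chkGa_spec hFU hFA hw h13 i'.val (by rw [← l2]; exact i'.isLt)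
    have f3 := sum_ev_smul (γ := Fin sd.length) (fun j => j.val) Fin.val_injective FA
      (c.ali.get (Fin.cast l2 i')) (fun k hk1 => by
        obtain ⟨h3, -⟩ := f2 k hk1
        rw [List.length_map, ← l1] at h3
        exact ⟨⟨idx k, h3⟩, rfl⟩)
    have f4 : ∑ i, ev (fun j : Fin sd.length => j.val) (c.ali.get (Fin.cast l2 i')) i • α i =
        ∑ i : Fin sd.length, ev (fun j : Fin sd.length => j.val)
          (c.ali.get (Fin.cast l2 i')) i • FA i.val :=
      Finset.sum_congr rfl fun i _ => by rw [(vA i).1]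
    rw [f4, f3, ← vU i']
    exact f1.symm

end Pool.Agent.Lib.H54F
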