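import Pool.Agent.Lib.H54F.Sem

/-! # A11: direct sums of presentations -/

namespace Pool.Agent.Lib.H54F

/-- A presentation is well formed: there is a weight for every generator, and the indices of all
keys are indices of generators. -/
def Wf (P : Pres) : Prop := P.wt.length = P.n ∧ ∀ r ∈ P.rows, ∀ k ∈ r, idx k < P.n

private lemma A11_idx_shift (k o : ℕ) : idx (k + 262144 * o) = idx k + o := by
  unfold idx
  omega

private lemma A11_ex_shift (k o : ℕ) (v : V) : ex (k + 262144 * o) v = ex k v := by
  unfold ex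
  obtain ⟨⟨a, ha⟩, ⟨b, hb⟩⟩ := v
  simp only
  interval_cases a <;> interval_cases b <;> norm_num <;> omega

private lemma A11_mon_shift (k o : ℕ) : mon (k + 262144 * o) = mon k := by
  have h : ex (k + 262144 * o) = ex k := funext fun v => A11_ex_shift k o v
  unfold mon expo
  rw [h]

/-- The span of the rows in a list. -/
private def A11_RS {A : Type*} [CommRing A] (ι : S0 →+* A) (n o : ℕ) (R : List (List ℕ)) :
    Submodule A (Fin n → A) :=
  Submodule.span A ((fun r : List ℕ => fun q : Fin n => ι (ev (fun j : Fin n => o + j.val) r q)) ''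
    {r | r ∈ R})

private lemma A11_rowSpan {A : Type*} [CommRing A] (ι : S0 →+* A) (n : ℕ) (R : List (List ℕ)) :
    rowSpan ι (fun k : Fin R.length => ev (fun j : Fin n => j.val) (R.get k)) =
      A11_RS ι n 0 R := by
  unfold rowSpan A11_RS
  congr 1
  ext v
  simp only [Set.mem_range, Set.mem_image, Set.mem_ofPred_eq, zero_add]
  constructor
  · rintro ⟨k, rfl⟩
    exact ⟨R.get k, List.get_mem _ _, rfl⟩
  · rintro ⟨r, hr, rfl⟩
    obtain ⟨k, rfl⟩ := List.get_of_mem hr
    exact ⟨k, rfl⟩

/-- Splitting of the coordinates. -/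
private def A11_e (A : Type*) [CommRing A] (a b : ℕ) :
    (Fin (a + b) → A) ≃ₗ[A] (Fin a → A) × (Fin b → A) where
  toFun v := (fun i => v (Fin.castAdd b i), fun j => v (Fin.natAdd a j))
  invFun p := Fin.append p.1 p.2
  map_add' _ _ := rfl
  map_smul' _ _ := rfl
  left_inv v := by
    funext i
    refine Fin.addCases (fun i => ?_) (fun j => ?_) i <;> simp
  right_inv p := by
    ext <;> simp

private lemma A11_prodQuot {A : Type*} [CommRing A] {M N : Type*} [AddCommGroup M] [Module A M]
    [AddCommGroup N] [Module A N] (p : Submodule A M) (q : Submodule A N) :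
    Nonempty (((M × N) ⧸ p.prod q) ≃ₗ[A] (M ⧸ p) × (N ⧸ q)) := by
  have hker : LinearMap.ker (p.mkQ.prodMap q.mkQ) = p.prod q := by
    rw [LinearMap.ker_prodMap, Submodule.ker_mkQ, Submodule.ker_mkQ]
  have hsurj : Function.Surjective (p.mkQ.prodMap q.mkQ) := by
    rintro ⟨x, y⟩
    obtain ⟨x, rfl⟩ := p.mkQ_surjective x
    obtain ⟨y, rfl⟩ := q.mkQ_surjective y
    exact ⟨(x, y), rfl⟩
  exact ⟨(Submodule.quotEquivOfEq _ _ hker.symm).trans
    (LinearMap.quotKerEquivOfSurjective _ hsurj)⟩

private lemma A11_map {A : Type*} [CommRing A] (ι : S0 →+* A) (a b o : ℕ)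
    (R R' : List (List ℕ)) (hR : ∀ r ∈ R, ∀ k ∈ r, idx k < a)
    (hR' : ∀ r ∈ R', ∀ k ∈ r, o + a ≤ idx k) :
    (A11_RS ι (a + b) o (R.map (shiftRow o) ++ R')).map (A11_e A a b : _ →ₗ[A] _) =
      (A11_RS ι a 0 R).prod (A11_RS ι b (o + a) R') := by
  unfold A11_RS
  rw [LinearMap.prod_eq_sup_map, Submodule.map_span, Submodule.map_span, Submodule.map_span,
    ← Submodule.span_union]
  congr 1
  have h1 : ∀ r ∈ R, (A11_e A a b) (fun q : Fin (a + b) =>
      ι (ev (fun j : Fin (a + b) => o + j.val) (shiftRow o r) q)) =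
      ((fun q : Fin a => ι (ev (fun j : Fin a => 0 + j.val) r q)), (0 : Fin b → A)) := by
    intro r hr
    show ((fun i : Fin a => ι (ev (fun j : Fin (a + b) => o + j.val) (shiftRow o r)
      (Fin.castAdd b i))), (fun i : Fin b => ι (ev (fun j : Fin (a + b) => o + j.val)
        (shiftRow o r) (Fin.natAdd a i)))) = _
    refine Prod.ext ?_ ?_
    · funext i
      show ι _ = ι _
      congr 1
      unfold ev shiftRow
      rw [mapL_eq, List.map_map]
      congr 1
      refine List.map_congr_left fun k hk => ?_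
      show (if idx (k + 262144 * o) = o + (Fin.castAdd b i).val then mon (k + 262144 * o) else 0) =
        if idx k = 0 + i.val then mon k else 0
      rw [A11_idx_shift, A11_mon_shift]
      have : (idx k + o = o + (Fin.castAdd b i).val) ↔ (idx k = 0 + i.val) := by
        rw [Fin.val_castAdd]
        omega
      simp only [this]
    · funext i
      show ι _ = 0
      rw [← map_zero ι]
      congr 1
      unfold ev shiftRow
      rw [mapL_eq, List.map_map]
      refine List.sum_eq_zero fun x hx => ?_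
      obtain ⟨k, hk, rfl⟩ := List.mem_map.mp hx
      show (if idx (k + 262144 * o) = o + (Fin.natAdd a i).val then mon (k + 262144 * o) else 0) = 0
      have h := hR r hr k hk
      rw [A11_idx_shift, Fin.val_natAdd, if_neg]
      omega
  have h2 : ∀ r ∈ R', (A11_e A a b) (fun q : Fin (a + b) =>
      ι (ev (fun j : Fin (a + b) => o + j.val) r q)) =
      ((0 : Fin a → A), (fun q : Fin b => ι (ev (fun j : Fin b => o + a + j.val) r q))) := by
    intro r hr
    show ((fun i : Fin a => ι (ev (fun j : Fin (a + b) => o + j.val) r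
      (Fin.castAdd b i))), (fun i : Fin b => ι (ev (fun j : Fin (a + b) => o + j.val)
        r (Fin.natAdd a i)))) = _
    refine Prod.ext ?_ ?_
    · funext i
      show ι _ = 0
      rw [← map_zero ι]
      congr 1
      unfold ev
      refine List.sum_eq_zero fun x hx => ?_
      obtain ⟨k, hk, rfl⟩ := List.mem_map.mp hx
      show (if idx k = o + (Fin.castAdd b i).val then mon k else 0) = 0
      have h := hR' r hr k hk
      have hi := i.isLt
      rw [Fin.val_castAdd, if_neg]
      omega
    · funext i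
      show ι _ = ι _
      congr 1
      unfold ev
      congr 1
      refine List.map_congr_left fun k hk => ?_
      show (if idx k = o + (Fin.natAdd a i).val then mon k else 0) =
        if idx k = o + a + i.val then mon k else 0
      rw [Fin.val_natAdd, add_assoc]
  ext x
  simp only [Set.mem_image, Set.mem_ofPred_eq, Set.mem_union, List.mem_append, List.mem_map]
  constructor
  · rintro ⟨v, ⟨r, hr, rfl⟩, rfl⟩
    rcases hr with ⟨r, hr, rfl⟩ | hr
    · left
      exact ⟨_, ⟨r, hr, rfl⟩, (h1 r hr).symm⟩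
    · right
      exact ⟨_, ⟨r, hr, rfl⟩, (h2 r hr).symm⟩
  · rintro (⟨v, ⟨r, hr, rfl⟩, rfl⟩ | ⟨v, ⟨r, hr, rfl⟩, rfl⟩)
    · exact ⟨_, ⟨shiftRow o r, Or.inl ⟨r, hr, rfl⟩, rfl⟩, h1 r hr⟩
    · exact ⟨_, ⟨r, Or.inr hr, rfl⟩, h2 r hr⟩

private lemma A11_rows_cons (ty : ℕ → Pres) (t : ℕ × ℕ) (l : List (ℕ × ℕ)) (o : ℕ) :
    dsumRows ty (t :: l) o =
      (ty t.1).rows.map (shiftRow o) ++ dsumRows ty l (o + (ty t.1).n) := by
  show appL (mapL (shiftRow o) (ty t.1).rows) (dsumRows ty l (Nat.add o (ty t.1).n)) = _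
  rw [appL_eq, mapL_eq]
  rfl

private lemma A11_wt_cons (ty : ℕ → Pres) (t : ℕ × ℕ) (l : List (ℕ × ℕ)) :
    dsumWt ty (t :: l) = (ty t.1).wt.map (fun s => t.2 + s) ++ dsumWt ty l := by
  show appL (mapL (fun s => Nat.add t.2 s) (ty t.1).wt) (dsumWt ty l) = _
  rw [appL_eq, mapL_eq]
  rfl

private lemma A11_low (ty : ℕ → Pres) (l : List (ℕ × ℕ)) : ∀ o : ℕ,
    ∀ r ∈ dsumRows ty l o, ∀ k ∈ r, o ≤ idx k := by
  induction l with
  | nil =>
    intro o r hr
    exact absurd hr List.not_mem_nil
  | cons t l ih =>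
    intro o r hr k hk
    rw [A11_rows_cons, List.mem_append, List.mem_map] at hr
    rcases hr with ⟨r, hr, rfl⟩ | hr
    · unfold shiftRow at hk
      rw [mapL_eq] at hk
      obtain ⟨k, hk, rfl⟩ := List.mem_map.mp hk
      show o ≤ idx (k + 262144 * o)
      rw [A11_idx_shift]
      omega
    · have := ih _ r hr k hk
      omega

private lemma A11_main (ty : ℕ → Pres) (hty : ∀ t, Wf (ty t)) {A : Type*} [CommRing A]
    (ι : S0 →+* A) (l : List (ℕ × ℕ)) : ∀ (o n : ℕ), n = (dsumWt ty l).length →
    Nonempty (((Fin n → A) ⧸ A11_RS ι n o (dsumRows ty l o)) ≃ₗ[A]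
      (∀ i : Fin l.length, Cok ι (mat (ty (l.get i).1)))) := by
  induction l with
  | nil =>
    intro o n hn
    have hn0 : n = 0 := hn
    subst hn0
    have s1 : Subsingleton ((Fin 0 → A) ⧸ A11_RS ι 0 o (dsumRows ty [] o)) :=
      (Submodule.mkQ_surjective _).subsingleton
    have s2 : Subsingleton (∀ i : Fin ([] : List (ℕ × ℕ)).length,
        Cok ι (mat (ty (([] : List (ℕ × ℕ)).get i).1))) :=
      ⟨fun f g => funext fun i => i.elim0⟩
    exact ⟨LinearEquiv.ofLinearMap 0 0 (LinearMap.ext fun _ => Subsingleton.elim _ _)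
      (LinearMap.ext fun _ => Subsingleton.elim _ _)⟩
  | cons t l ih =>
    intro o n hn
    obtain ⟨hw, hk⟩ := hty t.1
    rw [A11_wt_cons, List.length_append, List.length_map, hw] at hn
    subst hn
    obtain ⟨e2⟩ := ih (o + (ty t.1).n) (dsumWt ty l).length rfl
    have hmap := A11_map ι (ty t.1).n (dsumWt ty l).length o (ty t.1).rows
      (dsumRows ty l (o + (ty t.1).n)) hk (A11_low ty l _)
    rw [← A11_rows_cons] at hmap
    obtain ⟨e3⟩ := A11_prodQuot (A11_RS ι (ty t.1).n 0 (ty t.1).rows)
      (A11_RS ι (dsumWt ty l).length (o + (ty t.1).n) (dsumRows ty l (o + (ty t.1).n)))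
    have e1 : ((Fin (ty t.1).n → A) ⧸ A11_RS ι (ty t.1).n 0 (ty t.1).rows) ≃ₗ[A]
        Cok ι (mat (ty t.1)) :=
      Submodule.quotEquivOfEq _ _ (A11_rowSpan ι (ty t.1).n (ty t.1).rows).symm
    have e4 := Fin.consLinearEquiv A
      (fun i : Fin (l.length + 1) => Cok ι (mat (ty ((t :: l).get i).1)))
    exact ⟨((Submodule.Quotient.equiv _ _ (A11_e A _ _) hmap).trans e3).trans
      ((e1.prodCongr e2).trans e4)⟩

/-- Proof. Induction on the list `l`, for the following statement with an offset `o`: the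
cokernel of the matrix with rows `ev (fun j : Fin (dsumWt ty l).length => o + j)
((dsumRows ty l o).get k)` is isomorphic to the product. For `t :: l` the generators split into
the first `n = (ty t.1).n` ones and the rest, and the rows into those of `ty t.1` shifted by `o`
(`shiftRow`: the index of `k + 262144 * o` is `idx k + o`, the exponents do not change), which
involve only the first `n` generators, and `dsumRows ty l (o + n)`, which involve only the others
(indices at least `o + n`). For such a block matrix the cokernel is the product of the cokernels of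
the blocks (`Submodule.pi`, `Submodule.prod`, `Submodule.quotientEquivProd...` or write down the
two inverse maps). -/
theorem split_cok (ty : ℕ → Pres) (hty : ∀ t, Wf (ty t)) (l : List (ℕ × ℕ)) {A : Type*}
    [CommRing A] (ι : S0 →+* A) :
    Nonempty (Cok ι (Dm ty l) ≃ₗ[A] (∀ i : Fin l.length, Cok ι (mat (ty (l.get i).1)))) := by
  obtain ⟨e⟩ := A11_main ty hty ι l 0 _ rfl
  exact ⟨(Submodule.quotEquivOfEq _ _
    (A11_rowSpan ι (dsumWt ty l).length (dsumRows ty l 0))).trans e⟩

end Pool.Agent.Lib.H54F
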