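import Pool.Agent.Lib.H54F.Sem

/-! # A3: a representation determines the vector -/

namespace Pool.Agent.Lib.H54F

open MvPolynomial

private theorem a3_wt (e : V →₀ ℕ) : wtE e =
    (e (0, 0) + e (0, 1) + e (0, 2)) + 64 * (e (1, 0) + e (1, 1) + e (1, 2)) +
      4096 * (e (2, 0) + e (2, 1) + e (2, 2)) +
      262144 * (e (0, 0) + e (1, 0) + e (2, 0)) + 16777216 * (e (0, 1) + e (1, 1) + e (2, 1)) +
      1073741824 * (e (0, 2) + e (1, 2) + e (2, 2)) +
      68719476736 * (e (0, 0) + e (0, 1) + e (0, 2) + e (1, 0) + e (1, 1) + e (1, 2) + e (2, 0) +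
        e (2, 1) + e (2, 2)) := by
  unfold wtE we
  rw [Fintype.sum_prod_type, Fin.sum_univ_three, Fin.sum_univ_three, Fin.sum_univ_three,
    Fin.sum_univ_three]
  simp only [Fin.val_zero, Fin.val_one, Fin.val_two]
  ring

private theorem a3_pos (e : V →₀ ℕ) : posE e =
    e (0, 0) + 3 * e (0, 1) + 9 * e (1, 0) + 27 * e (1, 1) := by
  unfold posE
  rw [Fintype.sum_prod_type, Fin.sum_univ_three, Fin.sum_univ_three, Fin.sum_univ_three,
    Fin.sum_univ_three]
  have h1 : up (0, 0) = 1 := by decide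
  have h2 : up (0, 1) = 3 := by decide
  have h3 : up (0, 2) = 0 := by decide
  have h4 : up (1, 0) = 9 := by decide
  have h5 : up (1, 1) = 27 := by decide
  have h6 : up (1, 2) = 0 := by decide
  have h7 : up (2, 0) = 0 := by decide
  have h8 : up (2, 1) = 0 := by decide
  have h9 : up (2, 2) = 0 := by decide
  rw [h1, h2, h3, h4, h5, h6, h7, h8, h9]
  ring

/-- Facts on numbers: no carry in base 64. -/
private theorem a3_num {h0 h1 s w r0 r1 r2 c0 c1 c2 t : ℕ} (hs : okDeg h0 h1 s = true)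
    (hw : okGen h0 h1 w = true) (hr : r0 + r1 + r2 = t) (hc : c0 + c1 + c2 = t)
    (he : w + (r0 + 64 * r1 + 4096 * r2 + 262144 * c0 + 16777216 * c1 + 1073741824 * c2 +
      68719476736 * t) = s) : t ≤ 31 ∧ r0 ≤ 2 ∧ r1 ≤ 2 := by
  simp only [okDeg, okGen, Bool.and_eq_true, Nat.ble_eq] at hs hw
  obtain ⟨⟨⟨a1, a2⟩, a3⟩, a4⟩ := hs
  obtain ⟨⟨⟨⟨⟨⟨⟨⟨b1, b2⟩, b3⟩, b4⟩, b5⟩, b6⟩, b7⟩, b8⟩, b9⟩ := hw
  replace a1 : 512 ≤ s / 68719476736 := a1
  replace a2 : s / 68719476736 ≤ 543 := a2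
  replace a3 : s % 64 ≤ h0 := a3
  replace a4 : s / 64 % 64 ≤ h1 := a4
  replace b1 : 512 ≤ w / 68719476736 := b1
  replace b2 : h0 ≤ w % 64 + 2 := b2
  replace b3 : h1 ≤ w / 64 % 64 + 2 := b3
  replace b4 : w % 64 ≤ 31 := b4
  replace b5 : w / 64 % 64 ≤ 31 := b5
  have ht : t ≤ 31 := by omega
  have hr0 : r0 ≤ 31 := by omega
  have hr1 : r1 ≤ 31 := by omega
  obtain ⟨X, hX⟩ : ∃ X, X = r2 + 64 * c0 + 4096 * c1 + 262144 * c2 + 16777216 * t := ⟨_, rfl⟩
  have e0 : s = (w % 64 + r0) + 64 * (w / 64 + (r1 + 64 * X)) := by omega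
  have e1 : s % 64 = w % 64 + r0 := by
    rw [e0, Nat.add_mul_mod_self_left, Nat.mod_eq_of_lt (by omega)]
  have e2 : s / 64 = w / 64 + (r1 + 64 * X) := by
    rw [e0, Nat.add_mul_div_left _ _ (by norm_num), Nat.div_eq_of_lt (by omega), Nat.zero_add]
  have e3 : s / 64 = (w / 64 % 64 + r1) + 64 * (w / 64 / 64 + X) := by omega
  have e4 : s / 64 % 64 = w / 64 % 64 + r1 := by
    rw [e3, Nat.add_mul_mod_self_left, Nat.mod_eq_of_lt (by omega)]
  refine ⟨ht, ?_, ?_⟩
  · omega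
  · omega

/-- The digits of a number are determined. -/
private theorem a3_dig {a b x y : ℕ} (ha : a ≤ 31) (hb : b ≤ 31) (h : a + 64 * x = b + 64 * y) :
    a = b ∧ x = y := by omega

private theorem a3_dig3 {a b x y : ℕ} (ha : a ≤ 2) (hb : b ≤ 2) (h : a + 3 * x = b + 3 * y) :
    a = b ∧ x = y := by omega

private theorem a3_pdig {a b c d a' b' c' d' : ℕ} (h1 : a ≤ 2) (h2 : b ≤ 2) (h3 : c ≤ 2)
    (h1' : a' ≤ 2) (h2' : b' ≤ 2) (h3' : c' ≤ 2)
    (h : a + 3 * b + 9 * c + 27 * d = a' + 3 * b' + 9 * c' + 27 * d') :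
    a = a' ∧ b = b' ∧ c = c' ∧ d = d' := by
  obtain ⟨q0, e0⟩ := a3_dig3 (a := a) (b := a') (x := b + 3 * (c + 3 * d)) (y := b' + 3 * (c' + 3 * d'))
    h1 h1' (by linarith)
  obtain ⟨q1, e1⟩ := a3_dig3 h2 h2' e0
  obtain ⟨q2, e2⟩ := a3_dig3 h3 h3' e1
  exact ⟨q0, q1, q2, e2⟩

private theorem a3_wdig {r0 r1 r2 c0 c1 c2 t s0 s1 s2 d0 d1 d2 t' : ℕ} (hr0 : r0 ≤ 31) (hr1 : r1 ≤ 31)
    (hr2 : r2 ≤ 31) (hc0 : c0 ≤ 31) (hc1 : c1 ≤ 31) (hc2 : c2 ≤ 31) (hs0 : s0 ≤ 31) (hs1 : s1 ≤ 31)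
    (hs2 : s2 ≤ 31) (hd0 : d0 ≤ 31) (hd1 : d1 ≤ 31) (hd2 : d2 ≤ 31)
    (h : r0 + 64 * r1 + 4096 * r2 + 262144 * c0 + 16777216 * c1 + 1073741824 * c2 + 68719476736 * t =
      s0 + 64 * s1 + 4096 * s2 + 262144 * d0 + 16777216 * d1 + 1073741824 * d2 + 68719476736 * t') :
    r0 = s0 ∧ r1 = s1 ∧ r2 = s2 ∧ c0 = d0 ∧ c1 = d1 ∧ c2 = d2 := by
  obtain ⟨q0, h3⟩ := a3_dig (a := r0) (b := s0)
    (x := r1 + 64 * (r2 + 64 * (c0 + 64 * (c1 + 64 * (c2 + 64 * t)))))
    (y := s1 + 64 * (s2 + 64 * (d0 + 64 * (d1 + 64 * (d2 + 64 * t'))))) hr0 hs0 (by linarith)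
  obtain ⟨q1, h4⟩ := a3_dig hr1 hs1 h3
  obtain ⟨q2, h5⟩ := a3_dig hr2 hs2 h4
  obtain ⟨q3, h6⟩ := a3_dig hc0 hd0 h5
  obtain ⟨q4, h7⟩ := a3_dig hc1 hd1 h6
  obtain ⟨q5, h8⟩ := a3_dig hc2 hd2 h7
  exact ⟨q0, q1, q2, q3, q4, q5⟩

private theorem a3_bd {a b c d e f g h i : ℕ} (H : a + b + c + d + e + f + g + h + i ≤ 31) :
    a + b + c ≤ 31 ∧ d + e + f ≤ 31 ∧ g + h + i ≤ 31 ∧ a + d + g ≤ 31 ∧ b + e + h ≤ 31 ∧
      c + f + i ≤ 31 := by
  refine ⟨?_, ?_, ?_, ?_, ?_, ?_⟩ <;> linarith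

private theorem a3_fin {h0 h1 s w : ℕ} (hs : okDeg h0 h1 s = true) (hw : okGen h0 h1 w = true)
    {e : V →₀ ℕ} (he : w + wtE e = s) :
    e (0, 0) + e (0, 1) + e (0, 2) + e (1, 0) + e (1, 1) + e (1, 2) + e (2, 0) +
        e (2, 1) + e (2, 2) ≤ 31 ∧ e (0, 0) + e (0, 1) + e (0, 2) ≤ 2 ∧
      e (1, 0) + e (1, 1) + e (1, 2) ≤ 2 := by
  rw [a3_wt] at he
  exact a3_num hs hw (by ring) (by ring) he

/-- The key arithmetic. `s = wg i + wtE e` with `okDeg h0 h1 s` and `okGen h0 h1 (wg i)` implies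
that the total degree of `e` is at most `31` (look at the quotient by `64^6`), that the first two
row sums of `e` are at most `2` (base 64 digits, no carry, since the digits of `wg i` are at most
`31` and the row and column sums of `e` are at most `31`). So the four exponents which enter
`posE e` are at most `2` and `posE e ≤ 80`; they are the base 3 digits of `posE e`. If also
`s = wg i + wtE e'` and `posE e = posE e'`, then the four exponents agree, and from
`wtE e = wtE e'` (no carry: total degrees at most `31`) the row sums and column sums agree, hence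
all exponents agree. After writing out the sums over the nine variables everything is `omega`. -/
theorem expo_unique {h0 h1 s w : ℕ} (hs : okDeg h0 h1 s = true) (hw : okGen h0 h1 w = true)
    {e e' : V →₀ ℕ} (he : w + wtE e = s) (he' : w + wtE e' = s) (h : posE e = posE e') :
    e = e' := by
  obtain ⟨a1, a2, a3⟩ := a3_fin hs hw he
  obtain ⟨b1, b2, b3⟩ := a3_fin hs hw he'
  rw [a3_pos, a3_pos] at h
  have h2 : wtE e = wtE e' := by
    have h3 : w + wtE e = w + wtE e' := he.trans he'.symm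
    exact Nat.add_left_cancel h3
  clear he he' hs hw
  rw [a3_wt, a3_wt] at h2
  obtain ⟨k00, k01, k10, k11⟩ := a3_pdig
    (le_trans (by rw [Nat.add_assoc]; exact Nat.le_add_right _ _) a2)
    (le_trans (by rw [Nat.add_right_comm]; exact Nat.le_add_left _ _) a2)
    (le_trans (by rw [Nat.add_assoc]; exact Nat.le_add_right _ _) a3)
    (le_trans (by rw [Nat.add_assoc]; exact Nat.le_add_right _ _) b2)
    (le_trans (by rw [Nat.add_right_comm]; exact Nat.le_add_left _ _) b2)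
    (le_trans (by rw [Nat.add_assoc]; exact Nat.le_add_right _ _) b3) h
  obtain ⟨x1, x2, x3, x4, x5, x6⟩ := a3_bd a1
  obtain ⟨y1, y2, y3, y4, y5, y6⟩ := a3_bd b1
  obtain ⟨q0, q1, q2, q3, q4, q5⟩ := a3_wdig x1 x2 x3 x4 x5 x6 y1 y2 y3 y4 y5 y6 h2
  clear x1 x2 x3 x4 x5 x6 y1 y2 y3 y4 y5 y6 a1 a2 a3 b1 b2 b3
  clear h2 h
  have k02 : e (0, 2) = e' (0, 2) := by omega
  have k12 : e (1, 2) = e' (1, 2) := by omega
  have k20 : e (2, 0) = e' (2, 0) := by omega
  have k21 : e (2, 1) = e' (2, 1) := by omega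
  have k22 : e (2, 2) = e' (2, 2) := by omega
  ext v
  obtain ⟨i, j⟩ := v
  fin_cases i <;> fin_cases j <;> assumption

/-- See `expo_unique`. -/
theorem posE_le {h0 h1 s w : ℕ} (hs : okDeg h0 h1 s = true) (hw : okGen h0 h1 w = true)
    {e : V →₀ ℕ} (he : w + wtE e = s) : posE e < 81 := by
  obtain ⟨a1, a2, a3⟩ := a3_fin hs hw he
  rw [a3_pos]
  omega

private theorem a3_th_sub {m : ℕ} (v v' : Fin m → S0) : Th (v - v') = Th v - Th v' := by
  unfold Th
  rw [← Finset.sum_sub_distrib]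
  refine Finset.sum_congr rfl fun i _ => ?_
  rw [Pi.sub_apply, map_sub, mul_sub]

private theorem a3_aeval (p : S0) :
    aeval (fun w => (Polynomial.X : Polynomial (ZMod 2)) ^ up w) p =
      ∑ e ∈ p.support, Polynomial.monomial (posE e) (coeff e p) := by
  conv_lhs => rw [p.as_sum]
  rw [map_sum]
  refine Finset.sum_congr rfl fun e _ => ?_
  rw [aeval_monomial, Finsupp.prod_fintype _ _ (fun _ => pow_zero _)]
  simp only [← pow_mul]
  rw [Finset.prod_pow_eq_pow_sum, ← Polynomial.C_mul_X_pow_eq_monomial]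
  congr 2
  unfold posE
  exact Finset.sum_congr rfl fun v _ => mul_comm _ _

private theorem a3_coeff {m : ℕ} (x : Fin m → S0) (n : ℕ) : (Th x).coeff n =
    ∑ i, ∑ e ∈ (x i).support, if 81 * i.val + posE e = n then coeff e (x i) else 0 := by
  unfold Th
  rw [Polynomial.finsetSum_coeff]
  refine Finset.sum_congr rfl fun i _ => ?_
  rw [a3_aeval, Finset.mul_sum, Polynomial.finsetSum_coeff]
  refine Finset.sum_congr rfl fun e _ => ?_
  rw [← Polynomial.monomial_one_right_eq_X_pow, Polynomial.monomial_mul_monomial, one_mul,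
    Polynomial.coeff_monomial]

/-- Proof. Let `x = v + v'` (so `x = v - v'`; characteristic two). `Th x = 0` by the coefficients.
All terms `e` of `x i` satisfy `wg i + wtE e = s`. `Th x` is the sum over `i` and `e` in the
support of `x i` of `coeff e (x i) * X ^ (81 i + posE e)`; by `posE_le` and `expo_unique` the
exponents `81 i + posE e` of different pairs `(i, e)` are different, so every coefficient of `x` is
a coefficient of `Th x`, hence `0`. -/
theorem rep_inj {m : ℕ} {wg : Fin m → ℕ} {h0 h1 s N : ℕ} (hw : ∀ i, okGen h0 h1 (wg i) = true)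
    (hs : okDeg h0 h1 s = true) {v v' : Fin m → S0} (h : Rep wg v N s) (h' : Rep wg v' N s) :
    v = v' := by
  classical
  have hT : Th (v - v') = 0 := by
    rw [a3_th_sub, sub_eq_zero]
    ext n
    rw [h.2 n, h'.2 n]
  have hsup : ∀ i, ∀ e ∈ ((v - v') i).support, wg i + wtE e = s := by
    intro i e he
    rw [Pi.sub_apply] at he
    rcases Finset.mem_union.1 (support_sub _ _ _ he) with h1 | h1
    · exact h.1 i e h1
    · exact h'.1 i e h1
  rw [← sub_eq_zero]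
  generalize v - v' = x at hT hsup
  funext i0
  by_contra hne
  obtain ⟨e0, he0⟩ := Finset.nonempty_iff_ne_empty.2 (fun h2 => hne (support_eq_empty.1 h2))
  have h1 := a3_coeff x (81 * i0.val + posE e0)
  rw [hT, Polynomial.coeff_zero] at h1
  have hp0 := posE_le hs (hw i0) (hsup i0 e0 he0)
  have h2 : ∑ i, ∑ e ∈ (x i).support,
      (if 81 * i.val + posE e = 81 * i0.val + posE e0 then coeff e (x i) else 0) =
        coeff e0 (x i0) := by
    rw [Finset.sum_eq_single i0, Finset.sum_eq_single e0, if_pos rfl]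
    · intro e he hee
      rw [if_neg]
      intro h3
      exact hee (expo_unique hs (hw i0) (hsup i0 e he) (hsup i0 e0 he0) (by omega))
    · intro h3
      exact absurd he0 h3
    · intro i _ hi
      refine Finset.sum_eq_zero fun e he => ?_
      rw [if_neg]
      intro h3
      have hp := posE_le hs (hw i) (hsup i e he)
      exact hi (Fin.ext (by omega))
    · intro h3
      exact absurd (Finset.mem_univ i0) h3
  rw [h2] at h1
  exact (mem_support_iff.1 he0) h1.symm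

end Pool.Agent.Lib.H54F
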