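import Pool.Agent.Lib.H54F.A5

/-! # A6: the tables of the check -/

namespace Pool.Agent.Lib.H54F

variable {m : ℕ} {wg : Fin m → ℕ} {Q : ℕ → (Fin m → S0) → Prop}

private theorem A6_unit_aux (sd : List ℕ) : ∀ (l : List ℕ) (i : ℕ) (T : Tr), sd.drop i = l →
    Inv (fun i : Fin sd.length => sd.get i)
      (fun i x => ∃ h : i < sd.length, x = Pi.single ⟨i, h⟩ 1) T →
    Inv (fun i : Fin sd.length => sd.get i)
      (fun i x => ∃ h : i < sd.length, x = Pi.single ⟨i, h⟩ 1) (unitT l i T) := by
  intro l
  induction l with
  | nil =>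
    intro i T _ hT
    exact hT
  | cons s l ih =>
    intro i T hd hT
    have hi : i < sd.length := by
      by_contra hcon
      rw [List.drop_eq_nil_of_le (not_lt.1 hcon)] at hd
      exact absurd hd (by simp)
    have hd2 := List.drop_eq_getElem_cons hi
    rw [hd2] at hd
    have hs : sd[i] = s := (List.cons.inj hd).1
    have hl : sd.drop (i + 1) = l := (List.cons.inj hd).2
    have e1 : unitT (s :: l) i T = force (Nat.shiftLeft 1 (Nat.mul 81 i)) fun v =>
      force s fun s => unitT l (Nat.succ i) (Tr.set v s 7 T i) := rfl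
    rw [e1, force_eq, force_eq]
    refine ih (i + 1) _ hl ?_
    have h1 := inv_set (wg := fun i : Fin sd.length => sd.get i)
      (Q := fun i x => ∃ h : i < sd.length, x = Pi.single ⟨i, h⟩ 1) hT
      (rep_unit (wg := fun i : Fin sd.length => sd.get i) ⟨i, hi⟩) (q := i) ⟨hi, rfl⟩ 7
    have h2 : sd.get ⟨i, hi⟩ = s := hs
    rw [h2] at h1
    exact h1

private theorem A6_row_aux {T : Tr} {F : ℕ → Fin m → S0} (hF : Fits wg Q T F) {d : ℕ}
    (ls0 : List (List ℕ)) : ∀ (ls : List (List ℕ)) (i : ℕ) (R0 R : Tr), ls0.drop i = ls →
    Inv wg (fun i x => ∃ h : i < ls0.length,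
      x = ((ls0.get ⟨i, h⟩).map fun k => mon k • F (idx k)).sum ∧
      ∀ k ∈ ls0.get ⟨i, h⟩, Q (idx k) (F (idx k))) R0 → rowT d T ls i R0 = some R →
    Inv wg (fun i x => ∃ h : i < ls0.length,
      x = ((ls0.get ⟨i, h⟩).map fun k => mon k • F (idx k)).sum ∧
      ∀ k ∈ ls0.get ⟨i, h⟩, Q (idx k) (F (idx k))) R := by
  intro ls
  induction ls with
  | nil =>
    intro i R0 R _ hR0 h
    have h1 : (some R0 : Option Tr) = some R := h
    rw [← Option.some.inj h1]
    exact hR0
  | cons l ls ih =>
    intro i R0 R hd hR0 h
    have hi : i < ls0.length := by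
      by_contra hcon
      rw [List.drop_eq_nil_of_le (not_lt.1 hcon)] at hd
      exact absurd hd (by simp)
    have hd2 := List.drop_eq_getElem_cons hi
    rw [hd2] at hd
    have hs : ls0[i] = l := (List.cons.inj hd).1
    have hl : ls0.drop (i + 1) = ls := (List.cons.inj hd).2
    have e1 : rowT d T (l :: ls) i R0 = force (sdeg T l) fun s =>
      sel (Nat.ble big s) (Option.rec none
        (fun v => force v fun v => rowT d T ls (Nat.succ i) (Tr.set v s d R0 i)) (comb T s l 0))
        none := rfl
    rw [e1, force_eq, sel_eq_ite] at h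
    split_ifs at h with hb
    have hb' : big ≤ sdeg T l := Nat.le_of_ble_eq_true hb
    cases hc : comb T (sdeg T l) l 0 with
    | none =>
      rw [hc] at h
      exact absurd h (by simp)
    | some v =>
      rw [hc] at h
      have h' : (force v fun v => rowT d T ls (Nat.succ i) (Tr.set v (sdeg T l) d R0 i)) = some R :=
        h
      rw [force_eq] at h'
      obtain ⟨c1, c2⟩ := comb_spec hF hb' hc
      refine ih (i + 1) _ R hl ?_ h'
      refine inv_set hR0 c1 ⟨hi, ?_, ?_⟩ d
      · show _ = ((ls0[i]).map fun k => mon k • F (idx k)).sum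
        rw [hs]
      · show ∀ k ∈ ls0[i], Q (idx k) (F (idx k))
        rw [hs]
        exact c2

private theorem A6_min_aux {okG : ℕ → Bool} {U : Tr} {F : ℕ → Fin m → S0} (hF : Fits wg Q U F)
    (ls0 : List (List ℕ)) : ∀ (ls : List (List ℕ)) (T0 T : Tr), (∀ a ∈ ls, a ∈ ls0) →
    Inv wg (fun q x => ∃ (j : Fin ls0.length) (l : List ℕ), ls0.get j = q :: l ∧
      x = (l.map fun k => mon k • F (idx k)).sum) T0 → minT okG U ls T0 = some T →
    (∀ a ∈ ls, ∃ q l, a = q :: l ∧ okG q = true) ∧
    Inv wg (fun q x => ∃ (j : Fin ls0.length) (l : List ℕ), ls0.get j = q :: l ∧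
      x = (l.map fun k => mon k • F (idx k)).sum) T := by
  intro ls
  induction ls with
  | nil =>
    intro T0 T _ hT0 h
    have h1 : (some T0 : Option Tr) = some T := h
    rw [← Option.some.inj h1]
    exact ⟨fun a ha => absurd ha (by simp), hT0⟩
  | cons ql ls ih =>
    intro T0 T hsub hT0 h
    cases ql with
    | nil =>
      have h1 : (none : Option Tr) = some T := h
      exact absurd h1 (by simp)
    | cons q l =>
      have e1 : minT okG U ((q :: l) :: ls) T0 = force (sdeg U l) fun s =>
        sel (Nat.ble big s) (sel (okG q) (Option.rec none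
          (fun v => force v fun v => minT okG U ls (Tr.set v s 9 T0 q)) (comb U s l 0)) none)
          none := rfl
      rw [e1, force_eq, sel_eq_ite] at h
      split_ifs at h with hb
      rw [sel_eq_ite] at h
      split_ifs at h with hok
      have hb' : big ≤ sdeg U l := Nat.le_of_ble_eq_true hb
      cases hc : comb U (sdeg U l) l 0 with
      | none =>
        rw [hc] at h
        exact absurd h (by simp)
      | some v =>
        rw [hc] at h
        have h' : (force v fun v => minT okG U ls (Tr.set v (sdeg U l) 9 T0 q)) = some T := h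
        rw [force_eq] at h'
        obtain ⟨c1, c2⟩ := comb_spec hF hb' hc
        obtain ⟨j, hj⟩ := List.mem_iff_get.1 (hsub (q :: l) List.mem_cons_self)
        have hi := ih (Tr.set v (sdeg U l) 9 T0 q) T
          (fun a ha => hsub a (List.mem_cons_of_mem _ ha))
          (inv_set hT0 c1 ⟨j, l, hj, rfl⟩ 9) h'
        refine ⟨?_, hi.2⟩
        intro a ha
        rcases List.mem_cons.1 ha with rfl | ha
        · exact ⟨q, l, rfl, hok⟩
        · exact hi.1 a ha

/-- Proof. Induction over the list `l'` of the remaining weights, for a general table which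
satisfies the invariant (start `inv_empty`), `inv_set`, `rep_unit`; `force_eq`. -/
theorem unitT_inv (sd : List ℕ) :
    Inv (fun i : Fin sd.length => sd.get i)
      (fun i x => ∃ h : i < sd.length, x = Pi.single ⟨i, h⟩ 1) (unitT sd 0 .E) := by
  exact A6_unit_aux sd sd 0 .E rfl inv_empty

/-- Proof. Induction over `ls` with general start index and start table; `comb_spec`, `inv_set`. -/
theorem rowT_inv {T R : Tr} {F : ℕ → Fin m → S0} (hF : Fits wg Q T F) {d : ℕ}
    {ls : List (List ℕ)} (h : rowT d T ls 0 .E = some R) :
    Inv wg (fun i x => ∃ h : i < ls.length,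
      x = ((ls.get ⟨i, h⟩).map fun k => mon k • F (idx k)).sum ∧
      ∀ k ∈ ls.get ⟨i, h⟩, Q (idx k) (F (idx k))) R := by
  exact A6_row_aux hF ls ls 0 .E R rfl inv_empty h

/-- Proof. Induction over `ls` with general start table; `comb_spec`, `inv_set`. -/
theorem minT_inv {okG : ℕ → Bool} {U T : Tr} {F : ℕ → Fin m → S0} (hF : Fits wg Q U F)
    {ls : List (List ℕ)} (h : minT okG U ls .E = some T) :
    (∀ j : Fin ls.length, ∃ q l, ls.get j = q :: l ∧ okG q = true) ∧
    Inv wg (fun q x => ∃ (j : Fin ls.length) (l : List ℕ), ls.get j = q :: l ∧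
      x = (l.map fun k => mon k • F (idx k)).sum) T := by
  have h1 := A6_min_aux hF ls ls .E T (fun a ha => ha) inv_empty h
  refine ⟨fun j => ?_, h1.2⟩
  exact h1.1 (ls.get j) (List.get_mem ls j)

/-- Proof. Induction over `ls`: `inv_choose`, `comb_spec`, `inv_set`, `hQ`; `allL_eq`. -/
theorem stepT_inv {okR : ℕ → Bool} {rowOf : ℕ → List ℕ}
    (hQ : ∀ (q : ℕ) (rs l : List ℕ) (F : ℕ → Fin m → S0), (∀ r ∈ rs, okR r = true) →
      xrem (Nat.mul 262144 q) (rsum rowOf rs) = some l → (∀ k ∈ l, Q (idx k) (F (idx k))) →
      Q q ((l.map fun k => mon k • F (idx k)).sum))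
    {ls : List (List ℕ)} {T T' : Tr} (hT : Inv wg Q T) (h : stepT okR rowOf ls T = some T') :
    Inv wg Q T' := by
  induction ls generalizing T with
  | nil =>
    have h1 : (some T : Option Tr) = some T' := h
    rw [← Option.some.inj h1]
    exact hT
  | cons x ls ih =>
    cases x with
    | nil =>
      have h1 : (none : Option Tr) = some T' := h
      exact absurd h1 (by simp)
    | cons s x' =>
      cases x' with
      | nil =>
        have h1 : (none : Option Tr) = some T' := h
        exact absurd h1 (by simp)
      | cons q rs =>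
        have e1 : stepT okR rowOf ((s :: q :: rs) :: ls) T =
          sel (Nat.ble big s) (sel (allL okR rs) (Option.rec none (fun l => Option.rec none
            (fun v => force v fun v => force s fun s => stepT okR rowOf ls (Tr.set v s 9 T q))
            (comb T s l 0)) (xrem (Nat.mul 262144 q) (rsum rowOf rs))) none) none := rfl
        rw [e1, sel_eq_ite] at h
        split_ifs at h with hb
        rw [sel_eq_ite] at h
        split_ifs at h with hok
        have hb' : big ≤ s := Nat.le_of_ble_eq_true hb
        rw [allL_eq, List.all_eq_true] at hok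
        cases hx : xrem (Nat.mul 262144 q) (rsum rowOf rs) with
        | none =>
          rw [hx] at h
          exact absurd h (by simp)
        | some l =>
          rw [hx] at h
          have h' : (Option.rec none
            (fun v => force v fun v => force s fun s => stepT okR rowOf ls (Tr.set v s 9 T q))
            (comb T s l 0) : Option Tr) = some T' := h
          cases hc : comb T s l 0 with
          | none =>
            rw [hc] at h'
            exact absurd h' (by simp)
          | some v =>
            rw [hc] at h'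
            have h2 : (force v fun v => force s fun s => stepT okR rowOf ls (Tr.set v s 9 T q)) =
              some T' := h'
            rw [force_eq, force_eq] at h2
            obtain ⟨F, hF⟩ := inv_choose hT
            obtain ⟨c1, c2⟩ := comb_spec hF hb' hc
            exact ih (inv_set hT c1 (hQ q rs l F hok hx c2) 9) h2

end Pool.Agent.Lib.H54F
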