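import Pool.Agent.Lib.H54F.Push

/-! # B1: components of polynomials -/

namespace Pool.Agent.Lib.H54F

open MvPolynomial

variable {k k' : Type*} [CommSemiring k] [CommSemiring k']

/-- Proof. `ext`, `coeff_compA` and `map_add`. -/
theorem compA_add (β : k →+ k') (μ : E) (f g : MvPolynomial V k) :
    compA β μ (f + g) = compA β μ f + compA β μ g := by
  ext e
  rw [coeff_add, coeff_compA, coeff_compA, coeff_compA, coeff_add, map_add]

/-- Proof. `ext`, `coeff_compA`. -/
theorem compA_zero (β : k →+ k') (μ : E) : compA β μ (0 : MvPolynomial V k) = 0 := by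
  ext e
  rw [coeff_compA, coeff_zero, coeff_zero, map_zero]

/-- Proof. `ext e'`; `coeff_compA`, `coeff_monomial`: `dbl μ e' = e` if and only if `par e = μ` and
`half e = e'` (`par_dbl`, `half_dbl`, `dbl_par_half`). -/
theorem compA_monomial (β : k →+ k') (μ : E) (e : V →₀ ℕ) (a : k) :
    compA β μ (monomial e a) = if par e = μ then monomial (half e) (β a) else 0 := by
  ext e'
  rw [coeff_compA, coeff_monomial]
  by_cases h : par e = μ
  · rw [if_pos h, coeff_monomial]
    by_cases h1 : half e = e'
    · rw [if_pos h1, if_pos]
      rw [← h, ← h1, dbl_par_half]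
    · rw [if_neg h1, if_neg, map_zero]
      intro h2
      exact h1 (by rw [h2, half_dbl])
  · rw [if_neg h, coeff_zero, if_neg, map_zero]
    intro h2
    exact h (by rw [h2, par_dbl])

/-- Proof. Both sides are additive in `f` and in `g` (`(g + g') ^ 2 = g ^ 2 + g' ^ 2` in
characteristic two), so by `MvPolynomial.induction_on'` (twice) we may take monomials
`g = monomial e a`, `f = monomial e' b`. Then `g ^ 2 * f = monomial (e + e + e') (a ^ 2 * b)` with
`par (e + e + e') = par e'` and `half (e + e + e') = e + half e'`; `compA_monomial`. -/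
theorem compA_sq_mul {K : Type*} [CommRing K] [CharP K 2] (β : K →+ K)
    (hβ : ∀ a c, β (a ^ 2 * c) = a * β c) (μ : E) (g f : MvPolynomial V K) :
    compA β μ (g ^ 2 * f) = g * compA β μ f := by
  have key : ∀ (e : V →₀ ℕ) (a : K) (e' : V →₀ ℕ) (b : K),
      compA β μ (monomial e a ^ 2 * monomial e' b) = monomial e a * compA β μ (monomial e' b) := by
    intro e a e' b
    rw [monomial_pow, monomial_mul, compA_monomial, compA_monomial]
    have h1 : par (2 • e + e') = par e' := by
      funext v
      apply Fin.ext
      rw [par_apply, par_apply, Finsupp.add_apply, Finsupp.smul_apply, smul_eq_mul]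
      omega
    have h2 : half (2 • e + e') = e + half e' := by
      ext v
      rw [half_apply, Finsupp.add_apply, Finsupp.add_apply, Finsupp.smul_apply, smul_eq_mul,
        half_apply]
      omega
    rw [h1, h2, hβ]
    split_ifs
    · rw [monomial_mul]
    · rw [mul_zero]
  have key2 : ∀ (e : V →₀ ℕ) (a : K) (f : MvPolynomial V K),
      compA β μ (monomial e a ^ 2 * f) = monomial e a * compA β μ f := by
    intro e a f
    induction f using MvPolynomial.induction_on' with
    | monomial u b => exact key e a u b
    | add p q hp hq => rw [mul_add, compA_add, compA_add, hp, hq, mul_add]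
  induction g using MvPolynomial.induction_on' with
  | monomial u b => exact key2 u b f
  | add p q hp hq =>
    rw [CharTwo.add_sq, add_mul, compA_add, hp, hq, add_mul]

/-- Proof. `compA_sq_mul`; `a ^ 2 = a` in `ZMod 2` (`decide`). -/
theorem comp_sq_mul (μ : E) (g f : S0) : comp μ (g ^ 2 * f) = g * comp μ f := by
  refine compA_sq_mul (AddMonoidHom.id (ZMod 2)) ?_ μ g f
  intro a c
  have h : ∀ a c : ZMod 2, a ^ 2 * c = a * c := by decide
  exact h a c

end Pool.Agent.Lib.H54F
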