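import Pool.Agent.Lib.H54F.Push

/-! # B5: classes -/

namespace Pool.Agent.Lib.H54F

open MvPolynomial

/-- Proof. `Nat.cast_add`, `Finset.sum_add_distrib`. -/
theorem cl_add (f g : V → ℕ) : cl (fun v => f v + g v) = cl f + cl g := by
  refine Prod.ext ?_ ?_
  · funext i
    show ∑ j, ((f (i, j) + g (i, j) : ℕ) : ZMod 2) = ∑ j, (f (i, j) : ZMod 2) + ∑ j, (g (i, j) : ZMod 2)
    rw [← Finset.sum_add_distrib]
    exact Finset.sum_congr rfl fun j _ => Nat.cast_add _ _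
  · funext j
    show ∑ i, ((f (i, j) + g (i, j) : ℕ) : ZMod 2) = ∑ i, (f (i, j) : ZMod 2) + ∑ i, (g (i, j) : ZMod 2)
    rw [← Finset.sum_add_distrib]
    exact Finset.sum_congr rfl fun i _ => Nat.cast_add _ _

/-- Proof. `(e v % 2 : ZMod 2) = e v` (`ZMod.natCast_mod`). -/
theorem clE_par (e : V →₀ ℕ) : clE (par e) = cl e := by
  refine Prod.ext ?_ ?_
  · funext i
    show ∑ j, ((e (i, j) % 2 : ℕ) : ZMod 2) = ∑ j, (e (i, j) : ZMod 2)
    exact Finset.sum_congr rfl fun j _ => ZMod.natCast_mod _ _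
  · funext j
    show ∑ i, ((e (i, j) % 2 : ℕ) : ZMod 2) = ∑ i, (e (i, j) : ZMod 2)
    exact Finset.sum_congr rfl fun i _ => ZMod.natCast_mod _ _

/-- Proof. `cl_add` and characteristic two. -/
theorem cl_dbl (μ : E) (e : V →₀ ℕ) : cl (dbl μ e) = clE μ := by
  have h : ∀ v, ((e v + e v + (μ v).val : ℕ) : ZMod 2) = (((μ v).val : ℕ) : ZMod 2) := by
    intro v
    rw [Nat.cast_add, Nat.cast_add, CharTwo.add_self_eq_zero, zero_add]
  refine Prod.ext ?_ ?_
  · funext i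
    show ∑ j, ((e (i, j) + e (i, j) + (μ (i, j)).val : ℕ) : ZMod 2) = ∑ j, (((μ (i, j)).val : ℕ) : ZMod 2)
    exact Finset.sum_congr rfl fun j _ => h (i, j)
  · funext j
    show ∑ i, ((e (i, j) + e (i, j) + (μ (i, j)).val : ℕ) : ZMod 2) = ∑ i, (((μ (i, j)).val : ℕ) : ZMod 2)
    exact Finset.sum_congr rfl fun i _ => h (i, j)

/-- Proof. Suppose the coefficient of `x^e` in `pm P k q` is not zero. It is the coefficient of
`x^(dbl q.2 e)` in `monomial (pexp k.2) 1 * P k.1 q.1` (`coeff_comp`, `coeff_monomial_mul'`), so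
`dbl q.2 e = pexp k.2 + e'` with `e'` in the support of `P k.1 q.1`. Take classes: `clE q.2 = clE
k.2 + cl e'`, hence `clE q.2 + a q.1 = clE k.2 + b k.1`, a contradiction. -/
theorem pm_class {κ γ : Type} (P : κ → γ → S0) (b : κ → Cl) (a : γ → Cl)
    (h : ∀ k q, ∀ e ∈ (P k q).support, cl e + a q = b k) (k : κ × E) (q : γ × E)
    (hne : clE k.2 + b k.1 ≠ clE q.2 + a q.1) : pm P k q = 0 := by
  unfold pm
  refine MvPolynomial.ext _ _ fun e => ?_
  rw [coeff_comp, coeff_zero, coeff_monomial_mul']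
  split_ifs with hle
  · rw [one_mul]
    by_contra hc
    apply hne
    have h1 := h k.1 q.1 _ (mem_support_iff.2 hc)
    have h2 : dbl q.2 e = pexp k.2 + (dbl q.2 e - pexp k.2) := (add_tsub_cancel_of_le hle).symm
    have h3 : cl (dbl q.2 e) = cl (pexp k.2) + cl (dbl q.2 e - pexp k.2 : V →₀ ℕ) := by
      conv_lhs => rw [h2]
      exact cl_add _ _
    rw [cl_dbl] at h3
    have h4 : cl (pexp k.2) = clE k.2 := rfl
    rw [h3, h4, ← h1, add_assoc]
  · rfl

/-- The parity of a class. -/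
def prt (c : Cl) : ZMod 2 := ∑ i, c.1 i + ∑ j, c.2 j

/-- Proof. `Finset.sum_add_distrib`. -/
theorem prt_add (c d : Cl) : prt (c + d) = prt c + prt d := by
  have h1 : ∑ i, (c + d).1 i = ∑ i, c.1 i + ∑ i, d.1 i := by
    rw [← Finset.sum_add_distrib]
    rfl
  have h2 : ∑ i, (c + d).2 i = ∑ i, c.2 i + ∑ i, d.2 i := by
    rw [← Finset.sum_add_distrib]
    rfl
  unfold prt
  rw [h1, h2]
  ring

/-- Proof. Both sums are the sum of all `μ v` (`Finset.sum_comm`), and `x + x = 0`. -/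
theorem prt_clE (μ : E) : prt (clE μ) = 0 := by
  have h1 : ∑ i, (clE μ).1 i = ∑ i, ∑ j, (((μ (i, j)).val : ℕ) : ZMod 2) := rfl
  have h2 : ∑ j, (clE μ).2 j = ∑ j, ∑ i, (((μ (i, j)).val : ℕ) : ZMod 2) := rfl
  unfold prt
  rw [h1, h2, Finset.sum_comm]
  exact CharTwo.add_self_eq_zero _

/-- Proof. `Nat.testBit_xor`; the four cases of the two bits. -/
theorem toCl_xor (c d : ℕ) : toCl (Nat.xor c d) = toCl c + toCl d := by
  have h : ∀ n : ℕ, (if (Nat.xor c d).testBit n then (1 : ZMod 2) else 0) =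
      (if c.testBit n then 1 else 0) + (if d.testBit n then 1 else 0) := by
    intro n
    have h1 : (Nat.xor c d).testBit n = (c.testBit n ^^ d.testBit n) := Nat.testBit_xor c d n
    rw [h1]
    cases c.testBit n <;> cases d.testBit n <;> decide
  refine Prod.ext ?_ ?_
  · funext i
    exact h i.val
  · funext j
    exact h (3 + j.val)

/-- Proof. The numbers have the same bits at the places `0, ..., 5`, the higher bits are `0`
(`Nat.eq_of_testBit_eq`, `Nat.testBit_lt_two_pow`). Or `decide` over `c`, `d`. -/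
theorem toCl_inj {c d : ℕ} (hc : c < 64) (hd : d < 64) (h : toCl c = toCl d) : c = d := by
  have hb : ∀ n : ℕ, (if c.testBit n then (1 : ZMod 2) else 0) = (if d.testBit n then 1 else 0) →
      c.testBit n = d.testBit n := by
    intro n
    cases c.testBit n <;> cases d.testBit n <;> decide
  refine Nat.eq_of_testBit_eq fun n => ?_
  rcases lt_or_ge n 3 with h3 | h3
  · exact hb n (congrFun (congrArg Prod.fst h) (⟨n, h3⟩ : Fin 3))
  rcases lt_or_ge n 6 with h6 | h6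
  · have h1 := congrFun (congrArg Prod.snd h) (⟨n - 3, by omega⟩ : Fin 3)
    have h2 : 3 + (n - 3) = n := by omega
    have h4 : (if c.testBit (3 + (n - 3)) then (1 : ZMod 2) else 0) =
        (if d.testBit (3 + (n - 3)) then 1 else 0) := h1
    rw [h2] at h4
    exact hb n h4
  · have h7 : 64 ≤ 2 ^ n := by
      calc 64 = 2 ^ 6 := by norm_num
        _ ≤ 2 ^ n := Nat.pow_le_pow_right (by norm_num) h6
    rw [Nat.testBit_lt_two_pow (by omega : c < 2 ^ n), Nat.testBit_lt_two_pow (by omega : d < 2 ^ n)]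

/-- Proof. 64 cases (`interval_cases`, `decide`). -/
theorem prt_toCl {c : ℕ} (hc : c < 64) :
    prt (toCl c) = (Nat.mod (Nat.shiftRight 0x6996966996696996 c) 2 : ℕ) := by
  have h : ∀ c : Fin 64, prt (toCl c.val) = (Nat.mod (Nat.shiftRight 0x6996966996696996 c.val) 2 : ℕ) := by
    decide +kernel
  exact h ⟨c, hc⟩

/-- The vector with `r` ones. -/
private def B5_rp (r : Fin 4) (i : Fin 3) : ZMod 2 := if i.val < r.val then 1 else 0

private theorem B5_three (x : Fin 3 → ZMod 2) : ∃ r : Fin 4, ∑ i, x i = ((r.val : ℕ) : ZMod 2) ∧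
    ∀ Q : (Fin 3 → ZMod 2) → Prop, (∀ y, Q y → Q (y ∘ Equiv.swap 0 1)) →
      (∀ y, Q y → Q (y ∘ Equiv.swap 1 2)) → Q (B5_rp r) → Q x := by
  have hx : x = ![x 0, x 1, x 2] := by
    funext i
    fin_cases i <;> rfl
  have h01 : ∀ a : ZMod 2, a = 0 ∨ a = 1 := by decide
  rw [hx]
  rcases h01 (x 0) with h0 | h0 <;> rcases h01 (x 1) with h1 | h1 <;> rcases h01 (x 2) with h2 | h2 <;>
    rw [h0, h1, h2]
  · refine ⟨0, by decide, fun Q _ _ h => ?_⟩
    have e : (![0, 0, 0] : Fin 3 → ZMod 2) = B5_rp 0 := by decide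
    rw [e]
    exact h
  · refine ⟨1, by decide, fun Q g0 g1 h => ?_⟩
    have e : (![0, 0, 1] : Fin 3 → ZMod 2) = (B5_rp 1 ∘ Equiv.swap 0 1) ∘ Equiv.swap 1 2 := by decide
    rw [e]
    exact g1 _ (g0 _ h)
  · refine ⟨1, by decide, fun Q g0 g1 h => ?_⟩
    have e : (![0, 1, 0] : Fin 3 → ZMod 2) = B5_rp 1 ∘ Equiv.swap 0 1 := by decide
    rw [e]
    exact g0 _ h
  · refine ⟨2, by decide, fun Q g0 g1 h => ?_⟩
    have e : (![0, 1, 1] : Fin 3 → ZMod 2) = (B5_rp 2 ∘ Equiv.swap 1 2) ∘ Equiv.swap 0 1 := by decide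
    rw [e]
    exact g0 _ (g1 _ h)
  · refine ⟨1, by decide, fun Q _ _ h => ?_⟩
    have e : (![1, 0, 0] : Fin 3 → ZMod 2) = B5_rp 1 := by decide
    rw [e]
    exact h
  · refine ⟨2, by decide, fun Q g0 g1 h => ?_⟩
    have e : (![1, 0, 1] : Fin 3 → ZMod 2) = B5_rp 2 ∘ Equiv.swap 1 2 := by decide
    rw [e]
    exact g1 _ h
  · refine ⟨2, by decide, fun Q _ _ h => ?_⟩
    have e : (![1, 1, 0] : Fin 3 → ZMod 2) = B5_rp 2 := by decide
    rw [e]
    exact h
  · refine ⟨3, by decide, fun Q _ _ h => ?_⟩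
    have e : (![1, 1, 1] : Fin 3 → ZMod 2) = B5_rp 3 := by decide
    rw [e]
    exact h

private theorem B5_toCl : ∀ r c : Fin 4, toCl (2 ^ r.val - 1 + 8 * (2 ^ c.val - 1)) = (B5_rp r, B5_rp c) := by
  decide +kernel

/-- Proof. All classes `c = (x, y)` with parity `q` are obtained from the eight given ones:
`x` is one of `000, 100, 110, 111` or `010 = swap01 100`, `001 = swap12 010`, `101 = swap12 110`,
`011 = swap01 101`, and similarly for `y`. -/
theorem cl_closure (P : Cl → Prop) (q : ZMod 2)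
    (h0 : ∀ c, P c → P (c.1 ∘ Equiv.swap 0 1, c.2)) (h1 : ∀ c, P c → P (c.1 ∘ Equiv.swap 1 2, c.2))
    (h2 : ∀ c, P c → P (c.1, c.2 ∘ Equiv.swap 0 1)) (h3 : ∀ c, P c → P (c.1, c.2 ∘ Equiv.swap 1 2))
    (h : ∀ r c : Fin 4, ((r.val + c.val : ℕ) : ZMod 2) = q →
      P (toCl (2 ^ r.val - 1 + 8 * (2 ^ c.val - 1))))
    (c : Cl) (hc : prt c = q) : P c := by
  obtain ⟨x, y⟩ := c
  obtain ⟨r, hr, hQr⟩ := B5_three x
  obtain ⟨s, hs, hQs⟩ := B5_three y
  have h4 : ((r.val + s.val : ℕ) : ZMod 2) = q := by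
    rw [← hc, Nat.cast_add, ← hr, ← hs]
    rfl
  have h5 := h r s h4
  rw [B5_toCl] at h5
  have h6 : P (B5_rp r, y) := hQs (fun y' => P (B5_rp r, y')) (fun y' hy => h2 _ hy) (fun y' hy => h3 _ hy) h5
  exact hQr (fun x' => P (x', y)) (fun x' hx => h0 _ hx) (fun x' hx => h1 _ hx) h6

end Pool.Agent.Lib.H54F
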