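import Pool.Agent.Lib.H54F.B1
import Pool.Agent.Lib.H54F.B5

/-! # B10: renaming of the variables -/

namespace Pool.Agent.Lib.H54F

open MvPolynomial

/-- Proof. Additive in `f` (`compA_add`), so let `f = monomial e a`: `rename_monomial`,
`compA_monomial`; `Finsupp.mapDomain σ e` is at `v` equal to `e (σ.symm v)`
(`Finsupp.mapDomain_equiv_apply`), so its parity pattern is `par e ∘ σ.symm` and its half is
`mapDomain σ (half e)`. -/
theorem comp_rename (σ : Equiv.Perm V) (μ : E) (f : S0) :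
    comp (fun v => μ (σ.symm v)) (rename σ f) = rename σ (comp μ f) := by
  ext e
  obtain ⟨e', rfl⟩ : ∃ e' : V →₀ ℕ, e = Finsupp.mapDomain σ e' := by
    refine ⟨Finsupp.mapDomain σ.symm e, ?_⟩
    ext v
    rw [Finsupp.mapDomain_equiv_apply, Finsupp.mapDomain_equiv_apply, Equiv.symm_symm,
      Equiv.apply_symm_apply]
  have h1 : dbl (fun v => μ (σ.symm v)) (Finsupp.mapDomain σ e') =
      Finsupp.mapDomain σ (dbl μ e') := by
    ext v
    rw [dbl_apply, Finsupp.mapDomain_equiv_apply, Finsupp.mapDomain_equiv_apply, dbl_apply]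
  rw [coeff_comp, h1, coeff_rename_mapDomain _ σ.injective, coeff_rename_mapDomain _ σ.injective,
    coeff_comp]

/-- Proof. `rename σ (monomial (pexp ν) 1) = monomial (pexp (ν ∘ σ.symm)) 1` and `comp_rename`. -/
theorem pm_rename {κ κ' γ γ' : Type} (P : κ → γ → S0) (P' : κ' → γ' → S0) (e : κ → κ')
    (f : γ → γ') (σ : Equiv.Perm V) (h : ∀ k q, P' (e k) (f q) = rename σ (P k q)) (k : κ × E)
    (q : γ × E) : pm P' (e k.1, fun v => k.2 (σ.symm v)) (f q.1, fun v => q.2 (σ.symm v)) =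
      rename σ (pm P k q) := by
  have h1 : (monomial (pexp fun v => k.2 (σ.symm v)) 1 : S0) =
      rename σ (monomial (pexp k.2) 1) := by
    have h2 : (pexp fun v => k.2 (σ.symm v)) = Finsupp.mapDomain σ (pexp k.2) := by
      ext v
      rw [Finsupp.mapDomain_equiv_apply]
      rfl
    rw [rename_monomial, h2]
  show comp (fun v => q.2 (σ.symm v))
      (monomial (pexp fun v => k.2 (σ.symm v)) 1 * P' (e k.1) (f q.1)) =
    rename σ (comp q.2 (monomial (pexp k.2) 1 * P k.1 q.1))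
  rw [h1, h, ← map_mul, comp_rename]

/-- The symmetries as permutations of the variables. -/
def sg : ℕ → Equiv.Perm V
  | 0 => Equiv.prodCongr (Equiv.swap 0 1) (Equiv.refl _)
  | 1 => Equiv.prodCongr (Equiv.swap 1 2) (Equiv.refl _)
  | 2 => Equiv.prodCongr (Equiv.refl _) (Equiv.swap 0 1)
  | 3 => Equiv.prodCongr (Equiv.refl _) (Equiv.swap 1 2)
  | _ => Equiv.prodComm _ _

/-- The symmetries on classes. -/
def scF : ℕ → Cl → Cl
  | 0 => fun c => (c.1 ∘ Equiv.swap 0 1, c.2)
  | 1 => fun c => (c.1 ∘ Equiv.swap 1 2, c.2)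
  | 2 => fun c => (c.1, c.2 ∘ Equiv.swap 0 1)
  | 3 => fun c => (c.1, c.2 ∘ Equiv.swap 1 2)
  | _ => fun c => (c.2, c.1)

/-- Proof. Five cases; the sums are reindexed by the transposition (`Equiv.sum_comp`). -/
theorem cl_sg (g : ℕ) (f : V → ℕ) : cl (fun v => f ((sg g).symm v)) = scF g (cl f) := by
  match g with
  | 0 =>
    refine Prod.ext rfl ?_
    funext j
    exact Equiv.sum_comp (Equiv.swap (0 : Fin 3) 1) (fun i => (f (i, j) : ZMod 2))
  | 1 =>
    refine Prod.ext rfl ?_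
    funext j
    exact Equiv.sum_comp (Equiv.swap (1 : Fin 3) 2) (fun i => (f (i, j) : ZMod 2))
  | 2 =>
    refine Prod.ext ?_ rfl
    funext i
    exact Equiv.sum_comp (Equiv.swap (0 : Fin 3) 1) (fun j => (f (i, j) : ZMod 2))
  | 3 =>
    refine Prod.ext ?_ rfl
    funext i
    exact Equiv.sum_comp (Equiv.swap (1 : Fin 3) 2) (fun j => (f (i, j) : ZMod 2))
  | n + 4 => rfl

/-- Proof. Five cases, `rfl`. -/
theorem scF_add (g : ℕ) (c d : Cl) : scF g (c + d) = scF g c + scF g d := by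
  match g with
  | 0 => rfl
  | 1 => rfl
  | 2 => rfl
  | 3 => rfl
  | n + 4 => rfl

/-- Proof. Five cases, the swaps are involutions. -/
theorem scF_scF (g : ℕ) (c : Cl) : scF g (scF g c) = c := by
  match g with
  | 0 =>
    refine Prod.ext ?_ rfl
    funext i
    show c.1 (Equiv.swap 0 1 (Equiv.swap 0 1 i)) = c.1 i
    rw [Equiv.swap_apply_self]
  | 1 =>
    refine Prod.ext ?_ rfl
    funext i
    show c.1 (Equiv.swap 1 2 (Equiv.swap 1 2 i)) = c.1 i
    rw [Equiv.swap_apply_self]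
  | 2 =>
    refine Prod.ext rfl ?_
    funext i
    show c.2 (Equiv.swap 0 1 (Equiv.swap 0 1 i)) = c.2 i
    rw [Equiv.swap_apply_self]
  | 3 =>
    refine Prod.ext rfl ?_
    funext i
    show c.2 (Equiv.swap 1 2 (Equiv.swap 1 2 i)) = c.2 i
    rw [Equiv.swap_apply_self]
  | n + 4 => rfl

end Pool.Agent.Lib.H54F
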