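import Pool.Agent.Lib.H54F.B6

/-! # B7: pushing a key -/

namespace Pool.Agent.Lib.H54F

/-- the number with the base four digits `f v` -/
private def b7num (f : V → ℕ) : ℕ := ∑ v : V, f v * 4 ^ (3 * v.1.val + v.2.val)

private lemma b7num_eq (f : V → ℕ) : b7num f = f (0, 0) + 4 * f (0, 1) + 16 * f (0, 2) +
    64 * f (1, 0) + 256 * f (1, 1) + 1024 * f (1, 2) + 4096 * f (2, 0) + 16384 * f (2, 1) +
    65536 * f (2, 2) := by
  unfold b7num
  rw [Fintype.sum_prod_type]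
  simp only [Fin.sum_univ_three]
  norm_num
  ring

private lemma b7_cases {P : V → Prop} (h00 : P (0, 0)) (h01 : P (0, 1)) (h02 : P (0, 2))
    (h10 : P (1, 0)) (h11 : P (1, 1)) (h12 : P (1, 2)) (h20 : P (2, 0)) (h21 : P (2, 1))
    (h22 : P (2, 2)) (v : V) : P v := by
  obtain ⟨i, j⟩ := v
  fin_cases i <;> fin_cases j <;> assumption

private lemma b7_ex (x : ℕ) : ex x (0, 0) = x % 4 ∧ ex x (0, 1) = x / 4 % 4 ∧
    ex x (0, 2) = x / 16 % 4 ∧ ex x (1, 0) = x / 64 % 4 ∧ ex x (1, 1) = x / 256 % 4 ∧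
    ex x (1, 2) = x / 1024 % 4 ∧ ex x (2, 0) = x / 4096 % 4 ∧ ex x (2, 1) = x / 16384 % 4 ∧
    ex x (2, 2) = x / 65536 % 4 := by
  refine ⟨?_, ?_, ?_, ?_, ?_, ?_, ?_, ?_, ?_⟩ <;> unfold ex <;> norm_num

private lemma b7_nat (N a0 a1 a2 a3 a4 a5 a6 a7 a8 : ℕ)
    (h : N = a0 + 4 * a1 + 16 * a2 + 64 * a3 + 256 * a4 + 1024 * a5 + 4096 * a6 + 16384 * a7 +
      65536 * a8) (h0 : a0 ≤ 3) (h1 : a1 ≤ 3) (h2 : a2 ≤ 3) (h3 : a3 ≤ 3) (h4 : a4 ≤ 3)
    (h5 : a5 ≤ 3) (h6 : a6 ≤ 3) (h7 : a7 ≤ 3) (h8 : a8 ≤ 3) :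
    N % 4 = a0 ∧ N / 4 % 4 = a1 ∧ N / 16 % 4 = a2 ∧ N / 64 % 4 = a3 ∧ N / 256 % 4 = a4 ∧
      N / 1024 % 4 = a5 ∧ N / 4096 % 4 = a6 ∧ N / 16384 % 4 = a7 ∧ N / 65536 % 4 = a8 := by
  refine ⟨?_, ?_, ?_, ?_, ?_, ?_, ?_, ?_, ?_⟩
  · omega
  · omega
  · omega
  · omega
  · omega
  · omega
  · omega
  · omega
  · omega

private lemma b7_digit (f : V → ℕ) (hf : ∀ v, f v ≤ 3) (v : V) : ex (b7num f) v = f v := by
  obtain ⟨e0, e1, e2, e3, e4, e5, e6, e7, e8⟩ := b7_ex (b7num f)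
  obtain ⟨g0, g1, g2, g3, g4, g5, g6, g7, g8⟩ := b7_nat (b7num f) _ _ _ _ _ _ _ _ _
    (b7num_eq f) (hf (0, 0)) (hf (0, 1)) (hf (0, 2)) (hf (1, 0)) (hf (1, 1)) (hf (1, 2))
    (hf (2, 0)) (hf (2, 1)) (hf (2, 2))
  exact b7_cases (P := fun v => ex (b7num f) v = f v) (e0.trans g0) (e1.trans g1) (e2.trans g2)
    (e3.trans g3) (e4.trans g4) (e5.trans g5) (e6.trans g6) (e7.trans g7) (e8.trans g8) v

private lemma b7_lt (f : V → ℕ) (hf : ∀ v, f v ≤ 3) : b7num f < 262144 := by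
  have h := b7num_eq f
  have h0 := hf (0, 0)
  have h1 := hf (0, 1)
  have h2 := hf (0, 2)
  have h3 := hf (1, 0)
  have h4 := hf (1, 1)
  have h5 := hf (1, 2)
  have h6 := hf (2, 0)
  have h7 := hf (2, 1)
  have h8 := hf (2, 2)
  omega

private lemma b7_repr (k : ℕ) : k % 262144 = b7num (ex k) := by
  rw [b7num_eq]
  obtain ⟨e0, e1, e2, e3, e4, e5, e6, e7, e8⟩ := b7_ex k
  rw [e0, e1, e2, e3, e4, e5, e6, e7, e8]
  omega

private lemma b7_add (a X : ℕ) (v : V) : ex (a + 262144 * X) v = ex a v := by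
  obtain ⟨e0, e1, e2, e3, e4, e5, e6, e7, e8⟩ := b7_ex (a + 262144 * X)
  obtain ⟨f0, f1, f2, f3, f4, f5, f6, f7, f8⟩ := b7_ex a
  revert v
  refine b7_cases ?_ ?_ ?_ ?_ ?_ ?_ ?_ ?_ ?_
  · rw [e0, f0]; omega
  · rw [e1, f1]; omega
  · rw [e2, f2]; omega
  · rw [e3, f3]; omega
  · rw [e4, f4]; omega
  · rw [e5, f5]; omega
  · rw [e6, f6]; omega
  · rw [e7, f7]; omega
  · rw [e8, f8]; omega

private lemma b7_code (μ : E) : code μ = b7num fun v => (μ v).val := rfl

/-- Proof. Let `M = k % 262144 + code ν`. Its base four digits are `ex k v + ν v ≤ 3` (no carry;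
`ex_code`, sums over the nine variables, `omega`), so `expo M = expo k + pexp ν` and
`Nat.land M 87381 = code (par (expo k + pexp ν))` by `land_eq`. Subtracting it and dividing by `2`
gives the number with the digits `(ex k v + ν v) / 2`, less than `262144`. The index is added as
`262144 * (16 * idx k + pos ..)`, which does not change the nine lowest digits. -/
theorem pushKey_spec (ν : E) (k : ℕ) (hk : ∀ v, ex k v ≤ 2) :
    expo (pushKey (code ν) k) = half (expo k + pexp ν) ∧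
    idx (pushKey (code ν) k) = 16 * idx k + pos (code (par (expo k + pexp ν))) := by
  have hν : ∀ v, (ν v).val ≤ 1 := fun v => Nat.lt_succ_iff.1 (ν v).isLt
  have hM : Nat.add (Nat.mod k 262144) (code ν) = b7num fun v => ex k v + (ν v).val := by
    show k % 262144 + code ν = _
    rw [b7_repr, b7_code]
    unfold b7num
    rw [← Finset.sum_add_distrib]
    exact Finset.sum_congr rfl fun v _ => by rw [add_mul]
  have hf3 : ∀ v, ex k v + (ν v).val ≤ 3 := fun v => by
    have := hk v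
    have := hν v
    omega
  have hexp : expo (b7num fun v => ex k v + (ν v).val) = expo k + pexp ν := by
    ext v
    rw [expo_apply, b7_digit _ hf3, Finsupp.add_apply, expo_apply, pexp_apply]
  have hland : Nat.land (b7num fun v => ex k v + (ν v).val) 87381 =
      code (par (expo k + pexp ν)) := by
    rw [land_eq, hexp]
  have hcode : code (par (expo k + pexp ν)) = b7num fun v => (ex k v + (ν v).val) % 2 := by
    rw [b7_code]
    congr 1
  have hsum : (b7num fun v => ex k v + (ν v).val) =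
      (b7num fun v => (ex k v + (ν v).val) % 2) + 2 * b7num fun v => (ex k v + (ν v).val) / 2 := by
    unfold b7num
    rw [Finset.mul_sum, ← Finset.sum_add_distrib]
    refine Finset.sum_congr rfl fun v _ => ?_
    have h1 := Nat.mod_add_div (ex k v + (ν v).val) 2
    calc (ex k v + (ν v).val) * 4 ^ (3 * v.1.val + v.2.val) =
        ((ex k v + (ν v).val) % 2 + 2 * ((ex k v + (ν v).val) / 2)) *
          4 ^ (3 * v.1.val + v.2.val) := by rw [h1]
      _ = _ := by ring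
  have hf1 : ∀ v, (ex k v + (ν v).val) / 2 ≤ 3 := fun v => by
    have := hf3 v
    omega
  have hpush : pushKey (code ν) k = (b7num fun v => (ex k v + (ν v).val) / 2) +
      262144 * (16 * idx k + pos (code (par (expo k + pexp ν)))) := by
    show ((Nat.add (Nat.mod k 262144) (code ν)) -
      Nat.land (Nat.add (Nat.mod k 262144) (code ν)) 87381) / 2 +
      262144 * (16 * (k / 262144) + pos (Nat.land (Nat.add (Nat.mod k 262144) (code ν)) 87381)) = _
    rw [hM, hland]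
    congr 1
    rw [hcode, hsum]
    omega
  rw [hpush]
  constructor
  · ext v
    rw [expo_apply, b7_add, b7_digit _ hf1, half_apply, Finsupp.add_apply, expo_apply, pexp_apply]
  · unfold idx
    have := b7_lt _ hf1
    omega

end Pool.Agent.Lib.H54F
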