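import Pool.Agent.Lib.H54F.B5
import Pool.Agent.Lib.H54F.B7

/-! # B8: consequences of the check of the classes -/

namespace Pool.Agent.Lib.H54F

open MvPolynomial

/-- What the check `okSrc` says. -/
structure SrcOK (P : Pres) (cg cr : List ℕ) (c : ℕ) : Prop where
  lg : cg.length = P.n
  lr : cr.length = P.rows.length
  hc : c < 64
  ci : ∀ j < P.n, nthN cg j < 64 ∧ okCls 0 (Nat.xor c (nthN cg j)) = true
  ri : ∀ k < P.rows.length, nthN cr k < 64 ∧ okCls 0 (Nat.xor c (nthN cr k)) = true
  key : ∀ k < P.rows.length, ∀ x ∈ nthRow P.rows k, idx x < P.n ∧ (∀ v, ex x v ≤ 2) ∧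
    Nat.xor (clsP (code (par (expo x)))) (nthN cg (idx x)) = nthN cr k

private lemma B8_nthN_mem (l : List ℕ) (j : ℕ) (h : j < l.length) : nthN l j ∈ l := by
  induction l generalizing j with
  | nil => exact absurd h (Nat.not_lt_zero j)
  | cons a t ih =>
    cases j with
    | zero => exact List.mem_cons_self
    | succ j =>
      have h1 : nthN (a :: t) (j + 1) = nthN t j := rfl
      rw [h1]
      exact List.mem_cons_of_mem _ (ih j (by simpa using h))

private lemma B8_zip_mem (l : List (List ℕ)) (m : List ℕ) (k : ℕ) (h : k < l.length)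
    (h' : m.length = l.length) : (nthRow l k, nthN m k) ∈ l.zip m := by
  induction l generalizing m k with
  | nil => exact absurd h (Nat.not_lt_zero k)
  | cons a t ih =>
    cases m with
    | nil => simp at h'
    | cons b m =>
      cases k with
      | zero => exact List.mem_cons_self
      | succ k =>
        have h1 : nthN (b :: m) (k + 1) = nthN m k := rfl
        have h2 : nthRow (a :: t) (k + 1) = nthRow t k := rfl
        rw [h1, h2, List.zip_cons_cons]
        exact List.mem_cons_of_mem _ (ih m k (by simpa using h) (by simpa using h'))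

private lemma B8_bit (i : ℕ) (hi : i < 9) : (87381 : ℕ).testBit (2 * i) = true := by
  interval_cases i <;> decide

private lemma B8_ex (x : ℕ) (h : Nat.land (Nat.land x (x / 2)) 87381 = 0) (v : V) : ex x v ≤ 2 := by
  by_contra hcon
  have h3 : ex x v = 3 := by
    have : ex x v < 4 := Nat.mod_lt _ (by norm_num)
    omega
  have hi : 3 * v.1.val + v.2.val < 9 := by
    have := v.1.isLt
    have := v.2.isLt
    omega
  unfold ex at h3
  generalize 3 * v.1.val + v.2.val = i at h3 hi
  have e4 : (4 : ℕ) ^ i = 2 ^ (2 * i) := by rw [pow_mul]; norm_num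
  rw [e4] at h3
  have t1 : x.testBit (2 * i) = true := by
    rw [Nat.testBit_eq_decide_div_mod_eq]
    apply decide_eq_true
    omega
  have t2 : (x / 2).testBit (2 * i) = true := by
    rw [Nat.testBit_eq_decide_div_mod_eq]
    apply decide_eq_true
    rw [Nat.div_div_eq_div_mul, mul_comm 2, ← Nat.div_div_eq_div_mul]
    omega
  have t3 : ((x &&& (x / 2)) &&& 87381).testBit (2 * i) = true := by
    rw [Nat.testBit_and, Nat.testBit_and, t1, t2, B8_bit i hi]
    rfl
  have t4 : ((x &&& (x / 2)) &&& 87381) = 0 := h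
  rw [t4, Nat.zero_testBit] at t3
  exact Bool.false_ne_true t3

private lemma B8_okCls {c d : ℕ} (hc : c < 64) (h : okCls c d = true) :
    d < 64 ∧ okCls 0 (Nat.xor c d) = true := by
  unfold okCls at h
  rw [Bool.and_eq_true] at h
  have hd : d < 64 := by
    have := h.1
    simpa using this
  refine ⟨hd, ?_⟩
  unfold okCls
  have h1 : Nat.xor 0 (Nat.xor c d) = Nat.xor c d := Nat.zero_xor _
  rw [h1, Bool.and_eq_true]
  refine ⟨?_, h.2⟩
  have h2 : c ^^^ d < 2 ^ 6 := Nat.xor_lt_two_pow (by simpa using hc) (by simpa using hd)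
  have h3 : Nat.xor c d < 64 := h2
  simpa using h3

/-- Proof. Unfold `okSrc` (`Bool.and_eq_true`, `List.all_eq_true`). `nthN l j = l[j]` and
`nthRow l k = l[k]` for indices in range (induction). The number `x &&& (x / 2) &&& 87381` is zero
if and only if no base four digit of `x` (at the places `0, ..., 8`) is three (bits). Use
`land_eq`. -/
theorem srcOK_of {P : Pres} {cg cr : List ℕ} {c : ℕ} (h : okSrc P cg cr c = true) :
    SrcOK P cg cr c := by
  unfold okSrc at h
  simp only [Bool.and_eq_true, beq_iff_eq] at h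
  obtain ⟨⟨⟨⟨⟨⟨h1, h2⟩, h3⟩, h4⟩, h5⟩, h6⟩, h7⟩ := h
  have hc : c < 64 := by simpa using h4
  rw [List.all_eq_true] at h5 h6 h7
  refine ⟨h1.symm, h2.symm, hc, ?_, ?_, ?_⟩
  · intro j hj
    exact B8_okCls hc (h6 _ (B8_nthN_mem cg j (by omega)))
  · intro k hk
    exact B8_okCls hc (h7 _ (B8_nthN_mem cr k (by omega)))
  · intro k hk x hx
    have h8 := h5 _ (B8_zip_mem P.rows cr k hk h2.symm)
    rw [List.all_eq_true] at h8
    have h9 := h8 x hx
    unfold okKey at h9
    simp only [Bool.and_eq_true, beq_iff_eq] at h9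
    obtain ⟨⟨h10, h11⟩, h12⟩ := h9
    refine ⟨?_, ?_, ?_⟩
    · have : x / 262144 < P.n := by simpa using h10
      exact this
    · exact B8_ex x h11
    · rw [← land_eq]
      exact h12

/-- Proof. From `okSrc_all` (`List.all_eq_true`, `List.mem_range`). -/
theorem okSrc_iff {s c : ℕ} (hs : s < 15) (hc : c < 64) :
    okSrc (src s) (cg s) (cr s) c = true ↔
      Nat.mod (Nat.shiftRight 0x6996966996696996 c) 2 = pty s := by
  have h := okSrc_all
  rw [List.all_eq_true] at h
  have h1 := h s (List.mem_range.mpr hs)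
  rw [List.all_eq_true] at h1
  have h2 := h1 c (List.mem_range.mpr hc)
  rw [beq_iff_eq] at h2
  rw [← h2, beq_iff_eq]

/-- Proof. Induction. -/
theorem nthRow_eq (l : List (List ℕ)) (k : Fin l.length) : nthRow l k.val = l.get k := by
  obtain ⟨k, hk⟩ := k
  show nthRow l k = l.get ⟨k, hk⟩
  induction l generalizing k with
  | nil => exact absurd hk (Nat.not_lt_zero k)
  | cons a t ih =>
    cases k with
    | zero => rfl
    | succ k =>
      have h1 : nthRow (a :: t) (k + 1) = nthRow t k := rfl
      rw [h1, ih k (by simpa using hk)]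
      rfl

/-- Proof. The vector `ev (fun j => j.val) l` is at `j` the sum of the monomials `mon x` over the
keys `x` in `l` with `idx x = j`; its support is contained in the set of the exponents of these
keys (`support_sum`). -/
theorem exists_key {n : ℕ} (l : List ℕ) (j : Fin n) {e : V →₀ ℕ}
    (he : e ∈ (ev (fun j : Fin n => j.val) l j).support) : ∃ x ∈ l, idx x = j.val ∧ expo x = e := by
  induction l with
  | nil =>
    simp [ev] at he
  | cons a t ih =>
    have h1 : ev (fun j : Fin n => j.val) (a :: t) j =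
        (if idx a = j.val then mon a else 0) + ev (fun j : Fin n => j.val) t j := by
      simp [ev]
    rw [h1] at he
    classical
    have h2 := MvPolynomial.support_add he
    rw [Finset.mem_union] at h2
    rcases h2 with h2 | h2
    · split_ifs at h2 with h3
      · refine ⟨a, List.mem_cons_self, h3, ?_⟩
        unfold mon at h2
        have h4 := MvPolynomial.support_monomial_subset h2
        exact (Finset.mem_singleton.mp h4).symm
      · simp at h2
    · obtain ⟨x, hx, h3⟩ := ih h2
      exact ⟨x, List.mem_cons_of_mem _ hx, h3⟩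

private lemma B8_ok {s : ℕ} (hs : s < 15) : ∃ c : ℕ,
    Nat.mod (Nat.shiftRight 0x6996966996696996 c) 2 = pty s ∧ SrcOK (src s) (cg s) (cr s) c := by
  have h1 : pty s < 2 := Nat.mod_lt _ Nat.zero_lt_two
  have h2 : pty s = 0 ∨ pty s = 1 := by omega
  rcases h2 with h2 | h2
  · have h3 : Nat.mod (Nat.shiftRight 0x6996966996696996 0) 2 = pty s := by
      rw [h2]
      rfl
    exact ⟨0, h3, srcOK_of ((okSrc_iff hs (by norm_num)).mpr h3)⟩
  · have h3 : Nat.mod (Nat.shiftRight 0x6996966996696996 1) 2 = pty s := by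
      rw [h2]
      rfl
    exact ⟨1, h3, srcOK_of ((okSrc_iff hs (by norm_num)).mpr h3)⟩

/-- Proof. `srcOK_of`, `exists_key`, `nthRow_eq`, `toCl_xor`, `clsP_code`, `clE_par`; use any class `c` of the
right parity (`okSrc_iff`; for instance `c = 0` or `c = 1`). -/
theorem src_hom {s : ℕ} (hs : s < 15) (k : Fin (src s).rows.length) (j : Fin (src s).n)
    (e : V →₀ ℕ) (he : e ∈ (mat (src s) k j).support) :
    cl e + clF (cg s) j = (clF (cr s) k : Cl) := by
  obtain ⟨c, _, hok⟩ := B8_ok hs
  obtain ⟨x, hx, h1, h2⟩ := exists_key ((src s).rows.get k) j he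
  rw [← nthRow_eq] at hx
  obtain ⟨_, _, h3⟩ := hok.key k.val k.isLt x hx
  rw [h1, h2] at h3
  have h4 := congrArg toCl h3
  rw [toCl_xor, (clsP_code _).2, clE_par] at h4
  exact h4

/-- Proof. `srcOK_of` (field `ci`) for a class of the right parity, `prt_toCl`, `prt_add`. -/
theorem prt_cg {s : ℕ} (hs : s < 15) (j : Fin (src s).n) :
    prt (clF (cg s) j) = (pty s : ZMod 2) := by
  obtain ⟨c, hc, hok⟩ := B8_ok hs
  obtain ⟨h1, h2⟩ := hok.ci j.val j.isLt
  have h3 : Nat.xor c (nthN (cg s) j.val) < 64 := by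
    unfold okCls at h2
    rw [Bool.and_eq_true] at h2
    simpa using h2.1
  have h4 : Nat.mod (Nat.shiftRight 0x6996966996696996 (Nat.xor c (nthN (cg s) j.val))) 2 = 0 := by
    unfold okCls at h2
    rw [Bool.and_eq_true] at h2
    have h5 : Nat.xor 0 (Nat.xor c (nthN (cg s) j.val)) = Nat.xor c (nthN (cg s) j.val) :=
      Nat.zero_xor _
    rw [h5, beq_iff_eq] at h2
    exact h2.2
  have h5 := prt_toCl h3
  rw [h4, toCl_xor, prt_add, prt_toCl hok.hc, hc] at h5
  have h6 : ∀ a b : ZMod 2, a + b = ((0 : ℕ) : ZMod 2) → b = a := by decide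
  exact h6 _ _ h5

end Pool.Agent.Lib.H54F
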