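import Pool.Agent.Lib.H54F.A8
import Pool.Agent.Lib.H54F.B8
import Pool.Agent.Lib.H54F.B10

/-! # B11: the symmetries of the presentations -/

namespace Pool.Agent.Lib.H54F

open MvPolynomial

private lemma B11_ex (x : ℕ) : ex x (0, 0) = x % 4 ∧ ex x (0, 1) = x / 4 % 4 ∧
    ex x (0, 2) = x / 16 % 4 ∧ ex x (1, 0) = x / 64 % 4 ∧ ex x (1, 1) = x / 256 % 4 ∧
    ex x (1, 2) = x / 1024 % 4 ∧ ex x (2, 0) = x / 4096 % 4 ∧ ex x (2, 1) = x / 16384 % 4 ∧
    ex x (2, 2) = x / 65536 % 4 := by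
  refine ⟨?_, ?_, ?_, ?_, ?_, ?_, ?_, ?_, ?_⟩ <;> unfold ex <;> norm_num

private lemma B11_cases {P : V → Prop} (h00 : P (0, 0)) (h01 : P (0, 1)) (h02 : P (0, 2))
    (h10 : P (1, 0)) (h11 : P (1, 1)) (h12 : P (1, 2)) (h20 : P (2, 0)) (h21 : P (2, 1))
    (h22 : P (2, 2)) (v : V) : P v := by
  obtain ⟨i, j⟩ := v
  fin_cases i <;> fin_cases j <;> assumption

private lemma B11_nat (N K a0 a1 a2 a3 a4 a5 a6 a7 a8 : ℕ)
    (h : N = a0 + 4 * a1 + 16 * a2 + 64 * a3 + 256 * a4 + 1024 * a5 + 4096 * a6 + 16384 * a7 +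
      65536 * a8 + 262144 * K) (h0 : a0 ≤ 3) (h1 : a1 ≤ 3) (h2 : a2 ≤ 3) (h3 : a3 ≤ 3)
    (h4 : a4 ≤ 3) (h5 : a5 ≤ 3) (h6 : a6 ≤ 3) (h7 : a7 ≤ 3) (h8 : a8 ≤ 3) :
    N % 4 = a0 ∧ N / 4 % 4 = a1 ∧ N / 16 % 4 = a2 ∧ N / 64 % 4 = a3 ∧ N / 256 % 4 = a4 ∧
      N / 1024 % 4 = a5 ∧ N / 4096 % 4 = a6 ∧ N / 16384 % 4 = a7 ∧ N / 65536 % 4 = a8 ∧
      N / 262144 = K := by
  refine ⟨?_, ?_, ?_, ?_, ?_, ?_, ?_, ?_, ?_, ?_⟩
  · omega
  · omega
  · omega
  · omega
  · omega
  · omega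
  · omega
  · omega
  · omega
  · omega

/-- the digits of a number, moved to the places given by `f` -/
private lemma B11_of (g : ℕ) (gp : List ℕ) (x : ℕ) (f : V → V) (hf : ∀ v, (sg g).symm v = f v)
    (h : renD 4 (sgL g) (x % 262144) = ex x (f (0, 0)) + 4 * ex x (f (0, 1)) +
      16 * ex x (f (0, 2)) + 64 * ex x (f (1, 0)) + 256 * ex x (f (1, 1)) +
      1024 * ex x (f (1, 2)) + 4096 * ex x (f (2, 0)) + 16384 * ex x (f (2, 1)) +
      65536 * ex x (f (2, 2))) :
    expo (renKey g gp x) = Finsupp.mapDomain (sg g) (expo x) ∧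
      idx (renKey g gp x) = nthN gp (idx x) := by
  have hle : ∀ v, ex x v ≤ 3 := fun v => Nat.lt_succ_iff.mp (Nat.mod_lt _ (by norm_num))
  have hN : renKey g gp x = ex x (f (0, 0)) + 4 * ex x (f (0, 1)) +
      16 * ex x (f (0, 2)) + 64 * ex x (f (1, 0)) + 256 * ex x (f (1, 1)) +
      1024 * ex x (f (1, 2)) + 4096 * ex x (f (2, 0)) + 16384 * ex x (f (2, 1)) +
      65536 * ex x (f (2, 2)) + 262144 * nthN gp (idx x) := by
    show renD 4 (sgL g) (x % 262144) + 262144 * nthN gp (x / 262144) = _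
    rw [h]
    rfl
  obtain ⟨g0, g1, g2, g3, g4, g5, g6, g7, g8, g9⟩ := B11_nat (renKey g gp x) (nthN gp (idx x))
    _ _ _ _ _ _ _ _ _ hN (hle _) (hle _) (hle _) (hle _) (hle _) (hle _) (hle _) (hle _) (hle _)
  obtain ⟨e0, e1, e2, e3, e4, e5, e6, e7, e8⟩ := B11_ex (renKey g gp x)
  refine ⟨?_, g9⟩
  ext v
  rw [Finsupp.mapDomain_equiv_apply, expo_apply, expo_apply, hf v]
  exact B11_cases (P := fun v => ex (renKey g gp x) v = ex x (f v)) (e0.trans g0) (e1.trans g1)
    (e2.trans g2) (e3.trans g3) (e4.trans g4) (e5.trans g5) (e6.trans g6) (e7.trans g7)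
    (e8.trans g8) v

private lemma B11_renD (w0 w1 w2 w3 w4 w5 w6 w7 w8 m : ℕ) :
    renD 4 [w0, w1, w2, w3, w4, w5, w6, w7, w8] m = m % 4 * 4 ^ w0 + (m / 4 % 4 * 4 ^ w1 +
      (m / 16 % 4 * 4 ^ w2 + (m / 64 % 4 * 4 ^ w3 + (m / 256 % 4 * 4 ^ w4 +
      (m / 1024 % 4 * 4 ^ w5 + (m / 4096 % 4 * 4 ^ w6 + (m / 16384 % 4 * 4 ^ w7 +
      m / 65536 % 4 * 4 ^ w8))))))) := by
  simp only [renD, Nat.div_div_eq_div_mul, Nat.add_zero, Nat.reduceMul]

private lemma B11_mod (x : ℕ) : x % 262144 % 4 = x % 4 ∧ x % 262144 / 4 % 4 = x / 4 % 4 ∧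
    x % 262144 / 16 % 4 = x / 16 % 4 ∧ x % 262144 / 64 % 4 = x / 64 % 4 ∧
    x % 262144 / 256 % 4 = x / 256 % 4 ∧ x % 262144 / 1024 % 4 = x / 1024 % 4 ∧
    x % 262144 / 4096 % 4 = x / 4096 % 4 ∧ x % 262144 / 16384 % 4 = x / 16384 % 4 ∧
    x % 262144 / 65536 % 4 = x / 65536 % 4 := by
  refine ⟨?_, ?_, ?_, ?_, ?_, ?_, ?_, ?_, ?_⟩ <;> omega

private lemma B11_renD' (w0 w1 w2 w3 w4 w5 w6 w7 w8 x : ℕ) :
    renD 4 [w0, w1, w2, w3, w4, w5, w6, w7, w8] (x % 262144) = ex x (0, 0) * 4 ^ w0 +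
      (ex x (0, 1) * 4 ^ w1 + (ex x (0, 2) * 4 ^ w2 + (ex x (1, 0) * 4 ^ w3 +
      (ex x (1, 1) * 4 ^ w4 + (ex x (1, 2) * 4 ^ w5 + (ex x (2, 0) * 4 ^ w6 +
      (ex x (2, 1) * 4 ^ w7 + ex x (2, 2) * 4 ^ w8))))))) := by
  obtain ⟨e0, e1, e2, e3, e4, e5, e6, e7, e8⟩ := B11_ex x
  obtain ⟨m0, m1, m2, m3, m4, m5, m6, m7, m8⟩ := B11_mod x
  rw [B11_renD, e0, e1, e2, e3, e4, e5, e6, e7, e8, m0, m1, m2, m3, m4, m5, m6, m7, m8]

/-- Proof. The base four digits of `renD 4 (sgL g) m` for `m < 262144` are the digits of `m`, moved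
to the places in the list (`sgL g` is a permutation of `0, ..., 8`): five cases, write `m` with its
nine digits, `omega`. The list `sgL g` describes `sg g`: variable number `3 i + j`. The higher part
`262144 * nthN gp (idx x)` gives the index. -/
theorem renKey_spec (g : ℕ) (gp : List ℕ) (x : ℕ) :
    expo (renKey g gp x) = Finsupp.mapDomain (sg g) (expo x) ∧
      idx (renKey g gp x) = nthN gp (idx x) := by
  match g with
  | 0 =>
    refine B11_of 0 gp x (fun v => (Equiv.swap 0 1 v.1, v.2)) (fun v => rfl) ?_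
    have h : sgL 0 = [3, 4, 5, 0, 1, 2, 6, 7, 8] := rfl
    rw [h, B11_renD']
    have s0 : Equiv.swap (0 : Fin 3) 1 0 = 1 := by decide
    have s1 : Equiv.swap (0 : Fin 3) 1 1 = 0 := by decide
    have s2 : Equiv.swap (0 : Fin 3) 1 2 = 2 := by decide
    simp only [s0, s1, s2]
    omega
  | 1 =>
    refine B11_of 1 gp x (fun v => (Equiv.swap 1 2 v.1, v.2)) (fun v => rfl) ?_
    have h : sgL 1 = [0, 1, 2, 6, 7, 8, 3, 4, 5] := rfl
    rw [h, B11_renD']
    have s0 : Equiv.swap (1 : Fin 3) 2 0 = 0 := by decide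
    have s1 : Equiv.swap (1 : Fin 3) 2 1 = 2 := by decide
    have s2 : Equiv.swap (1 : Fin 3) 2 2 = 1 := by decide
    simp only [s0, s1, s2]
    omega
  | 2 =>
    refine B11_of 2 gp x (fun v => (v.1, Equiv.swap 0 1 v.2)) (fun v => rfl) ?_
    have h : sgL 2 = [1, 0, 2, 4, 3, 5, 7, 6, 8] := rfl
    rw [h, B11_renD']
    have s0 : Equiv.swap (0 : Fin 3) 1 0 = 1 := by decide
    have s1 : Equiv.swap (0 : Fin 3) 1 1 = 0 := by decide
    have s2 : Equiv.swap (0 : Fin 3) 1 2 = 2 := by decide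
    simp only [s0, s1, s2]
    omega
  | 3 =>
    refine B11_of 3 gp x (fun v => (v.1, Equiv.swap 1 2 v.2)) (fun v => rfl) ?_
    have h : sgL 3 = [0, 2, 1, 3, 5, 4, 6, 8, 7] := rfl
    rw [h, B11_renD']
    have s0 : Equiv.swap (1 : Fin 3) 2 0 = 0 := by decide
    have s1 : Equiv.swap (1 : Fin 3) 2 1 = 2 := by decide
    have s2 : Equiv.swap (1 : Fin 3) 2 2 = 1 := by decide
    simp only [s0, s1, s2]
    omega
  | n + 4 =>
    refine B11_of (n + 4) gp x (fun v => (v.2, v.1)) (fun v => rfl) ?_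
    have h : sgL (n + 4) = [0, 3, 6, 1, 4, 7, 2, 5, 8] := rfl
    rw [h, B11_renD']
    dsimp only
    omega

/-- Proof. Five cases; `c < 64` has six bits (64 cases, `decide`). -/
theorem toCl_renD (g c : ℕ) (hc : c < 64) : toCl (renD 2 (scL g) c) = scF g (toCl c) := by
  have h : ∀ c : Fin 64, toCl (renD 2 (scL 0) c.val) = scF 0 (toCl c.val) ∧
      toCl (renD 2 (scL 1) c.val) = scF 1 (toCl c.val) ∧
      toCl (renD 2 (scL 2) c.val) = scF 2 (toCl c.val) ∧
      toCl (renD 2 (scL 3) c.val) = scF 3 (toCl c.val) ∧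
      toCl (renD 2 (scL 4) c.val) = scF 4 (toCl c.val) := by
    decide +kernel
  obtain ⟨h0, h1, h2, h3, h4⟩ := h ⟨c, hc⟩
  match g with
  | 0 => exact h0
  | 1 => exact h1
  | 2 => exact h2
  | 3 => exact h3
  | n + 4 => exact h4

/-- The symmetry `g` carries the presentation `s` to the presentation `tau g s`. -/
def Rel (g s : ℕ) : Prop :=
  ∃ (gp : Fin (src s).n ≃ Fin (src (tau g s)).n)
    (rp : Fin (src s).rows.length ≃ Fin (src (tau g s)).rows.length),
    (∀ k j, mat (src (tau g s)) (rp k) (gp j) = rename (sg g) (mat (src s) k j)) ∧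
    (∀ j, clF (cg (tau g s)) (gp j) = scF g (clF (cg s) j)) ∧
    ∀ k, clF (cr (tau g s)) (rp k) = scF g (clF (cr s) k)

private lemma B11_nthN (l : List ℕ) (i : ℕ) (hi : i < l.length) : nthN l i = l[i] := by
  induction l generalizing i with
  | nil => exact absurd hi (Nat.not_lt_zero i)
  | cons a t ih =>
    cases i with
    | zero => rfl
    | succ i =>
      have h1 : nthN (a :: t) (i + 1) = nthN t i := rfl
      rw [h1, ih i (by simpa using hi)]
      rfl

private lemma B11_perm {l : List ℕ} {n n' : ℕ} (h : okPerm l n = true) (hn : n' = n) :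
    ∃ e : Fin n ≃ Fin n', ∀ j, (e j).val = nthN l j.val := by
  subst hn
  unfold okPerm at h
  simp only [Bool.and_eq_true, beq_iff_eq] at h
  obtain ⟨⟨h1, h2⟩, h3⟩ := h
  rw [List.all_eq_true] at h2 h3
  have hlt : ∀ j : Fin n', nthN l j.val < n' := by
    intro j
    have hj : j.val < l.length := by rw [h1]; exact j.isLt
    rw [B11_nthN l j.val hj]
    have := h2 _ (List.getElem_mem hj)
    simpa using this
  let f : Fin n' → Fin n' := fun j => ⟨nthN l j.val, hlt j⟩
  have hs : Function.Surjective f := by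
    intro y
    have h4 := h3 y.val (List.mem_range.mpr y.isLt)
    rw [List.contains_iff_mem] at h4
    obtain ⟨i, hi, h5⟩ := List.mem_iff_getElem.mp h4
    refine ⟨⟨i, by rw [← h1]; exact hi⟩, Fin.ext ?_⟩
    show nthN l i = y.val
    rw [B11_nthN l i hi, h5]
  have hb : Function.Bijective f := ⟨Finite.injective_iff_surjective.mpr hs, hs⟩
  exact ⟨Equiv.ofBijective f hb, fun j => rfl⟩

private lemma B11_ok {s : ℕ} (hs : s < 15) : ∃ c : ℕ, SrcOK (src s) (cg s) (cr s) c := by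
  have h1 : pty s < 2 := Nat.mod_lt _ Nat.zero_lt_two
  have h2 : pty s = 0 ∨ pty s = 1 := by omega
  rcases h2 with h2 | h2
  · have h3 : Nat.mod (Nat.shiftRight 0x6996966996696996 0) 2 = pty s := by
      rw [h2]
      rfl
    exact ⟨0, srcOK_of ((okSrc_iff hs (by norm_num)).mpr h3)⟩
  · have h3 : Nat.mod (Nat.shiftRight 0x6996966996696996 1) 2 = pty s := by
      rw [h2]
      rfl
    exact ⟨1, srcOK_of ((okSrc_iff hs (by norm_num)).mpr h3)⟩

private lemma B11_two (x : S0) : x + x = 0 := by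
  have h : (2 : S0) = 0 := by
    have h1 : ((2 : ℕ) : ZMod 2) = 0 := CharP.cast_eq_zero (ZMod 2) 2
    have h2 : (MvPolynomial.C ((2 : ℕ) : ZMod 2) : S0) = (2 : S0) := by
      rw [map_natCast]
      rfl
    rw [← h2, h1, map_zero]
  rw [← two_mul, h, zero_mul]

private lemma B11_xsum {γ : Type*} (cd : γ → ℕ) (l l' : List ℕ) (h : (xsum l l').isEmpty = true) :
    ev cd l = ev cd l' := by
  have h1 := ev_rsum cd (nthRow [l, l']) [0, 1]
  have h2 : rsum (nthRow [l, l']) [0, 1] = xsum l l' := rfl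
  have h3 : xsum l l' = [] := List.isEmpty_iff.mp h
  rw [h2, h3] at h1
  have h4 : ([0, 1].map fun r => ev cd (nthRow [l, l'] r)).sum = ev cd l + ev cd l' := by
    show ev cd l + (ev cd l' + 0) = _
    rw [add_zero]
  rw [h4] at h1
  funext q
  have h5 := congrFun h1 q
  have h6 : (0 : S0) = ev cd l q + ev cd l' q := h5
  calc ev cd l q = ev cd l q + (ev cd l' q + ev cd l' q) := by rw [B11_two, add_zero]
    _ = (ev cd l q + ev cd l' q) + ev cd l' q := by rw [add_assoc]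
    _ = ev cd l' q := by rw [← h6, zero_add]

private lemma B11_ev {n n' : ℕ} (g : ℕ) (gp : List ℕ) (e : Fin n ≃ Fin n')
    (he : ∀ j, (e j).val = nthN gp j.val) (l : List ℕ) (hl : ∀ x ∈ l, idx x < n) (j : Fin n) :
    ev (fun j : Fin n' => j.val) (mapL (renKey g gp) l) (e j) =
      rename (sg g) (ev (fun j : Fin n => j.val) l j) := by
  rw [mapL_eq]
  induction l with
  | nil =>
    show (0 : S0) = rename (sg g) (0 : S0)
    rw [map_zero]
  | cons x t ih =>
    have h1 : ev (fun j : Fin n' => j.val) ((x :: t).map (renKey g gp)) (e j) =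
        (if idx (renKey g gp x) = (e j).val then mon (renKey g gp x) else 0) +
          ev (fun j : Fin n' => j.val) (t.map (renKey g gp)) (e j) := by
      simp [ev]
    have h2 : ev (fun j : Fin n => j.val) (x :: t) j =
        (if idx x = j.val then mon x else 0) + ev (fun j : Fin n => j.val) t j := by
      simp [ev]
    rw [h1, h2, map_add, ih fun y hy => hl y (List.mem_cons_of_mem _ hy)]
    congr 1
    obtain ⟨h3, h4⟩ := renKey_spec g gp x
    have hx : idx x < n := hl x List.mem_cons_self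
    have h5 : idx (renKey g gp x) = (e j).val ↔ idx x = j.val := by
      rw [h4]
      have h6 : nthN gp (idx x) = (e ⟨idx x, hx⟩).val := (he ⟨idx x, hx⟩).symm
      rw [h6]
      constructor
      · intro h7
        have h8 := e.injective (Fin.ext h7)
        exact congrArg Fin.val h8
      · intro h7
        have h8 : (⟨idx x, hx⟩ : Fin n) = j := Fin.ext h7
        rw [h8]
    by_cases h7 : idx x = j.val
    · rw [if_pos (h5.mpr h7), if_pos h7]
      unfold mon
      rw [h3, rename_monomial]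
    · rw [if_neg (fun h8 => h7 (h5.mp h8)), if_neg h7, map_zero]

/-- Proof. From `chkSym_all` we get `chkSym g s = true`; unfold. `okPerm l n` gives a bijection
`j ↦ nthN l j` of `Fin n` (surjective, hence bijective: `Finite.injective_iff_surjective`), and the
numbers of generators and rows of `src s` and `src (tau g s)` agree. For the rows: with
`r' = mapL (renKey g gp) (row k)` and the row `r''` of number `rp k` of the image, `xsum r' r'' = []`,
so `ev r' + ev r'' = 0`, that is `ev r' = ev r''` (characteristic two; the sum of the two vectors is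
`ev (xsum r' r'')`: take `rsum` of the two rows in `ev_rsum`). The entry of `ev r'` at `gp j` is
`rename (sg g)` of the entry of `ev (row k)` at `j` by `renKey_spec` (`nthN gp` is injective on
indices less than `n`, and all indices are less than `n` by `SrcOK.key`). For the classes use
`toCl_renD`. -/
theorem rel_all {g s : ℕ} (hg : g < 5) (hs : s < 15) : Rel g s := by
  have h := chkSym_all
  rw [List.all_eq_true] at h
  have h1 := h g (List.mem_range.mpr hg)
  rw [List.all_eq_true] at h1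
  have h2 := h1 s (List.mem_range.mpr hs)
  unfold chkSym at h2
  simp only [Bool.and_eq_true, beq_iff_eq] at h2
  obtain ⟨⟨⟨⟨⟨h3, h4⟩, h5⟩, h6⟩, h7⟩, h8⟩ := h2
  rw [List.all_eq_true] at h7 h8
  obtain ⟨gp, hgp⟩ := B11_perm h3 h5
  obtain ⟨rp, hrp⟩ := B11_perm h4 h6
  obtain ⟨c, hok⟩ := B11_ok hs
  refine ⟨gp, rp, ?_, ?_, ?_⟩
  · intro k j
    have h9 := h8 k.val (List.mem_range.mpr k.isLt)
    rw [Bool.and_eq_true] at h9
    have h10 := B11_xsum (fun j : Fin (src (tau g s)).n => j.val) _ _ h9.2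
    have h11 : nthRow (src (tau g s)).rows (nthN (srp g s) k.val) =
        (src (tau g s)).rows.get (rp k) := by
      rw [← hrp k, nthRow_eq]
    rw [h11] at h10
    have h12 : mat (src (tau g s)) (rp k) (gp j) =
        ev (fun j : Fin (src (tau g s)).n => j.val) ((src (tau g s)).rows.get (rp k)) (gp j) := rfl
    rw [h12, ← h10, B11_ev g (sgp g s) gp hgp _ (fun x hx => (hok.key k.val k.isLt x hx).1) j,
      nthRow_eq]
    rfl
  · intro j
    have h9 := h7 j.val (List.mem_range.mpr j.isLt)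
    rw [beq_iff_eq] at h9
    show toCl (nthN (cg (tau g s)) (gp j).val) = scF g (toCl (nthN (cg s) j.val))
    rw [hgp j, h9, toCl_renD g _ (hok.ci j.val j.isLt).1]
  · intro k
    have h9 := h8 k.val (List.mem_range.mpr k.isLt)
    rw [Bool.and_eq_true, beq_iff_eq] at h9
    show toCl (nthN (cr (tau g s)) (rp k).val) = scF g (toCl (nthN (cr s) k.val))
    rw [hrp k, h9.1, toCl_renD g _ (hok.ri k.val k.isLt).1]

/-- Proof. `decide` (75 cases, after unfolding `tau`; `decide +kernel`). -/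
theorem tau_lt {g s : ℕ} (hg : g < 5) (hs : s < 15) : tau g s < 15 := by
  have h : ∀ g : Fin 5, ∀ s : Fin 15, tau g.val s.val < 15 := by
    decide +kernel
  exact h ⟨g, hg⟩ ⟨s, hs⟩

end Pool.Agent.Lib.H54F
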