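import Pool.Agent.Lib.H54F.B4
import Pool.Agent.Lib.H54F.B11

/-! # B12: symmetric blocks -/

namespace Pool.Agent.Lib.H54F

open MvPolynomial

/-- Proof. Write `σ = sg g`, and `Rel g s` with `gp`, `rp`. The maps `(k, ν) ↦ (rp k, ν ∘ σ.symm)` and
`(j, μ) ↦ (gp j, μ ∘ σ.symm)` are bijections from the indices of class `c` to the indices of class
`scF g c` (`cl_sg`, `scF_add`, `scF_scF`: `clE (ν ∘ σ.symm) + cr' (rp k) = scF g (clE ν + cr k)`), and
`blkS (tau g s) (scF g c)` at the images is `rename σ` of `blkS s c` (`pm_rename`). For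
`ι : S0 →+* A` let `ι' = ι.comp (rename σ)` (as a ring homomorphism); then
`rowSpan ι' P = rowSpan ι (fun k q => rename σ (P k q))` by `rfl`. So
`Cok ι (blkS (tau g s) (scF g c)) ≃ Cok ι' (blkS s c)` (`cok_relabel`)
`≃ ∏ Cok ι' (mat (src t_i))` (hypothesis for `ι'`) `≃ ∏ Cok ι (mat (src (tau g t_i)))`
(`cok_relabel` with `rel_all`, for every `i`; `LinearEquiv.piCongrRight`). -/
theorem dec_sym.{u} {g s : ℕ} (hg : g < 5) (hs : s < 15) {c : Cl} (h : Dec.{u} (blkS s c)) :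
    Dec.{u} (blkS (tau g s) (scF g c)) := by
  obtain ⟨gp, rp, hm, hcg, hcr⟩ := rel_all hg hs
  obtain ⟨n, t, ht⟩ := h
  have hinj : ∀ c d : Cl, scF g c = scF g d ↔ c = d := fun c d =>
    ⟨fun h => by rw [← scF_scF g c, h, scF_scF], fun h => by rw [h]⟩
  let f0 : E ≃ E := Equiv.arrowCongr (sg g) (Equiv.refl (Fin 2))
  have hcl : ∀ μ : E, clE (f0 μ) = scF g (clE μ) := fun μ => cl_sg g (fun v => (μ v).val)
  let e1 : Ix (clF (cr s) : Fin (src s).rows.length → Cl) c ≃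
      Ix (clF (cr (tau g s)) : Fin (src (tau g s)).rows.length → Cl) (scF g c) :=
    Equiv.subtypeEquiv (Equiv.prodCongr rp f0) (fun x => by
      change clE x.2 + clF (cr s) x.1 = c ↔
        clE (f0 x.2) + clF (cr (tau g s)) (rp x.1) = scF g c
      rw [hcl, hcr, ← scF_add, hinj])
  let e2 : Ix (clF (cg s) : Fin (src s).n → Cl) c ≃
      Ix (clF (cg (tau g s)) : Fin (src (tau g s)).n → Cl) (scF g c) :=
    Equiv.subtypeEquiv (Equiv.prodCongr gp f0) (fun x => by
      change clE x.2 + clF (cg s) x.1 = c ↔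
        clE (f0 x.2) + clF (cg (tau g s)) (gp x.1) = scF g c
      rw [hcl, hcg, ← scF_add, hinj])
  refine ⟨n, fun i => ⟨tau g (t i).val, tau_lt hg (t i).isLt⟩, fun A _ ι => ?_⟩
  obtain ⟨E1⟩ := cok_relabel (fun k q => rename (sg g) (blkS s c k q))
    (blkS (tau g s) (scF g c)) e1 e2
    (fun k q => pm_rename (mat (src s)) (mat (src (tau g s))) rp gp (sg g) hm k.1 q.1) ι
  obtain ⟨E2⟩ := ht A (ι.comp ((rename (sg g) : S0 →ₐ[ZMod 2] S0) : S0 →+* S0))
  have E3 : ∀ i, Nonempty (Cok (ι.comp ((rename (sg g) : S0 →ₐ[ZMod 2] S0) : S0 →+* S0))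
      (mat (src (t i).val)) ≃ₗ[A] Cok ι (mat (src (tau g (t i).val)))) := by
    intro i
    obtain ⟨gp', rp', hm', -, -⟩ := rel_all hg (t i).isLt
    exact cok_relabel (fun k q => rename (sg g) (mat (src (t i).val) k q))
      (mat (src (tau g (t i).val))) rp' gp' hm' ι
  have E4 : Cok ι (blkS (tau g s) (scF g c)) ≃ₗ[A]
      Cok (ι.comp ((rename (sg g) : S0 →ₐ[ZMod 2] S0) : S0 →+* S0)) (blkS s c) := E1.symm
  exact ⟨E4.trans (E2.trans (LinearEquiv.piCongrRight fun i => (E3 i).some))⟩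

/-- Proof. If `(j, μ)` is an index of class `c`, then `prt c = prt (clE μ) + prt (clF (cg s) j) =
pty s` (`prt_add`, `prt_clE`, `prt_cg`). So there are no generators of class `c`, the cokernel is
zero, and we can take `n = 0`. -/
theorem dec_wrong.{u} {s : ℕ} (hs : s < 15) {c : Cl} (hc : prt c ≠ (pty s : ZMod 2)) :
    Dec.{u} (blkS s c) := by
  have hE : IsEmpty (Ix (clF (cg s) : Fin (src s).n → Cl) c) := by
    refine ⟨fun x => hc ?_⟩
    have h1 := x.2
    rw [← h1, prt_add, prt_clE, prt_cg hs, zero_add]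
  refine ⟨0, Fin.elim0, fun A _ ι => ?_⟩
  exact ⟨0⟩

end Pool.Agent.Lib.H54F
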