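import Pool.Agent.Lib.H54F.A10
import Pool.Agent.Lib.H54F.B1
import Pool.Agent.Lib.H54F.B8

/-! # B9: soundness of the check of a block -/

namespace Pool.Agent.Lib.H54F

open MvPolynomial

private lemma B9_cl_dbl (c : Cl) : c + c = 0 := by
  apply Prod.ext
  · funext i
    exact CharTwo.add_self_eq_zero (c.1 i)
  · funext i
    exact CharTwo.add_self_eq_zero (c.2 i)

private lemma B9_cl_pexp (ν : E) : cl (pexp ν) = clE ν := rfl

/-- The class of the pushed pattern. -/
private lemma B9_class {P : Pres} {cg cr : List ℕ} {c : ℕ} (h : SrcOK P cg cr c) {k : ℕ}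
    (hk : k < P.rows.length) {ν : E} (hν : clE ν + toCl (nthN cr k) = toCl c) {x : ℕ}
    (hx : x ∈ nthRow P.rows k) :
    clE (par (expo x + pexp ν)) + toCl (nthN cg (idx x)) = toCl c := by
  obtain ⟨h1, h2, h3⟩ := h.key k hk x hx
  have e1 : clE (par (expo x + pexp ν)) = clE (par (expo x)) + clE ν := by
    rw [clE_par, clE_par]
    exact cl_add (expo x) (pexp ν)
  have e2 : clE (par (expo x)) + toCl (nthN cg (idx x)) = toCl (nthN cr k) := by
    rw [← h3, toCl_xor, (clsP_code _).2]
  rw [e1, ← hν, ← e2]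
  abel

private lemma B9_code_eq {μ ν : E} (hc : clE μ = clE ν) (hp : pos (code μ) = pos (code ν)) :
    μ = ν := by
  apply pos_inj _ hp
  apply toCl_inj (clsP_code μ).1 (clsP_code ν).1
  rw [(clsP_code μ).2, (clsP_code ν).2, hc]

private lemma B9_comp_sum (μ : E) (m : S0) (l : List ℕ) (f : ℕ → S0) :
    comp μ (m * (l.map f).sum) = (l.map fun y => comp μ (m * f y)).sum := by
  induction l with
  | nil =>
    simp only [List.map_nil, List.sum_nil, mul_zero]
    exact compA_zero _ _
  | cons a t ih =>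
    simp only [List.map_cons, List.sum_cons, mul_add]
    rw [← ih]
    exact compA_add _ _ _ _

private lemma B9_div {k q : ℕ} (hq : q < 262144) : Nat.div (262144 * k + q) 262144 = k := by
  change (262144 * k + q) / 262144 = k
  omega

private lemma B9_mod {k q : ℕ} (hq : q < 262144) : Nat.mod (262144 * k + q) 262144 = q := by
  change (262144 * k + q) % 262144 = q
  omega

private lemma B9_rowOf (P : Pres) (k : ℕ) (ν : E) :
    rowOf P (262144 * k + code ν) = (nthRow P.rows k).map (pushKey (code ν)) := by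
  unfold rowOf
  rw [mapL_eq, B9_div (code_lt ν), B9_mod (code_lt ν)]

/-- The pushed row: the component at `(j, μ)` of the row `(k, ν)`.

Proof. Both sides are sums over the keys `x` of row `k`. The key `x` contributes `mon x` to the entry
`j = idx x` of the row `k` of `mat P`, so `comp μ (monomial (pexp ν) 1 * mon x)` to the right side,
which is `monomial (half (expo x + pexp ν)) 1` if `par (expo x + pexp ν) = μ`, otherwise `0`
(`compA_monomial`); by `pushKey_spec` and `pos_inj` it contributes the same to the left side: `16 *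
idx x + pos (code (par ..)) = 16 * j + pos (code μ)` if and only if `idx x = j` and the positions are
equal (`pos_lt`), and the classes of `par (expo x + pexp ν)` and of `μ` are equal because
`clE (par (expo x + pexp ν)) + cg_j = cl (expo x) + clE ν + cg_j = cr_k + clE ν = c` (`SrcOK.key`,
`toCl_xor`, `toCl_inj`, `clsP_code`). -/
theorem ev_rowOf {P : Pres} {cg cr : List ℕ} {c : ℕ} (h : SrcOK P cg cr c)
    (k : Ix (clF cr : Fin P.rows.length → Cl) (toCl c)) (q : Ix (clF cg : Fin P.n → Cl) (toCl c)) :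
    ev (fun q : Ix (clF cg : Fin P.n → Cl) (toCl c) => 16 * q.1.1.val + pos (code q.1.2))
      (rowOf P (262144 * k.1.1.val + code k.1.2)) q = pm (mat P) k.1 q.1 := by
  obtain ⟨⟨k, ν⟩, hk⟩ := k
  obtain ⟨⟨j, μ⟩, hq⟩ := q
  have hk' : clE ν + toCl (nthN cr k.val) = toCl c := hk
  have hq' : clE μ + toCl (nthN cg j.val) = toCl c := hq
  change ((rowOf P (262144 * k.val + code ν)).map fun x =>
      if idx x = 16 * j.val + pos (code μ) then mon x else 0).sum =
    comp μ (monomial (pexp ν) 1 * ((P.rows.get k).map fun x =>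
      if idx x = j.val then mon x else 0).sum)
  rw [B9_comp_sum, B9_rowOf, ← nthRow_eq, List.map_map]
  congr 1
  refine List.map_congr_left ?_
  intro x hx
  obtain ⟨h1, h2, h3⟩ := h.key k.val k.isLt x hx
  obtain ⟨s1, s2⟩ := pushKey_spec ν x h2
  have hcl := B9_class h k.isLt hk' hx
  simp only [Function.comp_apply]
  have hp1 := pos_lt (par (expo x + pexp ν))
  have hp2 := pos_lt μ
  by_cases hj : idx x = j.val
  · rw [if_pos hj]
    have hr : monomial (pexp ν) (1 : ZMod 2) * mon x = monomial (expo x + pexp ν) 1 := by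
      unfold mon
      rw [monomial_mul, add_comm, mul_one]
    have hcc : clE (par (expo x + pexp ν)) = clE μ := by
      rw [hj] at hcl
      have := hcl.trans hq'.symm
      exact add_right_cancel this
    rw [hr]
    change _ = compA (AddMonoidHom.id (ZMod 2)) μ (monomial (expo x + pexp ν) 1)
    rw [compA_monomial]
    by_cases hm : par (expo x + pexp ν) = μ
    · rw [if_pos hm, if_pos (by rw [s2, hj, hm])]
      unfold mon
      rw [s1]
      rfl
    · rw [if_neg hm, if_neg]
      intro hcon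
      rw [s2, hj] at hcon
      exact hm (B9_code_eq hcc (by omega))
  · rw [if_neg hj, mul_zero, if_neg]
    · exact (compA_zero _ _).symm
    · intro hcon
      rw [s2] at hcon
      omega

private lemma B9_mem_genList (c : ℕ) (ds : List ℕ) : ∀ (j0 x : ℕ), x ∈ genList c ds j0 ↔
    ∃ i < ds.length, ∃ mu ∈ pats (Nat.xor c (nthN ds i)), x = 16 * (j0 + i) + pos mu := by
  induction ds with
  | nil =>
    intro j0 x
    constructor
    · intro h
      exact absurd h (List.not_mem_nil)
    · rintro ⟨i, hi, _⟩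
      exact absurd hi (Nat.not_lt_zero i)
  | cons d t ih =>
    intro j0 x
    have e : genList c (d :: t) j0 =
        (pats (Nat.xor c d)).map (fun mu => Nat.add (Nat.mul 16 j0) (pos mu)) ++
          genList c t (Nat.succ j0) := by
      rw [← mapL_eq, ← appL_eq]
      rfl
    rw [e, List.mem_append, ih, List.mem_map]
    constructor
    · rintro (⟨mu, hmu, rfl⟩ | ⟨i, hi, mu, hmu, rfl⟩)
      · exact ⟨0, Nat.succ_pos _, mu, hmu, rfl⟩
      · refine ⟨i + 1, Nat.succ_lt_succ hi, mu, hmu, ?_⟩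
        rw [Nat.succ_add, Nat.add_succ]
    · rintro ⟨i, hi, mu, hmu, rfl⟩
      rcases i with _ | i
      · exact Or.inl ⟨mu, hmu, rfl⟩
      · refine Or.inr ⟨i, Nat.lt_of_succ_lt_succ hi, mu, hmu, ?_⟩
        rw [Nat.succ_add, Nat.add_succ]

private lemma B9_mem_rowList (c : ℕ) (ds : List ℕ) : ∀ (j0 x : ℕ), x ∈ rowList c ds j0 ↔
    ∃ i < ds.length, ∃ mu ∈ pats (Nat.xor c (nthN ds i)), x = 262144 * (j0 + i) + mu := by
  induction ds with
  | nil =>
    intro j0 x
    constructor
    · intro h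
      exact absurd h (List.not_mem_nil)
    · rintro ⟨i, hi, _⟩
      exact absurd hi (Nat.not_lt_zero i)
  | cons d t ih =>
    intro j0 x
    have e : rowList c (d :: t) j0 =
        (pats (Nat.xor c d)).map (fun mu => Nat.add (Nat.mul 262144 j0) mu) ++
          rowList c t (Nat.succ j0) := by
      rw [← mapL_eq, ← appL_eq]
      rfl
    rw [e, List.mem_append, ih, List.mem_map]
    constructor
    · rintro (⟨mu, hmu, rfl⟩ | ⟨i, hi, mu, hmu, rfl⟩)
      · exact ⟨0, Nat.succ_pos _, mu, hmu, rfl⟩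
      · refine ⟨i + 1, Nat.succ_lt_succ hi, mu, hmu, ?_⟩
        rw [Nat.succ_add, Nat.add_succ]
    · rintro ⟨i, hi, mu, hmu, rfl⟩
      rcases i with _ | i
      · exact Or.inl ⟨mu, hmu, rfl⟩
      · refine Or.inr ⟨i, Nat.lt_of_succ_lt_succ hi, mu, hmu, ?_⟩
        rw [Nat.succ_add, Nat.add_succ]

private lemma B9_nthN_out (l : List ℕ) : ∀ i, l.length ≤ i → nthN l i = 64 := by
  induction l with
  | nil => intro i _; rfl
  | cons a t ih =>
    intro i hi
    rcases i with _ | i
    · exact absurd hi (by simp)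
    · change sel (Nat.beq (i + 1) 0) a (nthN t (Nat.sub (i + 1) 1)) = 64
      have : Nat.beq (i + 1) 0 = false := rfl
      rw [this, sel_false]
      exact ih i (Nat.le_of_succ_le_succ hi)

private lemma B9_pats {c d : ℕ} (hd : okCls 0 (Nat.xor c d) = true) {ν : E}
    (h : clE ν + toCl d = toCl c) (hlt : Nat.xor c d < 64) : code ν ∈ pats (Nat.xor c d) := by
  rw [mem_pats_iff hd]
  refine ⟨ν, rfl, ?_⟩
  apply toCl_inj (clsP_code ν).1 hlt
  rw [(clsP_code ν).2, toCl_xor, ← h, add_assoc, B9_cl_dbl, add_zero]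

private lemma B9_xor_lt {c d : ℕ} (hc : c < 64) (hd : d < 64) : Nat.xor c d < 64 :=
  Nat.xor_lt_two_pow (n := 6) hc hd

private lemma B9_cls {c d : ℕ} {μ : E} (h : clsP (code μ) = Nat.xor c d) :
    clE μ + toCl d = toCl c := by
  rw [← (clsP_code μ).2, h, toCl_xor, add_assoc, B9_cl_dbl, add_zero]

/-- Proof. Apply `chk_sound` to `chkPush` (unfold) with `γ = Ix (clF cg) (toCl c)`,
`κ = Ix (clF cr) (toCl c)`, `cd (j, μ) = 16 j + pos (code μ)`, `rw' (k, ν) = 262144 k + code ν`, and
rewrite the matrix by `ev_rowOf`. The hypotheses: `hcd` by `pos_lt`, `pos_inj` (the class of `μ` is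
`c xor cg_j`); `hG`: `i < 16 n` is `16 j + r`, and the class `c xor cg_j` has a pattern with position
`r` (`pos_surj`); `hR`: unfold `okRow`, `exists_code`, and `nthN cr k = 64` for `k` out of range (the
class of a pattern is less than `64`, so `xor` with `64` is not `c`); `hg`, `hrc`, `hrc'`: the
members of `genList` and of `rowList` are the numbers `16 j + pos μ` and `262144 j + μ` with `μ` in
`pats (c xor d_j)` (induction on the list with a general start index), `mem_pats_iff`; `hk`:
`pushKey_spec` and the class computation in `ev_rowOf`. -/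
theorem push_sound {P : Pres} {cg cr : List ℕ} {c : ℕ} (hs : SrcOK P cg cr c) {C : Cert}
    (h : chkPush tgtTy P cg cr c C = true) {A : Type*} [CommRing A] (ι : S0 →+* A) :
    Nonempty (Cok ι (blk (mat P) (clF cr) (clF cg) (toCl c)) ≃ₗ[A] Cok ι (Dm tgtTy C.tgt)) := by
  classical
  have hmat : (fun k : Ix (clF cr : Fin P.rows.length → Cl) (toCl c) =>
      ev (fun q : Ix (clF cg : Fin P.n → Cl) (toCl c) => 16 * q.1.1.val + pos (code q.1.2))
        (rowOf P (262144 * k.1.1.val + code k.1.2))) =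
      blk (mat P) (clF cr) (clF cg) (toCl c) := by
    funext k q
    exact ev_rowOf hs k q
  rw [← hmat]
  refine chk_sound tgtTy (fun q => Nat.ble (Nat.succ q) (Nat.mul 16 P.n)) (okRow c cr)
    (genList c cg 0) (rowList c cr 0) (rowOf P) C
    (fun q : Ix (clF cg : Fin P.n → Cl) (toCl c) => 16 * q.1.1.val + pos (code q.1.2)) ?_
    (fun k : Ix (clF cr : Fin P.rows.length → Cl) (toCl c) => 262144 * k.1.1.val + code k.1.2)
    ?_ ?_ ?_ ?_ ?_ ?_ h ι
  · -- injective
    rintro ⟨⟨j, μ⟩, hj⟩ ⟨⟨j', μ'⟩, hj'⟩ he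
    have he' : 16 * j.val + pos (code μ) = 16 * j'.val + pos (code μ') := he
    have p1 := pos_lt μ
    have p2 := pos_lt μ'
    have hjj : j = j' := by
      apply Fin.ext
      omega
    subst hjj
    have hj1 : clE μ + toCl (nthN cg j.val) = toCl c := hj
    have hj2 : clE μ' + toCl (nthN cg j.val) = toCl c := hj'
    have : μ = μ' := B9_code_eq (add_right_cancel (hj1.trans hj2.symm)) (by omega)
    subst this
    rfl
  · -- generators
    intro i hi
    have hi' : i + 1 ≤ 16 * P.n := Nat.le_of_ble_eq_true hi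
    have hj : i / 16 < P.n := by omega
    obtain ⟨c1, c2⟩ := hs.ci (i / 16) hj
    obtain ⟨μ, hμ1, hμ2⟩ := pos_surj c2 (Nat.mod_lt i (by norm_num : 0 < 16))
    refine ⟨⟨(⟨i / 16, hj⟩, μ), B9_cls hμ1⟩, ?_⟩
    change 16 * (i / 16) + pos (code μ) = i
    rw [hμ2]
    exact Nat.div_add_mod i 16
  · -- rows
    intro r hr
    have hr' : sel (Nat.beq (Nat.land (Nat.mod r 262144) 87381) (Nat.mod r 262144))
        (Nat.beq (Nat.xor (clsP (Nat.mod r 262144)) (nthN cr (Nat.div r 262144))) c) false =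
          true := hr
    have hb : Nat.beq (Nat.land (Nat.mod r 262144) 87381) (Nat.mod r 262144) = true := by
      by_contra hb
      rw [Bool.not_eq_true] at hb
      rw [hb, sel_false] at hr'
      exact absurd hr' (by decide)
    rw [hb, sel_true, natbeq_iff] at hr'
    rw [natbeq_iff] at hb
    obtain ⟨μ, hμ⟩ := exists_code hb
    rw [← hμ] at hr'
    have hlt : Nat.div r 262144 < P.rows.length := by
      by_contra hcon
      have h64 := B9_nthN_out cr (Nat.div r 262144) (by rw [hs.lr]; omega)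
      rw [h64] at hr'
      have hc1 := (clsP_code μ).1
      have hx : Nat.testBit (Nat.xor (clsP (code μ)) 64) 6 = true := by
        have e1 : Nat.testBit (clsP (code μ)) 6 = false :=
          Nat.testBit_lt_two_pow (by norm_num; exact hc1)
        have e2 : Nat.testBit (Nat.xor (clsP (code μ)) 64) 6 =
            (Nat.testBit (clsP (code μ)) 6 ^^ Nat.testBit 64 6) := Nat.testBit_xor _ _ _
        rw [e2, e1]
        decide
      rw [hr'] at hx
      have hx' : Nat.testBit c 6 = false := Nat.testBit_lt_two_pow (by norm_num; exact hs.hc)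
      rw [hx'] at hx
      exact absurd hx (by decide)
    refine ⟨⟨(⟨Nat.div r 262144, hlt⟩, μ), ?_⟩, ?_⟩
    · change clE μ + toCl (nthN cr (Nat.div r 262144)) = toCl c
      rw [← hr', toCl_xor, (clsP_code μ).2]
    · change 262144 * (r / 262144) + code μ = r
      rw [hμ]
      exact Nat.div_add_mod r 262144
  · -- codes of generators are listed
    rintro ⟨⟨j, μ⟩, hj⟩
    have hj1 : clE μ + toCl (nthN cg j.val) = toCl c := hj
    obtain ⟨c1, c2⟩ := hs.ci j.val j.isLt
    rw [B9_mem_genList]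
    refine ⟨j.val, by rw [hs.lg]; exact j.isLt, code μ,
      B9_pats c2 hj1 (B9_xor_lt hs.hc c1), ?_⟩
    rw [Nat.zero_add]
  · -- codes of rows are listed
    rintro ⟨⟨k, ν⟩, hk⟩
    have hk1 : clE ν + toCl (nthN cr k.val) = toCl c := hk
    obtain ⟨c1, c2⟩ := hs.ri k.val k.isLt
    rw [B9_mem_rowList]
    refine ⟨k.val, by rw [hs.lr]; exact k.isLt, code ν,
      B9_pats c2 hk1 (B9_xor_lt hs.hc c1), ?_⟩
    rw [Nat.zero_add]
  · -- listed rows are codes
    intro r hr
    rw [B9_mem_rowList] at hr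
    obtain ⟨i, hi, mu, hmu, rfl⟩ := hr
    rw [hs.lr] at hi
    obtain ⟨c1, c2⟩ := hs.ri i hi
    rw [mem_pats_iff c2] at hmu
    obtain ⟨μ, hμ, hμ2⟩ := hmu
    refine ⟨⟨(⟨i, hi⟩, μ), B9_cls hμ2⟩, ?_⟩
    rw [Nat.zero_add]
    change 262144 * i + code μ = 262144 * i + mu
    rw [hμ]
  · -- indices of keys are codes
    rintro ⟨⟨k, ν⟩, hk⟩ x hx
    have hk1 : clE ν + toCl (nthN cr k.val) = toCl c := hk
    have hx' : x ∈ rowOf P (262144 * k.val + code ν) := hx
    rw [B9_rowOf, List.mem_map] at hx'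
    obtain ⟨y, hy, rfl⟩ := hx'
    obtain ⟨h1, h2, h3⟩ := hs.key k.val k.isLt y hy
    obtain ⟨s1, s2⟩ := pushKey_spec ν y h2
    refine ⟨⟨(⟨idx y, h1⟩, par (expo y + pexp ν)), B9_class hs k.isLt hk1 hy⟩, ?_⟩
    exact s2.symm

/-- Proof. Apply `chk_sound` with `γ = Fin P.n`, `cd j = j`, `κ = Fin P.rows.length`, `rw' k = k`
(`nthRow_eq`). -/
theorem plain_sound {P : Pres} (hP : ∀ r ∈ P.rows, ∀ k ∈ r, idx k < P.n) {C : Cert}
    (h : chkPlain tgtTy P C = true) {A : Type*} [CommRing A] (ι : S0 →+* A) :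
    Nonempty (Cok ι (mat P) ≃ₗ[A] Cok ι (Dm tgtTy C.tgt)) := by
  have hmat : (fun k : Fin P.rows.length =>
      ev (fun j : Fin P.n => j.val) (nthRow P.rows k.val)) = mat P := by
    funext k
    rw [nthRow_eq]
    rfl
  rw [← hmat]
  refine chk_sound tgtTy (fun q => Nat.ble (Nat.succ q) P.n)
    (fun r => Nat.ble (Nat.succ r) P.rows.length)
    (List.range P.n) (List.range P.rows.length) (nthRow P.rows) C
    (fun j : Fin P.n => j.val) Fin.val_injective
    (fun k : Fin P.rows.length => k.val) ?_ ?_ ?_ ?_ ?_ ?_ h ι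
  · intro i hi
    exact ⟨⟨i, Nat.le_of_ble_eq_true hi⟩, rfl⟩
  · intro r hr
    exact ⟨⟨r, Nat.le_of_ble_eq_true hr⟩, rfl⟩
  · intro q
    exact List.mem_range.mpr q.isLt
  · intro k
    exact List.mem_range.mpr k.isLt
  · intro r hr
    exact ⟨⟨r, List.mem_range.mp hr⟩, rfl⟩
  · intro k x hx
    have hx' : x ∈ nthRow P.rows k.val := hx
    rw [nthRow_eq] at hx'
    exact ⟨⟨idx x, hP _ (List.get_mem _ _) x hx'⟩, rfl⟩

end Pool.Agent.Lib.H54F
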