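import Pool.Agent.Lib.H54F.A11
import Pool.Agent.Lib.H54F.B9

/-! # B13: blocks with a certificate -/

namespace Pool.Agent.Lib.H54F

private theorem b13_wf {t : ℕ} (ht : t < 14) : Wf (tgtTy t) := by
  have h := List.all_eq_true.1 wf_tgt t (List.mem_range.2 ht)
  rw [Bool.and_eq_true] at h
  refine ⟨by simpa using h.1, ?_⟩
  intro r hr k hk
  have h2 := List.all_eq_true.1 h.2 r hr
  have h3 := List.all_eq_true.1 h2 k hk
  rw [Nat.blt_eq] at h3
  exact h3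

private theorem b13_big {t : ℕ} (ht : 13 ≤ t) : tgtTy t = srcR := by
  unfold tgtTy
  split <;> first | omega | rfl

/-- Proof. `wf_tgt` for `t < 14` and `tgtTy t = srcR` for the others. -/
theorem wf_tgtTy (t : ℕ) : Wf (tgtTy t) := by
  rcases lt_or_ge t 14 with ht | ht
  · exact b13_wf ht
  · rw [b13_big (by omega), ← b13_big (le_refl 13)]
    exact b13_wf (by norm_num)

private theorem b13_one (t w : ℕ) {A : Type*} [CommRing A] (ι : S0 →+* A) :
    Nonempty (Cok ι (Dm tgtTy [(t, w)]) ≃ₗ[A] Cok ι (mat (tgtTy t))) := by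
  obtain ⟨f⟩ := split_cok tgtTy wf_tgtTy [(t, w)] ι
  exact ⟨f.trans (LinearEquiv.piUnique A
    (fun i : Fin 1 => Cok ι (mat (tgtTy (([(t, w)] : List (ℕ × ℕ)).get i).1))))⟩

private theorem b13_plain {P : Pres} (hP : ∀ r ∈ P.rows, ∀ k ∈ r, idx k < P.n) {C : Cert}
    (h : chkPlain tgtTy P C = true) {t w : ℕ} (hC : C.tgt = [(t, w)]) {A : Type*} [CommRing A]
    (ι : S0 →+* A) : Nonempty (Cok ι (mat (tgtTy t)) ≃ₗ[A] Cok ι (mat P)) := by
  obtain ⟨f⟩ := plain_sound hP h ι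
  rw [hC] at f
  obtain ⟨g⟩ := b13_one t w ι
  exact ⟨(f.trans g).symm⟩

/-- Proof. Cases: `tgtTy t = src t` (`rfl`) for `t = 0, ..., 6, 11, 12`; `tgtTy t = srcR = src 0` for
`t ≥ 13`. For `t = 7, 8, 9, 10` apply `plain_sound` to `okPL`, `okPLt`, `okPM`, `okPMt` (the
hypothesis by `decide +kernel` or from `SrcOK.key`) and `split_cok`: the certificate has the one
target `[(t, _)]`, and a product over `Fin 1` is its only factor. -/
theorem tgt_src.{u} (t : ℕ) : ∃ s : Fin 15, ∀ (A : Type u) [CommRing A] (ι : S0 →+* A),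
    Nonempty (Cok ι (mat (tgtTy t)) ≃ₗ[A] Cok ι (mat (src s.val))) := by
  rcases lt_or_ge t 13 with ht | ht
  · interval_cases t
    · exact ⟨0, fun A _ ι => ⟨LinearEquiv.refl A _⟩⟩
    · exact ⟨1, fun A _ ι => ⟨LinearEquiv.refl A _⟩⟩
    · exact ⟨2, fun A _ ι => ⟨LinearEquiv.refl A _⟩⟩
    · exact ⟨3, fun A _ ι => ⟨LinearEquiv.refl A _⟩⟩
    · exact ⟨4, fun A _ ι => ⟨LinearEquiv.refl A _⟩⟩
    · exact ⟨5, fun A _ ι => ⟨LinearEquiv.refl A _⟩⟩
    · exact ⟨6, fun A _ ι => ⟨LinearEquiv.refl A _⟩⟩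
    · exact ⟨7, fun A _ ι => b13_plain (by decide +kernel) okPL rfl ι⟩
    · exact ⟨8, fun A _ ι => b13_plain (by decide +kernel) okPLt rfl ι⟩
    · exact ⟨9, fun A _ ι => b13_plain (by decide +kernel) okPM rfl ι⟩
    · exact ⟨10, fun A _ ι => b13_plain (by decide +kernel) okPMt rfl ι⟩
    · exact ⟨11, fun A _ ι => ⟨LinearEquiv.refl A _⟩⟩
    · exact ⟨12, fun A _ ι => ⟨LinearEquiv.refl A _⟩⟩
  · rw [b13_big ht]
    exact ⟨0, fun A _ ι => ⟨LinearEquiv.refl A _⟩⟩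

/-- Proof. `push_sound` (with `srcOK_of ho`), `split_cok`, `wf_tgtTy`, `tgt_src`
(`LinearEquiv.piCongrRight`, choice). -/
theorem dec_cert.{u} {s c : ℕ} {C : Cert} (h : chkPush tgtTy (src s) (cg s) (cr s) c C = true)
    (ho : okSrc (src s) (cg s) (cr s) c = true) : Dec.{u} (blkS s (toCl c)) := by
  choose f hf using fun t => tgt_src.{u} t
  refine ⟨C.tgt.length, fun i => f (C.tgt.get i).1, fun A _ ι => ?_⟩
  obtain ⟨e1⟩ := push_sound (srcOK_of ho) h ι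
  obtain ⟨e2⟩ := split_cok tgtTy wf_tgtTy C.tgt ι
  exact ⟨(e1.trans e2).trans (LinearEquiv.piCongrRight fun i => (hf (C.tgt.get i).1 A ι).some)⟩

end Pool.Agent.Lib.H54F
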