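import Pool.Agent.Lib.H54F.Types

namespace Pool.Agent.Lib.H54F

noncomputable def certR_00 : Cert where
  tgt := [(0, 36220618166597), (0, 36013368951044), (5, 36013368951044)]
  h0 := 6
  h1 := 6
  steps := decF 5 0x1010100000000000b20f14514514500000000000400000000405000000000000d20f14514514500000000000400000000440100000000000e20f14514514500000000000400000000111000000000000720f145145145000000000004
  mins := decF 13 0x8000000000005010000000000000f00000000000400000014000000000005000400000000000c0000000000040000000c000000000005004000000000000a0000000000040000002c00000000002900000000002440000000001c04000000001801000000000000000000000000090000000000080000001800000000000000080000000000030000000000000000000000060000000000030000001000000000000440400000000000050000000000040000001c0000000000000004000000000003000000200000000000040404000000000003000000000004000000240000000000000002000000000003000000280000000000000001000000000003000000040000000000000000000000000003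
  be := decF 17 0x2c44010000002c40500000002c11100000002800440000001810100000000844000000000411100000000000000000000000090000002800000000000000020000002c40000000002400000000000000030000002000000000000410000000000000030000001c00000000000000020000002c00100000001000000000000400100000000000040000000000010000002c00000000000400000000000000030000002c01000000001800000000000401000000000000040000000000010000002c00040000000c00000000000400040000000000040000000000010000001400000000000400400000000000030000002c00000000000000020000000000010000002c0001000000080000000000000003
  ga := decF 13 0x800000000000000020000003800000000000000020000003400000000000840000000000000030000003000000000002010000000000810000000000000040000002c00000000000000020000002001000000001c00000000000000030000002000400000000c00000000000800400000000000040000002800000000002000100000000000030000002000040000001400000000000000030000000800010000000000000000000000030000002000000000000800000000000000030000003c00000000003800440000001c1010000000084050000000004400000000000006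
  ali := decF 13 0x2000000000001c01000000001800000000001004000000000840000000000500000000000000070000000400000000000000020000000800000000000000020000000c00000000000004040000000000030000001000000000000000020000001c00000000000000020000002800000000000100040000000000030000001400000000000040400000000000030000002400000000000100400000000000030000002c0000000000010100000000000003000000000000000000000002000000180000000000000002

theorem okR_00 : chkPush tgtTy srcR cgR crR 0 certR_00 = true := by decide +kernel

end Pool.Agent.Lib.H54F
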