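import Pool.Agent.Lib.H54F.Types

namespace Pool.Agent.Lib.H54F

noncomputable def certR_02 : Cert where
  tgt := [(0, 36082088427844), (0, 36082088431876), (0, 36151881650437), (0, 36082088427781), (0, 36151881650500), (0, 36151881646405), (1, 36014442692868), (2, 36219527385413)]
  h0 := 6
  h1 := 6
  steps := decF 5 0x140100000000000620f14414514500000000000400000001004100000000000920f14414514500000000000400000000440400000000000720f14510514500000000000400000001010400000000000d20f145105145000000000004
  mins := decF 13 0x2400000000001440000000000d010000000008010000000004011000000000000f00000000000700000018000000000010000000000004040000000001000000000000000e00000000000600000008000000000004001000000000000c00000000000400000010000000000000000b0000000000030000002800000000001800010000001410000000000d004000000008004000000004040100000004005000000001000100000000000a00000000000a0000001c00000000000d00000000000800000000000000080000000000050000002c00000000000c11000000000401010000000040010000000000050000000000060000000400000000000000040000000000030000001400000000000000030000000000030000002000000000001400000000000c04000000000000100000000000020000000000060000000000000000000000010000000000030000000c0000000000000000000000000003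
  be := decF 17 0x2c04000000002900000000002011000000001d00400000001901000000001000000000000100000000000000080000002c00100000002500000000002040010000000d00000000000800000000000400100000000000070000002c00000000000000020000002c00000000001c10000000001840000000000400000000000000050000002800100000002404000000002001010000001400000000000000050000002000000000000000020000000000010000000000010000002800000000000000020000000000010000001c00000000000000020000002400000000001c00010000000c00000000000000040000002800000000001c00400000001801000000000000000000000000050000000000010000002400000000001c0001000000000003000000180000000000000002
  ga := decF 13 0x3400000000000000020000001c00000000000000020000001400010000000400000000000000030000002800000000000000020000001400000000000000020000000000000000000000020000002c00000000002801010000001c00100000001404010000000404000000000000060000003c00000000003404000000002811000000000d00000000000000050000001000000000000400000000000000030000003800000000003000100000002840010000001500010000001410100000001100000000000040100000000000080000003400000000003000000000001410000000000040000000000000050000001c00000000001400400000000c0000000000000100000000000005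
  ali := decF 13 0x1400000000001001010000000440010000000011000000000000050000002800010000002400400000002000010000001c00000000000c10000000000100400000000000070000002c00000000002401000000000c40000000000101000000000000050000000c00000000000800000000000400100000000004000000000000050000002400000000001800000000001000100000000100000000000000050000002800000000002000000000001004000000000500000000000000050000000c0000000000000002000000200000000000000002000000000000000000000002000000240000000000100010000000000003000000100000000000000002000000040000000000000002

theorem okR_02 : chkPush tgtTy srcR cgR crR 24 certR_02 = true := by decide +kernel

end Pool.Agent.Lib.H54F
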