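import Pool.Agent.Lib.H54F.Types

namespace Pool.Agent.Lib.H54F

noncomputable def certR_11 : Cert where
  tgt := [(0, 36082105209092), (0, 36083162173700), (0, 36083162169668), (0, 36013368951044), (0, 36151898427716), (0, 36082105205060), (1, 36014459470084), (2, 36150807908676)]
  h0 := 5
  h1 := 6
  steps := decF 5 0x111100000000000920f14514514500000000000400000000405100000000000620f14514514500000000000400000000440000000000000e20e14510514400000000000400000001010000000000000b20e145105144000000000004
  mins := decF 13 0x24000000000018000000000015000000000008400000000004010000000000040000000000000f0000000000080000001000000000000d010000000000000d0000000000040000001c00000000000c401000000004000400000000001000000000000c0000000000060000002800000000000c140000000008100000000004004000000000000a0000000000060000000400000000000000080000000000030000001800000000001000000000000d01000000000840000000000401000000000000070000000000070000002c00000000001410000000000000400000000000050000000000050000000000000000000000040000000000030000002000000000001400100000000800040000000000030000000000050000000800000000000000020000000000030000001400000000000c01000000000000010000000000040000000c0000000000000000000000000003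
  be := decF 17 0x2c01100000002840100000002040400000001d00400000001844000000001000000000000d01000000000840000000000000090000002c00100000002010000000001900000000000400000000000000050000002c00040000002440000000001c10000000000000000000000000050000002c00000000000000020000002800100000002000400000001804000000000800000000000000050000002000000000000000020000000000010000002400000000001800000000000c00000000000000040000002800040000002401000000001c00400000001400000000000000050000000000010000001c0000000000000002000000000001000000280000000000000002000000240000000000180000000000000003000000000001000000180000000000000002
  ga := decF 13 0x3000000000000000020000000c00000000000000020000000800000000000000000000000000030000002800000000000000020000001400000000000000020000000000000000000000020000001c00000000001400400000000c00040000000801000000000001000000000000060000003c00000000003001100000002c40000000002101000000001500400000000901000000000000070000002000000000000800000000000000030000002c00000000002800400000000c0010000000000400000000000005000000380000000000300010000000281000000000010000000000000005000000340000000000300004000000141000000000084000000000004000000000000006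
  ali := decF 13 0x1400000000001000400000000410000000000011000000000000050000002000000000001c00400000000810000000000014000000000000050000002c00000000002800000000001800000000001004000000000500000000000101000000000000070000000c00000000000800040000000400100000000001100000000000050000002400000000001c00040000001000100000000040100000000000050000002800000000001c01000000001800000000000840000000000000050000000400000000000001000000000000030000002800000000000101000000000000030000000000000000000000020000000800000000000000020000001c0000000000000002000000100000000000000002

theorem okR_11 : chkPush tgtTy srcR cgR crR 9 certR_11 = true := by decide +kernel

end Pool.Agent.Lib.H54F
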