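import Pool.Agent.Lib.H54F.Types

namespace Pool.Agent.Lib.H54F

noncomputable def certR_13 : Cert where
  tgt := [(0, 36082088427844), (0, 36082088427844), (0, 36082088431876), (0, 36082088431876), (3, 36150807908676), (4, 36013368951044)]
  h0 := 5
  h1 := 6
  steps := decF 7 0x404500000000000520f10514514500000000000400000001005100000000000a20f14414514500000000000400000001011400000000000f20f14510514500000000000400000000104000000000000620e10414514400000000000400000000410000000000000720e10510514400000000000400000001040000000000000e20e144105144000000000004
  mins := decF 11 0x2401000000001400000000000c010000000008010000000000000d00000000000600000008000000000000000c00000000000300000018000000000005000000000000000b0000000000040000001000000000000000090000000000030000002400000000000c00000000000000080000000000040000000c00000000000800000000000000040000000000040000000400000000000000000000000000030000000000040000002000000000000400000000000000020000000000040000000000000000000000010000000000030000001c0000000000000000000000000003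
  be := decF 17 0x1000000000000000020000002500000000001400000000000800000000000000040000002500000000001400000000000000030000002500000000002040000000001c10000000001400000000000c00000000000800000000000000070000001800000000000000020000000000010000000000010000000000010000002404000000002001000000001800000000000400000000000000000000000000060000001c0000000000000002000000000001000000000001000000240400000000200100000000180000000000040000000000000005000000200000000000000002000000240000000000000002000000000001
  ga := decF 11 0x400000000000000020000000800000000000000020000001800000000000000020000002c00000000000000020000003400000000000500000000000000030000003c00000000000000020000003800000000003000000000001810000000000840000000000000050000003800000000003400000000000000030000002c00000000000c00000000000801000000000404000000000000050000001c00000000000c0000000000000003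
  ali := decF 11 0x2000000000001400000000001000000000000000040000000c00000000000800000000000400000000000000040000000000000000000000020000001c00000000000d00000000000500000000000000040000002400000000002001000000001401000000000000040000001800000000000000020000002000000000001000000000000000030000002000000000000000020000000c0000000000040000000000000003000000040000000000000002

theorem okR_13 : chkPush tgtTy srcR cgR crR 57 certR_13 = true := by decide +kernel

end Pool.Agent.Lib.H54F
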