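import Pool.Agent.Lib.H54F.Types

namespace Pool.Agent.Lib.H54F

noncomputable def certR_20 : Cert where
  tgt := [(0, 36013385728260), (0, 36083162435844), (0, 36014442692868), (0, 36013369213188), (0, 36083178950916), (0, 36082105471236), (1, 36014459732228), (2, 36082088431876)]
  h0 := 5
  h1 := 5
  steps := decF 5 0x401100000000000620e14514510500000000000400000001000500000000000920e14514510500000000000400000000444000000000000720e14514514400000000000400000001014000000000000b20e145145144000000000004
  mins := decF 13 0x2801000000001800000000001404000000000c440000000008110000000004010000000000000f00000000000800000024000000000010000000000008400000000001000000000000000e00000000000600000010000000000000000d0000000000030000002800040000002400010000001c00000000001400100000000c401000000008400100000008100400000004000400000001000100000000000c00000000000b0000002800000000000d000000000008100000000004000000000000000a0000000000060000000400000000000000080000000000030000001400000000000c40000000000000050000000000040000002c00000000001400000000000010000000000000040000000000050000002000000000000c01100000000801010000000004010000000000030000000000060000000800000000000000020000000000030000000000000000000000010000000000030000000c0000000000000000000000000003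
  be := decF 17 0x2c01100000002900040000002501000000002040000000001d00000000001000000000000100000000000000080000002c005000000029000100000028101000000025004000000024140000000020100000000019000000000008100000000004000000000000000a0000002c01010000001c10000000001840000000001400000000000c40000000000000060000002c00000000000000020000002000000000000000020000002800100000002404000000002000000000000800000000000000050000000000010000000000010000001c00000000000000020000000000010000002800040000002401000000001c00000000000000000000000000050000000000010000002800000000000000020000002800010000001800000000000c0000000000000004000000280001000000180000000000000003000000240000000000000002
  ga := decF 13 0x3000000000000000020000000c00000000000000020000000000000000000000020000002c00000000000000020000001c00000000000000020000000c00010000000400000000000000030000003400000000003001010000001c10000000000c40010000000840000000000000060000003c00000000003001100000002c40000000001500000000000000050000000800000000000400000000000000030000002c00000000002800000000000c00100000000004000000000000050000003800000000003000500000002810000000000500000000000100400000000000060000001c00000000001400000000000c0004000000000100000000000005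
  ali := decF 13 0x1400000000001000000000000410000000000040000000000000050000001c00000000001800000000000810000000000100000000000000050000002800000000002400000000000840000000000500000000000000050000000c00000000000801010000000404010000000001100000000000050000002800010000002400010000002000000000001c00040000001400100000000100040000000000070000002c00000000001c0100000000140400000000010100000000000005000000140000000000004000000000000003000000240000000000000002000000000000000000000002000000080000000000000002000000180000000000000002000000040000000000000002

theorem okR_20 : chkPush tgtTy srcR cgR crR 3 certR_20 = true := by decide +kernel

end Pool.Agent.Lib.H54F
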