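import Pool.Agent.Lib.H54F.Types

namespace Pool.Agent.Lib.H54F

noncomputable def certR_22 : Cert where
  tgt := [(0, 36013368951044), (0, 36083162173700), (0, 36083162173700), (0, 36013368951044), (3, 36082088431876), (4, 36014442692868)]
  h0 := 5
  h1 := 5
  steps := decF 7 0x150500000000000720f14514514500000000000400000000101100000000000820e14414510500000000000400000000401400000000000d20e14510510500000000000400000000144000000000000b20e14414514400000000000400000000450000000000000f20e14510514400000000000400000001000000000000000920d144105104000000000004
  mins := decF 11 0x24000000000008000000000000000e00000000000400000024000000000018000000000004000000000000000c00000000000500000004000000000000000a0000000000030000000800000000000400000000000000060000000000040000001400000000000c40000000000040000000000000050000000000050000001000000000000000040000000000030000002000000000000c04000000000004000000000000030000000000050000001c00000000000000020000000000030000000c0000000000000001000000000003000000000000000000000000000000000003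
  be := decF 17 0x1c10000000001404000000000800000000000000040000001c10000000001404000000000400000000000000040000001000000000000000020000001400000000000000020000001c00000000000000020000002000000000000000020000002400000000001800000000000c00000000000000040000000000010000000000010000002400000000000000020000002400000000001800000000000000030000000000010000000000010000000000010000001800000000000c0000000000000000000000000004000000000001
  ga := decF 11 0x1800000000000000020000002800000000000000020000002c00000000000000020000001800000000001400000000000000030000003000000000000000020000003400000000000000020000002400000000001400000000000000030000003c00000000003004000000002c10000000000000040000003800000000003004000000002c1000000000000004000000240000000000180000000000040000000000000004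
  ali := decF 11 0x2400000000001c00000000001800000000000000040000000c00000000000404000000000004000000000000040000000800000000000000020000002400000000002000000000001800000000000000040000001400000000000440000000000040000000000000040000001000000000000000020000000400000000000000020000001c00000000001800000000000000030000001c0000000000000002000000000000000000000002

theorem okR_22 : chkPush tgtTy srcR cgR crR 27 certR_22 = true := by decide +kernel

end Pool.Agent.Lib.H54F
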