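import Pool.Agent.Lib.H54F.Types

namespace Pool.Agent.Lib.H54F

noncomputable def certR_31 : Cert where
  tgt := [(0, 36014442692868), (0, 36014442692868), (0, 36013385728260), (0, 36013385728260), (3, 36013368951044), (4, 36014459470084)]
  h0 := 5
  h1 := 5
  steps := decF 7 0x44500000000000320e14514414500000000000400000001100500000000000c20e14514510500000000000400000001114000000000000f20e14514514400000000000400000000001400000000000620d14510410500000000000400000000050000000000000720d14510414400000000000400000001400000000000000e20d145105104000000000004
  mins := decF 11 0x2400000000001500000000000d000000000000000d00000000000500000020000000000018010000000004010000000000010000000000000b00000000000600000004000000000000000a0000000000030000001c00000000000000090000000000030000001800000000000000000000000000080000000000040000000800000000000000050000000000030000000c00000000000000040000000000030000000400000000000000000000000000020000000000040000001400000000000c0000000000080000000000000001000000000005000000100000000000000000000000000003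
  be := decF 17 0x1c00000000000000020000002000000000001900000000000400000000000000040000002400000000000000020000000000010000002000000000001900000000000000030000002000000000001900000000001404000000001000100000000400000000000000000000000000070000000000010000000000010000002400000000001840000000001401000000000800000000000000050000001000000000000000020000002400000000001000040000000c0000000000000004000000140000000000000002000000000001000000000001000000180000000000000002000000000001
  ga := decF 11 0x3400000000000000020000002c00000000000500000000000000030000003c00000000000000020000000400000000000000020000001000000000000000020000001800000000000000020000003400000000001800040000001400000000000000040000003400000000001c00000000001001000000000440000000000000050000003800000000002c0000000000000003000000380000000000280000000000180010000000100400000000000005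
  ali := decF 11 0x2400000000001100000000000500000000000000040000002000000000001c01000000001401000000000000040000001800000000000000020000001c00000000001400000000000800000000000000040000001000000000000c00000000000400000000000000040000000000000000000000020000000c00000000000000020000001000000000000000020000001c00000000000000020000001c0000000000080000000000000003

theorem okR_31 : chkPush tgtTy srcR cgR crR 15 certR_31 = true := by decide +kernel

end Pool.Agent.Lib.H54F
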