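import Pool.Agent.Lib.H54F.Types

namespace Pool.Agent.Lib.H54F

noncomputable def certR_33 : Cert where
  tgt := [(0, 36013368951044), (0, 36013368951044), (0, 36013368951044), (0, 36013368951044), (6, 36013368951044)]
  h0 := 5
  h1 := 5
  steps := decF 3 0x1444500000000000f20f14514514500000000000400000000000000000000000120c104104104000000000004
  mins := decF 15 0x3500000000003000000000000d000000000005000000000000000e0000000000060000002c00000000000c400000000008400000000004400000000000000d00000000000600000028000000000004100000000000100000000000000c00000000000500000024000000000008040000000000040000000000000b0000000000050000001800000000000c001000000000000a0000000000040000003400000000000c00000000000400000000000000000000000000090000000000060000003400000000000800000000000400000000000000080000000000050000002000000000000401000000000000070000000000040000000c00000000000000060000000000030000003400040000001400000000000c00040000000400040000000000040000000000050000000000070000003400000000000000000000000000040000000000040000003400400000001c00000000000000030000000000040000003400000000000c0000000000040000000000000002000000000005000000100000000000080001000000000000000000000004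
  be := decF 17 0x1000000000000000020000000000010000003400000000003100000000002c40000000002810000000001c00400000001000010000000400000000000000000000000000090000001c00000000000000020000003400000000003100000000002404000000001800100000001400040000001000010000000c00000000000000080000001400000000000000020000002c40000000002810000000002404000000002001000000001800100000001000010000000800000000000400000000000000090000002000000000000000020000002c40000000002404000000001000010000000c00000000000000050000003400000000002c40000000002404000000002001000000001c00400000001400040000000400000000000000080000001800000000000000020000002400000000000000020000002800000000000000020000002c0000000000000002000000300000000000000002000000000001
  ga := decF 15 0x2c00000000002800040000001c00000000001400100000000840000000000500000000000000070000000400000000000000020000000800000000000000020000000c00000000000000020000001000000000000000020000002000000000000000020000003000000000000000020000001400000000000000020000002800000000000000020000003c00000000000000020000003c00010000001c00000000001004000000000840000000000000050000003c00010000003000400000002c00000000002400000000001c00000000001800000000000c100000000008400000000005000000000000000a0000003000400000002c00000000002001000000001c00000000001800000000001400100000001004000000000500000000000000090000003c00010000003400000000002800040000002001000000001800000000001004000000000c1000000000050000000000000009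
  ali := decF 15 0x2000000000000c00000000000400000000000000040000003400000000000500000000000000030000003000000000002040000000001c40000000001440000000000c40000000000440000000000000070000002c00000000001410000000000c10000000000410000000000000050000002800000000002004000000001c04000000001404000000000000050000002001000000001800000000001401000000000c01000000000000050000002000400000000c00400000000800000000000400400000000000050000002400000000001400100000000000030000002000040000001000000000000000030000001c00010000001400010000000400010000000000000000000000050000001400000000000000020000001c00000000001400000000000400000000000000040000002000000000001400000000000c0000000000000004000000200000000000040000000000000003

theorem okR_33 : chkPush tgtTy srcR cgR crR 63 certR_33 = true := by decide +kernel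

end Pool.Agent.Lib.H54F
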