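import Pool.Agent.Lib.H54F.CA_01
import Pool.Agent.Lib.H54F.CA_03
import Pool.Agent.Lib.H54F.CA_10
import Pool.Agent.Lib.H54F.CA_12
import Pool.Agent.Lib.H54F.CA_21
import Pool.Agent.Lib.H54F.CA_23
import Pool.Agent.Lib.H54F.CA_30
import Pool.Agent.Lib.H54F.CA_32
import Pool.Agent.Lib.H54F.CK_00
import Pool.Agent.Lib.H54F.CK_02
import Pool.Agent.Lib.H54F.CK_11
import Pool.Agent.Lib.H54F.CK_13
import Pool.Agent.Lib.H54F.CK_20
import Pool.Agent.Lib.H54F.CK_22
import Pool.Agent.Lib.H54F.CK_31
import Pool.Agent.Lib.H54F.CK_33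
import Pool.Agent.Lib.H54F.CL_01
import Pool.Agent.Lib.H54F.CL_03
import Pool.Agent.Lib.H54F.CL_10
import Pool.Agent.Lib.H54F.CL_12
import Pool.Agent.Lib.H54F.CL_21
import Pool.Agent.Lib.H54F.CL_23
import Pool.Agent.Lib.H54F.CL_30
import Pool.Agent.Lib.H54F.CL_32
import Pool.Agent.Lib.H54F.CM_01
import Pool.Agent.Lib.H54F.CM_03
import Pool.Agent.Lib.H54F.CM_10
import Pool.Agent.Lib.H54F.CM_12
import Pool.Agent.Lib.H54F.CM_21
import Pool.Agent.Lib.H54F.CM_23
import Pool.Agent.Lib.H54F.CM_30
import Pool.Agent.Lib.H54F.CM_32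
import Pool.Agent.Lib.H54F.CR_00
import Pool.Agent.Lib.H54F.CR_02
import Pool.Agent.Lib.H54F.CR_11
import Pool.Agent.Lib.H54F.CR_13
import Pool.Agent.Lib.H54F.CR_20
import Pool.Agent.Lib.H54F.CR_22
import Pool.Agent.Lib.H54F.CR_31
import Pool.Agent.Lib.H54F.CR_33
import Pool.Agent.Lib.H54F.CT_00
import Pool.Agent.Lib.H54F.CT_02
import Pool.Agent.Lib.H54F.CT_11
import Pool.Agent.Lib.H54F.CT_13
import Pool.Agent.Lib.H54F.CT_20
import Pool.Agent.Lib.H54F.CT_22
import Pool.Agent.Lib.H54F.CT_31
import Pool.Agent.Lib.H54F.CT_33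
import Pool.Agent.Lib.H54F.CW_00
import Pool.Agent.Lib.H54F.CW_02
import Pool.Agent.Lib.H54F.CW_11
import Pool.Agent.Lib.H54F.CW_13
import Pool.Agent.Lib.H54F.CW_20
import Pool.Agent.Lib.H54F.CW_22
import Pool.Agent.Lib.H54F.CW_31
import Pool.Agent.Lib.H54F.CW_33
import Pool.Agent.Lib.H54F.CX_00
import Pool.Agent.Lib.H54F.CX_02
import Pool.Agent.Lib.H54F.CX_11
import Pool.Agent.Lib.H54F.CX_13
import Pool.Agent.Lib.H54F.CX_20
import Pool.Agent.Lib.H54F.CX_22
import Pool.Agent.Lib.H54F.CX_31
import Pool.Agent.Lib.H54F.CX_33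
import Pool.Agent.Lib.H54F.CZ_00
import Pool.Agent.Lib.H54F.CZ_02
import Pool.Agent.Lib.H54F.CZ_11
import Pool.Agent.Lib.H54F.CZ_13
import Pool.Agent.Lib.H54F.CZ_20
import Pool.Agent.Lib.H54F.CZ_22
import Pool.Agent.Lib.H54F.CZ_31
import Pool.Agent.Lib.H54F.CZ_33
import Pool.Agent.Lib.H54F.B13

/-! # B14: the 72 certificates -/

namespace Pool.Agent.Lib.H54F

private lemma dec_R.{u} : ∀ r c : Fin 4, ((r.val + c.val) % 2 == 0) = true →
    Dec.{u} (blkS 0 (toCl (2 ^ r.val - 1 + 8 * (2 ^ c.val - 1)))) := by
  intro r c h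
  fin_cases r <;> fin_cases c
  · exact dec_cert (s := 0) (c := 0) okR_00 (by decide +kernel)
  · exact absurd h (by decide)
  · exact dec_cert (s := 0) (c := 24) okR_02 (by decide +kernel)
  · exact absurd h (by decide)
  · exact absurd h (by decide)
  · exact dec_cert (s := 0) (c := 9) okR_11 (by decide +kernel)
  · exact absurd h (by decide)
  · exact dec_cert (s := 0) (c := 57) okR_13 (by decide +kernel)
  · exact dec_cert (s := 0) (c := 3) okR_20 (by decide +kernel)
  · exact absurd h (by decide)
  · exact dec_cert (s := 0) (c := 27) okR_22 (by decide +kernel)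
  · exact absurd h (by decide)
  · exact absurd h (by decide)
  · exact dec_cert (s := 0) (c := 15) okR_31 (by decide +kernel)
  · exact absurd h (by decide)
  · exact dec_cert (s := 0) (c := 63) okR_33 (by decide +kernel)

private lemma dec_X.{u} : ∀ r c : Fin 4, ((r.val + c.val) % 2 == 0) = true →
    Dec.{u} (blkS 1 (toCl (2 ^ r.val - 1 + 8 * (2 ^ c.val - 1)))) := by
  intro r c h
  fin_cases r <;> fin_cases c
  · exact dec_cert (s := 1) (c := 0) okX_00 (by decide +kernel)
  · exact absurd h (by decide)
  · exact dec_cert (s := 1) (c := 24) okX_02 (by decide +kernel)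
  · exact absurd h (by decide)
  · exact absurd h (by decide)
  · exact dec_cert (s := 1) (c := 9) okX_11 (by decide +kernel)
  · exact absurd h (by decide)
  · exact dec_cert (s := 1) (c := 57) okX_13 (by decide +kernel)
  · exact dec_cert (s := 1) (c := 3) okX_20 (by decide +kernel)
  · exact absurd h (by decide)
  · exact dec_cert (s := 1) (c := 27) okX_22 (by decide +kernel)
  · exact absurd h (by decide)
  · exact absurd h (by decide)
  · exact dec_cert (s := 1) (c := 15) okX_31 (by decide +kernel)
  · exact absurd h (by decide)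
  · exact dec_cert (s := 1) (c := 63) okX_33 (by decide +kernel)

private lemma dec_A.{u} : ∀ r c : Fin 4, ((r.val + c.val) % 2 == 1) = true →
    Dec.{u} (blkS 3 (toCl (2 ^ r.val - 1 + 8 * (2 ^ c.val - 1)))) := by
  intro r c h
  fin_cases r <;> fin_cases c
  · exact absurd h (by decide)
  · exact dec_cert (s := 3) (c := 8) okA_01 (by decide +kernel)
  · exact absurd h (by decide)
  · exact dec_cert (s := 3) (c := 56) okA_03 (by decide +kernel)
  · exact dec_cert (s := 3) (c := 1) okA_10 (by decide +kernel)
  · exact absurd h (by decide)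
  · exact dec_cert (s := 3) (c := 25) okA_12 (by decide +kernel)
  · exact absurd h (by decide)
  · exact absurd h (by decide)
  · exact dec_cert (s := 3) (c := 11) okA_21 (by decide +kernel)
  · exact absurd h (by decide)
  · exact dec_cert (s := 3) (c := 59) okA_23 (by decide +kernel)
  · exact dec_cert (s := 3) (c := 7) okA_30 (by decide +kernel)
  · exact absurd h (by decide)
  · exact dec_cert (s := 3) (c := 31) okA_32 (by decide +kernel)
  · exact absurd h (by decide)

private lemma dec_K.{u} : ∀ r c : Fin 4, ((r.val + c.val) % 2 == 0) = true →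
    Dec.{u} (blkS 5 (toCl (2 ^ r.val - 1 + 8 * (2 ^ c.val - 1)))) := by
  intro r c h
  fin_cases r <;> fin_cases c
  · exact dec_cert (s := 5) (c := 0) okK_00 (by decide +kernel)
  · exact absurd h (by decide)
  · exact dec_cert (s := 5) (c := 24) okK_02 (by decide +kernel)
  · exact absurd h (by decide)
  · exact absurd h (by decide)
  · exact dec_cert (s := 5) (c := 9) okK_11 (by decide +kernel)
  · exact absurd h (by decide)
  · exact dec_cert (s := 5) (c := 57) okK_13 (by decide +kernel)
  · exact dec_cert (s := 5) (c := 3) okK_20 (by decide +kernel)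
  · exact absurd h (by decide)
  · exact dec_cert (s := 5) (c := 27) okK_22 (by decide +kernel)
  · exact absurd h (by decide)
  · exact absurd h (by decide)
  · exact dec_cert (s := 5) (c := 15) okK_31 (by decide +kernel)
  · exact absurd h (by decide)
  · exact dec_cert (s := 5) (c := 63) okK_33 (by decide +kernel)

private lemma dec_T.{u} : ∀ r c : Fin 4, ((r.val + c.val) % 2 == 0) = true →
    Dec.{u} (blkS 6 (toCl (2 ^ r.val - 1 + 8 * (2 ^ c.val - 1)))) := by
  intro r c h
  fin_cases r <;> fin_cases c
  · exact dec_cert (s := 6) (c := 0) okT_00 (by decide +kernel)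
  · exact absurd h (by decide)
  · exact dec_cert (s := 6) (c := 24) okT_02 (by decide +kernel)
  · exact absurd h (by decide)
  · exact absurd h (by decide)
  · exact dec_cert (s := 6) (c := 9) okT_11 (by decide +kernel)
  · exact absurd h (by decide)
  · exact dec_cert (s := 6) (c := 57) okT_13 (by decide +kernel)
  · exact dec_cert (s := 6) (c := 3) okT_20 (by decide +kernel)
  · exact absurd h (by decide)
  · exact dec_cert (s := 6) (c := 27) okT_22 (by decide +kernel)
  · exact absurd h (by decide)
  · exact absurd h (by decide)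
  · exact dec_cert (s := 6) (c := 15) okT_31 (by decide +kernel)
  · exact absurd h (by decide)
  · exact dec_cert (s := 6) (c := 63) okT_33 (by decide +kernel)

private lemma dec_L.{u} : ∀ r c : Fin 4, ((r.val + c.val) % 2 == 1) = true →
    Dec.{u} (blkS 7 (toCl (2 ^ r.val - 1 + 8 * (2 ^ c.val - 1)))) := by
  intro r c h
  fin_cases r <;> fin_cases c
  · exact absurd h (by decide)
  · exact dec_cert (s := 7) (c := 8) okL_01 (by decide +kernel)
  · exact absurd h (by decide)
  · exact dec_cert (s := 7) (c := 56) okL_03 (by decide +kernel)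
  · exact dec_cert (s := 7) (c := 1) okL_10 (by decide +kernel)
  · exact absurd h (by decide)
  · exact dec_cert (s := 7) (c := 25) okL_12 (by decide +kernel)
  · exact absurd h (by decide)
  · exact absurd h (by decide)
  · exact dec_cert (s := 7) (c := 11) okL_21 (by decide +kernel)
  · exact absurd h (by decide)
  · exact dec_cert (s := 7) (c := 59) okL_23 (by decide +kernel)
  · exact dec_cert (s := 7) (c := 7) okL_30 (by decide +kernel)
  · exact absurd h (by decide)
  · exact dec_cert (s := 7) (c := 31) okL_32 (by decide +kernel)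
  · exact absurd h (by decide)

private lemma dec_M.{u} : ∀ r c : Fin 4, ((r.val + c.val) % 2 == 1) = true →
    Dec.{u} (blkS 9 (toCl (2 ^ r.val - 1 + 8 * (2 ^ c.val - 1)))) := by
  intro r c h
  fin_cases r <;> fin_cases c
  · exact absurd h (by decide)
  · exact dec_cert (s := 9) (c := 8) okM_01 (by decide +kernel)
  · exact absurd h (by decide)
  · exact dec_cert (s := 9) (c := 56) okM_03 (by decide +kernel)
  · exact dec_cert (s := 9) (c := 1) okM_10 (by decide +kernel)
  · exact absurd h (by decide)
  · exact dec_cert (s := 9) (c := 25) okM_12 (by decide +kernel)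
  · exact absurd h (by decide)
  · exact absurd h (by decide)
  · exact dec_cert (s := 9) (c := 11) okM_21 (by decide +kernel)
  · exact absurd h (by decide)
  · exact dec_cert (s := 9) (c := 59) okM_23 (by decide +kernel)
  · exact dec_cert (s := 9) (c := 7) okM_30 (by decide +kernel)
  · exact absurd h (by decide)
  · exact dec_cert (s := 9) (c := 31) okM_32 (by decide +kernel)
  · exact absurd h (by decide)

private lemma dec_Z.{u} : ∀ r c : Fin 4, ((r.val + c.val) % 2 == 0) = true →
    Dec.{u} (blkS 11 (toCl (2 ^ r.val - 1 + 8 * (2 ^ c.val - 1)))) := by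
  intro r c h
  fin_cases r <;> fin_cases c
  · exact dec_cert (s := 11) (c := 0) okZ_00 (by decide +kernel)
  · exact absurd h (by decide)
  · exact dec_cert (s := 11) (c := 24) okZ_02 (by decide +kernel)
  · exact absurd h (by decide)
  · exact absurd h (by decide)
  · exact dec_cert (s := 11) (c := 9) okZ_11 (by decide +kernel)
  · exact absurd h (by decide)
  · exact dec_cert (s := 11) (c := 57) okZ_13 (by decide +kernel)
  · exact dec_cert (s := 11) (c := 3) okZ_20 (by decide +kernel)
  · exact absurd h (by decide)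
  · exact dec_cert (s := 11) (c := 27) okZ_22 (by decide +kernel)
  · exact absurd h (by decide)
  · exact absurd h (by decide)
  · exact dec_cert (s := 11) (c := 15) okZ_31 (by decide +kernel)
  · exact absurd h (by decide)
  · exact dec_cert (s := 11) (c := 63) okZ_33 (by decide +kernel)

private lemma dec_W.{u} : ∀ r c : Fin 4, ((r.val + c.val) % 2 == 0) = true →
    Dec.{u} (blkS 12 (toCl (2 ^ r.val - 1 + 8 * (2 ^ c.val - 1)))) := by
  intro r c h
  fin_cases r <;> fin_cases c
  · exact dec_cert (s := 12) (c := 0) okW_00 (by decide +kernel)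
  · exact absurd h (by decide)
  · exact dec_cert (s := 12) (c := 24) okW_02 (by decide +kernel)
  · exact absurd h (by decide)
  · exact absurd h (by decide)
  · exact dec_cert (s := 12) (c := 9) okW_11 (by decide +kernel)
  · exact absurd h (by decide)
  · exact dec_cert (s := 12) (c := 57) okW_13 (by decide +kernel)
  · exact dec_cert (s := 12) (c := 3) okW_20 (by decide +kernel)
  · exact absurd h (by decide)
  · exact dec_cert (s := 12) (c := 27) okW_22 (by decide +kernel)
  · exact absurd h (by decide)
  · exact absurd h (by decide)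
  · exact dec_cert (s := 12) (c := 15) okW_31 (by decide +kernel)
  · exact absurd h (by decide)
  · exact dec_cert (s := 12) (c := 63) okW_33 (by decide +kernel)

/-- The nine presentations with certificates. -/
def nine : List ℕ := [0, 1, 3, 5, 6, 7, 9, 11, 12]

/-- The parities of the nine presentations are the ones above. -/
theorem dec_rep.{u} (s : ℕ) (hs : s ∈ nine) (r c : Fin 4) (h : (r.val + c.val) % 2 = pty s) :
    Dec.{u} (blkS s (toCl (2 ^ r.val - 1 + 8 * (2 ^ c.val - 1)))) := by
  have hp : pty 0 = 0 ∧ pty 1 = 0 ∧ pty 3 = 1 ∧ pty 5 = 0 ∧ pty 6 = 0 ∧ pty 7 = 1 ∧ pty 9 = 1 ∧ pty 11 = 0 ∧ pty 12 = 0 := by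
    decide +kernel
  obtain ⟨p0, p1, p3, p5, p6, p7, p9, p11, p12⟩ := hp
  simp only [nine, List.mem_cons, List.not_mem_nil, or_false] at hs
  rcases hs with rfl | rfl | rfl | rfl | rfl | rfl | rfl | rfl | rfl
  · exact dec_R r c (by rw [p0] at h; exact beq_iff_eq.mpr h)
  · exact dec_X r c (by rw [p1] at h; exact beq_iff_eq.mpr h)
  · exact dec_A r c (by rw [p3] at h; exact beq_iff_eq.mpr h)
  · exact dec_K r c (by rw [p5] at h; exact beq_iff_eq.mpr h)
  · exact dec_T r c (by rw [p6] at h; exact beq_iff_eq.mpr h)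
  · exact dec_L r c (by rw [p7] at h; exact beq_iff_eq.mpr h)
  · exact dec_M r c (by rw [p9] at h; exact beq_iff_eq.mpr h)
  · exact dec_Z r c (by rw [p11] at h; exact beq_iff_eq.mpr h)
  · exact dec_W r c (by rw [p12] at h; exact beq_iff_eq.mpr h)

end Pool.Agent.Lib.H54F
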