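import Pool.Agent.Lib.H54F.B12
import Pool.Agent.Lib.H54F.B14

/-! # B15: all blocks -/

namespace Pool.Agent.Lib.H54F

/-- Transport along an equality of the presentations. -/
private theorem b15_congr.{u} {s s' : ℕ} (h : s = s') {c c' : Cl} (hc : c = c')
    (hd : Dec.{u} (blkS s c)) : Dec.{u} (blkS s' c') := by
  subst h
  subst hc
  exact hd

/-- The nine presentations with certificates. -/
private theorem b15_nine.{u} {s : ℕ} (hs : s ∈ nine) (c : Cl) : Dec.{u} (blkS s c) := by
  have hs' : s < 15 := by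
    simp only [nine, List.mem_cons, List.not_mem_nil, or_false] at hs
    omega
  by_cases hc : prt c = (pty s : ZMod 2)
  · have hsym : ∀ g < 4, ∀ c : Cl, Dec.{u} (blkS s c) → Dec.{u} (blkS s (scF g c)) := by
      intro g hg c h
      have h1 : tau g s = s := by
        unfold tau
        exact if_pos hg
      exact b15_congr h1 rfl (dec_sym (by omega) hs' h)
    refine cl_closure (fun c => Dec.{u} (blkS s c)) (pty s : ZMod 2)
      (fun c h => hsym 0 (by norm_num) c h) (fun c h => hsym 1 (by norm_num) c h)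
      (fun c h => hsym 2 (by norm_num) c h) (fun c h => hsym 3 (by norm_num) c h) ?_ c hc
    intro r k h
    refine dec_rep s hs r k ?_
    have h2 : (r.val + k.val) % 2 = pty s % 2 := (ZMod.natCast_eq_natCast_iff' _ _ 2).1 h
    have h3 : pty s < 2 := Nat.mod_lt _ (by norm_num)
    rw [h2, Nat.mod_eq_of_lt h3]
  · exact dec_wrong hs' hc

/-- The transposed presentations. -/
private theorem b15_transp.{u} {s s' : ℕ} (hs' : s' < 15) (h : tau 4 s' = s)
    (hall : ∀ c : Cl, Dec.{u} (blkS s' c)) (c : Cl) : Dec.{u} (blkS s c) :=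
  b15_congr h (scF_scF 4 c) (dec_sym (by norm_num) hs' (hall (scF 4 c)))

/-- Proof. For `prt c ≠ pty s` use `dec_wrong`. Otherwise, for the nine presentations
`s = 0, 1, 3, 5, 6, 7, 9, 11, 12` use `cl_closure` for the property `fun c => Dec (blkS s c)` with
`q = pty s`: the closure under the four swaps is `dec_sym` for `g = 0, 1, 2, 3` (`tau g s = s` for
`g < 4`), and the representatives are given by `dec_rep` (`((r + c : ℕ) : ZMod 2) = (pty s : ZMod
2)` with `pty s < 2` gives `(r + c) % 2 = pty s`). The other six presentations are `tau 4 s'` with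
`s'` one of the nine (`2 = tau 4 1`, `4 = tau 4 3`, `8 = tau 4 7`, `10 = tau 4 9`, `13 = tau 4 11`,
`14 = tau 4 12`; `decide +kernel` or `rfl`), so `blkS s c = blkS (tau 4 s') (scF 4 (scF 4 c))`
(`scF_scF`) and `dec_sym` for `g = 4` applies. -/
theorem dec_all.{u} {s : ℕ} (hs : s < 15) (c : Cl) : Dec.{u} (blkS s c) := by
  have h1 : tau 4 1 = 2 ∧ tau 4 3 = 4 ∧ tau 4 7 = 8 ∧ tau 4 9 = 10 ∧ tau 4 11 = 13 ∧
      tau 4 12 = 14 := by decide +kernel
  obtain ⟨t2, t4, t8, t10, t13, t14⟩ := h1
  have h2 : s = 0 ∨ s = 1 ∨ s = 2 ∨ s = 3 ∨ s = 4 ∨ s = 5 ∨ s = 6 ∨ s = 7 ∨ s = 8 ∨ s = 9 ∨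
      s = 10 ∨ s = 11 ∨ s = 12 ∨ s = 13 ∨ s = 14 := by omega
  rcases h2 with rfl | rfl | rfl | rfl | rfl | rfl | rfl | rfl | rfl | rfl | rfl | rfl | rfl |
    rfl | rfl
  · exact b15_nine (by simp [nine]) c
  · exact b15_nine (by simp [nine]) c
  · exact b15_transp (by norm_num) t2 (fun c => b15_nine (by simp [nine]) c) c
  · exact b15_nine (by simp [nine]) c
  · exact b15_transp (by norm_num) t4 (fun c => b15_nine (by simp [nine]) c) c
  · exact b15_nine (by simp [nine]) c
  · exact b15_nine (by simp [nine]) c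
  · exact b15_nine (by simp [nine]) c
  · exact b15_transp (by norm_num) t8 (fun c => b15_nine (by simp [nine]) c) c
  · exact b15_nine (by simp [nine]) c
  · exact b15_transp (by norm_num) t10 (fun c => b15_nine (by simp [nine]) c) c
  · exact b15_nine (by simp [nine]) c
  · exact b15_nine (by simp [nine]) c
  · exact b15_transp (by norm_num) t13 (fun c => b15_nine (by simp [nine]) c) c
  · exact b15_transp (by norm_num) t14 (fun c => b15_nine (by simp [nine]) c) c

end Pool.Agent.Lib.H54F
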