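import Mathlib

/-! # Finite F-representation type and determinantal rings -/

namespace Pool.Agent.Lib.H54F

universe u v

/-- `F^e_* M`: the additive group `M`; the scalar `r` of `R` acts as `r ^ (p ^ e)` acts on `M`. -/
def FrobPush (_R : Type u) (_p _e : ℕ) (M : Type v) : Type v := M

instance (R : Type u) (p e : ℕ) (M : Type v) [h : AddCommGroup M] :
    AddCommGroup (FrobPush R p e M) := h

noncomputable instance (R : Type u) (p e : ℕ) (M : Type v) [CommRing R] [ExpChar R p]
    [AddCommGroup M] [Module R M] : Module R (FrobPush R p e M) :=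
  Module.compHom M (iterateFrobenius R p e)

/-- Finite F-representation type: `F_* R` is a finite `R`-module, and there are finitely many
finite `R`-modules `M_i` such that every `F^e_* R`, `e ≥ 1`, is a direct sum of copies of them. -/
def HasFFRT (R : Type u) [CommRing R] (p : ℕ) [ExpChar R p] : Prop :=
  Module.Finite R (FrobPush R p 1 R) ∧
  ∃ (s : ℕ) (M : Fin s → Type u) (_ : ∀ i, AddCommGroup (M i)) (_ : ∀ i, Module R (M i)),
    (∀ i, Module.Finite R (M i)) ∧
    ∀ e : ℕ, 1 ≤ e → ∃ a : Fin s → ℕ,
      Nonempty (FrobPush R p e R ≃ₗ[R] ∀ i : Fin s, Fin (a i) → M i)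

/-- The ideal generated by the `t × t` minors of the generic `m × n` matrix. -/
noncomputable def minorsIdeal (K : Type u) [Field K] (m n t : ℕ) :
    Ideal (MvPolynomial (Fin m × Fin n) K) :=
  Ideal.span {f | ∃ (r : Fin t ↪o Fin m) (c : Fin t ↪o Fin n),
    f = (Matrix.of fun i j => (MvPolynomial.X (r i, c j) : MvPolynomial (Fin m × Fin n) K)).det}

/-- The determinantal ring `K[x_ij] / I_t(X)`. -/
abbrev DetRing (K : Type u) [Field K] (m n t : ℕ) : Type u :=
  MvPolynomial (Fin m × Fin n) K ⧸ minorsIdeal K m n t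

lemma minorsIdeal_ne_top (K : Type u) [Field K] (m n t : ℕ) [NeZero t] :
    minorsIdeal K m n t ≠ ⊤ := by
  intro h
  have h1 : minorsIdeal K m n t ≤ RingHom.ker (MvPolynomial.constantCoeff (σ := Fin m × Fin n) (R := K)) := by
    apply Ideal.span_le.mpr
    rintro f ⟨r, c, rfl⟩
    have h2 : MvPolynomial.constantCoeff (Matrix.of fun i j =>
        (MvPolynomial.X (r i, c j) : MvPolynomial (Fin m × Fin n) K)).det = 0 := by
      rw [RingHom.map_det]
      have h3 : MvPolynomial.constantCoeff.mapMatrix (Matrix.of fun i j =>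
        (MvPolynomial.X (r i, c j) : MvPolynomial (Fin m × Fin n) K)) = 0 := by
        ext i j
        simp
      rw [h3]
      have : Nonempty (Fin t) := ⟨0⟩
      exact Matrix.det_zero
    exact h2
  rw [h] at h1
  have h4 : (1 : MvPolynomial (Fin m × Fin n) K) ∈
      RingHom.ker (MvPolynomial.constantCoeff (σ := Fin m × Fin n) (R := K)) := h1 trivial
  rw [RingHom.mem_ker, map_one] at h4
  exact one_ne_zero h4

instance detRing_expChar (K : Type u) [Field K] (m n t p : ℕ) [NeZero t] [ExpChar K p] :
    ExpChar (DetRing K m n t) p := by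
  have : Nontrivial (DetRing K m n t) :=
    Ideal.Quotient.nontrivial_iff.mpr (minorsIdeal_ne_top K m n t)
  exact expChar_of_injective_algebraMap (algebraMap K (DetRing K m n t)).injective p
end Pool.Agent.Lib.H54F
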