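import Pool.Agent.Lib.H54F.B1
import Pool.Agent.Lib.H54F.Def

/-! # B2: polynomials over a field which is finite over its squares -/

namespace Pool.Agent.Lib.H54F

open MvPolynomial

/-- A basis of the field over the subfield of squares, with its coordinate maps. -/
structure Frame (K : Type*) [Field K] where
  d : ℕ
  b : Fin d → K
  β : Fin d → K →+ K
  smul : ∀ i a c, β i (a ^ 2 * c) = a * β i c
  sum : ∀ a, ∑ i, b i * β i a ^ 2 = a
  dual : ∀ i j, β i (b j) = if i = j then 1 else 0

private theorem B2_smul (K : Type*) [Field K] [ExpChar K 2] (a : K) (c : FrobPush K 2 1 K) :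
    a • c = (show FrobPush K 2 1 K from ((a ^ 2 : K) * (show K from c) : K)) := by
  have h1 : iterateFrobenius K 2 1 a = a ^ 2 := by rw [iterateFrobenius_def, pow_one]
  have h2 : a • c = (show FrobPush K 2 1 K from ((iterateFrobenius K 2 1 a : K) * (show K from c) : K)) := rfl
  rw [h2, h1]

/-- Proof. `Module.finBasis K (FrobPush K 2 1 K)`: the scalar multiplication is
`a • c = a ^ 2 * c` (`iterateFrobenius_def`); `b i` are the basis vectors and `β i` the coordinates
(`Basis.coord`), `Basis.sum_repr`, `Basis.repr_self`. -/
theorem exists_frame (K : Type*) [Field K] [ExpChar K 2]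
    (h : Module.Finite K (FrobPush K 2 1 K)) : Nonempty (Frame K) := by
  let B := Module.finBasis K (FrobPush K 2 1 K)
  refine ⟨⟨Module.finrank K (FrobPush K 2 1 K), fun i => B i,
    fun i => (B.coord i).toAddMonoidHom, fun i a c => ?_, fun a => ?_, fun i j => ?_⟩⟩
  · have h1 := (B.coord i).map_smul a (show FrobPush K 2 1 K from c)
    rw [B2_smul, smul_eq_mul] at h1
    exact h1
  · have h1 := B.sum_repr (show FrobPush K 2 1 K from a)
    refine Eq.trans (Finset.sum_congr rfl fun i _ => ?_) h1
    rw [B2_smul]
    exact mul_comm _ _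
  · have h1 := B.repr_self_apply j i
    have h2 : (if j = i then (1 : K) else 0) = if i = j then 1 else 0 := by
      by_cases h : j = i
      · rw [if_pos h, if_pos h.symm]
      · rw [if_neg h, if_neg (Ne.symm h)]
    rw [h2] at h1
    exact h1

/-- The map from the polynomials over the field with two elements. -/
noncomputable def ι0 (K : Type*) [CommRing K] [CharP K 2] : S0 →+* MvPolynomial V K :=
  MvPolynomial.map (ZMod.castHom (dvd_refl 2) K)

/-- Proof. Both sides are additive in `f` (`compA_add`, squares are additive in characteristic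
two); for `f = monomial e a` only `μ = par e` contributes (`compA_monomial`), and the sum is
`∑ i, monomial (pexp (par e)) (b i) * monomial (half e) (β i a) ^ 2 = monomial e (∑ i, b i * β i a
^ 2)` by `dbl_par_half`; use `Frame.sum`. -/
theorem sum_compA {K : Type*} [Field K] [CharP K 2] (F : Frame K) (f : MvPolynomial V K) :
    ∑ i, ∑ μ : E, monomial (pexp μ) (F.b i) * compA (F.β i) μ f ^ 2 = f := by
  induction f using MvPolynomial.induction_on' with
  | monomial e a =>
    have h1 : ∀ i, ∑ μ : E, monomial (pexp μ) (F.b i) * compA (F.β i) μ (monomial e a) ^ 2 =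
        monomial e (F.b i * F.β i a ^ 2) := by
      intro i
      rw [Finset.sum_eq_single (par e)]
      · rw [compA_monomial, if_pos rfl, monomial_pow, monomial_mul]
        congr 1
        have h2 := dbl_par_half e
        unfold dbl at h2
        rw [two_nsmul, add_comm]
        rw [h2]
      · intro μ _ hμ
        rw [compA_monomial, if_neg (Ne.symm hμ)]
        ring
      · intro h
        exact absurd (Finset.mem_univ _) h
    rw [Finset.sum_congr rfl fun i _ => h1 i, ← map_sum, F.sum]
  | add p q hp hq =>
    have h1 : ∀ i, ∀ μ : E, monomial (pexp μ) (F.b i) * compA (F.β i) μ (p + q) ^ 2 =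
        monomial (pexp μ) (F.b i) * compA (F.β i) μ p ^ 2 +
          monomial (pexp μ) (F.b i) * compA (F.β i) μ q ^ 2 := by
      intro i μ
      rw [compA_add, CharTwo.add_sq, mul_add]
    simp_rw [h1, Finset.sum_add_distrib]
    rw [hp, hq]

private theorem B2_key {K : Type*} [Field K] [CharP K 2] (F : Frame K) (i j : Fin F.d) (c : ZMod 2) :
    F.β i (F.b j * ZMod.castHom (dvd_refl 2) K c) =
      if i = j then ZMod.castHom (dvd_refl 2) K c else 0 := by
  have h : c = 0 ∨ c = 1 := by
    revert c
    decide
  rcases h with rfl | rfl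
  · rw [map_zero, mul_zero, map_zero, ite_self]
  · rw [map_one, mul_one, F.dual]

/-- Proof. Both sides are additive in `h`; for `h = monomial e c` with `c : ZMod 2` use
`compA_monomial`: `c = 0` or `c = 1`, and `F.β i (F.b j * 1) = F.β i (F.b j)` is given by
`Frame.dual`. -/
theorem compA_base {K : Type*} [Field K] [CharP K 2] (F : Frame K) (i j : Fin F.d) (μ ν : E)
    (h : S0) : compA (F.β i) μ (monomial (pexp ν) (F.b j) * ι0 K h) =
      if i = j then ι0 K (comp μ (monomial (pexp ν) 1 * h)) else 0 := by
  induction h using MvPolynomial.induction_on' with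
  | monomial e c =>
    unfold ι0 comp
    rw [map_monomial, monomial_mul, monomial_mul, one_mul, compA_monomial, compA_monomial, B2_key]
    by_cases h1 : par (pexp ν + e) = μ
    · rw [if_pos h1, if_pos h1]
      by_cases h2 : i = j
      · rw [if_pos h2, if_pos h2, map_monomial]
        rfl
      · rw [if_neg h2, if_neg h2, monomial_zero]
    · rw [if_neg h1, if_neg h1, map_zero, ite_self]
  | add p q hp hq =>
    rw [map_add, mul_add, compA_add, hp, hq, mul_add]
    unfold comp
    rw [compA_add, map_add]
    by_cases h2 : i = j
    · rw [if_pos h2, if_pos h2, if_pos h2]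
    · rw [if_neg h2, if_neg h2, if_neg h2, add_zero]

end Pool.Agent.Lib.H54F
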