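import Pool.Agent.Lib.H54F.B2

/-! # B3: the Frobenius push-forward of a cokernel -/

namespace Pool.Agent.Lib.H54F

open MvPolynomial

section aux

variable {K : Type*} [Field K] [CharP K 2] (F : Frame K) {κ γ : Type}

private noncomputable def B3_H {k k' : Type*} [CommSemiring k] [CommSemiring k'] (β : k →+ k')
    (μ : E) : MvPolynomial V k →+ MvPolynomial V k' where
  toFun := compA β μ
  map_zero' := compA_zero β μ
  map_add' := compA_add β μ

private noncomputable def B3_U (w : Fin F.d → γ × E → MvPolynomial V K) : γ → MvPolynomial V K :=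
  fun j => ∑ i, ∑ μ : E, monomial (pexp μ) (F.b i) * w i (j, μ) ^ 2

private noncomputable def B3_T : (γ → MvPolynomial V K) →+ (Fin F.d → γ × E → MvPolynomial V K) where
  toFun v := fun i q => compA (F.β i) q.2 (v q.1)
  map_zero' := by
    funext i q
    exact compA_zero _ _
  map_add' v v' := by
    funext i q
    exact compA_add _ _ _ _

private lemma B3_U_T (v : γ → MvPolynomial V K) : B3_U F (B3_T F v) = v := by
  funext j
  exact sum_compA F (v j)

private lemma B3_par (μ : E) : par (pexp μ) = μ := by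
  have h := par_dbl μ 0
  rwa [dbl, add_zero, zero_add] at h

private lemma B3_half (μ : E) : half (pexp μ) = 0 := by
  have h := half_dbl μ 0
  rwa [dbl, add_zero, zero_add] at h

private lemma B3_T_U (w : Fin F.d → γ × E → MvPolynomial V K) : B3_T F (B3_U F w) = w := by
  classical
  funext i q
  obtain ⟨j, μ⟩ := q
  show B3_H (F.β i) μ (∑ i', ∑ μ' : E, monomial (pexp μ') (F.b i') * w i' (j, μ') ^ 2) = _
  rw [map_sum]
  have e1 : ∀ i' : Fin F.d, B3_H (F.β i) μ (∑ μ' : E, monomial (pexp μ') (F.b i') * w i' (j, μ') ^ 2)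
      = if i = i' then w i' (j, μ) else 0 := by
    intro i'
    rw [map_sum]
    have e2 : ∀ μ' : E, B3_H (F.β i) μ (monomial (pexp μ') (F.b i') * w i' (j, μ') ^ 2) =
        if μ' = μ then (if i = i' then w i' (j, μ') else 0) else 0 := by
      intro μ'
      rw [mul_comm]
      show compA (F.β i) μ (w i' (j, μ') ^ 2 * monomial (pexp μ') (F.b i')) = _
      rw [compA_sq_mul (F.β i) (F.smul i), compA_monomial, B3_par, B3_half, F.dual i i']
      by_cases h1 : μ' = μ
      · rw [if_pos h1, if_pos h1]
        by_cases h2 : i = i'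
        · rw [if_pos h2, if_pos h2]
          exact mul_one _
        · rw [if_neg h2, if_neg h2, map_zero, mul_zero]
      · rw [if_neg h1, if_neg h1, mul_zero]
    rw [Finset.sum_congr rfl fun μ' _ => e2 μ', Finset.sum_ite_eq' Finset.univ μ,
      if_pos (Finset.mem_univ μ)]
  rw [Finset.sum_congr rfl fun i' _ => e1 i', Finset.sum_ite_eq Finset.univ i,
    if_pos (Finset.mem_univ i)]

private lemma B3_U_add (w w' : Fin F.d → γ × E → MvPolynomial V K) :
    B3_U F (w + w') = B3_U F w + B3_U F w' := by
  funext j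
  show ∑ i, ∑ μ : E, monomial (pexp μ) (F.b i) * (w i (j, μ) + w' i (j, μ)) ^ 2 =
    ∑ i, ∑ μ : E, monomial (pexp μ) (F.b i) * w i (j, μ) ^ 2 +
    ∑ i, ∑ μ : E, monomial (pexp μ) (F.b i) * w' i (j, μ) ^ 2
  rw [← Finset.sum_add_distrib]
  refine Finset.sum_congr rfl fun i _ => ?_
  rw [← Finset.sum_add_distrib]
  refine Finset.sum_congr rfl fun μ _ => ?_
  rw [CharTwo.add_sq, mul_add]

omit [CharP K 2] in
private lemma B3_U_smul (s : MvPolynomial V K) (w : Fin F.d → γ × E → MvPolynomial V K) :
    B3_U F (s • w) = s ^ 2 • B3_U F w := by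
  funext j
  show ∑ i, ∑ μ : E, monomial (pexp μ) (F.b i) * (s * w i (j, μ)) ^ 2 =
    s ^ 2 * ∑ i, ∑ μ : E, monomial (pexp μ) (F.b i) * w i (j, μ) ^ 2
  rw [Finset.mul_sum]
  refine Finset.sum_congr rfl fun i _ => ?_
  rw [Finset.mul_sum]
  refine Finset.sum_congr rfl fun μ _ => ?_
  ring

private lemma B3_T_sq (g : MvPolynomial V K) (v : γ → MvPolynomial V K) :
    B3_T F (g ^ 2 • v) = g • B3_T F v := by
  funext i q
  exact compA_sq_mul (F.β i) (F.smul i) q.2 g (v q.1)

private lemma B3_T_row (P : κ → γ → S0) (k : κ) (ν : E) (i : Fin F.d) :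
    B3_T F (monomial (pexp ν) (F.b i) • fun j => ι0 K (P k j)) =
      Pi.single i (fun q => ι0 K (pm P (k, ν) q)) := by
  funext i' q
  have h := compA_base F i' i q.2 ν (P k q.1)
  refine Eq.trans (show _ = compA (F.β i') q.2 (monomial (pexp ν) (F.b i) * ι0 K (P k q.1)) from rfl)
    (h.trans ?_)
  by_cases hi : i' = i
  · subst hi
    rw [if_pos rfl, Pi.single_eq_same]
    rfl
  · rw [if_neg hi, Pi.single_eq_of_ne hi]
    rfl

private lemma B3_T_span (P : κ → γ → S0) (v : γ → MvPolynomial V K)
    (hv : v ∈ rowSpan (ι0 K) P) : ∀ s : MvPolynomial V K, B3_T F (s • v) ∈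
      Submodule.pi Set.univ (fun _ : Fin F.d => rowSpan (ι0 K) (pm P)) := by
  unfold rowSpan at hv
  induction hv using Submodule.span_induction with
  | mem x hx =>
    obtain ⟨k, rfl⟩ := hx
    intro s
    have e1 : s • (fun q => ι0 K (P k q)) = ∑ i, ∑ ν : E, (compA (F.β i) ν s) ^ 2 •
        (monomial (pexp ν) (F.b i) • (fun q => ι0 K (P k q))) := by
      funext q
      have h := sum_compA F s
      calc (s • (fun q => ι0 K (P k q))) q = s * ι0 K (P k q) := rfl
        _ = (∑ i, ∑ μ : E, monomial (pexp μ) (F.b i) * compA (F.β i) μ s ^ 2) * ι0 K (P k q) := by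
            rw [h]
        _ = _ := by
            rw [Finset.sum_mul, Finset.sum_apply]
            refine Finset.sum_congr rfl fun i _ => ?_
            rw [Finset.sum_mul, Finset.sum_apply]
            refine Finset.sum_congr rfl fun ν _ => ?_
            show _ = compA (F.β i) ν s ^ 2 * (monomial (pexp ν) (F.b i) * ι0 K (P k q))
            ring
    rw [e1, map_sum]
    refine Submodule.sum_mem _ fun i _ => ?_
    rw [map_sum]
    refine Submodule.sum_mem _ fun ν _ => ?_
    rw [B3_T_sq, B3_T_row]
    refine Submodule.smul_mem _ _ ?_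
    intro i' _
    by_cases hi : i' = i
    · subst hi
      rw [Pi.single_eq_same]
      exact Submodule.subset_span ⟨(k, ν), rfl⟩
    · rw [Pi.single_eq_of_ne hi]
      exact Submodule.zero_mem _
  | zero =>
    intro s
    rw [smul_zero, map_zero]
    exact Submodule.zero_mem _
  | add x y _ _ h1 h2 =>
    intro s
    rw [smul_add, map_add]
    exact Submodule.add_mem _ (h1 s) (h2 s)
  | smul a x _ h1 =>
    intro s
    rw [smul_smul]
    exact h1 (s * a)

end aux

/-- Proof. Let `S = MvPolynomial V K`. Define the `S`-linear map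
`U : (Fin d → γ × E → S) → FrobPush S 2 1 (γ → S)`,
`U w j = ∑ i, ∑ μ, monomial (pexp μ) (b i) * w i (j, μ) ^ 2` (squares are additive, and the scalar
`s` acts on the right side as `s ^ 2`). Let `T v i (j, μ) = compA (β i) μ (v j)`, an additive map
with `T (s ^ 2 • v) = s • T v` (`compA_sq_mul`). Then `U (T v) = v` by `sum_compA`, and
`T (U w) = w` by `compA_sq_mul` and `compA_base` with `h = 1`
(`comp μ (monomial (pexp ν) 1) = if ν = μ then 1 else 0`). The composition `Ψ` of `U` with the
quotient map to `FrobPush S 2 1 (Cok P)` is linear and surjective. Its kernel is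
`Submodule.pi Set.univ fun _ => rowSpan (ι0 K) (pm P)`: if all `w i` are in the row span of `pm P`,
then `U w` is in `rowSpan P`, since for the row `(k, ν)` of `pm P` in the component `i` (and `0` in
the others) the vector `U w` is `monomial (pexp ν) (b i) • ι0 (P k)` (apply `U` to
`T (monomial (pexp ν) (b i) • ι0 (P k))`, which by `compA_base` is this `w`). Conversely `T` sends
`s • ι0 (P k)` to an element of the product: write `s = ∑ i ν, monomial (pexp ν) (b i) * g i ν ^ 2`
by `sum_compA`, so the value is `∑ i ν, g i ν • (row (k, ν) in the component i)`; span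
induction. Finally use `Ψ.quotKerEquivOfSurjective` and `Submodule.quotientPi`. -/
theorem frob_cok {K : Type*} [Field K] [CharP K 2] [ExpChar (MvPolynomial V K) 2] (F : Frame K)
    {κ γ : Type} (P : κ → γ → S0) :
    Nonempty (FrobPush (MvPolynomial V K) 2 1 (Cok (ι0 K) P) ≃ₗ[MvPolynomial V K]
      (Fin F.d → Cok (ι0 K) (pm P))) := by
  classical
  let Q := FrobPush (MvPolynomial V K) 2 1 (Cok (ι0 K) P)
  let Ψ : (Fin F.d → γ × E → MvPolynomial V K) →ₗ[MvPolynomial V K] Q :=
    { toFun := fun w => (show Q from (Submodule.Quotient.mk (B3_U F w) : Cok (ι0 K) P))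
      map_add' := fun w w' => by
        show (Submodule.Quotient.mk (B3_U F (w + w')) : Cok (ι0 K) P) =
          Submodule.Quotient.mk (B3_U F w) + Submodule.Quotient.mk (B3_U F w')
        rw [B3_U_add, Submodule.Quotient.mk_add]
        rfl
      map_smul' := fun s w => by
        show (Submodule.Quotient.mk (B3_U F (s • w)) : Cok (ι0 K) P) =
          iterateFrobenius (MvPolynomial V K) 2 1 s •
            (Submodule.Quotient.mk (B3_U F w) : Cok (ι0 K) P)
        rw [B3_U_smul, Submodule.Quotient.mk_smul, iterateFrobenius_def, pow_one] }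
  have hΨ : ∀ w, w ∈ LinearMap.ker Ψ ↔ B3_U F w ∈ rowSpan (ι0 K) P := fun w =>
    LinearMap.mem_ker.trans (Submodule.Quotient.mk_eq_zero (rowSpan (ι0 K) P))
  have hs : Function.Surjective Ψ := by
    intro x
    obtain ⟨v, hv⟩ := Submodule.Quotient.mk_surjective (rowSpan (ι0 K) P) (show Cok (ι0 K) P from x)
    refine ⟨B3_T F v, ?_⟩
    show (Submodule.Quotient.mk (B3_U F (B3_T F v)) : Cok (ι0 K) P) = (show Cok (ι0 K) P from x)
    rw [B3_U_T, hv]
  have hk : LinearMap.ker Ψ = Submodule.pi Set.univ (fun _ : Fin F.d => rowSpan (ι0 K) (pm P)) := by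
    apply le_antisymm
    · intro w hw
      have h1 := B3_T_span F P _ ((hΨ w).1 hw) 1
      rw [one_smul, B3_T_U] at h1
      exact h1
    · intro w hw
      have h1 : ∀ i : Fin F.d, rowSpan (ι0 K) (pm P) ≤
          (LinearMap.ker Ψ).comap (LinearMap.single (MvPolynomial V K)
            (fun _ : Fin F.d => γ × E → MvPolynomial V K) i) := by
        intro i
        refine Submodule.span_le.2 ?_
        rintro _ ⟨⟨k, ν⟩, rfl⟩
        show LinearMap.single (MvPolynomial V K)
            (fun _ : Fin F.d => γ × E → MvPolynomial V K) i (fun q => ι0 K (pm P (k, ν) q)) ∈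
            LinearMap.ker Ψ
        rw [hΨ, LinearMap.coe_single, ← B3_T_row, B3_U_T]
        exact Submodule.smul_mem _ _ (Submodule.subset_span ⟨k, rfl⟩)
      have h2 : w = ∑ i, Pi.single i (w i) := (Finset.univ_sum_single w).symm
      rw [h2]
      refine Submodule.sum_mem _ fun i _ => ?_
      exact h1 i (hw i (Set.mem_univ i))
  exact ⟨(Ψ.quotKerEquivOfSurjective hs).symm.trans ((Submodule.quotEquivOfEq _ _ hk).trans
    (Submodule.quotientPi fun _ : Fin F.d => rowSpan (ι0 K) (pm P)))⟩

end Pool.Agent.Lib.H54F
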