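import Pool.Agent.Lib.H54F.Sem

/-! # B4: block diagonal matrices -/

namespace Pool.Agent.Lib.H54F

/-- The regrouping of the coordinates. -/
private def B4_L {γ C : Type} (a : γ → C) (A : Type*) [CommRing A] :
    (γ → A) ≃ₗ[A] (∀ c, ({q // a q = c} → A)) where
  toFun v := fun _ q => v q.1
  invFun w := fun q => w (a q) ⟨q, rfl⟩
  left_inv _ := rfl
  right_inv w := by
    funext c q
    obtain ⟨q, hq⟩ := q
    subst hq
    rfl
  map_add' _ _ := rfl
  map_smul' _ _ := rfl

/-- Proof. The linear equivalence `L : (γ → A) ≃ ∀ c, ({q // a q = c} → A)`, `L v c q = v q`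
(inverse `w ↦ fun q => w (a q) ⟨q, rfl⟩`), maps the span of the rows onto
`Submodule.pi Set.univ fun c => rowSpan ι (block c)`: the row `k` goes to the row `⟨k, rfl⟩` of the
block `b k` in the component `b k` and to `0` in the other components (`h`); conversely the
product of the spans is generated by these elements (`Submodule.pi` of spans:
`w = ∑ c, Pi.single c (w c)`, `Fintype C`). `Submodule.Quotient.equiv` and
`Submodule.quotientPi`. -/
theorem cok_block {κ γ C : Type} [Fintype C] [DecidableEq C] (P : κ → γ → S0) (b : κ → C)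
    (a : γ → C) (h : ∀ k q, b k ≠ a q → P k q = 0) {A : Type*} [CommRing A] (ι : S0 →+* A) :
    Nonempty (Cok ι P ≃ₗ[A] (∀ c, Cok ι
      (fun (k : {k // b k = c}) (q : {q // a q = c}) => P k.1 q.1))) := by
  have hmap : (rowSpan ι P).map (B4_L a A).toLinearMap = Submodule.pi Set.univ fun c =>
      rowSpan ι (fun (k : {k // b k = c}) (q : {q // a q = c}) => P k.1 q.1) := by
    apply le_antisymm
    · rw [Submodule.map_le_iff_le_comap]
      unfold rowSpan
      rw [Submodule.span_le]
      rintro _ ⟨k, rfl⟩
      rw [SetLike.mem_coe, Submodule.mem_comap, Submodule.mem_pi]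
      intro c _
      by_cases hc : b k = c
      · exact Submodule.subset_span ⟨⟨k, hc⟩, rfl⟩
      · have h0 : (B4_L a A).toLinearMap (fun q => ι (P k q)) c = 0 := by
          funext q
          change ι (P k q.1) = 0
          rw [h k q.1 (fun h1 => hc (h1.trans q.2)), map_zero]
        rw [h0]
        exact Submodule.zero_mem _
    · intro w hw
      rw [Submodule.mem_pi] at hw
      rw [← Finset.univ_sum_single w]
      refine Submodule.sum_mem _ fun c _ => ?_
      have hle : rowSpan ι (fun (k : {k // b k = c}) (q : {q // a q = c}) => P k.1 q.1) ≤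
          ((rowSpan ι P).map (B4_L a A).toLinearMap).comap
            (LinearMap.single A (fun c => ({q // a q = c} → A)) c) := by
        conv_lhs => unfold rowSpan
        rw [Submodule.span_le]
        rintro _ ⟨⟨k, hk⟩, rfl⟩
        subst hk
        rw [SetLike.mem_coe, Submodule.mem_comap]
        refine ⟨fun q => ι (P k q), Submodule.subset_span ⟨k, rfl⟩, ?_⟩
        funext c'
        by_cases hc : b k = c'
        · subst hc
          rw [LinearMap.single_apply, Pi.single_eq_same]
          rfl
        · rw [LinearMap.single_apply, Pi.single_eq_of_ne (Ne.symm hc)]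
          funext q
          change ι (P k q.1) = 0
          rw [h k q.1 (fun h1 => hc (h1.trans q.2)), map_zero]
      exact hle (hw c (Set.mem_univ c))
  exact ⟨(Submodule.Quotient.equiv _ _ (B4_L a A) hmap).trans (Submodule.quotientPi _)⟩

/-- Proof. `LinearEquiv.funCongrLeft` maps rows to rows; `Submodule.Quotient.equiv`. -/
theorem cok_relabel {κ κ' γ γ' : Type} (P : κ → γ → S0) (P' : κ' → γ' → S0) (e : κ ≃ κ')
    (f : γ ≃ γ') (h : ∀ k q, P' (e k) (f q) = P k q) {A : Type*} [CommRing A] (ι : S0 →+* A) :
    Nonempty (Cok ι P ≃ₗ[A] Cok ι P') := by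
  refine ⟨Submodule.Quotient.equiv _ _ (LinearEquiv.funCongrLeft A A f.symm) ?_⟩
  have h1 : ∀ k, (LinearEquiv.funCongrLeft A A f.symm).toLinearMap (fun q => ι (P k q)) =
      fun q => ι (P' (e k) q) := by
    intro k
    funext q
    change ι (P k (f.symm q)) = _
    rw [← h, f.apply_symm_apply]
  unfold rowSpan
  rw [Submodule.map_span, ← Set.range_comp]
  congr 1
  ext v
  constructor
  · rintro ⟨k, rfl⟩
    exact ⟨e k, (h1 k).symm⟩
  · rintro ⟨k, rfl⟩
    refine ⟨e.symm k, ?_⟩
    change (LinearEquiv.funCongrLeft A A f.symm).toLinearMap (fun q => ι (P (e.symm k) q)) = _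
    rw [h1, e.apply_symm_apply]

end Pool.Agent.Lib.H54F
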