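import Pool.Agent.Lib.H54F.Push

/-! # B6: codes of patterns -/

namespace Pool.Agent.Lib.H54F

private def B6_num (a0 a1 a2 a3 a4 a5 a6 a7 a8 : ℕ) : ℕ :=
  a0 + 4 * a1 + 16 * a2 + 64 * a3 + 256 * a4 + 1024 * a5 + 4096 * a6 + 16384 * a7 + 65536 * a8

private theorem B6_code (μ : E) : code μ = B6_num (μ (0, 0)).val (μ (0, 1)).val (μ (0, 2)).val
    (μ (1, 0)).val (μ (1, 1)).val (μ (1, 2)).val (μ (2, 0)).val (μ (2, 1)).val (μ (2, 2)).val := by
  rw [code, Fintype.sum_prod_type]
  simp only [Fin.sum_univ_three]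
  simp only [Fin.val_zero, Fin.val_one, Fin.val_two, B6_num]
  norm_num
  ring

/-- Proof. `code μ ≤ ∑ 4 ^ i = 87381`. -/
theorem code_lt (μ : E) : code μ < 262144 := by
  rw [B6_code, B6_num]
  have h00 := (μ (0, 0)).isLt
  have h01 := (μ (0, 1)).isLt
  have h02 := (μ (0, 2)).isLt
  have h10 := (μ (1, 0)).isLt
  have h11 := (μ (1, 1)).isLt
  have h12 := (μ (1, 2)).isLt
  have h20 := (μ (2, 0)).isLt
  have h21 := (μ (2, 1)).isLt
  have h22 := (μ (2, 2)).isLt
  omega

/-- Proof. Base four digits: write out the sum over the nine variables; `omega`. -/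
theorem ex_code (μ : E) (v : V) : ex (code μ) v = (μ v).val := by
  rw [B6_code, B6_num, ex]
  have h00 := (μ (0, 0)).isLt
  have h01 := (μ (0, 1)).isLt
  have h02 := (μ (0, 2)).isLt
  have h10 := (μ (1, 0)).isLt
  have h11 := (μ (1, 1)).isLt
  have h12 := (μ (1, 2)).isLt
  have h20 := (μ (2, 0)).isLt
  have h21 := (μ (2, 1)).isLt
  have h22 := (μ (2, 2)).isLt
  obtain ⟨i, j⟩ := v
  fin_cases i <;> fin_cases j <;> simp <;> omega

private theorem B6_land (x m : ℕ) : Nat.land x (4 * m + 1) = 4 * Nat.land (x / 4) m + x % 2 := by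
  show x &&& (4 * m + 1) = 4 * ((x / 4) &&& m) + x % 2
  apply Nat.eq_of_testBit_eq
  intro i
  rw [Nat.testBit_and]
  rcases i with _ | _ | i
  · simp only [Nat.testBit_zero]
    have h1 : (4 * m + 1) % 2 = 1 := by omega
    have h2 : (4 * (x / 4 &&& m) + x % 2) % 2 = x % 2 := by omega
    rw [h1, h2]
    simp
  · have h1 : (4 * m + 1) / 2 % 2 = 0 := by omega
    have h2 : (4 * (x / 4 &&& m) + x % 2) / 2 % 2 = 0 := by omega
    rw [zero_add, Nat.testBit_succ, Nat.testBit_succ, Nat.testBit_succ, Nat.testBit_zero, 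
      Nat.testBit_zero, Nat.testBit_zero, h1, h2]
    simp
  · have h1 : (4 * m + 1) / 2 / 2 = m := by omega
    have h2 : (4 * (x / 4 &&& m) + x % 2) / 2 / 2 = (x / 4 &&& m) := by omega
    have h3 : x / 2 / 2 = x / 4 := by omega
    rw [Nat.testBit_succ, Nat.testBit_succ, Nat.testBit_succ, Nat.testBit_succ, Nat.testBit_succ,
      Nat.testBit_succ, h1, h2, h3, Nat.testBit_and]

/-- Proof. `87381 = ∑ 4 ^ i`; the bits of `x` at the even places are the parities of the base four
digits (`Nat.eq_of_testBit_eq`, `Nat.testBit_and`; or decompose `x` into three blocks of six bits and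
use `decide` for every block). -/
theorem land_eq (x : ℕ) : Nat.land x 87381 = code (par (expo x)) := by
  have h0 : ∀ y, Nat.land y 0 = 0 := fun y => Nat.and_zero y
  have e1 : Nat.land x 87381 = 4 * Nat.land (x / 4) 21845 + x % 2 := B6_land x 21845
  have e2 : ∀ y, Nat.land y 21845 = 4 * Nat.land (y / 4) 5461 + y % 2 := fun y => B6_land y 5461
  have e3 : ∀ y, Nat.land y 5461 = 4 * Nat.land (y / 4) 1365 + y % 2 := fun y => B6_land y 1365
  have e4 : ∀ y, Nat.land y 1365 = 4 * Nat.land (y / 4) 341 + y % 2 := fun y => B6_land y 341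
  have e5 : ∀ y, Nat.land y 341 = 4 * Nat.land (y / 4) 85 + y % 2 := fun y => B6_land y 85
  have e6 : ∀ y, Nat.land y 85 = 4 * Nat.land (y / 4) 21 + y % 2 := fun y => B6_land y 21
  have e7 : ∀ y, Nat.land y 21 = 4 * Nat.land (y / 4) 5 + y % 2 := fun y => B6_land y 5
  have e8 : ∀ y, Nat.land y 5 = 4 * Nat.land (y / 4) 1 + y % 2 := fun y => B6_land y 1
  have e9 : ∀ y, Nat.land y 1 = y % 2 := fun y => by
    have := B6_land y 0
    rw [h0] at this
    rw [Nat.mul_zero, Nat.zero_add, Nat.zero_add] at this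
    exact this
  rw [e1, e2, e3, e4, e5, e6, e7, e8, e9]
  have f : ∀ v : V, (par (expo x) v).val = x / 4 ^ (3 * v.1.val + v.2.val) % 2 := by
    intro v
    rw [par_apply, expo_apply, ex]
    exact Nat.mod_mod_of_dvd _ (by norm_num)
  rw [B6_code, f, f, f, f, f, f, f, f, f, B6_num]
  simp only [Nat.div_div_eq_div_mul, Fin.val_zero, Fin.val_one, Fin.val_two]
  norm_num
  omega

/-- Proof. From `land_eq`, since `ex (code μ) = μ` and `μ v < 2`. -/
theorem exists_code {p : ℕ} (h : Nat.land p 87381 = p) : ∃ μ, code μ = p :=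
  ⟨par (expo p), by rw [← land_eq, h]⟩

/-- Proof. `ex_code`. -/
theorem code_inj {μ ν : E} (h : code μ = code ν) : μ = ν := by
  funext v
  apply Fin.ext
  rw [← ex_code, ← ex_code, h]

private theorem B6_cls : ∀ a0 a1 a2 a3 a4 a5 a6 a7 a8 : Fin 2,
    clsP (B6_num a0.val a1.val a2.val a3.val a4.val a5.val a6.val a7.val a8.val) =
      (a0.val + a1.val + a2.val) % 2 + 2 * ((a3.val + a4.val + a5.val) % 2) +
      4 * ((a6.val + a7.val + a8.val) % 2) + 8 * ((a0.val + a3.val + a6.val) % 2) +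
      16 * ((a1.val + a4.val + a7.val) % 2) + 32 * ((a2.val + a5.val + a8.val) % 2) := by
  decide +kernel

private theorem B6_okc : ∀ a0 a1 a2 a3 a4 a5 a6 a7 a8 : Fin 2,
    okCls 0 (clsP (B6_num a0.val a1.val a2.val a3.val a4.val a5.val a6.val a7.val a8.val))
      = true := by
  decide +kernel

private theorem B6_mm : ∀ a0 a1 a2 a3 a4 a5 a6 a7 a8 : Fin 2,
    B6_num a0.val a1.val a2.val a3.val a4.val a5.val a6.val a7.val a8.val ∈
      pats (clsP (B6_num a0.val a1.val a2.val a3.val a4.val a5.val a6.val a7.val a8.val)) := by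
  decide +kernel

private theorem B6_bits : ∀ b0 b1 b2 b3 b4 b5 : Fin 2,
    (b0.val + 2 * b1.val + 4 * b2.val + 8 * b3.val + 16 * b4.val + 32 * b5.val).testBit 0
        = decide (b0.val = 1) ∧
      (b0.val + 2 * b1.val + 4 * b2.val + 8 * b3.val + 16 * b4.val + 32 * b5.val).testBit 1
        = decide (b1.val = 1) ∧
      (b0.val + 2 * b1.val + 4 * b2.val + 8 * b3.val + 16 * b4.val + 32 * b5.val).testBit 2
        = decide (b2.val = 1) ∧
      (b0.val + 2 * b1.val + 4 * b2.val + 8 * b3.val + 16 * b4.val + 32 * b5.val).testBit 3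
        = decide (b3.val = 1) ∧
      (b0.val + 2 * b1.val + 4 * b2.val + 8 * b3.val + 16 * b4.val + 32 * b5.val).testBit 4
        = decide (b4.val = 1) ∧
      (b0.val + 2 * b1.val + 4 * b2.val + 8 * b3.val + 16 * b4.val + 32 * b5.val).testBit 5
        = decide (b5.val = 1) := by
  decide +kernel

private theorem B6_64 (z0 z1 z2 z3 z4 z5 : ℕ) (h0 : z0 < 2) (h1 : z1 < 2) (h2 : z2 < 2)
    (h3 : z3 < 2) (h4 : z4 < 2) (h5 : z5 < 2) :
    z0 + 2 * z1 + 4 * z2 + 8 * z3 + 16 * z4 + 32 * z5 < 64 := by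
  omega

private theorem B6_par (n : ℕ) :
    (if (decide (n % 2 = 1)) = true then (1 : ZMod 2) else 0) = (n : ZMod 2) := by
  rw [← ZMod.natCast_mod n 2]
  rcases Nat.mod_two_eq_zero_or_one n with h | h <;> rw [h] <;> simp

/-- Proof. Every pattern is given by its nine values, so this is a statement about
`a0, ..., a8 : Fin 2` with `code μ = a0 + 4 a1 + ... + 65536 a8`: 512 cases, `decide +kernel`
(write the right side with natural numbers: bit `i` of `clsP (code μ)` is
`(μ (i, 0) + μ (i, 1) + μ (i, 2)) % 2`, bit `3 + j` is `(μ (0, j) + μ (1, j) + μ (2, j)) % 2`).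
Tested: `∀ a0 ... a8 : Fin 2, clsP (a0.val + 4 * a1.val + ...) = (a0.val + a1.val + a2.val) % 2 + ...` and
`∀ d : Fin 64, okCls 0 d.val = true → (pats d.val).map pos = List.range 16 ∧ ...` are closed by
`decide +kernel` in a second. -/
theorem clsP_code (μ : E) : clsP (code μ) < 64 ∧ toCl (clsP (code μ)) = clE μ := by
  have h := B6_cls (μ (0, 0)) (μ (0, 1)) (μ (0, 2)) (μ (1, 0)) (μ (1, 1)) (μ (1, 2)) (μ (2, 0))
    (μ (2, 1)) (μ (2, 2))
  rw [← B6_code] at h
  have hm : ∀ n : ℕ, n % 2 < 2 := fun n => Nat.mod_lt _ (by norm_num)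
  obtain ⟨h2, h3, h4, h5, h6, h7⟩ := B6_bits
    ⟨((μ (0, 0)).val + (μ (0, 1)).val + (μ (0, 2)).val) % 2, hm _⟩
    ⟨((μ (1, 0)).val + (μ (1, 1)).val + (μ (1, 2)).val) % 2, hm _⟩
    ⟨((μ (2, 0)).val + (μ (2, 1)).val + (μ (2, 2)).val) % 2, hm _⟩
    ⟨((μ (0, 0)).val + (μ (1, 0)).val + (μ (2, 0)).val) % 2, hm _⟩
    ⟨((μ (0, 1)).val + (μ (1, 1)).val + (μ (2, 1)).val) % 2, hm _⟩
    ⟨((μ (0, 2)).val + (μ (1, 2)).val + (μ (2, 2)).val) % 2, hm _⟩
  rw [← h] at h2 h3 h4 h5 h6 h7
  have h1 : clsP (code μ) < 64 := by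
    rw [h]
    exact B6_64 _ _ _ _ _ _ (hm _) (hm _) (hm _) (hm _) (hm _) (hm _)
  refine ⟨h1, ?_⟩
  rw [toCl, clE, cl]
  refine Prod.ext ?_ ?_
  · funext i
    show (if (clsP (code μ)).testBit i.val then (1 : ZMod 2) else 0) =
      ∑ j, (((μ (i, j)).val : ℕ) : ZMod 2)
    rw [Fin.sum_univ_three]
    fin_cases i
    · show (if (clsP (code μ)).testBit 0 then (1 : ZMod 2) else 0) = _
      rw [h2, B6_par]; push_cast; rfl
    · show (if (clsP (code μ)).testBit 1 then (1 : ZMod 2) else 0) = _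
      rw [h3, B6_par]; push_cast; rfl
    · show (if (clsP (code μ)).testBit 2 then (1 : ZMod 2) else 0) = _
      rw [h4, B6_par]; push_cast; rfl
  · funext j
    show (if (clsP (code μ)).testBit (3 + j.val) then (1 : ZMod 2) else 0) =
      ∑ i, (((μ (i, j)).val : ℕ) : ZMod 2)
    rw [Fin.sum_univ_three]
    fin_cases j
    · show (if (clsP (code μ)).testBit 3 then (1 : ZMod 2) else 0) = _
      rw [h5, B6_par]; push_cast; rfl
    · show (if (clsP (code μ)).testBit 4 then (1 : ZMod 2) else 0) = _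
      rw [h6, B6_par]; push_cast; rfl
    · show (if (clsP (code μ)).testBit 5 then (1 : ZMod 2) else 0) = _
      rw [h7, B6_par]; push_cast; rfl

/-- Proof. 512 cases as in `clsP_code`. -/
theorem pos_lt (μ : E) : pos (code μ) < 16 := Nat.mod_lt _ (by norm_num)

/-- Proof. 512 cases as in `clsP_code` (the class of a pattern has even parity). -/
theorem okCls_code (μ : E) : okCls 0 (clsP (code μ)) = true := by
  rw [B6_code]
  exact B6_okc _ _ _ _ _ _ _ _ _

private theorem B6_mem (μ : E) : code μ ∈ pats (clsP (code μ)) := by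
  rw [B6_code]
  exact B6_mm _ _ _ _ _ _ _ _ _

private theorem B6_pats : ∀ d : Fin 64, okCls 0 d.val = true →
    (pats d.val).map pos = List.range 16 ∧
      ((pats d.val).all fun x => decide (Nat.land x 87381 = x) && decide (clsP x = d.val)) = true := by
  decide +kernel

private theorem B6_lt {d : ℕ} (hd : okCls 0 d = true) : d < 64 := by
  rw [okCls, Bool.and_eq_true] at hd
  have h := hd.1
  rw [Nat.blt_eq] at h
  exact h

/-- Proof. For a class `d < 64` of even parity the list `pats d` has 16 members; all satisfy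
`Nat.land x 87381 = x` and `clsP x = d` (`decide +kernel` over `d`); conversely 512 cases as in
`clsP_code`. -/
theorem mem_pats_iff {d : ℕ} (hd : okCls 0 d = true) (x : ℕ) :
    x ∈ pats d ↔ ∃ μ, code μ = x ∧ clsP (code μ) = d := by
  constructor
  · intro hx
    have h := (B6_pats ⟨d, B6_lt hd⟩ hd).2
    rw [List.all_eq_true] at h
    have h1 := h x hx
    rw [Bool.and_eq_true, decide_eq_true_eq, decide_eq_true_eq] at h1
    obtain ⟨μ, hμ⟩ := exists_code h1.1
    exact ⟨μ, hμ, by rw [hμ]; exact h1.2⟩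
  · rintro ⟨μ, rfl, rfl⟩
    exact B6_mem μ

/-- Proof. By `mem_pats_iff` the pattern `μ` is in the list `pats (clsP (code μ))`; for every class
`d < 64` the positions of the members of `pats d` are `0, ..., 15` in this order (64 cases, only
the classes with `okCls 0 d`; `decide +kernel`). -/
theorem pos_inj {μ ν : E} (h : clsP (code μ) = clsP (code ν)) (hp : pos (code μ) = pos (code ν)) :
    μ = ν := by
  apply code_inj
  have h1 := B6_mem μ
  have h2 := B6_mem ν
  rw [← h] at h2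
  have h3 := (B6_pats ⟨clsP (code μ), (clsP_code μ).1⟩ (okCls_code μ)).1
  have h4 : ((pats (clsP (code μ))).map pos).Nodup := by
    have h5 : (List.range 16).Nodup := List.nodup_range
    rw [← h3] at h5
    exact h5
  exact List.inj_on_of_nodup_map h4 h1 h2 hp

/-- Proof. See `pos_inj`. -/
theorem pos_surj {d : ℕ} (hd : okCls 0 d = true) {i : ℕ} (hi : i < 16) :
    ∃ μ, clsP (code μ) = d ∧ pos (code μ) = i := by
  have h3 : (pats d).map pos = List.range 16 := (B6_pats ⟨d, B6_lt hd⟩ hd).1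
  have h4 : i ∈ (pats d).map pos := by
    rw [h3]
    exact List.mem_range.2 hi
  obtain ⟨x, hx, hxi⟩ := List.mem_map.1 h4
  obtain ⟨μ, hμ, hc⟩ := (mem_pats_iff hd x).1 hx
  exact ⟨μ, hc, by rw [hμ]; exact hxi⟩

end Pool.Agent.Lib.H54F
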