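import Mathlib

/-! # C1: finite direct sums of copies of given modules -/

namespace Pool.Agent.Lib.H54F

/-- `N` is a finite direct sum of copies of the modules `M t`. -/
def IsSum (A : Type*) [CommRing A] {τ : Type} (M : τ → Type*) [∀ t, AddCommGroup (M t)]
    [∀ t, Module A (M t)] (N : Type*) [AddCommGroup N] [Module A N] : Prop :=
  ∃ (n : ℕ) (t : Fin n → τ), Nonempty (N ≃ₗ[A] (∀ i, M (t i)))

variable {A : Type*} [CommRing A] {τ : Type} {M : τ → Type*} [∀ t, AddCommGroup (M t)]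
  [∀ t, Module A (M t)]

theorem isSum_equiv {N N' : Type*} [AddCommGroup N] [Module A N] [AddCommGroup N'] [Module A N']
    (e : N ≃ₗ[A] N') (h : IsSum A M N) : IsSum A M N' := by
  obtain ⟨n, t, ⟨f⟩⟩ := h
  exact ⟨n, t, ⟨e.symm.trans f⟩⟩

/-- Proof. Choose `n i`, `t i` and equivalences. Then `∀ i, N i ≃ ∀ i, ∀ j : Fin (n i), M (t i j) ≃
∀ p : (Σ i, Fin (n i)), M (t p.1 p.2)` (`LinearEquiv.piCongrRight`, `LinearEquiv.piCurry`), and
`Σ i, Fin (n i)` is a finite type, in bijection with some `Fin n` (`Fintype.equivFin`;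
`LinearEquiv.piCongrLeft`). -/
theorem isSum_pi {ν : Type} [Fintype ν] {N : ν → Type*} [∀ i, AddCommGroup (N i)]
    [∀ i, Module A (N i)] (h : ∀ i, IsSum A M (N i)) : IsSum A M (∀ i, N i) := by
  choose n t e using h
  refine ⟨Fintype.card (Σ i, Fin (n i)), fun k => t ((Fintype.equivFin (Σ i, Fin (n i))).symm k).1
    ((Fintype.equivFin (Σ i, Fin (n i))).symm k).2, ⟨?_⟩⟩
  have e1 : (∀ i, N i) ≃ₗ[A] ∀ i, ∀ j : Fin (n i), M (t i j) :=
    LinearEquiv.piCongrRight fun i => (e i).some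
  have e2 : (∀ p : Σ i, Fin (n i), M (t p.1 p.2)) ≃ₗ[A] ∀ i, ∀ j : Fin (n i), M (t i j) :=
    LinearEquiv.piCurry A fun i j => M (t i j)
  exact (e1.trans e2.symm).trans
    (LinearEquiv.piCongrLeft' A (fun p : Σ i, Fin (n i) => M (t p.1 p.2))
      (Fintype.equivFin (Σ i, Fin (n i))))

/-- Proof. `isSum_pi` and `isSum_equiv`. -/
theorem isSum_trans {τ' : Type} {M' : τ' → Type*} [∀ t, AddCommGroup (M' t)]
    [∀ t, Module A (M' t)] (h : ∀ t, IsSum A M' (M t)) {N : Type*} [AddCommGroup N] [Module A N]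
    (hN : IsSum A M N) : IsSum A M' N := by
  obtain ⟨n, t, ⟨e⟩⟩ := hN
  exact isSum_equiv e.symm (isSum_pi fun i => h (t i))

/-- Proof. `a j` is the number of `i` with `t i = j`; `Fin n ≃ Σ j, {i // t i = j} ≃ Σ j, Fin (a j)`
(`Equiv.sigmaFiberEquiv`), `LinearEquiv.piCurry`. -/
theorem isSum_count {s : ℕ} {M : Fin s → Type*} [∀ t, AddCommGroup (M t)] [∀ t, Module A (M t)]
    {N : Type*} [AddCommGroup N] [Module A N] (h : IsSum A M N) :
    ∃ a : Fin s → ℕ, Nonempty (N ≃ₗ[A] ∀ i : Fin s, Fin (a i) → M i) := by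
  classical
  obtain ⟨n, t, ⟨e⟩⟩ := h
  refine ⟨fun j => Fintype.card {i : Fin n // t i = j}, ⟨?_⟩⟩
  have e1 : (∀ p : Σ j, {i : Fin n // t i = j}, M p.1) ≃ₗ[A] ∀ i : Fin n, M (t i) :=
    LinearEquiv.piCongrLeft' A (fun p : Σ j, {i : Fin n // t i = j} => M p.1)
      (Equiv.sigmaFiberEquiv t)
  have e2 : (∀ p : Σ j, {i : Fin n // t i = j}, M p.1) ≃ₗ[A]
      ∀ j, ({i : Fin n // t i = j} → M j) :=
    LinearEquiv.piCurry A fun j _ => M j
  have e3 : (∀ j, ({i : Fin n // t i = j} → M j)) ≃ₗ[A]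
      ∀ j, (Fin (Fintype.card {i : Fin n // t i = j}) → M j) :=
    LinearEquiv.piCongrRight fun j =>
      LinearEquiv.funCongrLeft A (M j) (Fintype.equivFin {i : Fin n // t i = j}).symm
  exact ((e.trans e1.symm).trans e2).trans e3

end Pool.Agent.Lib.H54F
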