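import Pool.Agent.Lib.H54F.Def

/-! # C2: iterated Frobenius push-forward -/

namespace Pool.Agent.Lib.H54F

variable {R : Type*} [CommRing R] {p : ℕ} [ExpChar R p]

/-- Proof. `rfl` after unfolding; `iterateFrobenius_def`. -/
theorem frob_smul {N : Type*} [AddCommGroup N] [Module R N] (e : ℕ) (r : R)
    (x : FrobPush R p e N) : (r • x : FrobPush R p e N) = (r ^ p ^ e • (show N from x) : N) := by
  show (iterateFrobenius R p e r • (show N from x) : N) = _
  rw [iterateFrobenius_def]

/-- Proof. The same map. -/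
theorem frob_congr {N N' : Type*} [AddCommGroup N] [Module R N] [AddCommGroup N'] [Module R N']
    (e : ℕ) (f : N ≃ₗ[R] N') : Nonempty (FrobPush R p e N ≃ₗ[R] FrobPush R p e N') := by
  refine ⟨AddEquiv.toLinearEquiv (show FrobPush R p e N ≃+ FrobPush R p e N' from f.toAddEquiv)
    fun r x => ?_⟩
  exact f.map_smul (iterateFrobenius R p e r) x

/-- Proof. The identity map. -/
theorem frob_pi {ν : Type*} (N : ν → Type*) [∀ i, AddCommGroup (N i)] [∀ i, Module R (N i)]
    (e : ℕ) : Nonempty (FrobPush R p e (∀ i, N i) ≃ₗ[R] (∀ i, FrobPush R p e (N i))) := by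
  refine ⟨AddEquiv.toLinearEquiv
    (show FrobPush R p e (∀ i, N i) ≃+ (∀ i, FrobPush R p e (N i)) from AddEquiv.refl (∀ i, N i))
    fun r x => ?_⟩
  rfl

/-- Proof. The identity map; `r ^ p ^ (e + 1) = (r ^ p ^ 1) ^ p ^ e`. -/
theorem frob_succ (N : Type*) [AddCommGroup N] [Module R N] (e : ℕ) :
    Nonempty (FrobPush R p (e + 1) N ≃ₗ[R] FrobPush R p 1 (FrobPush R p e N)) := by
  refine ⟨AddEquiv.toLinearEquiv
    (show FrobPush R p (e + 1) N ≃+ FrobPush R p 1 (FrobPush R p e N) from AddEquiv.refl N)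
    fun r x => ?_⟩
  show (iterateFrobenius R p (e + 1) r • (show N from x) : N) =
    (iterateFrobenius R p e (iterateFrobenius R p 1 r) • (show N from x) : N)
  rw [iterateFrobenius_def, iterateFrobenius_def, iterateFrobenius_def, ← pow_mul, ← pow_add,
    add_comm 1 e]

/-- Proof. The identity map; `r ^ p ^ 0 = r`. -/
theorem frob_zero (N : Type*) [AddCommGroup N] [Module R N] :
    Nonempty (FrobPush R p 0 N ≃ₗ[R] N) := by
  refine ⟨AddEquiv.toLinearEquiv (show FrobPush R p 0 N ≃+ N from AddEquiv.refl N)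
    fun r x => ?_⟩
  show (iterateFrobenius R p 0 r • (show N from x) : N) = r • (show N from x)
  rw [iterateFrobenius_def, pow_zero, pow_one]

end Pool.Agent.Lib.H54F
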