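import Pool.Agent.Lib.H54F.C2

/-! # C3: from a ring to a quotient ring -/

namespace Pool.Agent.Lib.H54F

theorem C3_tower {S : Type*} [CommRing S] (I : Ideal S) (M : Type*) [AddCommGroup M] [Module S M] :
    IsScalarTower S (S ⧸ I) (M ⧸ (I • (⊤ : Submodule S M))) := by
  refine ⟨fun r c x => ?_⟩
  obtain ⟨c, rfl⟩ := Ideal.Quotient.mk_surjective c
  obtain ⟨x, rfl⟩ := Submodule.Quotient.mk_surjective _ x
  have h : r • (Ideal.Quotient.mk I c) = Ideal.Quotient.mk I (r * c) := by
    rw [Algebra.smul_def, map_mul]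
    rfl
  rw [h, Module.Quotient.mk_smul_mk, Module.Quotient.mk_smul_mk, mul_smul]
  rfl

theorem C3_smul {S : Type*} [CommRing S] (I : Ideal S) (M : Type*) [AddCommGroup M] [Module S M]
    (r : S) (x : M ⧸ (I • (⊤ : Submodule S M))) : Ideal.Quotient.mk I r • x = r • x := by
  obtain ⟨x, rfl⟩ := Submodule.Quotient.mk_surjective _ x
  rw [Module.Quotient.mk_smul_mk]
  rfl

/-- Proof. Let `M' i = M i ⧸ (I • ⊤ : Submodule S (M i))`, a module over `S ⧸ I`
(the instance for `M ⧸ I • ⊤` over `R ⧸ I` in Mathlib), finite because it is finite over `S`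
(`Module.Finite.of_restrictScalars_finite`; the scalar tower `S`, `S ⧸ I`). Fix `e ≥ 1` and the
isomorphism `φ`. If `a i ≠ 0`, then `I` kills `M i`: for `m : M i` and `r ∈ I` let `x` be the
element of `FrobPush S p e (S ⧸ I)` with `φ x = Pi.single i (fun _ => m)` (constant function);
`r • x = r ^ p ^ e • x = 0` (`frob_smul`, `p ^ e ≥ 1`, `r ∈ I`), so `r • m = 0`. Hence the quotient
map `M i → M' i` is bijective for `a i ≠ 0`, and `∏ (Fin (a i) → M i) → ∏ (Fin (a i) → M' i)` is an
`S`-linear bijection. Composed with `φ` it is an additive bijection from `FrobPush (S ⧸ I) p e (S ⧸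
I)` (the same set); it is `S ⧸ I`-linear: every scalar is `mk r`, and
`mk r • x = mk (r ^ p ^ e) * x = r • x` in the `S`-structure. The first part of `HasFFRT` follows
from `e = 1` (a finite product of finite modules is finite, `Module.Finite.equiv`). -/
theorem ffrt_of_quot.{u} {S : Type u} [CommRing S] (I : Ideal S) (p : ℕ) [ExpChar S p]
    [ExpChar (S ⧸ I) p] {s : ℕ} (M : Fin s → Type u) [∀ i, AddCommGroup (M i)]
    [∀ i, Module S (M i)] (hfin : ∀ i, Module.Finite S (M i))
    (h : ∀ e : ℕ, 1 ≤ e → ∃ a : Fin s → ℕ,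
      Nonempty (FrobPush S p e (S ⧸ I) ≃ₗ[S] ∀ i, Fin (a i) → M i)) :
    HasFFRT (S ⧸ I) p := by
  classical
  have hfin' : ∀ i, Module.Finite (S ⧸ I) (M i ⧸ (I • (⊤ : Submodule S (M i)))) := by
    intro i
    have := hfin i
    have := C3_tower I (M i)
    exact Module.Finite.of_restrictScalars_finite S (S ⧸ I) _
  have key : ∀ e : ℕ, 1 ≤ e → ∃ a : Fin s → ℕ,
      Nonempty (FrobPush (S ⧸ I) p e (S ⧸ I) ≃ₗ[S ⧸ I]
        ∀ i, Fin (a i) → (M i ⧸ (I • (⊤ : Submodule S (M i))))) := by
    intro e he
    obtain ⟨a, ⟨φ⟩⟩ := h e he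
    refine ⟨a, ⟨?_⟩⟩
    have hpe : p ^ e ≠ 0 := pow_ne_zero e (expChar_pos S p).ne'
    have hkill : ∀ i, a i ≠ 0 → (I • (⊤ : Submodule S (M i))) = ⊥ := by
      intro i hi
      rw [eq_bot_iff, Submodule.smul_le]
      intro r hr m _
      rw [Submodule.mem_bot]
      have hx : r • φ.symm (Pi.single i (fun _ => m)) = 0 := by
        rw [frob_smul e r (φ.symm (Pi.single i (fun _ => m)))]
        have h1 : (r ^ p ^ e • (1 : S ⧸ I)) = 0 := by
          rw [Algebra.smul_def, mul_one]
          exact Ideal.Quotient.eq_zero_iff_mem.2 (I.pow_mem_of_mem hr _ (Nat.pos_of_ne_zero hpe))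
        have h2 : ∀ y : S ⧸ I, r ^ p ^ e • y = 0 := by
          intro y
          have h3 : r ^ p ^ e • y = (r ^ p ^ e • (1 : S ⧸ I)) * y := by
            rw [smul_mul_assoc, one_mul]
          rw [h3, h1, zero_mul]
        exact h2 _
      have h2 := congrArg φ hx
      rw [map_smul, map_zero, φ.apply_symm_apply] at h2
      have h3 := congrFun (congrFun h2 i) ⟨0, Nat.pos_of_ne_zero hi⟩
      simpa using h3
    have hbij : ∀ i, Function.Bijective
        ((Submodule.mkQ (I • (⊤ : Submodule S (M i)))).compLeft (Fin (a i))) := by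
      intro i
      constructor
      · rcases Nat.eq_zero_or_pos (a i) with h0 | h0
        · intro f g _
          funext j
          exact absurd j.2 (by omega)
        · intro f g hfg
          funext j
          have h1 : Submodule.mkQ (I • (⊤ : Submodule S (M i))) (f j) =
              Submodule.mkQ (I • (⊤ : Submodule S (M i))) (g j) := congrFun hfg j
          have h2 := (Submodule.Quotient.eq _).1 h1
          rw [hkill i h0.ne', Submodule.mem_bot] at h2
          exact sub_eq_zero.1 h2
      · intro f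
        choose g hg using fun j => Submodule.mkQ_surjective (I • (⊤ : Submodule S (M i))) (f j)
        exact ⟨g, funext hg⟩
    let Φ : FrobPush S p e (S ⧸ I) ≃ₗ[S]
        ∀ i, Fin (a i) → (M i ⧸ (I • (⊤ : Submodule S (M i)))) :=
      φ.trans (LinearEquiv.piCongrRight fun i => LinearEquiv.ofBijective _ (hbij i))
    refine
      { toFun := fun x => Φ (show FrobPush S p e (S ⧸ I) from x)
        map_add' := fun x y => Φ.map_add (show FrobPush S p e (S ⧸ I) from x)
          (show FrobPush S p e (S ⧸ I) from y)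
        map_smul' := ?_
        invFun := fun y => (show FrobPush (S ⧸ I) p e (S ⧸ I) from Φ.symm y)
        left_inv := fun x => Φ.symm_apply_apply (show FrobPush S p e (S ⧸ I) from x)
        right_inv := fun y => Φ.apply_symm_apply y }
    intro c x
    obtain ⟨r, rfl⟩ := Ideal.Quotient.mk_surjective c
    have h1 : (show FrobPush S p e (S ⧸ I) from (Ideal.Quotient.mk I r • x)) =
        r • (show FrobPush S p e (S ⧸ I) from x) := by
      have e1 := frob_smul (R := S ⧸ I) (p := p) (N := S ⧸ I) e (Ideal.Quotient.mk I r) x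
      have e2 := frob_smul (R := S) (p := p) (N := S ⧸ I) e r (show FrobPush S p e (S ⧸ I) from x)
      have e3 : ∀ y : S ⧸ I, (Ideal.Quotient.mk I r) ^ p ^ e • y = r ^ p ^ e • y := by
        intro y
        rw [← map_pow, smul_eq_mul, Algebra.smul_def]
        rfl
      exact (e1.trans (e3 _)).trans e2.symm
    change Φ (show FrobPush S p e (S ⧸ I) from (Ideal.Quotient.mk I r • x)) = _
    rw [h1, map_smul]
    funext i j
    exact (C3_smul I (M i) r _).symm
  refine ⟨?_, s, fun i => M i ⧸ (I • (⊤ : Submodule S (M i))), fun i => inferInstance,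
    fun i => inferInstance, hfin', key⟩
  obtain ⟨a, ⟨e⟩⟩ := key 1 le_rfl
  have := hfin'
  exact Module.Finite.equiv e.symm

end Pool.Agent.Lib.H54F
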