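import Pool.Agent.Lib.H54F.B2

/-! # C4: the determinantal ring as a cokernel -/

namespace Pool.Agent.Lib.H54F

open MvPolynomial

private lemma C4_mon (k : ℕ) : mon k = ∏ v : V, (X v : S0) ^ ex k v := by
  unfold mon
  rw [MvPolynomial.monomial_eq, map_one, one_mul, Finsupp.prod_fintype]
  · rfl
  · intro i
    exact pow_zero _

private lemma C4_iota (K : Type*) [Field K] [CharP K 2] (k : ℕ) :
    ι0 K (mon k) = ∏ v : V, (X v : MvPolynomial V K) ^ ex k v := by
  rw [C4_mon, map_prod]
  refine Finset.prod_congr rfl fun v _ => ?_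
  rw [map_pow]
  unfold ι0
  rw [MvPolynomial.map_X]

private lemma C4_mat (k : Fin (src 0).rows.length) (q : Fin (src 0).n) :
    mat (src 0) k q = mon 4368 + mon 5124 + mon 16464 + mon 17409 + mon 65604 + mon 65793 := by
  have hk : (src 0).rows.get k = [4368, 5124, 16464, 17409, 65604, 65793] := by
    have h0 : k.val < 1 := k.isLt
    have h1 : k = ⟨0, Nat.zero_lt_one⟩ := Fin.ext (by change k.val = 0; omega)
    rw [h1]
    rfl
  have hq : q.val = 0 := by
    have h0 : q.val < 1 := q.isLt
    omega
  unfold mat ev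
  rw [hk]
  simp only [List.map_cons, List.map_nil, List.sum_cons, List.sum_nil, hq, idx]
  norm_num
  ring

private lemma C4_det (K : Type*) [Field K] [CharP K 2] (k : Fin (src 0).rows.length)
    (q : Fin (src 0).n) :
    ι0 K (mat (src 0) k q) =
      (Matrix.of fun i j => (X (i, j) : MvPolynomial (Fin 3 × Fin 3) K)).det := by
  rw [C4_mat, map_add, map_add, map_add, map_add, map_add]
  rw [C4_iota, C4_iota, C4_iota, C4_iota, C4_iota, C4_iota, Matrix.det_fin_three]
  simp only [Fintype.prod_prod_type, Fin.prod_univ_three, ex, Matrix.of_apply]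
  have h2 : (2 : MvPolynomial (Fin 3 × Fin 3) K) = 0 := CharTwo.two_eq_zero
  norm_num [Fin.val_ofNat]
  linear_combination (X (0, 0) * X (1, 2) * X (2, 1) + X (0, 1) * X (1, 0) * X (2, 2) +
    X (0, 2) * X (1, 1) * X (2, 0)) * h2

private lemma C4_emb (r : Fin 3 ↪o Fin 3) (i : Fin 3) : r i = i := by
  have h1 : (r 0).val < (r 1).val := r.strictMono (by decide)
  have h2 : (r 1).val < (r 2).val := r.strictMono (by decide)
  have h3 := (r 2).isLt
  apply Fin.ext
  fin_cases i
  · change (r 0).val = 0
    omega
  · change (r 1).val = 1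
    omega
  · change (r 2).val = 2
    omega

private lemma C4_ideal (K : Type*) [Field K] : minorsIdeal K 3 3 3 =
    Ideal.span {(Matrix.of fun i j => (X (i, j) : MvPolynomial (Fin 3 × Fin 3) K)).det} := by
  unfold minorsIdeal
  congr 1
  ext f
  rw [Set.mem_ofPred_eq, Set.mem_singleton_iff]
  constructor
  · rintro ⟨r, c, rfl⟩
    congr 1
    ext1 i j
    simp only [Matrix.of_apply, C4_emb]
  · intro h
    refine ⟨RelEmbedding.refl _, RelEmbedding.refl _, h⟩

/-- Proof. The only order embedding `Fin 3 ↪o Fin 3` is the identity, so the ideal is generated by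
`det X` (`Matrix.det_fin_three`). The presentation `src 0 = srcR` has one generator and one row, with
the keys of the six terms of the determinant (signs do not matter in characteristic two), so
`rowSpan (ι0 K) (mat (src 0))` is the set of the functions on `Fin 1` with value in the ideal.
Compute `ev` of the row: six keys with index `0` and squarefree exponents (`decide` for `ex` of the
six numbers). -/
theorem cok_R (K : Type*) [Field K] [CharP K 2] :
    Nonempty (Cok (ι0 K) (mat (src 0)) ≃ₗ[MvPolynomial V K]
      (MvPolynomial V K ⧸ minorsIdeal K 3 3 3)) := by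
  have hu : Unique (Fin (src 0).n) := inferInstanceAs (Unique (Fin 1))
  refine ⟨Submodule.Quotient.equiv _ _ (LinearEquiv.funUnique (Fin (src 0).n) _ _) ?_⟩
  rw [C4_ideal]
  unfold rowSpan
  rw [Submodule.map_span]
  change Submodule.span _ _ = Submodule.span _ _
  congr 1
  ext f
  constructor
  · rintro ⟨g, ⟨k, rfl⟩, rfl⟩
    exact C4_det K k _
  · intro hf
    rw [Set.mem_singleton_iff] at hf
    refine ⟨_, ⟨(⟨0, Nat.zero_lt_one⟩ : Fin 1), rfl⟩, ?_⟩
    rw [hf]
    exact C4_det K _ _

end Pool.Agent.Lib.H54F
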