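import Pool.Agent.Lib.H54F.B3
import Pool.Agent.Lib.H54F.B15
import Pool.Agent.Lib.H54F.C1
import Pool.Agent.Lib.H54F.C3
import Pool.Agent.Lib.H54F.C4

/-! # C5: the theorem -/

namespace Pool.Agent.Lib.H54F

open MvPolynomial

universe u

/-- Proof. `frob_cok` (with the frame `F`) and, for every factor, `cok_block` for the matrix
`pm (mat (src s))` with the class functions `(k, ν) ↦ clE ν + clF (cr s) k` and
`(j, μ) ↦ clE μ + clF (cg s) j` (`pm_class` with `src_hom`); the blocks are `blkS s c` (`rfl`), and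
`dec_all` gives `IsSum` for every block. Conclude by `isSum_equiv` and `isSum_pi`. -/
theorem frob_src {K : Type u} [Field K] [CharP K 2] [ExpChar (MvPolynomial V K) 2] (F : Frame K)
    {s : ℕ} (hs : s < 15) :
    IsSum (MvPolynomial V K) (fun t : Fin 15 => Cok (ι0 K) (mat (src t.val)))
      (FrobPush (MvPolynomial V K) 2 1 (Cok (ι0 K) (mat (src s)))) := by
  obtain ⟨e1⟩ := frob_cok F (mat (src s))
  refine isSum_equiv e1.symm (isSum_pi fun _ => ?_)
  obtain ⟨e2⟩ := cok_block (pm (mat (src s)))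
    (fun k : Fin (src s).rows.length × E => clE k.2 + clF (cr s) k.1)
    (fun q : Fin (src s).n × E => clE q.2 + clF (cg s) q.1)
    (fun k q h => pm_class (mat (src s)) (fun k => clF (cr s) k) (fun j => clF (cg s) j)
      (fun k j e he => src_hom hs k j e he) k q h) (ι0 K)
  refine isSum_equiv e2.symm (isSum_pi fun c => ?_)
  obtain ⟨n, t, h⟩ := dec_all.{u} hs c
  exact ⟨n, t, h (MvPolynomial V K) (ι0 K)⟩

/-- Proof. Induction on `e`: for `e = 0` use `frob_zero` and `cok_R`. Step: `frob_succ`,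
`frob_congr` for the isomorphism of the induction hypothesis, `frob_pi`, `frob_src`, `isSum_pi`,
`isSum_equiv`. -/
theorem frob_iter {K : Type u} [Field K] [CharP K 2] [ExpChar (MvPolynomial V K) 2] (F : Frame K)
    (e : ℕ) :
    IsSum (MvPolynomial V K) (fun t : Fin 15 => Cok (ι0 K) (mat (src t.val)))
      (FrobPush (MvPolynomial V K) 2 e (MvPolynomial V K ⧸ minorsIdeal K 3 3 3)) := by
  induction e with
  | zero =>
    obtain ⟨e1⟩ := frob_zero (R := MvPolynomial V K) (p := 2)
      (MvPolynomial V K ⧸ minorsIdeal K 3 3 3)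
    obtain ⟨e2⟩ := cok_R K
    refine isSum_equiv (e2.trans e1.symm) ?_
    exact ⟨1, fun _ => 0, ⟨(LinearEquiv.funUnique (Fin 1) (MvPolynomial V K)
      (Cok (ι0 K) (mat (src 0)))).symm⟩⟩
  | succ e ih =>
    obtain ⟨n, t, ⟨f⟩⟩ := ih
    obtain ⟨e1⟩ := frob_succ (R := MvPolynomial V K) (p := 2)
      (MvPolynomial V K ⧸ minorsIdeal K 3 3 3) e
    obtain ⟨e2⟩ := frob_congr (p := 2) 1 f
    obtain ⟨e3⟩ := frob_pi (R := MvPolynomial V K) (p := 2)
      (fun i : Fin n => Cok (ι0 K) (mat (src (t i).val))) 1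
    refine isSum_equiv ((e1.trans e2).trans e3).symm (isSum_pi fun i => ?_)
    exact frob_src F (t i).isLt

/-- Proof. `ffrt_of_quot` with `frob_iter`, `isSum_count`, `exists_frame`. -/
theorem ffrt_det3 (K : Type u) [Field K] [CharP K 2] [ExpChar K 2]
    (hK : Module.Finite K (FrobPush K 2 1 K)) : HasFFRT (DetRing K 3 3 3) 2 := by
  obtain ⟨F⟩ := exists_frame K hK
  refine ffrt_of_quot (minorsIdeal K 3 3 3) 2
    (fun t : Fin 15 => Cok (ι0 K) (mat (src t.val))) (fun t => ?_) (fun e _ => ?_)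
  · infer_instance
  · exact isSum_count (frob_iter F e)

end Pool.Agent.Lib.H54F
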