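import Mathlib

/-! # Computations on packed sparse vectors (characteristic 2, nine variables)

A monomial `∏ x_v ^ e_v` (`v < 9`, `e_v ≤ 3`) is the number `∑ e_v 4^v`; a key is
`monomial + 2^18 * index`. All functions below are written with recursors and the arithmetic
functions of `Nat`, so that the kernel evaluates them quickly. -/

namespace Pool.Agent.Lib.H54F

/-- `force n f = f n`, with `n` evaluated first. -/
noncomputable def force {α : Type} (n : ℕ) (f : ℕ → α) : α :=
  Nat.rec (f 0) (fun k _ => f (Nat.succ k)) n

/-- `sel b x y` is `x` if `b`, otherwise `y`. -/
noncomputable def sel {α : Type} (b : Bool) (x y : α) : α := Bool.rec y x b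

/-- Entry `c` (56 bits) of a packed table. -/
def tab56 (T c : ℕ) : ℕ := Nat.mod (Nat.shiftRight T (Nat.mul 56 c)) 72057594037927936

/-- Tables for the contributions of the three rows: `code + 128 * weight`. -/
def T0 : ℕ := 0x48618600048c0040618400040b0038618200038a003061800003090040610600040900386104000388003061020003070028610000028600386086000386003060840003050028608200028400206080000203003060060003030028600400028200206002000201001860000001800040418600040c0038418400038b0030418200030a002841800002890038410600038900304104000308002841020002870020410000020600304086000306002840840002850020408200020400184080000183002840060002830020400400020200184002000181001040000001000038218600038c0030218400030b0028218200028a002021800002090030210600030900282104000288002021020002070018210000018600282086000286002020840002050018208200018400102080000103002020060002030018200400018200102002000101000820000000800030018600030c0028018400028b0020018200020a00180180000189002801060002890020010400020800180102000187001001000001060020008600020600180084000185001000820001040008008000008300180006000183001000040001020008000200008100000000000000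

def T1 : ℕ := 0x48618601206c004061840100630038618200e05a0030618000c051004061060100510038610400e0480030610200c03f0028610000a0360038608600e0360030608400c02d0028608200a0240020608000801b0030600600c01b0028600400a01200206002008009001860000060000040418601006c0038418400e0630030418200c05a0028418000a0510038410600e0510030410400c0480028410200a03f002041000080360030408600c0360028408400a02d002040820080240018408000601b0028400600a01b0020400400801200184002006009001040000040000038218600e06c0030218400c0630028218200a05a002021800080510030210600c0510028210400a0480020210200803f001821000060360028208600a0360020208400802d001820820060240010208000401b0020200600801b0018200400601200102002004009000820000020000030018600c06c0028018400a0630020018200805a001801800060510028010600a051002001040080480018010200603f00100100004036002000860080360018008400602d001000820040240008008000201b0018000600601b001000040040120008000200200900000000000000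

def T2 : ℕ := 0x486186480000004061844000000038618238000000306180300000004061064000000038610438000000306102300000002861002800000038608638000000306084300000002860822800000020608020000000306006300000002860042800000020600220000000186000180000004041864000000038418438000000304182300000002841802800000038410638000000304104300000002841022800000020410020000000304086300000002840842800000020408220000000184080180000002840062800000020400420000000184002180000001040001000000038218638000000302184300000002821822800000020218020000000302106300000002821042800000020210220000000182100180000002820862800000020208420000000182082180000001020801000000020200620000000182004180000001020021000000008200008000000300186300000002801842800000020018220000000180180180000002801062800000020010420000000180102180000001001001000000020008620000000180084180000001000821000000008008008000000180006180000001000041000000008000208000000000000000000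

/-- `code + 128 * weight` of the monomial of a key. -/
def cw (k : ℕ) : ℕ :=
  Nat.add (tab56 T0 (Nat.mod k 64)) (Nat.add (tab56 T1 (Nat.mod (Nat.div k 64) 64))
    (tab56 T2 (Nat.mod (Nat.div k 4096) 64)))

/-- Tables: binary tries with values at the leaves. -/
inductive Tr : Type
  | E : Tr
  | L (v s : ℕ) : Tr
  | B (l r : Tr) : Tr

/-- Read the entry `k`, `f 0 0` if there is none. -/
noncomputable def Tr.get {α : Type} (f : ℕ → ℕ → α) (t : Tr) : ℕ → α :=
  Tr.rec (fun _ => f 0 0) (fun v s k => sel (Nat.beq k 0) (f v s) (f 0 0))
    (fun _ _ ihl ihr k =>
      Bool.rec (ihl (Nat.div k 2)) (ihr (Nat.div k 2)) (Nat.beq (Nat.mod k 2) 1)) t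

/-- Set the entry `k < 2^d`. -/
noncomputable def Tr.set (v s : ℕ) (d : ℕ) : Tr → ℕ → Tr :=
  Nat.rec (fun t k => sel (Nat.beq k 0) (.L v s) t)
    (fun _ ih t k => Tr.rec
      (Bool.rec (.B (ih .E (Nat.div k 2)) .E) (.B .E (ih .E (Nat.div k 2)))
        (Nat.beq (Nat.mod k 2) 1))
      (fun _ _ => t)
      (fun l r _ _ => Bool.rec (.B (ih l (Nat.div k 2)) r) (.B l (ih r (Nat.div k 2)))
        (Nat.beq (Nat.mod k 2) 1)) t) d

/-- `acc + ∑ x^m T[i]` over the keys `m + 2^18 i`, all terms of weight `s`; `none` if a check
fails. -/
noncomputable def comb (T : Tr) (s : ℕ) (l : List ℕ) : ℕ → Option ℕ :=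
  List.rec (fun acc => some acc) (fun k _ ih acc =>
    T.get (fun v s' => (fun c => sel (Nat.beq (Nat.add s' (Nat.div c 128)) s)
      (ih (Nat.xor acc (Nat.shiftLeft v (Nat.mod c 128)))) none) (cw k)) (Nat.div k 262144)) l

/-- The weight of the first term of a combination. -/
noncomputable def sdeg (T : Tr) (l : List ℕ) : ℕ :=
  List.rec 0 (fun k _ _ => T.get (fun _ s' => Nat.add s' (Nat.div (cw k) 128))
    (Nat.div k 262144)) l

/-- The `3`-bit code of a row pattern. -/
def cmp3 (c : ℕ) : ℕ := Nat.mod (Nat.shiftRight 0xfbeb2cfbeb2c69a20869a208fbeb2cfbeb2c69a20869a208 (Nat.mul 3 c)) 8

/-- Position (among the 16 patterns of the same class) of a parity pattern. -/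
def pos (p : ℕ) : ℕ :=
  Nat.mod (Nat.shiftRight 0xffffffffffffffffeeeeeeeeeeeeeeeeddddddddddddddddccccccccccccccccffffffffffffffffeeeeeeeeeeeeeeeeddddddddddddddddccccccccccccccccbbbbbbbbbbbbbbbbaaaaaaaaaaaaaaaa99999999999999998888888888888888bbbbbbbbbbbbbbbbaaaaaaaaaaaaaaaa999999999999999988888888888888887777777777777777666666666666666655555555555555554444444444444444777777777777777766666666666666665555555555555555444444444444444433333333333333332222222222222222111111111111111100000000000000003333333333333333222222222222222211111111111111110000000000000000 (Nat.mul 4 (Nat.add (cmp3 (Nat.mod p 64))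
    (Nat.add (Nat.mul 8 (cmp3 (Nat.mod (Nat.div p 64) 64)))
      (Nat.mul 64 (cmp3 (Nat.mod (Nat.div p 4096) 64))))))) 16

/-- Push a key along the pattern `sp`: the generator becomes `16 gen + pos (parity)`. -/
def pushKey (sp k : ℕ) : ℕ :=
  (fun M => (fun par => Nat.add (Nat.div (Nat.sub M par) 2)
    (Nat.mul 262144 (Nat.add (Nat.mul 16 (Nat.div k 262144)) (pos par)))) (Nat.land M 87381))
    (Nat.add (Nat.mod k 262144) sp)

/-- A presentation: number of generators, rows (lists of keys), weights of the generators. -/
structure Pres where
  n : ℕ
  rows : List (List ℕ)
  wt : List ℕ

noncomputable def mapL {α β : Type} (f : α → β) (l : List α) : List β :=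
  List.rec [] (fun a _ ih => f a :: ih) l

noncomputable def appL {α : Type} (l l' : List α) : List α := List.rec l' (fun a _ ih => a :: ih) l

/-- Shift the generators of a row by `o`. -/
noncomputable def shiftRow (o : ℕ) (l : List ℕ) : List ℕ :=
  mapL (fun k => Nat.add k (Nat.mul 262144 o)) l

/-- The rows of a direct sum of presentations. -/
noncomputable def dsumRows (ty : ℕ → Pres) (l : List (ℕ × ℕ)) : ℕ → List (List ℕ) :=
  List.rec (fun _ => []) (fun t _ ih o =>
    appL (mapL (shiftRow o) (ty t.1).rows) (ih (Nat.add o (ty t.1).n))) l

/-- The weights of the generators of a direct sum of (shifted) presentations. -/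
noncomputable def dsumWt (ty : ℕ → Pres) (l : List (ℕ × ℕ)) : List ℕ :=
  List.rec [] (fun t _ ih => appL (mapL (fun s => Nat.add t.2 s) (ty t.1).wt) ih) l

structure Cert where
  tgt : List (ℕ × ℕ)
  h0 : ℕ
  h1 : ℕ
  steps : List (List ℕ)
  mins : List (List ℕ)
  be : List (List ℕ)
  ga : List (List ℕ)
  ali : List (List ℕ)

/-- The weight `s` is admissible (as the weight of an identity). -/
def okDeg (h0 h1 s : ℕ) : Bool :=
  Nat.ble 512 (Nat.div s 68719476736) && Nat.ble (Nat.div s 68719476736) 543 &&
    Nat.ble (Nat.mod s 64) h0 && Nat.ble (Nat.mod (Nat.div s 64) 64) h1

/-- The weight `s` is admissible (as the weight of a generator). -/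
def okGen (h0 h1 s : ℕ) : Bool :=
  Nat.ble 512 (Nat.div s 68719476736) &&
    Nat.ble h0 (Nat.add (Nat.mod s 64) 2) && Nat.ble h1 (Nat.add (Nat.mod (Nat.div s 64) 64) 2) &&
    Nat.ble (Nat.mod s 64) 31 && Nat.ble (Nat.mod (Nat.div s 64) 64) 31 &&
    Nat.ble (Nat.mod (Nat.div s 4096) 64) 31 && Nat.ble (Nat.mod (Nat.div s 262144) 64) 31 &&
    Nat.ble (Nat.mod (Nat.div s 16777216) 64) 31 &&
    Nat.ble (Nat.mod (Nat.div s 1073741824) 64) 31

/-- Unit table: `i ↦ (2^(81 i), s_i)`. -/
noncomputable def unitT (l : List ℕ) : ℕ → Tr → Tr :=
  List.rec (fun _ T => T) (fun s _ ih i T =>
    force (Nat.shiftLeft 1 (Nat.mul 81 i)) fun v => force s fun s =>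
      ih (Nat.succ i) (Tr.set v s 7 T i)) l

/-- Every weight has this lower bound (`2^45`). -/
def big : ℕ := 35184372088832

/-- Table (`2^d` entries) of the combinations `ls` with respect to `T`, at positions
`i, i+1, ...`. -/
noncomputable def rowT (d : ℕ) (T : Tr) (ls : List (List ℕ)) : ℕ → Tr → Option Tr :=
  List.rec (fun _ R => some R) (fun l _ ih i R =>
    force (sdeg T l) fun s => sel (Nat.ble big s) (Option.rec none
      (fun v => force v fun v => ih (Nat.succ i) (Tr.set v s d R i)) (comb T s l 0)) none) ls

/-- Process `mins`: every entry is `q :: keys`. -/
noncomputable def minT (okG : ℕ → Bool) (U : Tr) (ls : List (List ℕ)) : Tr → Option Tr :=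
  List.rec (fun T => some T) (fun ql _ ih T =>
    List.rec none (fun q l _ => force (sdeg U l) fun s =>
      sel (Nat.ble big s) (sel (okG q) (Option.rec none
        (fun v => force v fun v => ih (Tr.set v s 9 T q)) (comb U s l 0)) none) none) ql) ls

/-- Insert a key into a list without repetitions, cancelling equal keys. -/
noncomputable def xins (k : ℕ) (l : List ℕ) : List ℕ :=
  List.rec [k] (fun a t ih => sel (Nat.beq a k) t (a :: ih)) l

noncomputable def xsum (l l' : List ℕ) : List ℕ := List.rec l' (fun a _ ih => xins a ih) l

/-- The sum of the rows with codes in the list. -/
noncomputable def rsum (rowOf : ℕ → List ℕ) (rs : List ℕ) : List ℕ :=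
  List.rec [] (fun r t ih => List.rec (rowOf r) (fun _ _ _ => xsum (rowOf r) ih) t) rs

/-- Remove the key `k`; `none` if it does not occur. -/
noncomputable def xrem (k : ℕ) (l : List ℕ) : Option (List ℕ) :=
  List.rec none (fun a t ih => sel (Nat.beq a k) (some t)
    (Option.rec none (fun l' => some (a :: l')) ih)) l

noncomputable def allL (p : ℕ → Bool) (l : List ℕ) : Bool :=
  List.rec true (fun a _ ih => sel (p a) ih false) l

/-- Process `steps`: every entry is `s :: q :: row codes`. -/
noncomputable def stepT (okR : ℕ → Bool) (rowOf : ℕ → List ℕ) (ls : List (List ℕ)) :
    Tr → Option Tr :=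
  List.rec (fun T => some T) (fun x _ ih T =>
    List.rec none (fun s x' _ => List.rec none (fun q rs _ =>
      sel (Nat.ble big s) (sel (allL okR rs) (Option.rec none (fun l => Option.rec none
        (fun v => force v fun v => force s fun s => ih (Tr.set v s 9 T q)) (comb T s l 0))
        (xrem (Nat.mul 262144 q) (rsum rowOf rs))) none) none) x') x) ls

/-- `D[i] = ∑ R[..]` for all rows. -/
noncomputable def chkGa (h0 h1 : ℕ) (D R : Tr) (gs : List (List ℕ)) : ℕ → Bool :=
  List.rec (fun _ => true) (fun g _ ih i =>
    sel (D.get (fun v s => sel (okDeg h0 h1 s)
      (Option.rec false (fun w => Nat.beq v w) (comb R s g 0)) false) i)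
      (ih (Nat.succ i)) false) gs

/-- The entries of `T` at the minimal generators are the entries of `A`. -/
noncomputable def chkMin (h0 h1 : ℕ) (T A : Tr) (ls : List (List ℕ)) : ℕ → Bool :=
  List.rec (fun _ => true) (fun ql _ ih i =>
    List.rec false (fun q _ _ => sel (T.get (fun v s => A.get (fun v' s' =>
      sel (Nat.beq v v') (sel (Nat.beq s s') (okDeg h0 h1 s) false) false) i) q)
      (ih (Nat.succ i)) false) ql) ls

noncomputable def chk (ty : ℕ → Pres) (okG okR : ℕ → Bool) (gens rc : List ℕ)
    (rowOf : ℕ → List ℕ) (c : Cert) : Bool :=
  (fun sd dr => (fun U =>
    Option.rec false (fun D => Option.rec false (fun A => Option.rec false (fun T0 =>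
    Option.rec false (fun T => Option.rec false (fun R =>
      sel (Nat.beq sd.length c.mins.length) (sel (Nat.beq sd.length c.ali.length)
      (sel (Nat.beq dr.length c.ga.length) (sel (Nat.beq rc.length c.be.length)
      (sel (Nat.ble sd.length 128) (sel (Nat.ble dr.length 128) (sel (Nat.ble rc.length 512)
      (sel (allL (okGen c.h0 c.h1) sd)
      (sel (allL (fun q => T.get (fun _ s => Nat.ble 1 s) q) gens)
      (sel (chkMin c.h0 c.h1 T A c.mins 0)
      (sel (chkGa c.h0 c.h1 R D c.be 0)
      (sel (chkGa c.h0 c.h1 D R c.ga 0)
        (chkGa c.h0 c.h1 U A c.ali 0) false) false) false) false) false) false) false) false)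
        false) false) false) false)
    (rowT 9 T (mapL rowOf rc) 0 .E)) (stepT okR rowOf c.steps T0))
    (minT okG U c.mins .E)) (rowT 7 U (mapL List.tail c.mins) 0 .E))
    (rowT 7 U dr 0 .E))
    (unitT sd 0 .E)) (dsumWt ty c.tgt) (dsumRows ty c.tgt 0)

/-- `l` fields of 48 bits. -/
noncomputable def takeF (l : ℕ) : ℕ → List ℕ :=
  Nat.rec (fun _ => []) (fun _ ih N => Nat.mod N 281474976710656 ::
    ih (Nat.div N 281474976710656)) l

/-- Decode a stream of lists: fields of 48 bits, every list is preceded by its length `+ 1`. -/
noncomputable def decF (f : ℕ) : ℕ → List (List ℕ) :=
  Nat.rec (fun _ => []) (fun _ ih N => force N fun N => sel (Nat.beq N 0) []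
    (takeF (Nat.sub (Nat.mod N 281474976710656) 1) (Nat.div N 281474976710656) ::
      ih (Nat.shiftRight N (Nat.mul 48 (Nat.mod N 281474976710656))))) f

/-- The 16 patterns of class `d`. -/
noncomputable def pats (d : ℕ) : List ℕ :=
  Nat.rec (fun _ => []) (fun _ ih N => Nat.mod N 262144 :: ih (Nat.div N 262144)) 16
    (Nat.shiftRight 0x5555554105441150414154104154040500441151044011045440500550414040444010550000000000000000000000000000000000000000000000000000000000000000000000000000000000000000000000000000000000000000000000000000000000000000000000005545154515451550004144504544050100051141444401055040110540014450454410140000000000000000000000000000000000000000000000000000000000000000000000005155144115041540404554514144440110451551454001445050510150004050044400545145544505051140014544114554450510041541054411455450100140404440054000150000000000000000000000000000000000000000000000000000000000000000000000000000000000000000000000000000000000000000000000000000000000000000000000005555154115441550404154504144040100451151444001045040510550014050444410545545554505451150014144104554050500041141044411055440100540414440454010150000000000000000000000000000000000000000000000000000000000000000000000005155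544105041140414554114154440510441551054011445450500150404040044000550000000000000000000000000000000000000000000000000000000000000000000000000000000000000000000000000000000000000000000000000000000000000000000000005145144515051540004544514544450110051541454401455050110140004450054400140000000000000000000000000000000000000000000000000000000000000000000000005554554145440150454155104114041500401150044051044440540551414000445010515544154555450550044145504504051100011140444441054040150541014410455410100000000000000000000000000000000000000000000000000000000000000000000000005154144155040540444555514104441110411550454041444050550151004010045400500000000000000000000000000000000000000000000000000000000000000000000000000000000000000000000000000000000000000000000000000000000000000000000000005144544545050140054545114514451510001540054451454450140141404400055000115554154155440550444155504104041100411150444041044040550551014010445410500000000000000000000000000000000000000000000000000000000000000000000000000000000000000000000000000000000000000000000000000000000000000000000000005544554545450150054145104514051500001140044451054440140541414400455010110000000000000000000000000000000000000000000000000000000000000000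000000005154544145040140454555114114441510401550054051444450540151404000045000515144144555050540044545514504451110011540454441454050150141004410055400100000000000000000000000000000000000000000000000000000000000000000000000000000000000000000000000000000000000000000000000000000000000000000000000005551554005445150514150104054044500541155044111041440400554414140440010455541154415455550104140504444054100151145444501051040010544014550450410040000000000000000000000000000000000000000000000000000000000000000000000005151144015045540504550514044444110551555454101441050410154004150040400440000000000000000000000000000000000000000000000000000000000000000000000000000000000000000000000000000000000000000000000000000000000000000000000005141544405055140114540114454454510141545054511451450000144404540050000055551154015445550504150504044044100551155444101041040410554014150440410440000000000000000000000000000000000000000000000000000000000000000000000000000000000000000000000000000000000000000000000000000000000000000000000005541554405455150114140104454054500141145044511051440000544414540450010050000000000000000000000000000000000000000000000000000000000000000000000005151544005045140514550114054444510541555054111441450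40015440414004000045514114441505554010454051444445411015154545450145105001014400455005040004000000000000000000000000000000000000000000000000000000000000000000000000555055404544415055415110401404550050115404415104044044055541410044101041000000000000000000000000000000000000000000000000000000000000000000000000000000000000000000000000000000000000000000000000000000000000000000000000554015445545455014414150440405510011114444454105004005054501451045141000000000000000000000000000000000000000000000000000000000000000000000000000515014405504454054455151400444511051155445414144005045015500411004140040514054444505414015454111441445551010154405455145045004014540450005100001000000000000000000000000000000000000000000000000000000000000000000000000000000000000000000000000000000000000000000000000000000000000000000000000555015405544455054415150400404510051115444414104004045055501411044141040554055444545415015414110441405550010114404455105044004054541450045101001000000000000000000000000000000000000000000000000000000000000000000000000515054404504414055455111401444551050155405415144045044015540410004100041000000000000000000000000000000000000000000000000000000000000000000000000000000000000000000000000000000000000000000000000000000000000000000000000514014445505454014454151440445511011154445454145005005014500451005140000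 (Nat.mul 288 d))

/-- The codes of the pushed generators of class `c`. -/
noncomputable def genList (c : ℕ) (ds : List ℕ) : ℕ → List ℕ :=
  List.rec (fun _ => []) (fun d _ ih j =>
    appL (mapL (fun mu => Nat.add (Nat.mul 16 j) (pos mu)) (pats (Nat.xor c d)))
      (ih (Nat.succ j))) ds

/-- The codes `pattern + 2^18 k` of the pushed rows of class `c`. -/
noncomputable def rowList (c : ℕ) (ds : List ℕ) : ℕ → List ℕ :=
  List.rec (fun _ => []) (fun d _ ih j =>
    appL (mapL (fun mu => Nat.add (Nat.mul 262144 j) mu) (pats (Nat.xor c d)))
      (ih (Nat.succ j))) ds

noncomputable def nthRow (l : List (List ℕ)) : ℕ → List ℕ :=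
  List.rec (fun _ => []) (fun r _ ih i => sel (Nat.beq i 0) r (ih (Nat.sub i 1))) l

noncomputable def nthN (l : List ℕ) : ℕ → ℕ :=
  List.rec (fun _ => 64) (fun r _ ih i => sel (Nat.beq i 0) r (ih (Nat.sub i 1))) l

/-- The class (row parities, column parities) of a pattern. -/
def clsP (p : ℕ) : ℕ :=
  Nat.add (Nat.mod (Nat.shiftRight 0x6996966996696996 (Nat.mod p 64)) 2)
  (Nat.add (Nat.mul 2 (Nat.mod (Nat.shiftRight 0x6996966996696996 (Nat.mod (Nat.div p 64) 64)) 2))
  (Nat.add (Nat.mul 4 (Nat.mod (Nat.shiftRight 0x6996966996696996 (Nat.mod (Nat.div p 4096) 64)) 2))
    (Nat.mul 8 (cmp3 (Nat.xor (Nat.mod p 64) (Nat.xor (Nat.mod (Nat.div p 64) 64)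
      (Nat.mod (Nat.div p 4096) 64)))))))

/-- Is `x` the code of a pushed row of class `c`? -/
noncomputable def okRow (c : ℕ) (cr : List ℕ) (x : ℕ) : Bool :=
  (fun p => sel (Nat.beq (Nat.land p 87381) p)
    (Nat.beq (Nat.xor (clsP p) (nthN cr (Nat.div x 262144))) c) false) (Nat.mod x 262144)

noncomputable def rowOf (P : Pres) (x : ℕ) : List ℕ :=
  mapL (pushKey (Nat.mod x 262144)) (nthRow P.rows (Nat.div x 262144))

noncomputable def chkPush (ty : ℕ → Pres) (P : Pres) (cg cr : List ℕ) (c : ℕ) (C : Cert) : Bool :=
  chk ty (fun q => Nat.ble (Nat.succ q) (Nat.mul 16 P.n)) (okRow c cr) (genList c cg 0)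
    (rowList c cr 0) (rowOf P) C

end Pool.Agent.Lib.H54F
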