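import Pool.Agent.Lib.H54F.Types

/-! # The list of the fifteen presentations and their symmetries (data and kernel checks) -/

namespace Pool.Agent.Lib.H54F

/-- Presentation `Zt`. -/
def srcZt : Pres where
  n := 18
  rows := [
    [2376704, 2425088, 2637840, 2686980, 2883856, 2884612],
    [3163136, 3211520, 3424272, 3473412, 3670288, 3671044],
    [3949568, 3997952, 4210704, 4259844, 4456720, 4457476],
    [2364416, 2424896, 2625552, 2686977, 2883664, 2884609],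
    [3150848, 3211328, 3411984, 3473409, 3670096, 3671041],
    [3937280, 3997760, 4198416, 4259841, 4456528, 4457473],
    [2363648, 2375744, 2625540, 2637825, 2883652, 2883841],
    [3150080, 3162176, 3411972, 3424257, 3670084, 3670273],
    [3936512, 3948608, 4198404, 4210689, 4456516, 4456705],
    [1, 786436, 1572880, 2359297, 3145792, 3936256],
    [64, 786688, 1573888, 2621441, 3407936, 4198400],
    [4096, 802816, 1638400, 2883585, 3670080, 4460544],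
    [262145, 1048580, 1835024, 2359300, 3145984, 3948544],
    [262208, 1048832, 1836032, 2621444, 3408128, 4210688],
    [266240, 1064960, 1900544, 2883588, 3670272, 4472832],
    [524289, 1310724, 2097168, 2359312, 3146752, 3997696],
    [524352, 1310976, 2098176, 2621456, 3408896, 4259840],
    [528384, 1327104, 2162688, 2883600, 3671040, 4521984]]
  wt := [207249215553, 207265730625, 208322695233, 207232700481, 207249215553, 208306180161, 206175735873, 206192250945, 207249215553, 207249215553, 207249215616, 207249219648, 207249215490, 207249215553, 207249219585, 207249211458, 207249211521, 207249215553]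

/-- Classes of the generators of `srcZt`. -/
def cgZt : List ℕ := [63, 39, 23, 39, 63, 15, 23, 15, 63, 63, 60, 58, 60, 63, 57, 58, 57, 63]

/-- Classes of the rows of `srcZt`. -/
def crZt : List ℕ := [9, 10, 12, 17, 18, 20, 33, 34, 36, 54, 53, 51, 46, 45, 43, 30, 29, 27]

/-- Presentation `Wt`. -/
def srcWt : Pres where
  n := 18
  rows := [
    [2359297, 2621504, 2887680],
    [3145729, 3407936, 3674112],
    [3932161, 4194368, 4460544],
    [2359300, 2621696, 2899968],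
    [3145732, 3408128, 3686400],
    [3932164, 4194560, 4472832],
    [2359312, 2622464, 2949120],
    [3145744, 3408896, 3735552],
    [3932176, 4195328, 4521984],
    [17408, 65792, 791552, 852032, 1577216, 1589312, 2359297, 3145732, 3932176],
    [16400, 65540, 790544, 851969, 1576964, 1589249, 2621441, 3407876, 4194320],
    [272, 1028, 786512, 787457, 1572932, 1573121, 2883585, 3670020, 4456464],
    [279552, 327936, 1053696, 1114176, 1839360, 1851456, 2359360, 3145984, 3933184],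
    [278544, 327684, 1052688, 1114113, 1839108, 1851393, 2621504, 3408128, 4195328],
    [262416, 263172, 1048656, 1049601, 1835076, 1835265, 2883648, 3670272, 4457472],
    [541696, 590080, 1315840, 1376320, 2101504, 2113600, 2363392, 3162112, 3997696],
    [540688, 589828, 1314832, 1376257, 2101252, 2113537, 2625536, 3424256, 4259840],
    [524560, 525316, 1310800, 1311745, 2097220, 2097409, 2887680, 3686400, 4521984]]
  wt := [68719738881, 68719738944, 68719742976, 68736253953, 68736254016, 68736258048, 69793218561, 69793218624, 69793222656, 138529476672, 138529476609, 138529472577, 138512961600, 138512961537, 138512957505, 137455996992, 137455996929, 137455992897]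

/-- Classes of the generators of `srcWt`. -/
def cgWt : List ℕ := [9, 10, 12, 17, 18, 20, 33, 34, 36, 54, 53, 51, 46, 45, 43, 30, 29, 27]

/-- Classes of the rows of `srcWt`. -/
def crWt : List ℕ := [63, 39, 23, 39, 63, 15, 23, 15, 63, 63, 60, 58, 60, 63, 57, 58, 57, 63]

/-- The fifteen presentations. -/
def src : ℕ → Pres
  | 0 => srcR
  | 1 => srcX
  | 2 => srcXt
  | 3 => srcA
  | 4 => srcAt
  | 5 => srcK
  | 6 => srcT
  | 7 => srcL
  | 8 => srcLt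
  | 9 => srcM
  | 10 => srcMt
  | 11 => srcZ
  | 12 => srcW
  | 13 => srcZt
  | 14 => srcWt
  | _ => srcR

/-- The classes of the generators. -/
def cg : ℕ → List ℕ
  | 0 => cgR
  | 1 => cgX
  | 2 => cgXt
  | 3 => cgA
  | 4 => cgAt
  | 5 => cgK
  | 6 => cgT
  | 7 => cgL
  | 8 => cgLt
  | 9 => cgM
  | 10 => cgMt
  | 11 => cgZ
  | 12 => cgW
  | 13 => cgZt
  | 14 => cgWt
  | _ => cgR

/-- The classes of the rows. -/
def cr : ℕ → List ℕ
  | 0 => crR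
  | 1 => crX
  | 2 => crXt
  | 3 => crA
  | 4 => crAt
  | 5 => crK
  | 6 => crT
  | 7 => crL
  | 8 => crLt
  | 9 => crM
  | 10 => crMt
  | 11 => crZ
  | 12 => crW
  | 13 => crZt
  | 14 => crWt
  | _ => crR

/-- The five symmetries: images of the nine variables (`3 i + j`): two transpositions of rows, two
transpositions of columns, and the transposition of the matrix. -/
def sgL : ℕ → List ℕ
  | 0 => [3, 4, 5, 0, 1, 2, 6, 7, 8]
  | 1 => [0, 1, 2, 6, 7, 8, 3, 4, 5]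
  | 2 => [1, 0, 2, 4, 3, 5, 7, 6, 8]
  | 3 => [0, 2, 1, 3, 5, 4, 6, 8, 7]
  | _ => [0, 3, 6, 1, 4, 7, 2, 5, 8]

/-- The five symmetries: images of the six parities. -/
def scL : ℕ → List ℕ
  | 0 => [1, 0, 2, 3, 4, 5]
  | 1 => [0, 2, 1, 3, 4, 5]
  | 2 => [0, 1, 2, 4, 3, 5]
  | 3 => [0, 1, 2, 3, 5, 4]
  | _ => [3, 4, 5, 0, 1, 2]

/-- The effect of a symmetry on the fifteen presentations. -/
noncomputable def tau (g t : ℕ) : ℕ := if g < 4 then t else nthN [0, 2, 1, 4, 3, 5, 6, 8, 7, 10, 9, 13, 14, 11, 12] t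

/-- Move the digits of `m` (base `b`) to the positions in the list. -/
def renD (b : ℕ) : List ℕ → ℕ → ℕ
  | [], _ => 0
  | w :: l, m => m % b * b ^ w + renD b l (m / b)

/-- The permutations of the generators. -/
def sgp : ℕ → ℕ → List ℕ
  | 0, 0 => [0]
  | 0, 1 => [1, 0, 2]
  | 0, 2 => [0, 1, 2]
  | 0, 3 => [0, 1, 2]
  | 0, 4 => [1, 0, 2]
  | 0, 5 => [3, 4, 5, 0, 1, 2, 6, 7, 8, 9]
  | 0, 6 => [3, 4, 5, 0, 1, 2, 6, 7, 8, 9]
  | 0, 7 => [1, 0, 2, 3, 4, 5, 6, 7, 8, 9, 10, 11]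
  | 0, 8 => [0, 1, 2, 7, 6, 8, 4, 3, 5, 10, 9, 11]
  | 0, 9 => [0, 1, 2, 6, 7, 8, 3, 4, 5, 9, 10, 11]
  | 0, 10 => [1, 0, 2, 4, 3, 5, 7, 6, 8, 10, 9, 11]
  | 0, 11 => [4, 3, 5, 1, 0, 2, 7, 6, 8, 9, 10, 11, 12, 13, 14, 15, 16, 17]
  | 0, 12 => [3, 4, 5, 0, 1, 2, 6, 7, 8, 12, 13, 14, 9, 10, 11, 15, 16, 17]
  | 0, 13 => [0, 1, 2, 3, 4, 5, 6, 7, 8, 13, 12, 14, 10, 9, 11, 16, 15, 17]
  | 0, 14 => [1, 0, 2, 4, 3, 5, 7, 6, 8, 10, 9, 11, 13, 12, 14, 16, 15, 17]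
  | 1, 0 => [0]
  | 1, 1 => [0, 2, 1]
  | 1, 2 => [0, 1, 2]
  | 1, 3 => [0, 1, 2]
  | 1, 4 => [0, 2, 1]
  | 1, 5 => [0, 1, 2, 6, 7, 8, 3, 4, 5, 9]
  | 1, 6 => [0, 1, 2, 6, 7, 8, 3, 4, 5, 9]
  | 1, 7 => [0, 2, 1, 3, 4, 5, 6, 7, 8, 9, 10, 11]
  | 1, 8 => [0, 1, 2, 3, 5, 4, 9, 11, 10, 6, 8, 7]
  | 1, 9 => [0, 1, 2, 3, 4, 5, 9, 10, 11, 6, 7, 8]
  | 1, 10 => [0, 2, 1, 3, 5, 4, 6, 8, 7, 9, 11, 10]
  | 1, 11 => [0, 2, 1, 6, 8, 7, 3, 5, 4, 9, 10, 11, 12, 13, 14, 15, 16, 17]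
  | 1, 12 => [0, 1, 2, 6, 7, 8, 3, 4, 5, 9, 10, 11, 15, 16, 17, 12, 13, 14]
  | 1, 13 => [0, 1, 2, 3, 4, 5, 6, 7, 8, 9, 11, 10, 15, 17, 16, 12, 14, 13]
  | 1, 14 => [0, 2, 1, 3, 5, 4, 6, 8, 7, 9, 11, 10, 12, 14, 13, 15, 17, 16]
  | 2, 0 => [0]
  | 2, 1 => [0, 1, 2]
  | 2, 2 => [1, 0, 2]
  | 2, 3 => [1, 0, 2]
  | 2, 4 => [0, 1, 2]
  | 2, 5 => [1, 0, 2, 4, 3, 5, 7, 6, 8, 9]
  | 2, 6 => [1, 0, 2, 4, 3, 5, 7, 6, 8, 9]
  | 2, 7 => [0, 1, 2, 7, 6, 8, 4, 3, 5, 10, 9, 11]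
  | 2, 8 => [1, 0, 2, 3, 4, 5, 6, 7, 8, 9, 10, 11]
  | 2, 9 => [1, 0, 2, 4, 3, 5, 7, 6, 8, 10, 9, 11]
  | 2, 10 => [0, 1, 2, 6, 7, 8, 3, 4, 5, 9, 10, 11]
  | 2, 11 => [0, 1, 2, 3, 4, 5, 6, 7, 8, 13, 12, 14, 10, 9, 11, 16, 15, 17]
  | 2, 12 => [1, 0, 2, 4, 3, 5, 7, 6, 8, 10, 9, 11, 13, 12, 14, 16, 15, 17]
  | 2, 13 => [4, 3, 5, 1, 0, 2, 7, 6, 8, 9, 10, 11, 12, 13, 14, 15, 16, 17]
  | 2, 14 => [3, 4, 5, 0, 1, 2, 6, 7, 8, 12, 13, 14, 9, 10, 11, 15, 16, 17]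
  | 3, 0 => [0]
  | 3, 1 => [0, 1, 2]
  | 3, 2 => [0, 2, 1]
  | 3, 3 => [0, 2, 1]
  | 3, 4 => [0, 1, 2]
  | 3, 5 => [0, 2, 1, 3, 5, 4, 6, 8, 7, 9]
  | 3, 6 => [0, 2, 1, 3, 5, 4, 6, 8, 7, 9]
  | 3, 7 => [0, 1, 2, 3, 5, 4, 9, 11, 10, 6, 8, 7]
  | 3, 8 => [0, 2, 1, 3, 4, 5, 6, 7, 8, 9, 10, 11]
  | 3, 9 => [0, 2, 1, 3, 5, 4, 6, 8, 7, 9, 11, 10]
  | 3, 10 => [0, 1, 2, 3, 4, 5, 9, 10, 11, 6, 7, 8]
  | 3, 11 => [0, 1, 2, 3, 4, 5, 6, 7, 8, 9, 11, 10, 15, 17, 16, 12, 14, 13]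
  | 3, 12 => [0, 2, 1, 3, 5, 4, 6, 8, 7, 9, 11, 10, 12, 14, 13, 15, 17, 16]
  | 3, 13 => [0, 2, 1, 6, 8, 7, 3, 5, 4, 9, 10, 11, 12, 13, 14, 15, 16, 17]
  | 3, 14 => [0, 1, 2, 6, 7, 8, 3, 4, 5, 9, 10, 11, 15, 16, 17, 12, 13, 14]
  | 4, 0 => [0]
  | 4, 1 => [0, 1, 2]
  | 4, 2 => [0, 1, 2]
  | 4, 3 => [0, 1, 2]
  | 4, 4 => [0, 1, 2]
  | 4, 5 => [0, 3, 6, 1, 4, 7, 2, 5, 8, 9]
  | 4, 6 => [0, 3, 6, 1, 4, 7, 2, 5, 8, 9]
  | 4, 7 => [0, 1, 2, 3, 4, 5, 6, 7, 8, 9, 10, 11]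
  | 4, 8 => [0, 1, 2, 3, 4, 5, 6, 7, 8, 9, 10, 11]
  | 4, 9 => [0, 1, 2, 3, 4, 5, 6, 7, 8, 9, 10, 11]
  | 4, 10 => [0, 1, 2, 3, 4, 5, 6, 7, 8, 9, 10, 11]
  | 4, 11 => [0, 1, 2, 3, 4, 5, 6, 7, 8, 9, 10, 11, 12, 13, 14, 15, 16, 17]
  | 4, 12 => [0, 1, 2, 3, 4, 5, 6, 7, 8, 9, 10, 11, 12, 13, 14, 15, 16, 17]
  | 4, 13 => [0, 1, 2, 3, 4, 5, 6, 7, 8, 9, 10, 11, 12, 13, 14, 15, 16, 17]
  | 4, 14 => [0, 1, 2, 3, 4, 5, 6, 7, 8, 9, 10, 11, 12, 13, 14, 15, 16, 17]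
  | _, _ => []

/-- The permutations of the rows. -/
def srp : ℕ → ℕ → List ℕ
  | 0, 0 => [0]
  | 0, 1 => [0, 1, 2]
  | 0, 2 => [1, 0, 2]
  | 0, 3 => [1, 0, 2]
  | 0, 4 => [0, 1, 2]
  | 0, 5 => [3, 4, 5, 0, 1, 2, 6, 7, 8, 9]
  | 0, 6 => [3, 4, 5, 0, 1, 2, 6, 7, 8, 9]
  | 0, 7 => [0, 1, 2, 6, 7, 8, 3, 4, 5, 9, 10, 11]
  | 0, 8 => [1, 0, 2, 4, 3, 5, 7, 6, 8, 10, 9, 11]
  | 0, 9 => [1, 0, 2, 3, 4, 5, 6, 7, 8, 9, 10, 11]
  | 0, 10 => [0, 1, 2, 7, 6, 8, 4, 3, 5, 10, 9, 11]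
  | 0, 11 => [3, 4, 5, 0, 1, 2, 6, 7, 8, 12, 13, 14, 9, 10, 11, 15, 16, 17]
  | 0, 12 => [4, 3, 5, 1, 0, 2, 7, 6, 8, 9, 10, 11, 12, 13, 14, 15, 16, 17]
  | 0, 13 => [1, 0, 2, 4, 3, 5, 7, 6, 8, 10, 9, 11, 13, 12, 14, 16, 15, 17]
  | 0, 14 => [0, 1, 2, 3, 4, 5, 6, 7, 8, 13, 12, 14, 10, 9, 11, 16, 15, 17]
  | 1, 0 => [0]
  | 1, 1 => [0, 1, 2]
  | 1, 2 => [0, 2, 1]
  | 1, 3 => [0, 2, 1]
  | 1, 4 => [0, 1, 2]
  | 1, 5 => [0, 1, 2, 6, 7, 8, 3, 4, 5, 9]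
  | 1, 6 => [0, 1, 2, 6, 7, 8, 3, 4, 5, 9]
  | 1, 7 => [0, 1, 2, 3, 4, 5, 9, 10, 11, 6, 7, 8]
  | 1, 8 => [0, 2, 1, 3, 5, 4, 6, 8, 7, 9, 11, 10]
  | 1, 9 => [0, 2, 1, 3, 4, 5, 6, 7, 8, 9, 10, 11]
  | 1, 10 => [0, 1, 2, 3, 5, 4, 9, 11, 10, 6, 8, 7]
  | 1, 11 => [0, 1, 2, 6, 7, 8, 3, 4, 5, 9, 10, 11, 15, 16, 17, 12, 13, 14]
  | 1, 12 => [0, 2, 1, 6, 8, 7, 3, 5, 4, 9, 10, 11, 12, 13, 14, 15, 16, 17]
  | 1, 13 => [0, 2, 1, 3, 5, 4, 6, 8, 7, 9, 11, 10, 12, 14, 13, 15, 17, 16]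
  | 1, 14 => [0, 1, 2, 3, 4, 5, 6, 7, 8, 9, 11, 10, 15, 17, 16, 12, 14, 13]
  | 2, 0 => [0]
  | 2, 1 => [1, 0, 2]
  | 2, 2 => [0, 1, 2]
  | 2, 3 => [0, 1, 2]
  | 2, 4 => [1, 0, 2]
  | 2, 5 => [1, 0, 2, 4, 3, 5, 7, 6, 8, 9]
  | 2, 6 => [1, 0, 2, 4, 3, 5, 7, 6, 8, 9]
  | 2, 7 => [1, 0, 2, 4, 3, 5, 7, 6, 8, 10, 9, 11]
  | 2, 8 => [0, 1, 2, 6, 7, 8, 3, 4, 5, 9, 10, 11]
  | 2, 9 => [0, 1, 2, 7, 6, 8, 4, 3, 5, 10, 9, 11]
  | 2, 10 => [1, 0, 2, 3, 4, 5, 6, 7, 8, 9, 10, 11]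
  | 2, 11 => [1, 0, 2, 4, 3, 5, 7, 6, 8, 10, 9, 11, 13, 12, 14, 16, 15, 17]
  | 2, 12 => [0, 1, 2, 3, 4, 5, 6, 7, 8, 13, 12, 14, 10, 9, 11, 16, 15, 17]
  | 2, 13 => [3, 4, 5, 0, 1, 2, 6, 7, 8, 12, 13, 14, 9, 10, 11, 15, 16, 17]
  | 2, 14 => [4, 3, 5, 1, 0, 2, 7, 6, 8, 9, 10, 11, 12, 13, 14, 15, 16, 17]
  | 3, 0 => [0]
  | 3, 1 => [0, 2, 1]
  | 3, 2 => [0, 1, 2]
  | 3, 3 => [0, 1, 2]
  | 3, 4 => [0, 2, 1]
  | 3, 5 => [0, 2, 1, 3, 5, 4, 6, 8, 7, 9]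
  | 3, 6 => [0, 2, 1, 3, 5, 4, 6, 8, 7, 9]
  | 3, 7 => [0, 2, 1, 3, 5, 4, 6, 8, 7, 9, 11, 10]
  | 3, 8 => [0, 1, 2, 3, 4, 5, 9, 10, 11, 6, 7, 8]
  | 3, 9 => [0, 1, 2, 3, 5, 4, 9, 11, 10, 6, 8, 7]
  | 3, 10 => [0, 2, 1, 3, 4, 5, 6, 7, 8, 9, 10, 11]
  | 3, 11 => [0, 2, 1, 3, 5, 4, 6, 8, 7, 9, 11, 10, 12, 14, 13, 15, 17, 16]
  | 3, 12 => [0, 1, 2, 3, 4, 5, 6, 7, 8, 9, 11, 10, 15, 17, 16, 12, 14, 13]
  | 3, 13 => [0, 1, 2, 6, 7, 8, 3, 4, 5, 9, 10, 11, 15, 16, 17, 12, 13, 14]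
  | 3, 14 => [0, 2, 1, 6, 8, 7, 3, 5, 4, 9, 10, 11, 12, 13, 14, 15, 16, 17]
  | 4, 0 => [0]
  | 4, 1 => [0, 1, 2]
  | 4, 2 => [0, 1, 2]
  | 4, 3 => [0, 1, 2]
  | 4, 4 => [0, 1, 2]
  | 4, 5 => [0, 3, 6, 1, 4, 7, 2, 5, 8, 9]
  | 4, 6 => [0, 3, 6, 1, 4, 7, 2, 5, 8, 9]
  | 4, 7 => [0, 1, 2, 3, 4, 5, 6, 7, 8, 9, 10, 11]
  | 4, 8 => [0, 1, 2, 3, 4, 5, 6, 7, 8, 9, 10, 11]
  | 4, 9 => [0, 1, 2, 3, 4, 5, 6, 7, 8, 9, 10, 11]
  | 4, 10 => [0, 1, 2, 3, 4, 5, 6, 7, 8, 9, 10, 11]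
  | 4, 11 => [0, 1, 2, 3, 4, 5, 6, 7, 8, 9, 10, 11, 12, 13, 14, 15, 16, 17]
  | 4, 12 => [0, 1, 2, 3, 4, 5, 6, 7, 8, 9, 10, 11, 12, 13, 14, 15, 16, 17]
  | 4, 13 => [0, 1, 2, 3, 4, 5, 6, 7, 8, 9, 10, 11, 12, 13, 14, 15, 16, 17]
  | 4, 14 => [0, 1, 2, 3, 4, 5, 6, 7, 8, 9, 10, 11, 12, 13, 14, 15, 16, 17]
  | _, _ => []

/-- Rename a key. -/
noncomputable def renKey (g : ℕ) (gp : List ℕ) (x : ℕ) : ℕ :=
  renD 4 (sgL g) (x % 262144) + 262144 * nthN gp (x / 262144)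

/-- The list is a list of `n` different numbers less than `n`. -/
def okPerm (l : List ℕ) (n : ℕ) : Bool :=
  l.length == n && l.all (fun x => Nat.blt x n) && (List.range n).all (fun x => l.contains x)

/-- Check that the symmetry `g` carries the presentation `t` to `tau g t`. -/
noncomputable def chkSym (g t : ℕ) : Bool :=
  okPerm (sgp g t) (src t).n && okPerm (srp g t) (src t).rows.length &&
  ((src (tau g t)).n == (src t).n) && ((src (tau g t)).rows.length == (src t).rows.length) &&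
  (List.range (src t).n).all (fun j =>
    nthN (cg (tau g t)) (nthN (sgp g t) j) == renD 2 (scL g) (nthN (cg t) j)) &&
  (List.range (src t).rows.length).all (fun k =>
    (nthN (cr (tau g t)) (nthN (srp g t) k) == renD 2 (scL g) (nthN (cr t) k)) &&
    (xsum (mapL (renKey g (sgp g t)) (nthRow (src t).rows k))
      (nthRow (src (tau g t)).rows (nthN (srp g t) k))).isEmpty)

theorem chkSym_all : ((List.range 5).all fun g => (List.range 15).all fun t => chkSym g t) = true := by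
  decide +kernel

/-- Check of a key of a row of class `d`: the index is the index of a generator, all exponents are
at most two, and the classes fit. -/
noncomputable def okKey (cg : List ℕ) (n d x : ℕ) : Bool :=
  Nat.blt (x / 262144) n && (Nat.land (Nat.land x (x / 2)) 87381 == 0) &&
    (Nat.xor (clsP (Nat.land x 87381)) (nthN cg (x / 262144)) == d)

/-- The class `c xor d` has an even number of ones. -/
def okCls (c d : ℕ) : Bool :=
  Nat.blt d 64 && (Nat.mod (Nat.shiftRight 0x6996966996696996 (Nat.xor c d)) 2 == 0)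

/-- Check of the classes of a presentation. -/
noncomputable def okSrc (P : Pres) (cg cr : List ℕ) (c : ℕ) : Bool :=
  P.n == cg.length && P.rows.length == cr.length && P.wt.length == P.n && Nat.blt c 64 &&
  (P.rows.zip cr).all (fun rd => rd.1.all (okKey cg P.n rd.2)) && cg.all (okCls c) &&
  cr.all (okCls c)

/-- The parity of the total degree of the classes of the presentation `t`. -/
noncomputable def pty (t : ℕ) : ℕ := Nat.mod (Nat.shiftRight 0x6996966996696996 (nthN (cg t) 0)) 2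

/-- For all presentations and all classes of the right parity the check `okSrc` is true. -/
theorem okSrc_all : ((List.range 15).all fun t => (List.range 64).all fun c =>
    (Nat.mod (Nat.shiftRight 0x6996966996696996 c) 2 == pty t) ==
      okSrc (src t) (cg t) (cr t) c) = true := by
  decide +kernel

/-- The presentations of the summands are well formed. -/
theorem wf_tgt : ((List.range 14).all fun t => (tgtTy t).wt.length == (tgtTy t).n &&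
    (tgtTy t).rows.all (fun r => r.all fun k => Nat.blt (k / 262144) (tgtTy t).n)) = true := by
  decide +kernel

/-- Check that `P` is isomorphic to the direct sum of the summands of the certificate. -/
noncomputable def chkPlain (ty : ℕ → Pres) (P : Pres) (C : Cert) : Bool :=
  chk ty (fun q => Nat.ble (Nat.succ q) P.n) (fun r => Nat.ble (Nat.succ r) P.rows.length)
    (List.range P.n) (List.range P.rows.length) (nthRow P.rows) C

/-- Certificate: `srcL` and `minL` are isomorphic. -/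
noncomputable def certPL : Cert where
  tgt := [(7, 36013368951044)]
  h0 := 6
  h1 := 6
  steps := [[36220618428741, 8, 0], [36220634943813, 5, 1], [36221691908421, 4, 2]]
  mins := [[0, 0], [1, 262144], [2, 524288], [3, 786432], [6, 1048576], [7, 1310720], [9, 1572864], [10, 1835008], [11, 2097152]]
  be := [[], [], [], [0], [262144], [524288], [786432], [1048576], [1310720], [1572864], [1835008], [2097152]]
  ga := [[786432], [1048576], [1310720], [1572864], [1835008], [2097152], [2359296], [2621440], [2883584]]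
  ali := [[0], [262144], [524288], [786432], [1048576], [1310720], [1572864], [1835008], [2097152]]

theorem okPL : chkPlain tgtTy srcL certPL = true := by decide +kernel

/-- Certificate: `srcLt` and `minLt` are isomorphic. -/
noncomputable def certPLt : Cert where
  tgt := [(8, 36013368951044)]
  h0 := 6
  h1 := 6
  steps := [[36289337643334, 8, 0], [36289337643397, 5, 1], [36289337647429, 4, 2]]
  mins := [[0, 0], [1, 262144], [2, 524288], [3, 786432], [6, 1048576], [7, 1310720], [9, 1572864], [10, 1835008], [11, 2097152]]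
  be := [[], [], [], [0], [262144], [524288], [786432], [1048576], [1310720], [1572864], [1835008], [2097152]]
  ga := [[786432], [1048576], [1310720], [1572864], [1835008], [2097152], [2359296], [2621440], [2883584]]
  ali := [[0], [262144], [524288], [786432], [1048576], [1310720], [1572864], [1835008], [2097152]]

theorem okPLt : chkPlain tgtTy srcLt certPLt = true := by decide +kernel

/-- Certificate: `srcM` and `minM` are isomorphic. -/
noncomputable def certPM : Cert where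
  tgt := [(9, 36013368951044)]
  h0 := 6
  h1 := 6
  steps := [[36219544424773, 2, 4], [36220601389381, 1, 5], [36220617904453, 0, 8]]
  mins := [[3, 0], [4, 262144], [5, 524288], [6, 786432], [7, 1048576], [8, 1310720], [9, 1572864], [10, 1835008], [11, 2097152]]
  be := [[0], [262144], [524288], [786432], [], [], [1048576], [1310720], [], [1572864], [1835008], [2097152]]
  ga := [[0], [262144], [524288], [786432], [1572864], [1835008], [2359296], [2621440], [2883584]]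
  ali := [[0], [262144], [524288], [786432], [1048576], [1310720], [1572864], [1835008], [2097152]]

theorem okPM : chkPlain tgtTy srcM certPM = true := by decide +kernel

/-- Certificate: `srcMt` and `minMt` are isomorphic. -/
noncomputable def certPMt : Cert where
  tgt := [(10, 36013368951044)]
  h0 := 6
  h1 := 6
  steps := [[36151898685765, 2, 4], [36151898689797, 1, 5], [36151898689860, 0, 8]]
  mins := [[3, 0], [4, 262144], [5, 524288], [6, 786432], [7, 1048576], [8, 1310720], [9, 1572864], [10, 1835008], [11, 2097152]]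
  be := [[0], [262144], [524288], [786432], [], [], [1048576], [1310720], [], [1572864], [1835008], [2097152]]
  ga := [[0], [262144], [524288], [786432], [1572864], [1835008], [2359296], [2621440], [2883584]]
  ali := [[0], [262144], [524288], [786432], [1048576], [1310720], [1572864], [1835008], [2097152]]

theorem okPMt : chkPlain tgtTy srcMt certPMt = true := by decide +kernel

end Pool.Agent.Lib.H54F
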