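import Pool.Agent.Lib.H54F.Sem
import Pool.Agent.Lib.H54F.Types2

/-! # Components of polynomials, the pushed matrix, classes and blocks -/

namespace Pool.Agent.Lib.H54F

open MvPolynomial

/-- Parity patterns. -/
abbrev E := V → Fin 2

/-- The exponent vector of a pattern. -/
noncomputable def pexp (μ : E) : V →₀ ℕ := Finsupp.equivFunOnFinite.symm fun v => (μ v).val

/-- The parity pattern of an exponent vector. -/
def par (e : V →₀ ℕ) : E := fun v => ⟨e v % 2, Nat.mod_lt _ Nat.zero_lt_two⟩

/-- Half of an exponent vector (rounded down). -/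
noncomputable def half (e : V →₀ ℕ) : V →₀ ℕ := Finsupp.equivFunOnFinite.symm fun v => e v / 2

/-- The exponent vector `2 e + μ`. -/
noncomputable def dbl (μ : E) (e : V →₀ ℕ) : V →₀ ℕ := e + e + pexp μ

@[simp] lemma pexp_apply (μ : E) (v : V) : pexp μ v = (μ v).val := rfl
@[simp] lemma half_apply (e : V →₀ ℕ) (v : V) : half e v = e v / 2 := rfl
@[simp] lemma par_apply (e : V →₀ ℕ) (v : V) : (par e v).val = e v % 2 := rfl
@[simp] lemma expo_apply (k : ℕ) (v : V) : expo k v = ex k v := rfl
@[simp] lemma dbl_apply (μ : E) (e : V →₀ ℕ) (v : V) : dbl μ e v = e v + e v + (μ v).val := rfl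

lemma par_dbl (μ : E) (e : V →₀ ℕ) : par (dbl μ e) = μ := by
  funext v
  apply Fin.ext
  have := (μ v).isLt
  rw [par_apply, dbl_apply]
  omega

lemma half_dbl (μ : E) (e : V →₀ ℕ) : half (dbl μ e) = e := by
  ext v
  have := (μ v).isLt
  rw [half_apply, dbl_apply]
  omega

lemma dbl_par_half (e : V →₀ ℕ) : dbl (par e) (half e) = e := by
  ext v
  rw [dbl_apply, half_apply, par_apply]
  omega

lemma dbl_injective (μ : E) : Function.Injective (dbl μ) := fun e e' h => by
  rw [← half_dbl μ e, h, half_dbl]

/-- The component `μ` of a polynomial, with the additive map `β` applied to the coefficients: the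
coefficient of `x^e` is `β` of the coefficient of `x^(2 e + μ)`. -/
noncomputable def compA {k k' : Type*} [CommSemiring k] [CommSemiring k'] (β : k →+ k') (μ : E)
    (f : MvPolynomial V k) : MvPolynomial V k' :=
  AddMonoidAlgebra.ofCoeff
    ((Finsupp.comapDomain (dbl μ) (AddMonoidAlgebra.coeff f) (dbl_injective μ).injOn).mapRange β
      (map_zero β))

/-- The component `μ` of a polynomial over the field with two elements. -/
noncomputable def comp (μ : E) (f : S0) : S0 := compA (AddMonoidHom.id (ZMod 2)) μ f

/-- The pushed matrix: the relation `x^ν row_k` in terms of the generators `x^μ e_j` over the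
subring of squares. -/
noncomputable def pm {κ γ : Type} (P : κ → γ → S0) : κ × E → γ × E → S0 :=
  fun k q => comp q.2 (monomial (pexp k.2) 1 * P k.1 q.1)

/-- Classes: parities of the row degrees and of the column degrees. -/
abbrev Cl := (Fin 3 → ZMod 2) × (Fin 3 → ZMod 2)

/-- The class of an exponent function. -/
def cl (f : V → ℕ) : Cl :=
  (fun i => ∑ j, (f (i, j) : ZMod 2), fun j => ∑ i, (f (i, j) : ZMod 2))

/-- The class of a pattern. -/
def clE (μ : E) : Cl := cl fun v => (μ v).val

/-- The class whose six entries are the bits of the number `c`. -/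
def toCl (c : ℕ) : Cl :=
  (fun i => if c.testBit i.val then 1 else 0, fun j => if c.testBit (3 + j.val) then 1 else 0)

/-- The indices of class `c`. -/
abbrev Ix {κ : Type} (a : κ → Cl) (c : Cl) : Type := {x : κ × E // clE x.2 + a x.1 = c}

/-- The block of class `c` of the pushed matrix. -/
noncomputable def blk {κ γ : Type} (P : κ → γ → S0) (b : κ → Cl) (a : γ → Cl) (c : Cl) :
    Ix b c → Ix a c → S0 := fun k q => pm P k.1 q.1

/-- The classes in a list. -/
noncomputable def clF (l : List ℕ) {n : ℕ} (j : Fin n) : Cl := toCl (nthN l j.val)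

/-- The block of class `c` of the pushed presentation `s`. -/
noncomputable def blkS (s : ℕ) (c : Cl) :
    Ix (clF (cr s) : Fin (src s).rows.length → Cl) c → Ix (clF (cg s) : Fin (src s).n → Cl) c → S0 :=
  blk (mat (src s)) (clF (cr s)) (clF (cg s)) c

/-- Over every ring the cokernel of `P` is a product of cokernels of the fifteen presentations. -/
def Dec.{u} {κ γ : Type} (P : κ → γ → S0) : Prop :=
  ∃ (n : ℕ) (t : Fin n → Fin 15), ∀ (A : Type u) [CommRing A] (ι : S0 →+* A),
    Nonempty (Cok ι P ≃ₗ[A] (∀ i, Cok ι (mat (src (t i).val))))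

/-- The code of a pattern. -/
def code (μ : E) : ℕ := ∑ v : V, (μ v).val * 4 ^ (3 * v.1.val + v.2.val)

lemma coeff_compA {k k' : Type*} [CommSemiring k] [CommSemiring k'] (β : k →+ k') (μ : E)
    (f : MvPolynomial V k) (e : V →₀ ℕ) :
    coeff e (compA β μ f) = β (coeff (dbl μ e) f) := rfl

lemma coeff_comp (μ : E) (f : S0) (e : V →₀ ℕ) : coeff e (comp μ f) = coeff (dbl μ e) f := rfl

end Pool.Agent.Lib.H54F
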