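import Pool.Agent.Lib.H54F.Types

/-! # Meaning of keys, rows and presentations; cokernels -/

namespace Pool.Agent.Lib.H54F

open MvPolynomial

/-- The nine variables. -/
abbrev V := Fin 3 × Fin 3

/-- Polynomials over the field with two elements in the nine variables. -/
abbrev S0 := MvPolynomial V (ZMod 2)

/-- Exponent of the variable `v` in the key `k` (base `4` digit number `3 v.1 + v.2`). -/
def ex (k : ℕ) (v : V) : ℕ := k / 4 ^ (3 * v.1.val + v.2.val) % 4

/-- The exponents of a key. -/
noncomputable def expo (k : ℕ) : V →₀ ℕ := Finsupp.equivFunOnFinite.symm (ex k)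

/-- The monomial of a key. -/
noncomputable def mon (k : ℕ) : S0 := monomial (expo k) 1

/-- The index of a key. -/
def idx (k : ℕ) : ℕ := k / 262144

/-- The vector of a list of keys; the generator `q` has the code `cd q`. -/
noncomputable def ev {γ : Type*} (cd : γ → ℕ) (l : List ℕ) : γ → S0 :=
  fun q => (l.map fun k => if idx k = cd q then mon k else 0).sum

/-- The matrix of a presentation. -/
noncomputable def mat (P : Pres) : Fin P.rows.length → Fin P.n → S0 :=
  fun k => ev (fun j => j.val) (P.rows.get k)

/-- The span of the rows of `P` over `A`. -/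
def rowSpan {A : Type*} [CommRing A] (ι : S0 →+* A) {κ γ : Type*} (P : κ → γ → S0) :
    Submodule A (γ → A) :=
  Submodule.span A (Set.range fun k q => ι (P k q))

/-- The cokernel of the matrix `P` over `A` (generators = columns, relations = rows). -/
abbrev Cok {A : Type*} [CommRing A] (ι : S0 →+* A) {κ γ : Type*} (P : κ → γ → S0) : Type _ :=
  (γ → A) ⧸ rowSpan ι P

/-- Position weight of a variable. -/
def up (v : V) : ℕ :=
  if v = (0, 0) then 1 else if v = (0, 1) then 3 else if v = (1, 0) then 9
    else if v = (1, 1) then 27 else 0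

/-- Weight of a variable. -/
def we (v : V) : ℕ := 64 ^ v.1.val + 64 ^ (3 + v.2.val) + 64 ^ 6

/-- Position of a monomial. -/
def posE (e : V →₀ ℕ) : ℕ := ∑ v, e v * up v

/-- Weight of a monomial. -/
def wtE (e : V →₀ ℕ) : ℕ := ∑ v, e v * we v

/-- The packing of a vector into one polynomial. -/
noncomputable def Th {m : ℕ} (v : Fin m → S0) : Polynomial (ZMod 2) :=
  ∑ i, Polynomial.X ^ (81 * i.val) * aeval (fun w => Polynomial.X ^ up w) (v i)

/-- `(N, s)` represents the vector `v`: the bits of `N` are the coefficients of the packing of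
`v`, and all terms of `v` have weight `s` (`wg i` = weight of the generator `i`). -/
def Rep {m : ℕ} (wg : Fin m → ℕ) (v : Fin m → S0) (N s : ℕ) : Prop :=
  (∀ i, ∀ e ∈ (v i).support, wg i + wtE e = s) ∧
    ∀ n, (Th v).coeff n = if N.testBit n then 1 else 0

/-- Every entry of the table represents a vector with property `Q`. -/
def Inv {m : ℕ} (wg : Fin m → ℕ) (Q : ℕ → (Fin m → S0) → Prop) (T : Tr) : Prop :=
  ∀ i v s, T.get Prod.mk i = (v, s) → s ≠ 0 → ∃ x, Rep wg x v s ∧ Q i x

/-- The rows of the direct sum of presentations (as vectors). -/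
noncomputable def Dm (ty : ℕ → Pres) (l : List (ℕ × ℕ)) :
    Fin (dsumRows ty l 0).length → Fin (dsumWt ty l).length → S0 :=
  fun k => ev (fun j => j.val) ((dsumRows ty l 0).get k)

/-! Simplification lemmas for the recursors. -/

@[simp] lemma sel_true {α : Type} (x y : α) : sel true x y = x := rfl
@[simp] lemma sel_false {α : Type} (x y : α) : sel false x y = y := rfl

lemma sel_eq_ite {α : Type} (b : Bool) (x y : α) : sel b x y = if b then x else y := by
  cases b <;> rfl

@[simp] lemma force_eq {α : Type} (n : ℕ) (f : ℕ → α) : force n f = f n := by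
  cases n <;> rfl

@[simp] lemma mapL_eq {α β : Type} (f : α → β) (l : List α) : mapL f l = l.map f := by
  induction l with
  | nil => rfl
  | cons a t ih =>
    rw [List.map_cons, ← ih]
    rfl

@[simp] lemma appL_eq {α : Type} (l l' : List α) : appL l l' = l ++ l' := by
  induction l with
  | nil => rfl
  | cons a t ih =>
    rw [List.cons_append, ← ih]
    rfl

lemma allL_eq (p : ℕ → Bool) (l : List ℕ) : allL p l = l.all p := by
  induction l with
  | nil => rfl
  | cons a t ih =>
    rw [List.all_cons, ← ih]
    show sel (p a) (allL p t) false = (p a && allL p t)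
    cases p a <;> rfl

lemma natbeq_iff {a b : ℕ} : Nat.beq a b = true ↔ a = b :=
  ⟨Nat.eq_of_beq_eq_true, fun h => by rw [h]; exact Nat.beq_refl b⟩

end Pool.Agent.Lib.H54F
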